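import Mathlib

/-!
# MP_a651d8_al (project FTP): definitions

An automatic group that has the falsification by fellow traveller property (FFTP) for NO finite
generating set: the group of all pairs `(x, y)` in `F x F`, `F` the free group of rank three, whose
images in `(Z/2)^3` agree.

General part: words over a set `A` of elements of a group, word length `wl A`, geodesic words,
fellow travelling, `FFT A K`, `FFTP X`, automatic groups.

Special part: the free group `F`, its norm `nm`, the exponent vector `vec`, the parity `par`, the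
subgroup `GG` of `F x F`, reduced products `Red`, the prefix order `Pre`, cyclically reduced
elements `CR`, the relation `InLine` on vectors, counting of events `cnt`.
-/

namespace Pool.Agent.FTP

/-! ## Words over a set of group elements -/

section General

variable {Γ : Type*} [Group Γ]

/-- all letters of the list `l` belong to `A` -/
def IsWord (A : Set Γ) (l : List Γ) : Prop := ∀ a ∈ l, a ∈ A

/-- word length of `g` with respect to the set of letters `A` (zero if `g` is no product of letters) -/
noncomputable def wl (A : Set Γ) (g : Γ) : ℕ :=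
  sInf {n : ℕ | ∃ l : List Γ, IsWord A l ∧ l.prod = g ∧ l.length = n}

/-- the word `l` is geodesic -/
def Geo (A : Set Γ) (l : List Γ) : Prop := l.length = wl A l.prod

/-- `K`-fellow travelling (synchronous) of two words -/
def FellowTravel (A : Set Γ) (K : ℕ) (v w : List Γ) : Prop :=
  ∀ t : ℕ, wl A ((v.take t).prod⁻¹ * (w.take t).prod) ≤ K

/-- falsification by fellow traveller property with constant `K`, for the letters `A` -/
def FFT (A : Set Γ) (K : ℕ) : Prop :=
  ∀ v : List Γ, IsWord A v → ¬ Geo A v →
    ∃ w : List Γ, IsWord A w ∧ w.prod = v.prod ∧ w.length < v.length ∧ FellowTravel A K v w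

/-- the letters `X ∪ X⁻¹` -/
def letters (X : Finset Γ) : Set Γ := {a | a ∈ X ∨ a⁻¹ ∈ X}

/-- falsification by fellow traveller property with respect to the finite set `X` -/
def FFTP (X : Finset Γ) : Prop := ∃ K : ℕ, FFT (letters X) K

end General

/-- automatic groups: a regular language over the letters of a finite generating set, mapping onto
the group, such that words of the language with values at distance at most one uniformly fellow
travel -/
def IsAutomatic (Γ : Type*) [Group Γ] : Prop :=
  ∃ X : Finset Γ, Subgroup.closure (X : Set Γ) = ⊤ ∧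
    ∃ L : Language (letters X), L.IsRegular ∧
      (∀ g : Γ, ∃ w ∈ L, (w.map Subtype.val).prod = g) ∧
      ∃ K : ℕ, ∀ u ∈ L, ∀ v ∈ L,
        wl (letters X) ((u.map Subtype.val).prod⁻¹ * (v.map Subtype.val).prod) ≤ 1 →
          FellowTravel (letters X) K (u.map Subtype.val) (v.map Subtype.val)

/-! ## The free group of rank three -/

/-- the free group of rank three -/
abbrev F : Type := FreeGroup (Fin 3)

/-- norm (reduced length) -/
abbrev nm (x : F) : ℕ := FreeGroup.norm x

/-- abelianisation of `F` -/
def ab : F →* Multiplicative (Fin 3 → ℤ) :=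
  FreeGroup.lift (fun i => Multiplicative.ofAdd (Pi.single i 1))

/-- exponent vector of an element of `F` -/
def vec (x : F) : Fin 3 → ℤ := Multiplicative.toAdd (ab x)

/-- reduction mod two of an integer vector -/
def modTwo (v : Fin 3 → ℤ) : Fin 3 → ZMod 2 := fun i => ((v i : ℤ) : ZMod 2)

/-- parity of an element of `F` -/
def par (x : F) : Fin 3 → ZMod 2 := modTwo (vec x)

theorem vec_one : vec 1 = 0 := by simp [vec]

theorem vec_mul (x y : F) : vec (x * y) = vec x + vec y := by simp [vec]

theorem vec_inv (x : F) : vec x⁻¹ = - vec x := by simp [vec]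

theorem vec_pow (x : F) (n : ℕ) : vec (x ^ n) = n • vec x := by simp [vec]

theorem vec_of (i : Fin 3) : vec (FreeGroup.of i) = Pi.single i 1 := by simp [vec, ab]

theorem modTwo_zero : modTwo 0 = 0 := by funext i; simp [modTwo]

theorem modTwo_add (v w : Fin 3 → ℤ) : modTwo (v + w) = modTwo v + modTwo w := by
  funext i; simp [modTwo]

theorem modTwo_neg (v : Fin 3 → ℤ) : modTwo (-v) = - modTwo v := by
  funext i; simp [modTwo]

theorem modTwo_nsmul (n : ℕ) (v : Fin 3 → ℤ) : modTwo (n • v) = n • modTwo v := by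
  funext i; simp [modTwo]

theorem par_one : par 1 = 0 := by rw [par, vec_one, modTwo_zero]

theorem par_mul (x y : F) : par (x * y) = par x + par y := by rw [par, vec_mul, modTwo_add]; rfl

theorem par_inv (x : F) : par x⁻¹ = - par x := by rw [par, vec_inv, modTwo_neg]; rfl

theorem par_pow (x : F) (n : ℕ) : par (x ^ n) = n • par x := by
  rw [par, vec_pow, modTwo_nsmul]; rfl

/-- the group: pairs of equal parity -/
def GG : Subgroup (F × F) where
  carrier := {z | par z.1 = par z.2}
  one_mem' := rfl
  mul_mem' := by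
    intro a b ha hb
    simp only [Set.mem_ofPred_eq] at *
    rw [Prod.fst_mul, Prod.snd_mul, par_mul, par_mul, ha, hb]
  inv_mem' := by
    intro a ha
    simp only [Set.mem_ofPred_eq] at *
    rw [Prod.fst_inv, Prod.snd_inv, par_inv, par_inv, ha]

theorem mem_GG {z : F × F} : z ∈ GG ↔ par z.1 = par z.2 := Iff.rfl

/-! ## Reduced products, prefixes, cyclically reduced elements -/

/-- the product `x * y` is reduced -/
def Red (x y : F) : Prop := nm (x * y) = nm x + nm y

/-- `p` is a prefix of `x` (lies on the geodesic from `1` to `x`) -/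
def Pre (p x : F) : Prop := nm x = nm p + nm (p⁻¹ * x)

/-- `s` is a suffix of `x` -/
def Suf (s x : F) : Prop := Pre s⁻¹ x⁻¹

/-- `u` is nontrivial and cyclically reduced -/
def CR (u : F) : Prop := u ≠ 1 ∧ Red u u

/-- common prefix length of `Z` and `z` (Gromov product at `1`) -/
def pos (Z z : F) : ℕ := (nm Z + nm z - nm (Z⁻¹ * z)) / 2

/-- the prefix of length `n` of `Z` -/
def vtx (Z : F) (n : ℕ) : F := FreeGroup.mk (Z.toWord.take n)

/-! ## Collinear vectors -/

/-- `v` lies on the rational line through `a` (only `0` if `a = 0`) -/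
def InLine (a v : Fin 3 → ℤ) : Prop := (a = 0 → v = 0) ∧ ∀ i j, v i * a j = v j * a i

/-- lines: `Ln x g ν i = x ^ ν 0 * g * x ^ ν 1 * g * ... * x ^ ν (i-1) * g` -/
def Ln (x g : F) (ν : ℕ → ℕ) : ℕ → F
  | 0 => 1
  | i + 1 => Ln x g ν i * x ^ ν i * g

/-- block lengths: `N`, with `N + D` at the indices `2` mod `4` -/
def nn (N D : ℕ) (l : ℕ) : ℕ := if l % 4 = 2 then N + D else N

/-! ## Counting -/

open Classical in
/-- number of times `t` with `a ≤ t < b` at which `Q t` holds -/
noncomputable def cnt (Q : ℕ → Prop) (a b : ℕ) : ℕ := ((Finset.Ico a b).filter Q).card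

theorem cnt_self (Q : ℕ → Prop) (a : ℕ) : cnt Q a a = 0 := by simp [cnt]

theorem cnt_add (Q : ℕ → Prop) {a b c : ℕ} (h : a ≤ b) (h' : b ≤ c) :
    cnt Q a b + cnt Q b c = cnt Q a c := by
  classical
  unfold cnt
  rw [← Finset.card_union_of_disjoint, ← Finset.filter_union, Finset.Ico_union_Ico_eq_Ico h h']
  refine Finset.disjoint_filter_filter ?_
  exact Finset.Ico_disjoint_Ico_consecutive a b c

theorem cnt_mono (Q : ℕ → Prop) {a b a' b' : ℕ} (h : a' ≤ a) (h' : b ≤ b') :
    cnt Q a b ≤ cnt Q a' b' := by
  classical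
  unfold cnt
  apply Finset.card_le_card
  intro t ht
  simp only [Finset.mem_filter, Finset.mem_Ico] at *
  exact ⟨⟨h.trans ht.1.1, lt_of_lt_of_le ht.1.2 h'⟩, ht.2⟩

theorem cnt_le (Q : ℕ → Prop) (a b : ℕ) : cnt Q a b ≤ b - a := by
  classical
  unfold cnt
  refine (Finset.card_filter_le _ _).trans ?_
  simp

theorem cnt_mono_pred {Q Q' : ℕ → Prop} {a b : ℕ} (h : ∀ t, a ≤ t → t < b → Q t → Q' t) :
    cnt Q a b ≤ cnt Q' a b := by
  classical
  unfold cnt
  apply Finset.card_le_card
  intro t ht
  simp only [Finset.mem_filter, Finset.mem_Ico] at *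
  exact ⟨ht.1, h t ht.1.1 ht.1.2 ht.2⟩

theorem cnt_eq_zero {Q : ℕ → Prop} {a b : ℕ} : cnt Q a b = 0 ↔ ∀ t, a ≤ t → t < b → ¬ Q t := by
  classical
  unfold cnt
  rw [Finset.card_eq_zero, Finset.filter_eq_empty_iff]
  constructor
  · intro h t h1 h2
    exact h (Finset.mem_Ico.2 ⟨h1, h2⟩)
  · intro h t ht
    exact h t (Finset.mem_Ico.1 ht).1 (Finset.mem_Ico.1 ht).2

theorem cnt_succ (Q : ℕ → Prop) {a b : ℕ} (h : a ≤ b) :
    cnt Q a (b + 1) = cnt Q a b + cnt Q b (b + 1) := (cnt_add Q h (Nat.le_succ b)).symm

theorem cnt_single_pos {Q : ℕ → Prop} {a : ℕ} (h : Q a) : cnt Q a (a + 1) = 1 := by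
  classical
  unfold cnt
  rw [Finset.card_eq_one]
  refine ⟨a, ?_⟩
  ext t
  simp only [Finset.mem_filter, Finset.mem_Ico, Finset.mem_singleton]
  constructor
  · rintro ⟨⟨h1, h2⟩, -⟩
    omega
  · rintro rfl
    exact ⟨⟨le_refl _, Nat.lt_succ_self _⟩, h⟩

theorem cnt_single_neg {Q : ℕ → Prop} {a : ℕ} (h : ¬ Q a) : cnt Q a (a + 1) = 0 := by
  rw [cnt_eq_zero]
  intro t h1 h2
  obtain rfl : t = a := by omega
  exact h

end Pool.Agent.FTP
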