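import Mathlib
import Pool.Agent.FTP.Defs

/-!
# FTP / TreeA: reduced products and prefixes in a free group

Everything follows from the reduced words: `toWord (x * y)` is a sublist of
`toWord x ++ toWord y` (`FreeGroup.toWord_mul_sublist`), so `Red x y` holds iff
`toWord (x * y) = toWord x ++ toWord y`, and `Pre p x` holds iff `toWord p <+: toWord x`
(list prefix); sublists of consecutive letters of a reduced word are reduced
(`FreeGroup.IsReduced`, `isReduced_iff_reduce_eq`, `isReduced_toWord`).

`cross` (crossing lemma): if `p` is no prefix of `x` but a prefix of `y`, then the geodesic from `x`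
to `y` passes through `p`. Proof: let `c` be the longest common prefix of the words of `x` and `y`;
then `nm (x⁻¹ * y) = nm x + nm y - 2 |c|`; as `p` is a prefix of `y` and not of `x`, `|c| < nm p`
and `c` is also the longest common prefix of `x` and `p`.

`pre_stable`: going from `q` at most the distance from `p` to `q`, one cannot leave the set of
elements with prefix `p` (contrapositive of `cross` applied to `x := q * r`, `y := q`: the distance
from `q * r` to `q` would be `nm ((q r)⁻¹ p) + nm (p⁻¹ q)`, so `q * r = p`, and `Pre p p`).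
-/

namespace Pool.Agent.FTP

theorem nm_one : nm 1 = 0 := FreeGroup.norm_one

theorem nm_inv (x : F) : nm x⁻¹ = nm x := FreeGroup.norm_inv_eq

theorem nm_eq_zero {x : F} : nm x = 0 ↔ x = 1 := FreeGroup.norm_eq_zero

theorem nm_mul_le (x y : F) : nm (x * y) ≤ nm x + nm y := FreeGroup.norm_mul_le x y

theorem nm_triangle (x y z : F) : nm (x⁻¹ * z) ≤ nm (x⁻¹ * y) + nm (y⁻¹ * z) := by
  have h := nm_mul_le (x⁻¹ * y) (y⁻¹ * z)
  have e : x⁻¹ * y * (y⁻¹ * z) = x⁻¹ * z := by group
  rwa [e] at h

theorem nm_comm (x y : F) : nm (x⁻¹ * y) = nm (y⁻¹ * x) := by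
  rw [← nm_inv (x⁻¹ * y)]
  congr 1
  group

private theorem abs_vec_mk (L : List (Fin 3 × Bool)) (i : Fin 3) :
    |vec (FreeGroup.mk L) i| ≤ (L.length : ℤ) := by
  induction L with
  | nil =>
    have h : (FreeGroup.mk ([] : List (Fin 3 × Bool)) : F) = 1 := rfl
    rw [h, vec_one]
    simp
  | cons a L ih =>
    have h : (FreeGroup.mk (a :: L) : F) = FreeGroup.mk [a] * FreeGroup.mk L := by
      rw [FreeGroup.mul_mk]
      rfl
    rw [h, vec_mul, Pi.add_apply, List.length_cons]
    have h1 : |vec (FreeGroup.mk [a]) i| ≤ 1 := by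
      obtain ⟨j, b⟩ := a
      cases b with
      | true =>
        have e : (FreeGroup.mk [(j, true)] : F) = FreeGroup.of j := rfl
        rw [e, vec_of, Pi.single_apply]
        split <;> simp
      | false =>
        have e : (FreeGroup.mk [(j, false)] : F) = (FreeGroup.of j)⁻¹ := rfl
        rw [e, vec_inv, vec_of, Pi.neg_apply, Pi.single_apply]
        split <;> simp
    have h2 := abs_add_le (vec (FreeGroup.mk [a]) i) (vec (FreeGroup.mk L) i)
    push_cast
    linarith

/-- the coordinates of the exponent vector are bounded by the norm -/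
theorem abs_vec_le (x : F) (i : Fin 3) : |vec x i| ≤ (nm x : ℤ) := by
  have h := abs_vec_mk x.toWord i
  rwa [FreeGroup.mk_toWord] at h

theorem red_iff (x y : F) : Red x y ↔ (x * y).toWord = x.toWord ++ y.toWord := by
  constructor
  · intro h
    refine (FreeGroup.toWord_mul_sublist x y).eq_of_length ?_
    rw [List.length_append]
    exact h
  · intro h
    have h1 := congrArg List.length h
    rw [List.length_append] at h1
    exact h1

theorem red_iff_isReduced (x y : F) : Red x y ↔ FreeGroup.IsReduced (x.toWord ++ y.toWord) := by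
  rw [red_iff, FreeGroup.toWord_mul, FreeGroup.isReduced_iff_reduce_eq]

/-- a word whose value is known and which is reduced is the reduced word of the value -/
theorem toWord_mk_of_isReduced {L : List (Fin 3 × Bool)} (h : FreeGroup.IsReduced L) :
    (FreeGroup.mk L : F).toWord = L := by
  rw [FreeGroup.toWord_mk, h.reduce_eq]

theorem pre_iff (p x : F) : Pre p x ↔ p.toWord <+: x.toWord := by
  constructor
  · intro h
    have h1 : Red p (p⁻¹ * x) := by
      unfold Red
      rw [mul_inv_cancel_left]
      exact h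
    rw [red_iff, mul_inv_cancel_left] at h1
    exact ⟨_, h1.symm⟩
  · rintro ⟨T, hT⟩
    have h1 : FreeGroup.IsReduced T := by
      have h0 : FreeGroup.IsReduced (p.toWord ++ T) := by
        rw [hT]
        exact FreeGroup.isReduced_toWord
      exact List.IsChain.right_of_append h0
    have h2 : p * FreeGroup.mk T = x := by
      rw [← FreeGroup.mk_toWord (x := x), ← hT, ← FreeGroup.mul_mk, FreeGroup.mk_toWord]
    have h3 : p⁻¹ * x = FreeGroup.mk T := by
      rw [← h2, inv_mul_cancel_left]
    have h4 := congrArg List.length hT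
    rw [List.length_append] at h4
    unfold Pre
    rw [h3]
    show x.toWord.length = p.toWord.length + (FreeGroup.mk T : F).toWord.length
    rw [toWord_mk_of_isReduced h1, h4]

/-- parity of the norm -/
theorem nm_mul_parity (x y : F) : ∃ n : ℕ, nm x + nm y = nm (x * y) + 2 * n := by
  have h : FreeGroup.Red (x.toWord ++ y.toWord) (x * y).toWord := by
    rw [FreeGroup.toWord_mul]
    exact FreeGroup.reduce.red
  obtain ⟨n, hn⟩ := h.length
  refine ⟨n, ?_⟩
  rw [List.length_append] at hn
  exact hn

theorem pre_iff_red (p x : F) : Pre p x ↔ Red p (p⁻¹ * x) := by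
  unfold Pre Red
  rw [mul_inv_cancel_left]

theorem pre_mul_of_red {x y : F} (h : Red x y) : Pre x (x * y) := by
  rw [pre_iff_red]
  rwa [inv_mul_cancel_left]

theorem red_one_left (x : F) : Red 1 x := by simp [Red]

theorem red_one_right (x : F) : Red x 1 := by simp [Red]

theorem pre_one (x : F) : Pre 1 x := by simp [Pre]

theorem pre_refl (x : F) : Pre x x := by simp [Pre]

theorem pre_nm_le {p x : F} (h : Pre p x) : nm p ≤ nm x := by
  unfold Pre at h
  omega

theorem pre_trans {p q x : F} (h : Pre p q) (h' : Pre q x) : Pre p x := by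
  have h1 := nm_triangle p q x
  have h2 := nm_mul_le p (p⁻¹ * x)
  rw [mul_inv_cancel_left] at h2
  unfold Pre at *
  omega

theorem pre_of_le {p q x : F} (hp : Pre p x) (hq : Pre q x) (h : nm p ≤ nm q) : Pre p q := by
  rw [pre_iff] at *
  exact List.prefix_of_prefix_length_le hp hq h

theorem pre_unique {p q x : F} (hp : Pre p x) (hq : Pre q x) (h : nm p = nm q) : p = q := by
  have h1 := pre_of_le hp hq h.le
  unfold Pre at h1
  have h2 : nm (p⁻¹ * q) = 0 := by omega
  rw [nm_eq_zero] at h2
  exact inv_mul_eq_one.1 h2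

theorem exists_pre {x : F} {n : ℕ} (h : n ≤ nm x) : ∃ p : F, Pre p x ∧ nm p = n := by
  have h1 : FreeGroup.IsReduced (x.toWord.take n) :=
    List.IsChain.take (FreeGroup.isReduced_toWord (x := x)) n
  refine ⟨FreeGroup.mk (x.toWord.take n), ?_, ?_⟩
  · rw [pre_iff, toWord_mk_of_isReduced h1]
    exact List.take_prefix _ _
  · show (FreeGroup.mk (x.toWord.take n) : F).toWord.length = n
    rw [toWord_mk_of_isReduced h1, List.length_take]
    exact min_eq_left h

/-- distance between nested prefixes -/
theorem pre_dist {p q : F} (h : Pre p q) : nm (p⁻¹ * q) = nm q - nm p := by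
  unfold Pre at h
  omega

theorem red_inv {x y : F} (h : Red x y) : Red y⁻¹ x⁻¹ := by
  unfold Red at *
  rw [← mul_inv_rev, nm_inv, nm_inv, nm_inv, h, add_comm]

/-- a product of three elements is reduced if both junctions are and the middle one is nontrivial -/
theorem red_three {x y z : F} (h : Red x y) (h' : Red y z) (hy : y ≠ 1) :
    nm (x * y * z) = nm x + nm y + nm z := by
  have hne : y.toWord ≠ [] := fun e => hy (FreeGroup.toWord_eq_nil_iff.1 e)
  have h1 := (red_iff_isReduced x y).1 h
  have h2 := (red_iff_isReduced y z).1 h'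
  have h3 := h1.append_overlap h2 hne
  rw [← (red_iff x y).1 h] at h3
  have h4 : Red (x * y) z := (red_iff_isReduced _ _).2 h3
  rw [h4, h]

theorem red_mul_left {x y z : F} (h : Red x y) (h' : Red y z) (hy : y ≠ 1) : Red (x * y) z := by
  unfold Red
  rw [red_three h h' hy, h]

theorem red_mul_right {x y z : F} (h : Red x y) (h' : Red y z) (hy : y ≠ 1) : Red x (y * z) := by
  unfold Red
  rw [← mul_assoc, red_three h h' hy, h']
  ring

/-- if a single letter does not follow `u` reducedly, its inverse ends `u` -/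
theorem letter_dich {a : F} (ha : nm a = 1) (u : F) : Red u a ∨ nm u = nm (u * a) + 1 := by
  obtain ⟨n, hn⟩ := nm_mul_parity u a
  have h1 := nm_mul_le (u * a) a⁻¹
  rw [mul_inv_cancel_right, nm_inv] at h1
  unfold Red
  omega

/-- parts of a reduced product of three elements -/
theorem red_of_three {x y z : F} (h : nm (x * y * z) = nm x + nm y + nm z) :
    Red x y ∧ Red y z ∧ Red (x * y) z ∧ Red x (y * z) := by
  have h1 := nm_mul_le (x * y) z
  have h2 := nm_mul_le x y
  have h3 := nm_mul_le x (y * z)
  have h4 := nm_mul_le y z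
  rw [← mul_assoc] at h3
  unfold Red
  rw [← mul_assoc]
  refine ⟨?_, ?_, ?_, ?_⟩ <;> omega

/-- **crossing lemma** -/
theorem cross {p x y : F} (hx : ¬ Pre p x) (hy : Pre p y) :
    nm (x⁻¹ * y) = nm (x⁻¹ * p) + nm (p⁻¹ * y) := by
  have hp : nm p ≠ 0 := by
    intro h
    rw [nm_eq_zero] at h
    rw [h] at hx
    exact hx (pre_one x)
  -- cut off the last letter of `p`
  obtain ⟨q, hq, hqn⟩ := exists_pre (x := p) (n := nm p - 1) (by omega)
  have hpq := pre_dist hq
  have ha : nm (q⁻¹ * p) = 1 := by omega
  have ha1 : q⁻¹ * p ≠ 1 := by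
    intro h
    rw [h, nm_one] at ha
    omega
  have hRy : Red (q⁻¹ * p) (p⁻¹ * y) := by
    have h1 : nm (q * (q⁻¹ * p) * (p⁻¹ * y)) = nm q + nm (q⁻¹ * p) + nm (p⁻¹ * y) := by
      have e : q * (q⁻¹ * p) * (p⁻¹ * y) = y := by group
      rw [e]
      unfold Pre at hy hq
      omega
    exact (red_of_three h1).2.1
  have hRx : Red (x⁻¹ * q) (q⁻¹ * p) := by
    rcases letter_dich ha (x⁻¹ * q) with h | h
    · exact h
    · exfalso
      apply hx
      have e : x⁻¹ * q * (q⁻¹ * p) = x⁻¹ * p := by group
      rw [e, nm_comm x q, nm_comm x p] at h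
      have h2 : Red (q⁻¹ * p) (p⁻¹ * x) := by
        unfold Red
        have e2 : q⁻¹ * p * (p⁻¹ * x) = q⁻¹ * x := by group
        rw [e2, h, ha]
        ring
      have h3 : Red q (q⁻¹ * p) := by rwa [← pre_iff_red]
      have h4 := red_three h3 h2 ha1
      have e3 : q * (q⁻¹ * p) * (p⁻¹ * x) = x := by group
      rw [e3] at h4
      unfold Pre
      omega
  have h5 := red_three hRx hRy ha1
  have e4 : x⁻¹ * q * (q⁻¹ * p) * (p⁻¹ * y) = x⁻¹ * y := by group
  have e5 : x⁻¹ * q * (q⁻¹ * p) = x⁻¹ * p := by group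
  rw [e4] at h5
  have h6 : nm (x⁻¹ * p) = nm (x⁻¹ * q) + nm (q⁻¹ * p) := by
    rw [← e5]
    exact hRx
  rw [h5, h6]

/-- stability of prefixes -/
theorem pre_stable {p q r : F} (h : Pre p q) (hr : nm r ≤ nm (p⁻¹ * q)) : Pre p (q * r) := by
  by_contra hn
  have h1 := cross hn h
  have e : (q * r)⁻¹ * q = r⁻¹ := by group
  rw [e, nm_inv] at h1
  have h2 : nm ((q * r)⁻¹ * p) = 0 := by omega
  rw [nm_eq_zero] at h2
  have h3 : q * r = p := inv_mul_eq_one.1 h2
  rw [h3] at hn
  exact hn (pre_refl p)

/-- if `x * y` is reduced and `p` is a prefix of `y`, then `x * p` is reduced -/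
theorem red_of_red_pre {x y p : F} (h : Red x y) (hp : Pre p y) : Red x p := by
  have h1 : nm (x * p * (p⁻¹ * y)) = nm x + nm p + nm (p⁻¹ * y) := by
    have e : x * p * (p⁻¹ * y) = x * y := by group
    rw [e, h, hp]
    ring
  exact (red_of_three h1).1

/-- if `x * y` is reduced and `p` is a prefix of `y`, then `x * p` is a prefix of `x * y` -/
theorem pre_mul_pre {x y p : F} (h : Red x y) (hp : Pre p y) : Pre (x * p) (x * y) := by
  have h1 : nm (x * p * (p⁻¹ * y)) = nm x + nm p + nm (p⁻¹ * y) := by
    have e : x * p * (p⁻¹ * y) = x * y := by group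
    rw [e, h, hp]
    ring
  have h2 := (red_of_three h1).2.2.1
  rw [pre_iff_red]
  have e : (x * p)⁻¹ * (x * y) = p⁻¹ * y := by group
  rwa [e]

end Pool.Agent.FTP
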