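import Mathlib
import Pool.Agent.FTP.Defs
import Pool.Agent.FTP.TreeA

/-!
# FTP / TreeB: positions along a line (longest common prefix)

`vtx Z n` is the prefix of length `n` of `Z`, and `pos Z z` the length of the longest common prefix
of `Z` and `z`; it is defined as the Gromov product `(nm Z + nm z - nm (Z⁻¹ z)) / 2`. The basic
computation: if `c` is the longest common prefix of the reduced words of `Z` and `z`, then
`nm (Z⁻¹ * z) = nm Z + nm z - 2 |c|` (the words of `Z` and `z` are `c ++ Z'`, `c ++ z'` with different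
first letters of `Z'` and `z'` (or one of them empty), so that `invRev Z' ++ z'` is reduced), hence
`pos Z z = |c|`. From this `pos_spec`, and everything else by the crossing lemma of TreeA:

* `near_change`: if `pos Z z ≠ pos Z z'` then the geodesic from `z` to `z'` passes through the vertex
  `v = vtx Z (pos Z z)`: if `pos Z z < pos Z z'` then `w = vtx Z (pos Z z + 1)` is a prefix of `z'`,
  not of `z`; so the geodesic passes through `w`, and `nm (z⁻¹ w) = nm (z⁻¹ v) + 1` (`v` is a common
  prefix of `z` and `w`, and `w` itself is no prefix of `z`, i.e. `pos`-computation for `z` and `w`);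
  if `pos Z z > pos Z z'` then `v` is a prefix of `z`, not of `z'` (crossing lemma).
-/

namespace Pool.Agent.FTP

private theorem treeB_lcp {α : Type*} (X Y : List α) : ∃ c X' Y', X = c ++ X' ∧ Y = c ++ Y' ∧
    ∀ x ∈ X'.head?, ∀ y ∈ Y'.head?, x ≠ y := by
  classical
  induction X generalizing Y with
  | nil => exact ⟨[], [], Y, rfl, rfl, by simp⟩
  | cons a X ih =>
    cases Y with
    | nil => exact ⟨[], a :: X, [], rfl, rfl, by simp⟩
    | cons b Y =>
      by_cases h : a = b
      · subst h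
        obtain ⟨c, X', Y', h1, h2, h3⟩ := ih Y
        exact ⟨a :: c, X', Y', congrArg (a :: ·) h1, congrArg (a :: ·) h2, h3⟩
      · refine ⟨[], a :: X, b :: Y, rfl, rfl, ?_⟩
        intro x hx y hy
        simp at hx hy
        rw [← hx, ← hy]
        exact h

private theorem treeB_core (Z z : F) : ∃ c X' Y', Z.toWord = c ++ X' ∧ z.toWord = c ++ Y' ∧
    (∀ x ∈ X'.head?, ∀ y ∈ Y'.head?, x ≠ y) ∧ nm (Z⁻¹ * z) = X'.length + Y'.length := by
  obtain ⟨c, X', Y', h1, h2, h3⟩ := treeB_lcp Z.toWord z.toWord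
  refine ⟨c, X', Y', h1, h2, h3, ?_⟩
  have hX : FreeGroup.IsReduced X' :=
    List.IsChain.suffix (FreeGroup.isReduced_toWord (x := Z)) (by rw [h1]; exact List.suffix_append c X')
  have hY : FreeGroup.IsReduced Y' :=
    List.IsChain.suffix (FreeGroup.isReduced_toWord (x := z)) (by rw [h2]; exact List.suffix_append c Y')
  have hZ : Z = FreeGroup.mk c * FreeGroup.mk X' := by
    rw [FreeGroup.mul_mk, ← h1, FreeGroup.mk_toWord]
  have hz : z = FreeGroup.mk c * FreeGroup.mk Y' := by
    rw [FreeGroup.mul_mk, ← h2, FreeGroup.mk_toWord]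
  have h4 : Z⁻¹ * z = FreeGroup.mk (FreeGroup.invRev X' ++ Y') := by
    rw [← FreeGroup.mul_mk, ← FreeGroup.inv_mk, hZ, hz]
    group
  have h5 : FreeGroup.IsReduced (FreeGroup.invRev X') := by
    have h6 := FreeGroup.isReduced_toWord (x := (FreeGroup.mk X')⁻¹)
    rwa [FreeGroup.toWord_inv, FreeGroup.toWord_mk, hX.reduce_eq] at h6
  have h7 : FreeGroup.IsReduced (FreeGroup.invRev X' ++ Y') := by
    refine List.IsChain.append h5 hY ?_
    intro x hx y hy hxy
    have h8 : (FreeGroup.invRev X').getLast? = X'.head?.map (fun g => (g.1, !g.2)) := by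
      unfold FreeGroup.invRev
      rw [List.getLast?_reverse, List.head?_map]
    rw [h8] at hx
    obtain ⟨x', hx', rfl⟩ := Option.mem_map.1 hx
    have h9 := h3 x' hx' y hy
    obtain ⟨p, s⟩ := x'
    obtain ⟨p', s'⟩ := y
    simp only at hxy ⊢
    subst hxy
    cases s <;> cases s' <;> simp_all
  have h10 : nm (Z⁻¹ * z) = (Z⁻¹ * z).toWord.length := rfl
  rw [h10, h4, FreeGroup.toWord_mk, h7.reduce_eq, List.length_append, FreeGroup.invRev_length]

private theorem treeB_pos {Z z : F} {c X' Y' : List (Fin 3 × Bool)} (h1 : Z.toWord = c ++ X')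
    (h2 : z.toWord = c ++ Y') (h3 : nm (Z⁻¹ * z) = X'.length + Y'.length) :
    nm Z = c.length + X'.length ∧ nm z = c.length + Y'.length ∧ pos Z z = c.length := by
  have h4 : nm Z = c.length + X'.length := by
    rw [← List.length_append, ← h1]
    rfl
  have h5 : nm z = c.length + Y'.length := by
    rw [← List.length_append, ← h2]
    rfl
  refine ⟨h4, h5, ?_⟩
  unfold pos
  omega

private theorem treeB_vtx (Z : F) (n : ℕ) : (vtx Z n).toWord = Z.toWord.take n := by
  have h : FreeGroup.IsReduced (Z.toWord.take n) :=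
    List.IsChain.take (FreeGroup.isReduced_toWord (x := Z)) n
  unfold vtx
  rw [FreeGroup.toWord_mk, h.reduce_eq]

theorem nm_vtx {Z : F} {n : ℕ} (h : n ≤ nm Z) : nm (vtx Z n) = n := by
  have h1 : nm (vtx Z n) = (vtx Z n).toWord.length := rfl
  have h2 : nm Z = Z.toWord.length := rfl
  rw [h1, treeB_vtx, List.length_take, ← h2]
  exact min_eq_left h

theorem pre_vtx (Z : F) (n : ℕ) : Pre (vtx Z n) Z := by
  rw [pre_iff, treeB_vtx]
  exact List.take_prefix n _

theorem vtx_mono (Z : F) {m n : ℕ} (h : m ≤ n) : Pre (vtx Z m) (vtx Z n) := by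
  rw [pre_iff, treeB_vtx, treeB_vtx]
  exact List.take_prefix_take_left h

theorem vtx_of_pre {p Z : F} (h : Pre p Z) : vtx Z (nm p) = p := by
  rw [pre_iff, List.prefix_iff_eq_take] at h
  have h1 : nm p = p.toWord.length := rfl
  unfold vtx
  rw [h1, ← h, FreeGroup.mk_toWord]

/-- distance between two vertices of the line -/
theorem dist_vtx {Z : F} {m n : ℕ} (h : m ≤ n) (hn : n ≤ nm Z) :
    nm ((vtx Z m)⁻¹ * vtx Z n) = n - m := by
  rw [pre_dist (vtx_mono Z h), nm_vtx hn, nm_vtx (h.trans hn)]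

/-- Gromov product identity -/
theorem pos_dist (Z z : F) : nm (Z⁻¹ * z) + 2 * pos Z z = nm Z + nm z := by
  obtain ⟨c, X', Y', h1, h2, _, h3⟩ := treeB_core Z z
  obtain ⟨h4, h5, h6⟩ := treeB_pos h1 h2 h3
  omega

theorem pos_spec {p Z : F} (h : Pre p Z) (z : F) : Pre p z ↔ nm p ≤ pos Z z := by
  obtain ⟨c, X', Y', h1, h2, hne, h3⟩ := treeB_core Z z
  obtain ⟨h4, h5, h6⟩ := treeB_pos h1 h2 h3
  rw [pre_iff, h1] at h
  rw [pre_iff, h2, h6]
  have hnp : nm p = p.toWord.length := rfl
  rw [hnp]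
  constructor
  · intro hz
    by_contra hc
    have h7 : c <+: p.toWord :=
      List.prefix_of_prefix_length_le (List.prefix_append c X') h (not_le.1 hc).le
    obtain ⟨r, hr⟩ := h7
    rw [← hr, List.prefix_append_right_inj] at h hz
    cases r with
    | nil =>
      rw [List.append_nil] at hr
      rw [← hr] at hc
      exact hc le_rfl
    | cons a r =>
      obtain ⟨s, hs⟩ := h
      obtain ⟨s', hs'⟩ := hz
      refine hne a ?_ a ?_ rfl
      · rw [← hs]
        rfl
      · rw [← hs']
        rfl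
  · intro hle
    exact (List.prefix_of_prefix_length_le h (List.prefix_append c X') hle).trans
      (List.prefix_append c Y')

theorem vtx_pre_iff {Z : F} {n : ℕ} (h : n ≤ nm Z) (z : F) : Pre (vtx Z n) z ↔ n ≤ pos Z z := by
  rw [pos_spec (pre_vtx Z n), nm_vtx h]

theorem pos_le_left (Z z : F) : pos Z z ≤ nm Z := by
  obtain ⟨c, X', Y', h1, h2, _, h3⟩ := treeB_core Z z
  obtain ⟨h4, h5, h6⟩ := treeB_pos h1 h2 h3
  omega

theorem pos_le_right (Z z : F) : pos Z z ≤ nm z := by
  obtain ⟨c, X', Y', h1, h2, _, h3⟩ := treeB_core Z z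
  obtain ⟨h4, h5, h6⟩ := treeB_pos h1 h2 h3
  omega

/-- the position of a vertex of the line -/
theorem pos_of_pre {p Z : F} (h : Pre p Z) : pos Z p = nm p := by
  have h1 := pos_dist Z p
  have h2 := pre_dist h
  have h3 := nm_comm Z p
  have h4 := pre_nm_le h
  omega

theorem pos_one (Z : F) : pos Z 1 = 0 := by
  rw [pos_of_pre (pre_one Z), nm_one]

/-- distance from the line -/
theorem depth_eq (Z z : F) : nm ((vtx Z (pos Z z))⁻¹ * z) = nm z - pos Z z := by
  have h1 : Pre (vtx Z (pos Z z)) z := (vtx_pre_iff (pos_le_left Z z) z).2 le_rfl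
  rw [pre_dist h1, nm_vtx (pos_le_left Z z)]

/-- Lipschitz property -/
theorem pos_lip (Z z z' : F) : pos Z z' ≤ pos Z z + nm (z⁻¹ * z') := by
  have h1 := pos_dist Z z
  have h2 := pos_dist Z z'
  have h3 := nm_triangle Z z' z
  have h4 := nm_mul_le z (z⁻¹ * z')
  rw [mul_inv_cancel_left] at h4
  have h5 := nm_comm z z'
  omega

private theorem treeB_dist {Z z : F} {n : ℕ} (h : pos Z z ≤ n) (hn : n ≤ nm Z) :
    nm (z⁻¹ * vtx Z n) = nm (z⁻¹ * vtx Z (pos Z z)) + (n - pos Z z) := by
  have hk := pos_le_left Z z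
  have hw := nm_vtx hn
  have h1 : pos (vtx Z n) z = pos Z z := by
    apply le_antisymm
    · have h2 := pos_le_left (vtx Z n) z
      have h3 : Pre (vtx (vtx Z n) (pos (vtx Z n) z)) z := (vtx_pre_iff h2 z).2 le_rfl
      have h4 : Pre (vtx (vtx Z n) (pos (vtx Z n) z)) Z := pre_trans (pre_vtx _ _) (pre_vtx Z n)
      have h5 := (pos_spec h4 z).1 h3
      rwa [nm_vtx h2] at h5
    · have h3 : Pre (vtx Z (pos Z z)) z := (vtx_pre_iff hk z).2 le_rfl
      have h4 : Pre (vtx Z (pos Z z)) (vtx Z n) := vtx_mono Z h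
      have h5 := (pos_spec h4 z).1 h3
      rwa [nm_vtx hk] at h5
  have h6 := pos_dist (vtx Z n) z
  have h7 := depth_eq Z z
  have h8 := nm_comm z (vtx Z n)
  have h9 := nm_comm z (vtx Z (pos Z z))
  have h10 := pos_le_right Z z
  rw [h1, hw] at h6
  omega

/-- if the positions differ, the geodesic passes through the projection of the first point -/
theorem near_change {Z z z' : F} (h : pos Z z ≠ pos Z z') :
    nm (z⁻¹ * z') = nm (z⁻¹ * vtx Z (pos Z z)) + nm ((vtx Z (pos Z z))⁻¹ * z') := by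
  have hk := pos_le_left Z z
  have hk' := pos_le_left Z z'
  rcases lt_or_gt_of_ne h with hlt | hgt
  · have hn : pos Z z + 1 ≤ nm Z := by omega
    have h1 : ¬ Pre (vtx Z (pos Z z + 1)) z := by
      rw [vtx_pre_iff hn]
      omega
    have h2 : Pre (vtx Z (pos Z z + 1)) z' := (vtx_pre_iff hn z').2 hlt
    have h3 : Pre (vtx Z (pos Z z)) z' := (vtx_pre_iff hk z').2 hlt.le
    have h4 := cross h1 h2
    have h5 := treeB_dist (Z := Z) (z := z) (n := pos Z z + 1) (by omega) hn
    have h6 := pre_dist h2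
    have h7 := pre_dist h3
    rw [nm_vtx hn] at h6
    rw [nm_vtx hk] at h7
    have h8 := pos_le_right Z z'
    omega
  · have h1 : Pre (vtx Z (pos Z z)) z := (vtx_pre_iff hk z).2 le_rfl
    have h2 : ¬ Pre (vtx Z (pos Z z)) z' := by
      rw [vtx_pre_iff hk]
      omega
    have h3 := cross h2 h1
    have h4 := nm_comm z z'
    have h5 := nm_comm z (vtx Z (pos Z z))
    have h6 := nm_comm z' (vtx Z (pos Z z))
    omega

/-- distance to a vertex of the line which is at least as far as the projection -/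
theorem dist_vtx_of_le {Z z : F} {n : ℕ} (h : pos Z z ≤ n) (hn : n ≤ nm Z) :
    nm (z⁻¹ * vtx Z n) = nm (z⁻¹ * vtx Z (pos Z z)) + (n - pos Z z) := by
  exact treeB_dist h hn

end Pool.Agent.FTP
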