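import Mathlib
import Pool.Agent.FTP.Defs
import Pool.Agent.FTP.TreeA
import Pool.Agent.FTP.TreeB

/-!
# FTP / AutoDefs: normal forms in the group `GG`

`sec q` is a section of the parity map (`par (sec q) = q`, `sec 0 = 1`, `nm (sec q) ≤ 3`); `el s` is the
element of `F` with the one letter word `[s]`. Letters of `GG`:
`aLt q s = (1, sec q * el s * (sec (q + par (el s)))⁻¹)`,
`bLt p s = (el s, (sec p)⁻¹ * sec (p + par (el s)))`. `XX` is the finite set of all these letters; it
is closed under inverses: `(aLt q s)⁻¹ = aLt (q + par (el s)) s⁻¹` and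
`(bLt p s)⁻¹ = bLt (p + par (el s)) s⁻¹` (`s⁻¹ = (s.1, !s.2)`, `par (el s⁻¹) = par (el s)`, `-` = `+` mod 2).

`wA q l`, `wB p l`: the words spelled by a list `l` of free group letters, starting at the parity `q`:
`(wA q l).prod = (1, sec q * mk l * (sec (q + par (mk l)))⁻¹)`,
`(wB p l).prod = (mk l, (sec p)⁻¹ * sec (p + par (mk l)))`. The normal form of `(x, y)`:
`nf x y = wA 0 y.toWord ++ wB 0 x.toWord`, with product `(x, y)` if `par x = par y`.

Prefixes: `(nf x y).take t = wA 0 (y.toWord.take t) ++ wB 0 (x.toWord.take (t - |y|))`, so the product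
of the prefix is `(vtx x (t - |y|), vtx y t * (sec (par (vtx y t)))⁻¹ * sec (par (vtx x (t - |y|))))`
(`vtx z t = mk (z.toWord.take t)`).
-/

namespace Pool.Agent.FTP

/-- section of the parity map -/
def sec (q : Fin 3 → ZMod 2) : F :=
  (if q 0 = 0 then 1 else FreeGroup.of 0) * (if q 1 = 0 then 1 else FreeGroup.of 1) *
    (if q 2 = 0 then 1 else FreeGroup.of 2)

/-- one letter elements -/
def el (s : Fin 3 × Bool) : F := FreeGroup.mk [s]

theorem ad_par_of (i : Fin 3) : par (FreeGroup.of i) = Pi.single i 1 := by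
  funext j
  unfold par modTwo
  rw [vec_of]
  by_cases h : j = i
  · subst h
    simp
  · simp [Pi.single_eq_of_ne h]

theorem ad_zmod (z : ZMod 2) : z = 0 ∨ z = 1 := by
  revert z
  decide

theorem par_sec (q : Fin 3 → ZMod 2) : par (sec q) = q := by
  have h : ∀ (i : Fin 3), par (if q i = 0 then 1 else FreeGroup.of i) = Pi.single i (q i) := by
    intro i
    rcases ad_zmod (q i) with h | h
    · rw [if_pos h, h, par_one, Pi.single_zero]
    · rw [if_neg (by rw [h]; decide), h, ad_par_of]
  unfold sec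
  rw [par_mul, par_mul, h 0, h 1, h 2]
  funext j
  fin_cases j <;> simp [Pi.single_apply]

theorem sec_zero : sec 0 = 1 := by simp [sec]

theorem nm_sec_le (q : Fin 3 → ZMod 2) : nm (sec q) ≤ 3 := by
  have h : ∀ (i : Fin 3), nm (if q i = 0 then 1 else FreeGroup.of i) ≤ 1 := by
    intro i
    by_cases h : q i = 0
    · rw [if_pos h]
      simp [nm]
    · rw [if_neg h]
      simp [nm]
  unfold sec
  have h1 := nm_mul_le ((if q 0 = 0 then 1 else FreeGroup.of 0) *
    (if q 1 = 0 then 1 else FreeGroup.of 1)) (if q 2 = 0 then 1 else FreeGroup.of 2)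
  have h2 := nm_mul_le (if q 0 = 0 then 1 else FreeGroup.of 0)
    (if q 1 = 0 then 1 else FreeGroup.of 1)
  have h3 := h 0
  have h4 := h 1
  have h5 := h 2
  omega

theorem ad_a_mem (q : Fin 3 → ZMod 2) (s : Fin 3 × Bool) :
    ((1, sec q * el s * (sec (q + par (el s)))⁻¹) : F × F) ∈ GG := by
  rw [mem_GG]
  show par 1 = par (sec q * el s * (sec (q + par (el s)))⁻¹)
  rw [par_one, par_mul, par_mul, par_inv, par_sec, par_sec]
  abel

theorem ad_b_mem (p : Fin 3 → ZMod 2) (s : Fin 3 × Bool) :
    ((el s, (sec p)⁻¹ * sec (p + par (el s))) : F × F) ∈ GG := by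
  rw [mem_GG]
  show par (el s) = par ((sec p)⁻¹ * sec (p + par (el s)))
  rw [par_mul, par_inv, par_sec, par_sec]
  abel

theorem ad_el_inv (s : Fin 3 × Bool) : el (s.1, !s.2) = (el s)⁻¹ := by
  unfold el
  rw [FreeGroup.inv_mk]
  simp [FreeGroup.invRev]

theorem ad_add_cancel (q : Fin 3 → ZMod 2) (s : Fin 3 × Bool) :
    q + par (el s) + par (el (s.1, !s.2)) = q := by
  rw [ad_el_inv, par_inv]
  abel

theorem ad_nm_el (s : Fin 3 × Bool) : nm (el s) = 1 := by
  unfold el nm FreeGroup.norm
  simp

/-- letters of the first kind -/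
def aLt (q : Fin 3 → ZMod 2) (s : Fin 3 × Bool) : GG :=
  ⟨(1, sec q * el s * (sec (q + par (el s)))⁻¹), ad_a_mem q s⟩

/-- letters of the second kind -/
def bLt (p : Fin 3 → ZMod 2) (s : Fin 3 × Bool) : GG :=
  ⟨(el s, (sec p)⁻¹ * sec (p + par (el s))), ad_b_mem p s⟩

open Classical in
/-- the finite generating set -/
noncomputable def XX : Finset GG :=
  (Finset.univ.image fun z : (Fin 3 → ZMod 2) × (Fin 3 × Bool) => aLt z.1 z.2) ∪
    (Finset.univ.image fun z : (Fin 3 → ZMod 2) × (Fin 3 × Bool) => bLt z.1 z.2)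

theorem aLt_mem (q : Fin 3 → ZMod 2) (s : Fin 3 × Bool) : aLt q s ∈ XX := by
  unfold XX
  refine Finset.mem_union_left _ (Finset.mem_image.2 ⟨(q, s), Finset.mem_univ _, rfl⟩)

theorem bLt_mem (q : Fin 3 → ZMod 2) (s : Fin 3 × Bool) : bLt q s ∈ XX := by
  unfold XX
  refine Finset.mem_union_right _ (Finset.mem_image.2 ⟨(q, s), Finset.mem_univ _, rfl⟩)

theorem ad_mem_XX {g : GG} (h : g ∈ XX) :
    (∃ q s, g = aLt q s) ∨ (∃ q s, g = bLt q s) := by
  unfold XX at h
  rcases Finset.mem_union.1 h with h | h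
  · obtain ⟨z, -, hz⟩ := Finset.mem_image.1 h
    exact Or.inl ⟨z.1, z.2, hz.symm⟩
  · obtain ⟨z, -, hz⟩ := Finset.mem_image.1 h
    exact Or.inr ⟨z.1, z.2, hz.symm⟩

theorem ad_aLt_inv (q : Fin 3 → ZMod 2) (s : Fin 3 × Bool) :
    (aLt q s)⁻¹ = aLt (q + par (el s)) (s.1, !s.2) := by
  apply Subtype.ext
  show ((1, sec q * el s * (sec (q + par (el s)))⁻¹) : F × F)⁻¹ =
    (1, sec (q + par (el s)) * el (s.1, !s.2) *
      (sec (q + par (el s) + par (el (s.1, !s.2))))⁻¹)
  rw [ad_add_cancel, ad_el_inv, Prod.inv_mk]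
  simp [mul_assoc]

theorem ad_bLt_inv (q : Fin 3 → ZMod 2) (s : Fin 3 × Bool) :
    (bLt q s)⁻¹ = bLt (q + par (el s)) (s.1, !s.2) := by
  apply Subtype.ext
  show ((el s, (sec q)⁻¹ * sec (q + par (el s))) : F × F)⁻¹ =
    (el (s.1, !s.2), (sec (q + par (el s)))⁻¹ *
      sec (q + par (el s) + par (el (s.1, !s.2))))
  rw [ad_add_cancel, ad_el_inv, Prod.inv_mk]
  simp

theorem XX_inv {g : GG} (h : g ∈ XX) : g⁻¹ ∈ XX := by
  rcases ad_mem_XX h with ⟨q, s, rfl⟩ | ⟨q, s, rfl⟩
  · rw [ad_aLt_inv]
    exact aLt_mem _ _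
  · rw [ad_bLt_inv]
    exact bLt_mem _ _

theorem mem_letters_XX {g : GG} : g ∈ letters XX ↔ g ∈ XX := by
  constructor
  · rintro (h | h)
    · exact h
    · have := XX_inv h
      rwa [inv_inv] at this
  · intro h
    exact Or.inl h

/-- norms of letters -/
theorem XX_nm {g : GG} (h : g ∈ XX) : nm (g : F × F).1 ≤ 7 ∧ nm (g : F × F).2 ≤ 7 := by
  rcases ad_mem_XX h with ⟨q, s, rfl⟩ | ⟨q, s, rfl⟩
  · constructor
    · show nm 1 ≤ 7
      rw [nm_one]
      omega
    · show nm (sec q * el s * (sec (q + par (el s)))⁻¹) ≤ 7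
      have h1 := nm_mul_le (sec q * el s) (sec (q + par (el s)))⁻¹
      have h2 := nm_mul_le (sec q) (el s)
      have h3 := nm_sec_le q
      have h4 := nm_sec_le (q + par (el s))
      have h5 := ad_nm_el s
      rw [nm_inv] at h1
      omega
  · constructor
    · show nm (el s) ≤ 7
      rw [ad_nm_el]
      omega
    · show nm ((sec q)⁻¹ * sec (q + par (el s))) ≤ 7
      have h1 := nm_mul_le (sec q)⁻¹ (sec (q + par (el s)))
      have h3 := nm_sec_le q
      have h4 := nm_sec_le (q + par (el s))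
      rw [nm_inv] at h1
      omega

/-- word of the first phase -/
def wA : (Fin 3 → ZMod 2) → List (Fin 3 × Bool) → List GG
  | _, [] => []
  | q, s :: l => aLt q s :: wA (q + par (el s)) l

/-- word of the second phase -/
def wB : (Fin 3 → ZMod 2) → List (Fin 3 × Bool) → List GG
  | _, [] => []
  | p, s :: l => bLt p s :: wB (p + par (el s)) l

theorem ad_mk_cons (s : Fin 3 × Bool) (l : List (Fin 3 × Bool)) :
    (FreeGroup.mk (s :: l) : F) = el s * FreeGroup.mk l := by
  unfold el
  rw [FreeGroup.mul_mk]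
  rfl

theorem ad_mk_nil : (FreeGroup.mk ([] : List (Fin 3 × Bool)) : F) = 1 := rfl

theorem wA_prod (q : Fin 3 → ZMod 2) (l : List (Fin 3 × Bool)) :
    ((wA q l).prod : F × F) =
      (1, sec q * FreeGroup.mk l * (sec (q + par (FreeGroup.mk l)))⁻¹) := by
  induction l generalizing q with
  | nil =>
    rw [ad_mk_nil, par_one, add_zero, mul_one, mul_inv_cancel]
    rfl
  | cons s l ih =>
    rw [ad_mk_cons, par_mul]
    show ((aLt q s :: wA (q + par (el s)) l).prod : F × F) = _
    rw [List.prod_cons, Subgroup.coe_mul, ih]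
    show ((1, sec q * el s * (sec (q + par (el s)))⁻¹) : F × F) * _ = _
    rw [Prod.mk_mul_mk, one_mul, add_assoc]
    congr 1
    simp [mul_assoc]

theorem wB_prod (p : Fin 3 → ZMod 2) (l : List (Fin 3 × Bool)) :
    ((wB p l).prod : F × F) =
      (FreeGroup.mk l, (sec p)⁻¹ * sec (p + par (FreeGroup.mk l))) := by
  induction l generalizing p with
  | nil =>
    rw [ad_mk_nil, par_one, add_zero, inv_mul_cancel]
    rfl
  | cons s l ih =>
    rw [ad_mk_cons, par_mul]
    show ((bLt p s :: wB (p + par (el s)) l).prod : F × F) = _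
    rw [List.prod_cons, Subgroup.coe_mul, ih]
    show ((el s, (sec p)⁻¹ * sec (p + par (el s))) : F × F) * _ = _
    rw [Prod.mk_mul_mk, add_assoc]
    congr 1
    simp [mul_assoc]

theorem wA_length (q : Fin 3 → ZMod 2) (l : List (Fin 3 × Bool)) :
    (wA q l).length = l.length := by
  induction l generalizing q with
  | nil => rfl
  | cons s l ih =>
    show (aLt q s :: wA (q + par (el s)) l).length = (s :: l).length
    rw [List.length_cons, List.length_cons, ih]

theorem wB_length (q : Fin 3 → ZMod 2) (l : List (Fin 3 × Bool)) :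
    (wB q l).length = l.length := by
  induction l generalizing q with
  | nil => rfl
  | cons s l ih =>
    show (bLt q s :: wB (q + par (el s)) l).length = (s :: l).length
    rw [List.length_cons, List.length_cons, ih]

theorem wA_take (q : Fin 3 → ZMod 2) (l : List (Fin 3 × Bool)) (t : ℕ) :
    (wA q l).take t = wA q (l.take t) := by
  induction l generalizing q t with
  | nil =>
    rw [List.take_nil]
    show List.take t [] = []
    rw [List.take_nil]
  | cons s l ih =>
    cases t with
    | zero => rfl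
    | succ t =>
      show aLt q s :: (wA (q + par (el s)) l).take t = aLt q s :: wA (q + par (el s)) (l.take t)
      rw [ih]

theorem wB_take (q : Fin 3 → ZMod 2) (l : List (Fin 3 × Bool)) (t : ℕ) :
    (wB q l).take t = wB q (l.take t) := by
  induction l generalizing q t with
  | nil =>
    rw [List.take_nil]
    show List.take t [] = []
    rw [List.take_nil]
  | cons s l ih =>
    cases t with
    | zero => rfl
    | succ t =>
      show bLt q s :: (wB (q + par (el s)) l).take t = bLt q s :: wB (q + par (el s)) (l.take t)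
      rw [ih]

theorem wA_mem (q : Fin 3 → ZMod 2) (l : List (Fin 3 × Bool)) : ∀ g ∈ wA q l, g ∈ XX := by
  induction l generalizing q with
  | nil =>
    intro g hg
    exact absurd hg List.not_mem_nil
  | cons s l ih =>
    intro g hg
    rcases List.mem_cons.1 (show g ∈ aLt q s :: wA (q + par (el s)) l from hg) with h | h
    · rw [h]
      exact aLt_mem _ _
    · exact ih _ g h

theorem wB_mem (q : Fin 3 → ZMod 2) (l : List (Fin 3 × Bool)) : ∀ g ∈ wB q l, g ∈ XX := by
  induction l generalizing q with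
  | nil =>
    intro g hg
    exact absurd hg List.not_mem_nil
  | cons s l ih =>
    intro g hg
    rcases List.mem_cons.1 (show g ∈ bLt q s :: wB (q + par (el s)) l from hg) with h | h
    · rw [h]
      exact bLt_mem _ _
    · exact ih _ g h

/-- normal form -/
def nf (x y : F) : List GG := wA 0 y.toWord ++ wB 0 x.toWord

theorem nf_prod {x y : F} (h : par x = par y) : ((nf x y).prod : F × F) = (x, y) := by
  unfold nf
  rw [List.prod_append, Subgroup.coe_mul, wA_prod, wB_prod, FreeGroup.mk_toWord,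
    FreeGroup.mk_toWord, sec_zero, zero_add, zero_add, Prod.mk_mul_mk, h]
  simp

theorem nf_take_prod (x y : F) (t : ℕ) :
    (((nf x y).take t).prod : F × F) =
      (vtx x (t - nm y), vtx y t * (sec (par (vtx y t)))⁻¹ * sec (par (vtx x (t - nm y)))) := by
  unfold nf
  rw [List.take_append, wA_length, wA_take, wB_take, List.prod_append, Subgroup.coe_mul, wA_prod,
    wB_prod, sec_zero, zero_add, zero_add, Prod.mk_mul_mk]
  show ((1 : F) * vtx x (t - nm y), (1 : F) * vtx y t * (sec (par (vtx y t)))⁻¹ *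
    ((1 : F)⁻¹ * sec (par (vtx x (t - nm y))))) = _
  rw [one_mul, one_mul, inv_one, one_mul]

/-- the language of normal forms -/
def nfLang : Language (letters XX) :=
  {w | ∃ x y : F, par x = par y ∧ w.map Subtype.val = nf x y}

end Pool.Agent.FTP
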