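import Mathlib
import Pool.Agent.FTP.Defs
import Pool.Agent.FTP.AutoDefs

/-!
# FTP / AutoReg: the language of normal forms is regular

`regular_map`: the image of a regular language `L` over `α` under a map `f : α → β` of the letters is
regular: if `M` is a DFA for `L`, the NFA with the same states, `step s b = {M.step s a | f a = b}`, start
`{M.start}`, accepting states `M.accept`, accepts the image (`NFA.toDFA_correct`: the
subset construction; induction on words).

Labelled language: labels `Lb = Bool × (Fin 3 → ZMod 2) × (Fin 3 × Bool)`; `(false, q, s)` stands for the letter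
`aLt q s`, `(true, p, s)` for `bLt p s`. Let `lA q l`, `lB p l` be the lists of labels of `wA q l`, `wB p l`. The
language of all `lA 0 l ++ lB 0 l'` with `l, l'` reduced (`FreeGroup.IsReduced`, i.e. no letter followed
by its inverse) and `par (mk l) = par (mk l')` is accepted by a finite automaton with the states
`none` (fail) and `some (phase, qf, cur, last)`, `phase : Bool`, `qf, cur : Fin 3 → ZMod 2`,
`last : Option (Fin 3 × Bool)`; start `some (false, 0, 0, none)`;
* in phase `false`, label `(false, q, s)`: if `q = cur` and `last ≠ some s⁻¹`, go to
  `(false, q + par (el s), q + par (el s), some s)`, otherwise fail;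
* in phase `false`, label `(true, p, s)`: if `p = 0` go to `(true, cur, par (el s), some s)`, otherwise fail;
* in phase `true`, label `(true, p, s)`: if `p = cur` and `last ≠ some s⁻¹` go to
  `(true, qf, cur + par (el s), some s)`, otherwise fail; label `(false, ..)`: fail;
* accepting: `(false, _, cur, _)` with `cur = 0`, and `(true, qf, cur, _)` with `cur = qf`.
The image of this language under `label ↦ letter` is `nfLang` (`x = mk l'`, `y = mk l`,
`FreeGroup.toWord` of them are `l'`, `l` as they are reduced: `FreeGroup.IsReduced.reduce_eq`,
`FreeGroup.toWord_mk`, `FreeGroup.isReduced_toWord`).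
(Alternatively use `Language.IsRegular.of_finite_range_leftQuotient`.)
-/

namespace Pool.Agent.FTP

theorem regular_map {α β : Type} (f : α → β) (L : Language α) (hL : L.IsRegular) :
    Language.IsRegular ({w : List β | ∃ v ∈ L, v.map f = w} : Language β) := by
  classical
  obtain ⟨σ, hσ, M, hM⟩ := hL
  let N : NFA β σ := ⟨fun s b => {t | ∃ a, f a = b ∧ M.step s a = t}, {M.start}, M.accept⟩
  have key : ∀ (w : List β) (S : Set σ) (t : σ),
      t ∈ N.evalFrom S w ↔ ∃ s ∈ S, ∃ v : List α, v.map f = w ∧ M.evalFrom s v = t := by
    intro w
    induction w with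
    | nil =>
      intro S t
      rw [NFA.evalFrom_nil]
      constructor
      · intro h
        exact ⟨t, h, [], rfl, rfl⟩
      · rintro ⟨s, hs, v, hv, rfl⟩
        have : v = [] := by simpa using hv
        subst this
        exact hs
    | cons b w ih =>
      intro S t
      rw [NFA.evalFrom_cons, ih]
      constructor
      · rintro ⟨s, hs, v, hv, hvt⟩
        rw [NFA.mem_stepSet] at hs
        obtain ⟨r, hr, a, ha, hra⟩ := hs
        refine ⟨r, hr, a :: v, ?_, ?_⟩
        · simp [ha, hv]
        · rw [DFA.evalFrom_cons, hra, hvt]
      · rintro ⟨s, hs, v, hv, hvt⟩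
        cases v with
        | nil => simp at hv
        | cons a v =>
          simp only [List.map_cons, List.cons.injEq] at hv
          refine ⟨M.step s a, ?_, v, hv.2, ?_⟩
          · rw [NFA.mem_stepSet]
            exact ⟨s, hs, a, hv.1, rfl⟩
          · rw [← DFA.evalFrom_cons, hvt]
  refine ⟨Set σ, inferInstance, N.toDFA, ?_⟩
  rw [NFA.toDFA_correct]
  ext w
  constructor
  · rintro ⟨t, ht, hw⟩
    obtain ⟨s, hs, v, hv, hvt⟩ := (key w N.start t).1 hw
    obtain rfl : s = M.start := hs
    refine ⟨v, ?_, hv⟩
    rw [← hM, DFA.mem_accepts]
    show M.evalFrom M.start v ∈ M.accept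
    rw [hvt]
    exact ht
  · rintro ⟨v, hv, hvw⟩
    rw [← hM, DFA.mem_accepts] at hv
    refine ⟨M.evalFrom M.start v, hv, ?_⟩
    exact (key w N.start (M.evalFrom M.start v)).2 ⟨M.start, rfl, v, hvw, rfl⟩

/-! ## The labelled language -/

/-- labels -/
abbrev Lb : Type := Bool × (Fin 3 → ZMod 2) × (Fin 3 × Bool)

/-- labels of the first phase -/
def lA : (Fin 3 → ZMod 2) → List (Fin 3 × Bool) → List Lb
  | _, [] => []
  | q, s :: l => (false, q, s) :: lA (q + par (el s)) l

/-- labels of the second phase -/
def lB : (Fin 3 → ZMod 2) → List (Fin 3 × Bool) → List Lb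
  | _, [] => []
  | p, s :: l => (true, p, s) :: lB (p + par (el s)) l

/-- the letter of a label -/
def letr : Lb → letters XX
  | (false, q, s) => ⟨aLt q s, mem_letters_XX.2 (aLt_mem q s)⟩
  | (true, p, s) => ⟨bLt p s, mem_letters_XX.2 (bLt_mem p s)⟩

theorem lA_letr (q : Fin 3 → ZMod 2) (l : List (Fin 3 × Bool)) :
    ((lA q l).map letr).map Subtype.val = wA q l := by
  induction l generalizing q with
  | nil => rfl
  | cons s l ih => simp only [lA, wA, List.map_cons, ih]; rfl

theorem lB_letr (q : Fin 3 → ZMod 2) (l : List (Fin 3 × Bool)) :
    ((lB q l).map letr).map Subtype.val = wB q l := by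
  induction l generalizing q with
  | nil => rfl
  | cons s l ih => simp only [lB, wB, List.map_cons, ih]; rfl

/-- the letter `s` may follow the letter `o` -/
def okk (o : Option (Fin 3 × Bool)) (s : Fin 3 × Bool) : Prop :=
  ∀ a, o = some a → a.1 = s.1 → a.2 = s.2

/-- reduced words after the letter `o` -/
def RF : Option (Fin 3 × Bool) → List (Fin 3 × Bool) → Prop
  | _, [] => True
  | o, s :: l => okk o s ∧ RF (some s) l

theorem RF_some (a : Fin 3 × Bool) (l : List (Fin 3 × Bool)) :
    RF (some a) l ↔ FreeGroup.IsReduced (a :: l) := by
  induction l generalizing a with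
  | nil => simp [RF]
  | cons s l ih =>
    rw [FreeGroup.isReduced_cons_cons]
    simp only [RF, ih, okk]
    constructor
    · rintro ⟨h1, h2⟩
      exact ⟨h1 a rfl, h2⟩
    · rintro ⟨h1, h2⟩
      refine ⟨?_, h2⟩
      rintro b hb
      obtain rfl : a = b := by simpa using hb
      exact h1

theorem RF_none (l : List (Fin 3 × Bool)) : RF none l ↔ FreeGroup.IsReduced l := by
  cases l with
  | nil => simp [RF]
  | cons s l =>
    simp only [RF, RF_some]
    constructor
    · rintro ⟨-, h⟩
      exact h
    · intro h
      exact ⟨fun a ha => by simp at ha, h⟩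

theorem par_mk_cons (s : Fin 3 × Bool) (l : List (Fin 3 × Bool)) :
    par (FreeGroup.mk (s :: l)) = par (el s) + par (FreeGroup.mk l) := by
  rw [← par_mul]
  rfl

theorem par_mk_nil : par (FreeGroup.mk ([] : List (Fin 3 × Bool))) = 0 := par_one

/-- states -/
abbrev St : Type :=
  Option (Bool × (Fin 3 → ZMod 2) × (Fin 3 → ZMod 2) × Option (Fin 3 × Bool))

open Classical in
/-- transition function -/
noncomputable def stp : St → Lb → St
  | none, _ => none
  | some (false, _, cur, o), (false, q, s) =>
      if q = cur ∧ okk o s then some (false, 0, cur + par (el s), some s) else none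
  | some (false, _, cur, _), (true, p, s) =>
      if p = 0 then some (true, cur, par (el s), some s) else none
  | some (true, _, _, _), (false, _, _) => none
  | some (true, qf, cur, o), (true, p, s) =>
      if p = cur ∧ okk o s then some (true, qf, cur + par (el s), some s) else none

/-- accepting states -/
def acc : Set St := {t | ∃ qf cur o, (t = some (false, qf, cur, o) ∧ cur = 0) ∨
  (t = some (true, qf, cur, o) ∧ cur = qf)}

/-- the automaton -/
noncomputable def AM : DFA Lb St := ⟨stp, some (false, 0, 0, none), acc⟩

theorem AM_cons (t : St) (x : Lb) (w : List Lb) :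
    AM.evalFrom t (x :: w) = AM.evalFrom (stp t x) w := rfl

theorem AM_none (w : List Lb) : AM.evalFrom none w = none := by
  induction w with
  | nil => rfl
  | cons x w ih => rw [AM_cons]; exact ih

theorem none_acc : (none : St) ∉ acc := by
  rintro ⟨qf, cur, o, h | h⟩ <;> simp at h

theorem acc_false (qf cur : Fin 3 → ZMod 2) (o : Option (Fin 3 × Bool)) :
    (some (false, qf, cur, o) : St) ∈ acc ↔ cur = 0 := by
  constructor
  · rintro ⟨qf', cur', o', h | h⟩
    · obtain ⟨h1, h2⟩ := h
      simp only [Option.some.injEq, Prod.mk.injEq] at h1
      rw [h1.2.2.1]; exact h2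
    · simp at h
  · intro h
    exact ⟨qf, cur, o, Or.inl ⟨rfl, h⟩⟩

theorem acc_true (qf cur : Fin 3 → ZMod 2) (o : Option (Fin 3 × Bool)) :
    (some (true, qf, cur, o) : St) ∈ acc ↔ cur = qf := by
  constructor
  · rintro ⟨qf', cur', o', h | h⟩
    · simp at h
    · obtain ⟨h1, h2⟩ := h
      simp only [Option.some.injEq, Prod.mk.injEq] at h1
      rw [h1.2.2.1, h1.2.1]; exact h2
  · intro h
    exact ⟨qf, cur, o, Or.inr ⟨rfl, h⟩⟩

theorem evT (w : List Lb) : ∀ (qf cur : Fin 3 → ZMod 2) (o : Option (Fin 3 × Bool)),
    AM.evalFrom (some (true, qf, cur, o)) w ∈ acc ↔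
      ∃ l, w = lB cur l ∧ RF o l ∧ cur + par (FreeGroup.mk l) = qf := by
  induction w with
  | nil =>
    intro qf cur o
    show (some (true, qf, cur, o) : St) ∈ acc ↔ _
    rw [acc_true]
    constructor
    · intro h
      exact ⟨[], rfl, trivial, by rw [par_mk_nil, add_zero, h]⟩
    · rintro ⟨l, hl, -, h⟩
      cases l with
      | nil => rwa [par_mk_nil, add_zero] at h
      | cons s l => simp [lB] at hl
  | cons x w ih =>
    intro qf cur o
    obtain ⟨b, p, s⟩ := x
    rw [AM_cons]
    cases b with
    | false =>
      have : stp (some (true, qf, cur, o)) (false, p, s) = none := rfl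
      rw [this, AM_none]
      constructor
      · intro h; exact absurd h none_acc
      · rintro ⟨l, hl, -⟩
        cases l with
        | nil => simp [lB] at hl
        | cons s' l => simp [lB] at hl
    | true =>
      by_cases hc : p = cur ∧ okk o s
      · have : stp (some (true, qf, cur, o)) (true, p, s) =
            some (true, qf, cur + par (el s), some s) := by
          simp only [stp, if_pos hc]
        rw [this, ih]
        constructor
        · rintro ⟨l, hl, hr, h⟩
          refine ⟨s :: l, ?_, ⟨hc.2, hr⟩, ?_⟩
          · rw [hc.1, hl]; rfl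
          · rw [par_mk_cons, ← add_assoc]; exact h
        · rintro ⟨l, hl, hr, h⟩
          cases l with
          | nil => simp [lB] at hl
          | cons s' l =>
            simp only [lB, List.cons.injEq, Prod.mk.injEq, true_and] at hl
            obtain ⟨⟨-, rfl⟩, hl⟩ := hl
            refine ⟨l, hl, hr.2, ?_⟩
            rw [par_mk_cons, ← add_assoc] at h
            exact h
      · have : stp (some (true, qf, cur, o)) (true, p, s) = none := by
          simp only [stp, if_neg hc]
        rw [this, AM_none]
        constructor
        · intro h; exact absurd h none_acc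
        · rintro ⟨l, hl, hr, -⟩
          cases l with
          | nil => simp [lB] at hl
          | cons s' l =>
            simp only [lB, List.cons.injEq, Prod.mk.injEq, true_and] at hl
            obtain ⟨⟨h1, rfl⟩, hl⟩ := hl
            exact absurd ⟨h1, hr.1⟩ hc

theorem evF (w : List Lb) : ∀ (qf cur : Fin 3 → ZMod 2) (o : Option (Fin 3 × Bool)),
    AM.evalFrom (some (false, qf, cur, o)) w ∈ acc ↔
      ∃ l l', w = lA cur l ++ lB 0 l' ∧ RF o l ∧ RF none l' ∧
        cur + par (FreeGroup.mk l) = par (FreeGroup.mk l') := by
  induction w with
  | nil =>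
    intro qf cur o
    show (some (false, qf, cur, o) : St) ∈ acc ↔ _
    rw [acc_false]
    constructor
    · intro h
      exact ⟨[], [], rfl, trivial, trivial, by rw [h, zero_add]⟩
    · rintro ⟨l, l', hl, -, -, h⟩
      cases l with
      | nil =>
        cases l' with
        | nil => rwa [par_mk_nil, add_zero] at h
        | cons s l => simp [lA, lB] at hl
      | cons s l => simp [lA] at hl
  | cons x w ih =>
    intro qf cur o
    obtain ⟨b, p, s⟩ := x
    rw [AM_cons]
    cases b with
    | false =>
      by_cases hc : p = cur ∧ okk o s
      · have : stp (some (false, qf, cur, o)) (false, p, s) =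
            some (false, 0, cur + par (el s), some s) := by
          simp only [stp, if_pos hc]
        rw [this, ih]
        constructor
        · rintro ⟨l, l', hl, hr, hr', h⟩
          refine ⟨s :: l, l', ?_, ⟨hc.2, hr⟩, hr', ?_⟩
          · rw [hc.1, hl]; rfl
          · rw [par_mk_cons, ← add_assoc]; exact h
        · rintro ⟨l, l', hl, hr, hr', h⟩
          cases l with
          | nil =>
            cases l' with
            | nil => simp [lA, lB] at hl
            | cons s' l' => simp [lA, lB] at hl
          | cons s' l =>
            simp only [lA, List.cons_append, List.cons.injEq, Prod.mk.injEq, true_and] at hl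
            obtain ⟨⟨-, rfl⟩, hl⟩ := hl
            refine ⟨l, l', hl, hr.2, hr', ?_⟩
            rw [par_mk_cons, ← add_assoc] at h
            exact h
      · have : stp (some (false, qf, cur, o)) (false, p, s) = none := by
          simp only [stp, if_neg hc]
        rw [this, AM_none]
        constructor
        · intro h; exact absurd h none_acc
        · rintro ⟨l, l', hl, hr, -, -⟩
          cases l with
          | nil =>
            cases l' with
            | nil => simp [lA, lB] at hl
            | cons s' l' => simp [lA, lB] at hl
          | cons s' l =>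
            simp only [lA, List.cons_append, List.cons.injEq, Prod.mk.injEq, true_and] at hl
            obtain ⟨⟨h1, rfl⟩, hl⟩ := hl
            exact absurd ⟨h1, hr.1⟩ hc
    | true =>
      by_cases hc : p = 0
      · have : stp (some (false, qf, cur, o)) (true, p, s) =
            some (true, cur, par (el s), some s) := by
          simp only [stp, if_pos hc]
        rw [this, evT]
        constructor
        · rintro ⟨l, hl, hr, h⟩
          refine ⟨[], s :: l, ?_, trivial, ⟨fun a ha => by simp at ha, hr⟩, ?_⟩
          · rw [hc, hl]
            simp only [lA, lB, List.nil_append, zero_add]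
          · rw [par_mk_cons, par_mk_nil, add_zero]; exact h.symm
        · rintro ⟨l, l', hl, hr, hr', h⟩
          cases l with
          | nil =>
            cases l' with
            | nil => simp [lA, lB] at hl
            | cons s' l' =>
              simp only [lA, lB, List.nil_append, zero_add, List.cons.injEq, Prod.mk.injEq,
                true_and] at hl
              obtain ⟨⟨-, rfl⟩, hl⟩ := hl
              refine ⟨l', hl, hr'.2, ?_⟩
              rw [par_mk_cons, par_mk_nil, add_zero] at h
              exact h.symm
          | cons s' l => simp [lA] at hl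
      · have : stp (some (false, qf, cur, o)) (true, p, s) = none := by
          simp only [stp, if_neg hc]
        rw [this, AM_none]
        constructor
        · intro h; exact absurd h none_acc
        · rintro ⟨l, l', hl, hr, hr', h⟩
          cases l with
          | nil =>
            cases l' with
            | nil => simp [lA, lB] at hl
            | cons s' l' =>
              simp only [lA, lB, List.nil_append, List.cons.injEq, Prod.mk.injEq,
                true_and] at hl
              exact absurd hl.1.1 hc
          | cons s' l => simp [lA] at hl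

theorem nfLang_regular : nfLang.IsRegular := by
  have h1 : Language.IsRegular AM.accepts := ⟨St, inferInstance, AM, rfl⟩
  have h2 := regular_map letr AM.accepts h1
  have h3 : nfLang = ({w | ∃ v ∈ AM.accepts, v.map letr = w} : Language (letters XX)) := by
    ext w
    constructor
    · rintro ⟨x, y, hxy, hw⟩
      refine ⟨lA 0 y.toWord ++ lB 0 x.toWord, ?_, ?_⟩
      · rw [DFA.mem_accepts]
        show AM.evalFrom (some (false, 0, 0, none)) _ ∈ acc
        rw [evF]
        refine ⟨y.toWord, x.toWord, rfl, ?_, ?_, ?_⟩
        · rw [RF_none]; exact FreeGroup.isReduced_toWord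
        · rw [RF_none]; exact FreeGroup.isReduced_toWord
        · rw [FreeGroup.mk_toWord, FreeGroup.mk_toWord, zero_add]; exact hxy.symm
      · have hinj : Function.Injective (List.map (Subtype.val : letters XX → GG)) :=
          List.map_injective_iff.2 Subtype.val_injective
        apply hinj
        rw [hw, List.map_append, List.map_append, lA_letr, lB_letr]
        rfl
    · rintro ⟨v, hv, rfl⟩
      rw [DFA.mem_accepts] at hv
      change AM.evalFrom (some (false, 0, 0, none)) v ∈ acc at hv
      rw [evF] at hv
      obtain ⟨l, l', rfl, hr, hr', h⟩ := hv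
      rw [RF_none] at hr hr'
      refine ⟨FreeGroup.mk l', FreeGroup.mk l, ?_, ?_⟩
      · rw [zero_add] at h; exact h.symm
      · rw [List.map_append, List.map_append, lA_letr, lB_letr, nf, FreeGroup.toWord_mk,
          FreeGroup.toWord_mk, hr.reduce_eq, hr'.reduce_eq]
  rw [h3]
  exact h2

end Pool.Agent.FTP
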