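import Mathlib
import Pool.Agent.FTP.Defs
import Pool.Agent.FTP.TreeA

/-!
# FTP / Words: word length, geodesic words, balls

Elementary facts on `wl A g` (infimum of the lengths of the words in `A` with product `g`), for a set
`A` of letters closed under inverses. `Subgroup.closure A` is the set of products of words in `A`
(`Subgroup.closure_induction`, or `Subgroup.exists_list_of_mem_closure`).

`wl_ball_bound`: `A ⊆ F x F` with `Subgroup.closure A = GG`: there are finitely many elements of `F` of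
norm at most `r` (words of length at most `r` over a finite alphabet), so finitely many elements
`g` of `GG` with both norms at most `r`; take the maximum of `wl A g`.

`transport`: for an injective homomorphism `f : Γ → Γ'`, `FFT A K` implies `FFT (f '' A) K`: words in
`f '' A` are images of words in `A` (`l = l'.map f`), `wl (f '' A) (f g) = wl A g` for all `g` in the group
(if `g` is no product of a word in `A`, `f g` is no product of a word in `f '' A` by injectivity and
both sides are `0`), and `(l'.map f).take t = (l'.take t).map f`.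
-/

namespace Pool.Agent.FTP

section General

variable {Γ : Type*} [Group Γ] {A : Set Γ}

theorem isWord_nil : IsWord A [] := by intro a ha; simp at ha

theorem isWord_append {l l' : List Γ} (h : IsWord A l) (h' : IsWord A l') : IsWord A (l ++ l') := by
  intro a ha
  rcases List.mem_append.1 ha with h1 | h1
  · exact h a h1
  · exact h' a h1

theorem isWord_take {l : List Γ} (h : IsWord A l) (t : ℕ) : IsWord A (l.take t) :=
  fun a ha => h a (List.mem_of_mem_take ha)

theorem isWord_drop {l : List Γ} (h : IsWord A l) (t : ℕ) : IsWord A (l.drop t) :=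
  fun a ha => h a (List.mem_of_mem_drop ha)

theorem wl_le {l : List Γ} (h : IsWord A l) : wl A l.prod ≤ l.length :=
  Nat.sInf_le ⟨l, h, rfl, rfl⟩

theorem exists_geo {g : Γ} (h : ∃ l : List Γ, IsWord A l ∧ l.prod = g) :
    ∃ l : List Γ, IsWord A l ∧ l.prod = g ∧ l.length = wl A g := by
  obtain ⟨l, hl, hg⟩ := h
  exact Nat.sInf_mem (s := {n : ℕ | ∃ l : List Γ, IsWord A l ∧ l.prod = g ∧ l.length = n})
    ⟨l.length, l, hl, hg, rfl⟩

theorem wl_one : wl A 1 = 0 := by
  have h := wl_le (A := A) (l := []) isWord_nil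
  simpa using h

/-- the inverse word -/
theorem exists_inv_word (hsym : ∀ a ∈ A, a⁻¹ ∈ A) {l : List Γ} (h : IsWord A l) :
    ∃ l' : List Γ, IsWord A l' ∧ l'.prod = l.prod⁻¹ ∧ l'.length = l.length := by
  refine ⟨(l.map fun a => a⁻¹).reverse, ?_, ?_, by simp⟩
  · intro a ha
    rw [List.mem_reverse, List.mem_map] at ha
    obtain ⟨b, hb, rfl⟩ := ha
    exact hsym b (h b hb)
  · rw [List.prod_inv_reverse]

theorem exists_word (hsym : ∀ a ∈ A, a⁻¹ ∈ A) {g : Γ} (h : g ∈ Subgroup.closure A) :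
    ∃ l : List Γ, IsWord A l ∧ l.prod = g := by
  induction h using Subgroup.closure_induction with
  | mem x hx => exact ⟨[x], by intro a ha; simp at ha; rw [ha]; exact hx, by simp⟩
  | one => exact ⟨[], isWord_nil, rfl⟩
  | mul x y _ _ hx hy =>
    obtain ⟨l, hl, rfl⟩ := hx
    obtain ⟨l', hl', rfl⟩ := hy
    exact ⟨l ++ l', isWord_append hl hl', by simp⟩
  | inv x _ hx =>
    obtain ⟨l, hl, rfl⟩ := hx
    obtain ⟨l', hl', h1, -⟩ := exists_inv_word hsym hl
    exact ⟨l', hl', h1⟩

theorem word_mem {l : List Γ} (h : IsWord A l) : l.prod ∈ Subgroup.closure A :=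
  Subgroup.list_prod_mem _ fun a ha => Subgroup.subset_closure (h a ha)

theorem wl_mul_le (hsym : ∀ a ∈ A, a⁻¹ ∈ A) {g h : Γ} (hg : g ∈ Subgroup.closure A)
    (hh : h ∈ Subgroup.closure A) : wl A (g * h) ≤ wl A g + wl A h := by
  obtain ⟨l, hl, hg1, hg2⟩ := exists_geo (exists_word hsym hg)
  obtain ⟨l', hl', hh1, hh2⟩ := exists_geo (exists_word hsym hh)
  have h1 := wl_le (isWord_append hl hl')
  rw [List.prod_append, hg1, hh1, List.length_append, hg2, hh2] at h1
  exact h1

theorem wl_inv_le (hsym : ∀ a ∈ A, a⁻¹ ∈ A) {g : Γ} (hg : g ∈ Subgroup.closure A) :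
    wl A g⁻¹ ≤ wl A g := by
  obtain ⟨l, hl, hg1, hg2⟩ := exists_geo (exists_word hsym hg)
  obtain ⟨l', hl', h1, h2⟩ := exists_inv_word hsym hl
  have h3 := wl_le hl'
  rw [h1, hg1, h2, hg2] at h3
  exact h3

theorem wl_inv (hsym : ∀ a ∈ A, a⁻¹ ∈ A) {g : Γ} (hg : g ∈ Subgroup.closure A) :
    wl A g⁻¹ = wl A g := by
  refine le_antisymm (wl_inv_le hsym hg) ?_
  have h := wl_inv_le hsym (Subgroup.inv_mem _ hg)
  rwa [inv_inv] at h

theorem wl_pow_le (hsym : ∀ a ∈ A, a⁻¹ ∈ A) {g : Γ} (hg : g ∈ Subgroup.closure A) (k : ℕ) :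
    wl A (g ^ k) ≤ k * wl A g := by
  induction k with
  | zero => simp [wl_one]
  | succ k ih =>
    rw [pow_succ]
    have h := wl_mul_le hsym (Subgroup.pow_mem _ hg k) hg
    rw [Nat.succ_mul]
    omega

theorem ball_finite (hA : A.Finite) (n : ℕ) :
    {g : Γ | ∃ l : List Γ, IsWord A l ∧ l.prod = g ∧ l.length ≤ n}.Finite := by
  induction n with
  | zero =>
    refine (Set.finite_singleton (1 : Γ)).subset ?_
    rintro g ⟨l, -, rfl, hl⟩
    have h0 : l = [] := List.length_eq_zero_iff.1 (Nat.le_zero.1 hl)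
    simp [h0]
  | succ n ih =>
    refine ((Set.finite_singleton (1 : Γ)).union (Set.Finite.mul hA ih)).subset ?_
    rintro g ⟨l, hl, rfl, hn⟩
    cases l with
    | nil => left; simp
    | cons a l =>
      right
      rw [List.prod_cons]
      refine Set.mul_mem_mul (hl a (by simp)) ⟨l, fun b hb => hl b (by simp [hb]), rfl, ?_⟩
      simpa using hn

theorem fellowTravel_trans (hsym : ∀ a ∈ A, a⁻¹ ∈ A) {u v w : List Γ} {K K' : ℕ}
    (hu : IsWord A u) (hv : IsWord A v) (hw : IsWord A w) (h : FellowTravel A K u v)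
    (h' : FellowTravel A K' v w) : FellowTravel A (K + K') u w := by
  intro t
  have hu' := word_mem (isWord_take hu t)
  have hv' := word_mem (isWord_take hv t)
  have hw' := word_mem (isWord_take hw t)
  have h1 := wl_mul_le hsym (Subgroup.mul_mem _ (Subgroup.inv_mem _ hu') hv')
    (Subgroup.mul_mem _ (Subgroup.inv_mem _ hv') hw')
  have h2 : (u.take t).prod⁻¹ * (v.take t).prod * ((v.take t).prod⁻¹ * (w.take t).prod) =
      (u.take t).prod⁻¹ * (w.take t).prod := by group
  rw [h2] at h1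
  have h3 := h t
  have h4 := h' t
  omega

theorem isWord_map {Γ' : Type*} [Group Γ'] (f : Γ →* Γ') {l : List Γ} (h : IsWord A l) :
    IsWord (f '' A) (l.map f) := by
  intro a ha
  rw [List.mem_map] at ha
  obtain ⟨b, hb, rfl⟩ := ha
  exact ⟨b, h b hb, rfl⟩

theorem exists_preimage {Γ' : Type*} [Group Γ'] (f : Γ →* Γ') :
    ∀ {l : List Γ'}, IsWord (f '' A) l → ∃ l' : List Γ, IsWord A l' ∧ l'.map f = l
  | [], _ => ⟨[], isWord_nil, rfl⟩
  | a :: l, h => by
    obtain ⟨b, hb, rfl⟩ := h a (by simp)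
    obtain ⟨l', hl', rfl⟩ := exists_preimage f (l := l) (fun c hc => h c (by simp [hc]))
    refine ⟨b :: l', ?_, rfl⟩
    intro c hc
    rw [List.mem_cons] at hc
    rcases hc with rfl | hc
    · exact hb
    · exact hl' c hc

theorem wl_map {Γ' : Type*} [Group Γ'] (f : Γ →* Γ') (hf : Function.Injective f) (g : Γ) :
    wl (f '' A) (f g) = wl A g := by
  unfold wl
  congr 1
  ext n
  constructor
  · rintro ⟨l, hl, h1, h2⟩
    obtain ⟨l', hl', rfl⟩ := exists_preimage f hl
    refine ⟨l', hl', ?_, by simpa using h2⟩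
    apply hf
    rw [← h1, map_list_prod]
  · rintro ⟨l, hl, h1, h2⟩
    exact ⟨l.map f, isWord_map f hl, by rw [← h1, map_list_prod], by simpa using h2⟩

theorem transport {Γ' : Type*} [Group Γ'] (f : Γ →* Γ') (hf : Function.Injective f) {K : ℕ}
    (h : FFT A K) : FFT (f '' A) K := by
  intro v hv hgeo
  obtain ⟨v', hv', rfl⟩ := exists_preimage f hv
  have h1 : ¬ Geo A v' := by
    intro hg
    apply hgeo
    unfold Geo at *
    rw [← map_list_prod, wl_map f hf, List.length_map, hg]
  obtain ⟨w, hw, hw1, hw2, hw3⟩ := h v' hv' h1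
  refine ⟨w.map f, isWord_map f hw, ?_, by simpa using hw2, ?_⟩
  · rw [← map_list_prod, ← map_list_prod, hw1]
  · intro t
    rw [← List.map_take, ← List.map_take, ← map_list_prod, ← map_list_prod, ← map_inv, ← map_mul,
      wl_map f hf]
    exact hw3 t

end General

theorem norm_ball_finite (r : ℕ) : {x : F | nm x ≤ r}.Finite :=
  (List.finite_length_le (Fin 3 × Bool) r).preimage FreeGroup.toWord_injective.injOn

/-- norms of a product of letters -/
theorem nm_word_le {A : Set (F × F)} {R : ℕ} (hR : ∀ z ∈ A, nm z.1 ≤ R ∧ nm z.2 ≤ R)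
    {l : List (F × F)} (h : IsWord A l) :
    nm l.prod.1 ≤ R * l.length ∧ nm l.prod.2 ≤ R * l.length := by
  induction l with
  | nil =>
    have h1 : nm (1 : F) = 0 := nm_one
    simp [h1]
  | cons a l ih =>
    have h1 := ih fun b hb => h b (by simp [hb])
    have h2 := hR a (h a (by simp))
    have h3 := nm_mul_le a.1 l.prod.1
    have h4 := nm_mul_le a.2 l.prod.2
    rw [List.prod_cons, Prod.fst_mul, Prod.snd_mul, List.length_cons, Nat.mul_succ]
    exact ⟨by omega, by omega⟩

theorem nm_wl_le {A : Set (F × F)} (hsym : ∀ a ∈ A, a⁻¹ ∈ A) {R : ℕ}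
    (hR : ∀ z ∈ A, nm z.1 ≤ R ∧ nm z.2 ≤ R) {g : F × F} (hg : g ∈ Subgroup.closure A) :
    nm g.1 ≤ R * wl A g ∧ nm g.2 ≤ R * wl A g := by
  obtain ⟨l, hl, hg1, hg2⟩ := exists_geo (exists_word hsym hg)
  have h := nm_word_le hR hl
  rwa [hg1, hg2] at h

theorem wl_ball_bound {A : Set (F × F)} (hcl : Subgroup.closure A = GG) (r : ℕ) :
    ∃ C : ℕ, ∀ g : F × F, g ∈ GG → nm g.1 ≤ r → nm g.2 ≤ r → wl A g ≤ C := by
  have hfin : ({x : F | nm x ≤ r} ×ˢ {x : F | nm x ≤ r}).Finite :=
    (norm_ball_finite r).prod (norm_ball_finite r)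
  obtain ⟨C, hC⟩ := (hfin.image (wl A)).bddAbove
  exact ⟨C, fun g _ h1 h2 => hC (Set.mem_image_of_mem _ ⟨h1, h2⟩)⟩

end Pool.Agent.FTP
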