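import Mathlib
import Pool.Agent.FTP.Defs
import Pool.Agent.FTP.TreeA
import Pool.Agent.FTP.TreeB
import Pool.Agent.FTP.Words
import Pool.Agent.FTP.AutoDefs
import Pool.Agent.FTP.AutoReg

/-!
# FTP / AutoMain: the group `GG` is automatic

`XX` generates: every `(x, y) ∈ GG` is the product of `nf x y`. The language is `nfLang`: regular
(AutoReg), onto (`nf_prod`; the list `nf x y` lifts to a list over the subtype `letters XX`).

Fellow travelling: let `u, v ∈ nfLang` be the normal forms of `(x, y)`, `(x', y')` with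
`wl (ū⁻¹ v̄) ≤ 1`; then `(x⁻¹ x', y⁻¹ y')` is a letter or trivial, so both norms are at most `7`
(`XX_nm`). `pre_vtx_dist`: `nm ((vtx y t)⁻¹ vtx y' t) ≤ nm (y⁻¹ y')` (if `c` is the length of the common prefix
then the left side is `0` for `t ≤ c` and `min t |y| - c + (min t |y'| - c)` for `t > c`, the right side is
`|y| + |y'| - 2c`), and `nm ((vtx x s)⁻¹ vtx x s') ≤ |s - s'|`. Since `||y| - |y'|| ≤ nm (y⁻¹ y') ≤ 7`, by
`nf_take_prod` the quotient of the prefixes of length `t` of `u` and `v` has components of norm at most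
`14` resp. `7 + 12`. There are finitely many elements of `GG` with components of norm at most `19`, so
their word lengths are bounded by some `K`.
-/

namespace Pool.Agent.FTP

theorem pre_vtx_dist (y y' : F) (t : ℕ) : nm ((vtx y t)⁻¹ * vtx y' t) ≤ nm (y⁻¹ * y') := by
  have hpos := pos_dist y y'
  have hl := pos_le_left y y'
  have hr := pos_le_right y y'
  -- the common prefix
  have hv : vtx y (pos y y') = vtx y' (pos y y') := by
    have h1 : Pre (vtx y (pos y y')) y' := (vtx_pre_iff hl y').2 le_rfl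
    exact pre_unique h1 (pre_vtx y' _) (by rw [nm_vtx hl, nm_vtx hr])
  rcases le_or_gt t (pos y y') with ht | ht
  · have h1 : Pre (vtx y t) y' := (vtx_pre_iff (ht.trans hl) y').2 ht
    have h2 : vtx y t = vtx y' t :=
      pre_unique h1 (pre_vtx y' _) (by rw [nm_vtx (ht.trans hl), nm_vtx (ht.trans hr)])
    rw [h2, inv_mul_cancel, nm_one]
    exact Nat.zero_le _
  · have h1 := nm_triangle (vtx y t) (vtx y (pos y y')) (vtx y' t)
    have h2 := pre_dist (vtx_mono y ht.le)
    have h3 := pre_dist (vtx_mono y' ht.le)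
    rw [nm_comm (vtx y t) (vtx y (pos y y')), h2, hv, h3, ← hv, nm_vtx hl] at h1
    have h4 := pre_nm_le (pre_vtx y t)
    have h5 := pre_nm_le (pre_vtx y' t)
    omega

theorem am_nm_vtx (x : F) (n : ℕ) : nm (vtx x n) = min n (nm x) := by
  rcases le_or_gt n (nm x) with h | h
  · rw [nm_vtx h, min_eq_left h]
  · have h1 : vtx x n = x := by
      unfold vtx
      rw [List.take_of_length_le (by
        have h2 : nm x = x.toWord.length := rfl
        omega), FreeGroup.mk_toWord]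
    rw [h1, min_eq_right h.le]

theorem vtx_dist (x : F) (s s' : ℕ) :
    nm ((vtx x s)⁻¹ * vtx x s') ≤ (s - s') + (s' - s) := by
  rcases le_total s s' with h | h
  · rw [pre_dist (vtx_mono x h), am_nm_vtx, am_nm_vtx]
    omega
  · rw [nm_comm, pre_dist (vtx_mono x h), am_nm_vtx, am_nm_vtx]
    omega

theorem am_nf_mem (x y : F) : ∀ g ∈ nf x y, g ∈ XX := by
  intro g hg
  rcases List.mem_append.1 hg with h | h
  · exact wA_mem _ _ g h
  · exact wB_mem _ _ g h

theorem am_nf_prod_eq (g : GG) : (nf (g : F × F).1 (g : F × F).2).prod = g := by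
  apply Subtype.ext
  rw [nf_prod (mem_GG.1 g.2)]

theorem closure_XX : Subgroup.closure (XX : Set GG) = ⊤ := by
  rw [eq_top_iff]
  intro g _
  rw [← am_nf_prod_eq g]
  refine Subgroup.list_prod_mem _ fun a ha => ?_
  exact Subgroup.subset_closure (Finset.mem_coe.2 (am_nf_mem _ _ a ha))

theorem am_letters_inv : ∀ a ∈ letters XX, a⁻¹ ∈ letters XX := by
  intro a ha
  rw [mem_letters_XX] at ha ⊢
  exact XX_inv ha

theorem am_closure_letters : Subgroup.closure (letters XX) = ⊤ := by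
  rw [eq_top_iff, ← closure_XX]
  refine Subgroup.closure_mono fun a ha => ?_
  exact mem_letters_XX.2 (Finset.mem_coe.1 ha)

/-- elements of length at most one have small norms -/
theorem am_nm_of_wl {g : GG} (h : wl (letters XX) g ≤ 1) :
    nm (g : F × F).1 ≤ 7 ∧ nm (g : F × F).2 ≤ 7 := by
  have h1 : g ∈ Subgroup.closure (letters XX) := by rw [am_closure_letters]; exact Subgroup.mem_top g
  obtain ⟨l, hl, hg, hlen⟩ := exists_geo (exists_word am_letters_inv h1)
  rw [← hlen] at h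
  rcases l with _ | ⟨a, l⟩
  · rw [List.prod_nil] at hg
    rw [← hg]
    have h2 : ((1 : GG) : F × F) = 1 := rfl
    rw [h2, Prod.fst_one, Prod.snd_one, nm_one]
    exact ⟨Nat.zero_le _, Nat.zero_le _⟩
  · have h2 : l = [] := by
      rw [List.length_cons] at h
      exact List.length_eq_zero_iff.1 (by omega)
    rw [h2, List.prod_singleton] at hg
    rw [← hg]
    exact XX_nm (mem_letters_XX.1 (hl a (by simp)))

theorem am_nm_six (a b c d e f : F) : nm ((a * b⁻¹ * c)⁻¹ * (d * e⁻¹ * f)) ≤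
    nm c + nm b + nm (a⁻¹ * d) + nm e + nm f := by
  have h0 : (a * b⁻¹ * c)⁻¹ * (d * e⁻¹ * f) = c⁻¹ * b * (a⁻¹ * d) * e⁻¹ * f := by group
  rw [h0]
  have h1 := nm_mul_le (c⁻¹ * b * (a⁻¹ * d) * e⁻¹) f
  have h2 := nm_mul_le (c⁻¹ * b * (a⁻¹ * d)) e⁻¹
  have h3 := nm_mul_le (c⁻¹ * b) (a⁻¹ * d)
  have h4 := nm_mul_le c⁻¹ b
  rw [nm_inv] at h2 h4
  omega

/-- the bound on the norms of the quotients -/
theorem am_nf_quot {x y x' y' : F} (hx : nm (x⁻¹ * x') ≤ 7) (hy : nm (y⁻¹ * y') ≤ 7) (t : ℕ) :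
    nm (((((nf x y).take t).prod⁻¹ * ((nf x' y').take t).prod : GG) : F × F)).1 ≤ 19 ∧
      nm (((((nf x y).take t).prod⁻¹ * ((nf x' y').take t).prod : GG) : F × F)).2 ≤ 19 := by
  have h0 : ((((nf x y).take t).prod⁻¹ * ((nf x' y').take t).prod : GG) : F × F) =
      (((nf x y).take t).prod : F × F)⁻¹ * (((nf x' y').take t).prod : F × F) := rfl
  rw [h0, nf_take_prod, nf_take_prod]
  refine ⟨?_, ?_⟩
  · rw [Prod.fst_mul, Prod.fst_inv]
    have h1 := nm_triangle (vtx x (t - nm y)) (vtx x (t - nm y')) (vtx x' (t - nm y'))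
    have h2 := vtx_dist x (t - nm y) (t - nm y')
    have h3 := pre_vtx_dist x x' (t - nm y')
    have h4 := nm_mul_le y (y⁻¹ * y')
    have h5 := nm_mul_le y' (y'⁻¹ * y)
    rw [mul_inv_cancel_left] at h4 h5
    rw [nm_comm y' y] at h5
    change nm ((vtx x (t - nm y))⁻¹ * vtx x' (t - nm y')) ≤ 19
    omega
  · rw [Prod.snd_mul, Prod.snd_inv]
    have h1 := pre_vtx_dist y y' t
    have h2 := am_nm_six (vtx y t) (sec (par (vtx y t))) (sec (par (vtx x (t - nm y))))
      (vtx y' t) (sec (par (vtx y' t))) (sec (par (vtx x' (t - nm y'))))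
    have h3 := nm_sec_le (par (vtx y t))
    have h4 := nm_sec_le (par (vtx x (t - nm y)))
    have h5 := nm_sec_le (par (vtx y' t))
    have h6 := nm_sec_le (par (vtx x' (t - nm y')))
    change nm ((vtx y t * (sec (par (vtx y t)))⁻¹ * sec (par (vtx x (t - nm y))))⁻¹ *
      (vtx y' t * (sec (par (vtx y' t)))⁻¹ * sec (par (vtx x' (t - nm y'))))) ≤ 19
    omega

/-- balls are finite -/
theorem am_wl_bound (r : ℕ) : ∃ K : ℕ, ∀ g : GG, nm (g : F × F).1 ≤ r → nm (g : F × F).2 ≤ r →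
    wl (letters XX) g ≤ K := by
  have hfin : {g : GG | nm (g : F × F).1 ≤ r ∧ nm (g : F × F).2 ≤ r}.Finite := by
    have h1 : ({x : F | nm x ≤ r} ×ˢ {x : F | nm x ≤ r}).Finite :=
      (norm_ball_finite r).prod (norm_ball_finite r)
    refine (h1.preimage (f := (Subtype.val : GG → F × F)) Subtype.val_injective.injOn).subset ?_
    intro g hg
    exact ⟨hg.1, hg.2⟩
  obtain ⟨K, hK⟩ := (hfin.image (wl (letters XX))).bddAbove
  exact ⟨K, fun g h1 h2 => hK ⟨g, ⟨h1, h2⟩, rfl⟩⟩

theorem nfLang_fellow : ∃ K : ℕ, ∀ u ∈ nfLang, ∀ v ∈ nfLang,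
    wl (letters XX) ((u.map Subtype.val).prod⁻¹ * (v.map Subtype.val).prod) ≤ 1 →
      FellowTravel (letters XX) K (u.map Subtype.val) (v.map Subtype.val) := by
  obtain ⟨K, hK⟩ := am_wl_bound 19
  refine ⟨K, fun u hu v hv h t => ?_⟩
  obtain ⟨x, y, hxy, hu⟩ := hu
  obtain ⟨x', y', hxy', hv⟩ := hv
  rw [hu, hv] at h ⊢
  have h1 := am_nm_of_wl h
  have h0 : (((nf x y).prod⁻¹ * (nf x' y').prod : GG) : F × F) =
      ((nf x y).prod : F × F)⁻¹ * ((nf x' y').prod : F × F) := rfl
  rw [h0, nf_prod hxy, nf_prod hxy'] at h1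
  have h2 := am_nf_quot (x := x) (y := y) (x' := x') (y' := y') h1.1 h1.2 t
  exact hK _ h2.1 h2.2

theorem gg_automatic : IsAutomatic GG := by
  refine ⟨XX, closure_XX, nfLang, nfLang_regular, fun g => ?_, nfLang_fellow⟩
  have h1 : ∀ a ∈ nf (g : F × F).1 (g : F × F).2, a ∈ letters XX := fun a ha =>
    mem_letters_XX.2 (am_nf_mem _ _ a ha)
  have h2 : ((nf (g : F × F).1 (g : F × F).2).pmap Subtype.mk h1).map
      (Subtype.val : letters XX → GG) = nf (g : F × F).1 (g : F × F).2 := by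
    rw [List.map_pmap, List.pmap_eq_map, List.map_id']
  refine ⟨(nf (g : F × F).1 (g : F × F).2).pmap Subtype.mk h1, ?_, ?_⟩
  · exact ⟨_, _, mem_GG.1 g.2, h2⟩
  · rw [h2]
    exact am_nf_prod_eq g

end Pool.Agent.FTP
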