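import Mathlib
import Pool.Agent.FTP.Defs

/-!
# FTP / Lane: the data of case 1, and trips

`Lane`: a finite symmetric set `A` of letters generating `GG`; an additive functional `χ` with
maximum `m0` on `A`, attained exactly on the set `M` of tight letters, whose exponent vectors are
all equal to `(a, b)`; an additive `τ` (a coordinate) with `τ = α ≥ 1` on the first components of the
tight letters; cyclically reduced `x, y` (killers, `kp1`, `kp2`), the fastest lane `(p, q)`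
(`rate`, realised by the word `U`, whose product is `(ρ1⁻¹ x^p ρ1, ρ2⁻¹ y^q ρ2)`); a parity `β` that is
not the parity of `v + w` for `v` in line with `a` and `w` in line with `b`; and elements `g1, g2` of
parity `β` such that `x g1 x` and `y g2 y` are reduced.

Lines: for block lengths `n : ℕ → ℕ`,
`B1 n i = x^(p n_0) g1 x^(p n_1) g1 ... x^(p n_(i-1)) g1`, `B2 n i` likewise with `y, q, g2`.

`Trip`: a path in `F x F` with steps in `A`, from time `0` to time `L`, whose first component goes along the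
line `B1` (`len` blocks): `T j` is a time at which the first component is near `B1 n j`, and from the
time `T j` to the time `T (j+1)` it is beyond `B1 n j`. The second component starts near `B2 n 2` and
ends near `B2 n (len + 2)`. `k j` is the number of letters which are not tight between the times `T j`
and `T (j+1)`, `P t` the position of the second component along the line `Z2 = B2 n (len + 2)`.
-/

namespace Pool.Agent.FTP

/-- data of case 1 -/
structure Lane where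
  A : Set (F × F)
  M : Set (F × F)
  hMA : M ⊆ A
  hAfin : A.Finite
  hAsym : ∀ z ∈ A, z⁻¹ ∈ A
  hAcl : Subgroup.closure A = GG
  χ : F × F → ℤ
  hχ : ∀ z w, χ (z * w) = χ z + χ w
  m0 : ℤ
  hχle : ∀ z ∈ A, χ z ≤ m0
  hχM : ∀ z ∈ A, (χ z = m0 ↔ z ∈ M)
  R : ℕ
  hR1 : 1 ≤ R
  hR : ∀ z ∈ A, nm z.1 ≤ R ∧ nm z.2 ≤ R
  a : Fin 3 → ℤ
  b : Fin 3 → ℤ
  hab : ∀ z ∈ M, vec z.1 = a ∧ vec z.2 = b
  τ : F → ℤ
  hτ : ∀ x y, τ (x * y) = τ x + τ y
  hτle : ∀ x, |τ x| ≤ (nm x : ℤ)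
  α : ℕ
  hα : 1 ≤ α
  hτM : ∀ z ∈ M, τ z.1 = α
  x : F
  y : F
  hx : CR x
  hy : CR y
  u : ℕ
  hu : 1 ≤ u
  hτx : τ x = α * u
  hxa : InLine a (vec x)
  hyb : InLine b (vec y)
  kp1 : ∀ l : List (F × F), IsWord M l → ∀ ρ ρ' : F, l.prod.1 = ρ * x * ρ' →
    nm l.prod.1 = nm ρ + nm x + nm ρ' → InLine a (vec ρ)
  kp2 : ∀ l : List (F × F), IsWord M l → ∀ ρ ρ' : F, l.prod.2 = ρ * y * ρ' →
    nm l.prod.2 = nm ρ + nm y + nm ρ' → InLine b (vec ρ)
  p : ℕ
  q : ℕ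
  hp : 1 ≤ p
  hq : 1 ≤ q
  hpe : Even p
  hqe : Even q
  rate : ∀ l : List (F × F), IsWord M l → ∀ (σ1 σ2 : F) (i j : ℕ),
    l.prod.1 = σ1⁻¹ * x ^ i * σ1 → l.prod.2 = σ2⁻¹ * y ^ j * σ2 → j * p ≤ i * q
  U : List (F × F)
  hU : IsWord M U
  ρ1 : F
  ρ2 : F
  hUp : U.prod = (ρ1⁻¹ * x ^ p * ρ1, ρ2⁻¹ * y ^ q * ρ2)
  hUl : U.length = p * u
  hρ1 : InLine a (vec ρ1)
  hρ2 : InLine b (vec ρ2)
  β : Fin 3 → ZMod 2
  hβ : ∀ v w, InLine a v → InLine b w → modTwo v + modTwo w ≠ β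
  g1 : F
  g2 : F
  hg1 : par g1 = β
  hg2 : par g2 = β
  hg1n : g1 ≠ 1
  hg2n : g2 ≠ 1
  hxg : Red x g1
  hgx : Red g1 x
  hyg : Red y g2
  hgy : Red g2 y

namespace Lane

variable (Λ : Lane)

/-- first line -/
def B1 (n : ℕ → ℕ) (i : ℕ) : F := Ln Λ.x Λ.g1 (fun l => Λ.p * n l) i

/-- second line -/
def B2 (n : ℕ → ℕ) (i : ℕ) : F := Ln Λ.y Λ.g2 (fun l => Λ.q * n l) i

/-- a bound for the steps and for the starting error -/
def R1 : ℕ := Λ.R + nm Λ.ρ1 + nm Λ.ρ2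

/-- radius of the phases in the first factor -/
def c0 : ℕ := Λ.R + 2 * Λ.R * Λ.R + nm Λ.x

/-- the points `S i` of the corridor: first component near `B1 n i`, second near `B2 n (i + 2)` -/
def S (n : ℕ → ℕ) (i : ℕ) : F × F := (Λ.B1 n i * Λ.ρ1, Λ.B2 n (i + 2) * Λ.ρ2)

end Lane

/-- a path following the first line -/
structure Trip (Λ : Lane) where
  n : ℕ → ℕ
  hn : ∀ i, 1 ≤ n i
  len : ℕ
  L : ℕ
  γ : ℕ → F × F
  step : ∀ t, t < L → (γ t)⁻¹ * γ (t + 1) ∈ Λ.A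
  T : ℕ → ℕ
  T0 : T 0 = 0
  TL : T len = L
  mono : ∀ j, j < len → T j ≤ T (j + 1)
  near1 : ∀ j, j ≤ len → nm ((Λ.B1 n j)⁻¹ * (γ (T j)).1) ≤ Λ.R1
  ahead : ∀ j, j < len → ∀ t, T j ≤ t → t ≤ T (j + 1) → Pre (Λ.B1 n j) (γ t).1
  coset : ∀ t, t ≤ L → par (γ t).1 - par (γ t).2 = par Λ.ρ1 - par Λ.ρ2
  start2 : pos (Λ.B2 n (len + 2)) (γ 0).2 ≤ nm (Λ.B2 n 2) + Λ.R1
  end2 : nm (Λ.B2 n (len + 2)) ≤ pos (Λ.B2 n (len + 2)) (γ L).2 + Λ.R1

namespace Trip

variable {Λ : Lane} (tr : Trip Λ)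

/-- the letter at the time `t` is not tight -/
def off (t : ℕ) : Prop := (tr.γ t)⁻¹ * tr.γ (t + 1) ∉ Λ.M

/-- number of letters which are not tight in the interval of the block `j` -/
noncomputable def k (j : ℕ) : ℕ := cnt tr.off (tr.T j) (tr.T (j + 1))

/-- position of the second component -/
def P (t : ℕ) : ℕ := pos (Λ.B2 tr.n (tr.len + 2)) (tr.γ t).2

/-- at the time `t` the first component is near the periodic part of the block `i` -/
def good (i t : ℕ) : Prop :=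
  ∃ (m : ℕ) (r : F), m ≤ Λ.p * tr.n i ∧ nm r ≤ Λ.c0 ∧ (tr.γ t).1 = Λ.B1 tr.n i * Λ.x ^ m * r

/-- bad times for the block `i` -/
def bad (i t : ℕ) : Prop := tr.off t ∨ ¬ tr.good i t

/-- `[t, t']` is an interval in the block `i` with tight letters and good times only -/
def Free (i t t' : ℕ) : Prop :=
  tr.T i ≤ t ∧ t ≤ t' ∧ t' ≤ tr.T (i + 1) ∧ (∀ v, t ≤ v → v < t' → ¬ tr.off v) ∧
    ∀ v, t ≤ v → v ≤ t' → tr.good i v

end Trip

end Pool.Agent.FTP
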