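import Mathlib
import Pool.Agent.FTP.Defs
import Pool.Agent.FTP.TreeA

/-!
# FTP / TreeC: cyclically reduced elements and their powers

`CR u`: `u ≠ 1` and `u * u` is reduced. Then `nm (u ^ n) = n * nm u` (induction with `red_three`, or
with `red_mul_left`), all products of powers are reduced, also those of `u⁻¹`.

`exists_cr`: every `x ≠ 1` is `c * u * c⁻¹` with `u` cyclically reduced (induction on the norm: if
the word of `x` begins with a letter and ends with its inverse, conjugate; otherwise `x` itself is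
cyclically reduced; or use Mathlib: `FreeGroup.conj_conjugator_reduceCyclically`,
`FreeGroup.isCyclicallyReduced` in `Mathlib.GroupTheory.FreeGroup.CyclicallyReduced`).

`sq_eq_one`: `x * x = 1` implies `x = 1` (by `exists_cr`: `x = c u c⁻¹` gives `u ^ 2 = 1` but
`nm (u ^ 2) = 2 nm u > 0`).

`no_inv_conj`: if `u = w * r` is reduced and cyclically reduced and `r * w = u⁻¹`, contradiction:
`r * w = r... ` precisely: `u⁻¹ = r⁻¹ * w⁻¹` and `nm (u⁻¹) = nm r + nm w`, so `r` and `r⁻¹` are both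
prefixes of `u⁻¹` of the same length, `r = r⁻¹`, `r = 1`; then `w = u`, `u = u⁻¹`, `u = 1`.

`Suf s x` means that `x` ends with `s` (`Pre s⁻¹ x⁻¹`).

`traverse`: for `nm r, nm r' ≤ c` and `2c + 3 ≤ k` the product `r⁻¹ u^k r'` is
`(r⁻¹ u^(c+1)) * u * (u^(k-c-2) r')` and this is reduced: `r⁻¹ u^(c+1)` ends with `u` because at most
`c` letters cancel (`pre_stable` for the inverses), similarly `u^(k-c-2) r'` begins with `u`.
-/

namespace Pool.Agent.FTP

theorem cr_nm_pos {u : F} (h : CR u) : 1 ≤ nm u := by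
  have h1 : nm u ≠ 0 := fun h0 => h.1 (nm_eq_zero.1 h0)
  omega

theorem cr_inv {u : F} (h : CR u) : CR u⁻¹ :=
  ⟨fun h1 => h.1 (inv_eq_one.1 h1), red_inv h.2⟩

private theorem red_self_pow {u : F} (h : CR u) (n : ℕ) : Red u (u ^ n) := by
  induction n with
  | zero =>
    rw [pow_zero]
    exact red_one_right u
  | succ n ih =>
    rw [pow_succ']
    exact red_mul_right h.2 ih h.1

theorem cr_nm_pow {u : F} (h : CR u) (n : ℕ) : nm (u ^ n) = n * nm u := by
  induction n with
  | zero => rw [pow_zero, nm_one, Nat.zero_mul]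
  | succ n ih =>
    have h1 : nm (u * u ^ n) = nm u + nm (u ^ n) := red_self_pow h n
    rw [pow_succ', h1, ih]
    ring

theorem cr_red_pow {u : F} (h : CR u) (m n : ℕ) : Red (u ^ m) (u ^ n) := by
  unfold Red
  rw [← pow_add, cr_nm_pow h, cr_nm_pow h, cr_nm_pow h]
  ring

theorem cr_pow {u : F} (h : CR u) {n : ℕ} (hn : 1 ≤ n) : CR (u ^ n) := by
  refine ⟨fun h1 => ?_, cr_red_pow h n n⟩
  have h2 := cr_nm_pow h n
  rw [h1, nm_one] at h2
  have h3 := cr_nm_pos h
  have h4 : 0 < n * nm u := Nat.mul_pos hn h3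
  omega

/-- if `z * u` is reduced (`u` cyclically reduced) then so is `z * u ^ n` -/
theorem red_mul_cr_pow {u z : F} (h : CR u) (hz : Red z u) (n : ℕ) : Red z (u ^ n) := by
  cases n with
  | zero =>
    rw [pow_zero]
    exact red_one_right z
  | succ n =>
    rw [pow_succ']
    exact red_mul_right hz (red_self_pow h n) h.1

/-- if `u * z` is reduced (`u` cyclically reduced) then so is `u ^ n * z` -/
theorem red_cr_pow_mul {u z : F} (h : CR u) (hz : Red u z) (n : ℕ) : Red (u ^ n) z := by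
  cases n with
  | zero =>
    rw [pow_zero]
    exact red_one_left z
  | succ n =>
    rw [pow_succ]
    have h1 := cr_red_pow h n 1
    rw [pow_one] at h1
    exact red_mul_left h1 hz h.1

theorem exists_cr {x : F} (hx : x ≠ 1) : ∃ c u : F, CR u ∧ x = c * u * c⁻¹ := by
  have hred : FreeGroup.IsReduced x.toWord := FreeGroup.isReduced_toWord
  have hcyc := FreeGroup.reduceCyclically.isCyclicallyReduced hred
  have hconj := FreeGroup.reduceCyclically.conj_conjugator_reduceCyclically x.toWord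
  generalize FreeGroup.reduceCyclically x.toWord = L at hcyc hconj
  generalize FreeGroup.reduceCyclically.conjugator x.toWord = C at hconj
  have hx1 : x = FreeGroup.mk C * FreeGroup.mk L * (FreeGroup.mk C)⁻¹ := by
    rw [FreeGroup.inv_mk, FreeGroup.mul_mk, FreeGroup.mul_mk, hconj, FreeGroup.mk_toWord]
  refine ⟨FreeGroup.mk C, FreeGroup.mk L, ⟨fun h1 => hx ?_, ?_⟩, hx1⟩
  · rw [hx1, h1, mul_one, mul_inv_cancel]
  · rw [red_iff]
    have h2 := (hcyc.flatten_replicate 2).isReduced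
    have h3 : (List.replicate 2 L).flatten = L ++ L := by
      simp [List.replicate_succ]
    rw [h3] at h2
    rw [FreeGroup.mul_mk, FreeGroup.toWord_mk, FreeGroup.toWord_mk, h2.reduce_eq,
      hcyc.isReduced.reduce_eq]

theorem sq_eq_one {x : F} (h : x * x = 1) : x = 1 := by
  by_contra hx
  obtain ⟨c, u, hu, rfl⟩ := exists_cr hx
  have h1 : c * (u * u) * c⁻¹ = 1 := by
    rw [← h]
    group
  have h2 : u * u = 1 := by
    have h3 : u * u = c⁻¹ * (c * (u * u) * c⁻¹) * c := by group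
    rw [h3, h1]
    group
  have h4 : nm (u * u) = nm u + nm u := hu.2
  rw [h2, nm_one] at h4
  have h5 := cr_nm_pos hu
  omega

theorem suf_iff (s x : F) : Suf s x ↔ nm x = nm (x * s⁻¹) + nm s := by
  unfold Suf Pre
  have e : s⁻¹⁻¹ * x⁻¹ = (x * s⁻¹)⁻¹ := by group
  rw [e, nm_inv, nm_inv, nm_inv, add_comm]

theorem suf_refl (s : F) : Suf s s := pre_refl _

theorem suf_mul_of_red {x s : F} (h : Red x s) : Suf s (x * s) := by
  rw [suf_iff, mul_inv_cancel_right]
  exact h

/-- junction: `x` ends with `u`, `y` begins with `u` -/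
theorem red_of_suf_pre {u x y : F} (h : CR u) (hx : Suf u x) (hy : Pre u y) : Red x y := by
  have h1 : Red (x * u⁻¹) u := by
    unfold Red
    rw [inv_mul_cancel_right]
    exact (suf_iff u x).1 hx
  have h2 : Red u (u⁻¹ * y) := (pre_iff_red u y).1 hy
  have h3 : Red (x * u⁻¹ * u) u := red_mul_left h1 h.2 h.1
  rw [inv_mul_cancel_right] at h3
  have h4 : Red x (u * (u⁻¹ * y)) := red_mul_right h3 h2 h.1
  rwa [mul_inv_cancel_left] at h4

theorem pre_mul {u x y : F} (hx : Pre u x) (h : Red x y) : Pre u (x * y) :=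
  pre_trans hx (pre_mul_of_red h)

theorem suf_mul {u x y : F} (hy : Suf u y) (h : Red x y) : Suf u (x * y) := by
  unfold Suf at *
  rw [mul_inv_rev]
  exact pre_mul hy (red_inv h)

/-- an element which begins and ends with the cyclically reduced `u` is cyclically reduced -/
theorem cr_of_ends {u x : F} (h : CR u) (hp : Pre u x) (hs : Suf u x) : CR x := by
  refine ⟨fun h1 => ?_, red_of_suf_pre h hs hp⟩
  have h2 := pre_nm_le hp
  rw [h1, nm_one] at h2
  have h3 := cr_nm_pos h
  omega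

/-- a conjugation `w⁻¹ u w = u⁻¹` with a prefix `w` of `u` is impossible -/
theorem no_inv_conj {u w : F} (h : CR u) (hw : Pre w u) : w⁻¹ * u * w ≠ u⁻¹ := by
  intro he
  have h1 : Red w (w⁻¹ * u) := (pre_iff_red w u).1 hw
  have h2 : nm u = nm w + nm (w⁻¹ * u) := hw
  have h3 : Red (w⁻¹ * u) w := by
    unfold Red
    rw [he, nm_inv, h2]
    ring
  have h4 : Pre (w⁻¹ * u) u⁻¹ := by
    rw [← he]
    exact pre_mul_of_red h3
  have h5 : Pre (w⁻¹ * u)⁻¹ u⁻¹ := by
    have h6 := pre_mul_of_red (red_inv h1)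
    have e : (w⁻¹ * u)⁻¹ * w⁻¹ = u⁻¹ := by group
    rwa [e] at h6
  have h7 : w⁻¹ * u = (w⁻¹ * u)⁻¹ := pre_unique h4 h5 (nm_inv _).symm
  have h8 : w⁻¹ * u * (w⁻¹ * u) = 1 := by
    nth_rewrite 1 [h7]
    exact inv_mul_cancel _
  have h9 : w⁻¹ * u = 1 := sq_eq_one h8
  have h10 : w = u := by
    have h11 := inv_mul_eq_one.1 h9
    exact h11
  rw [h10] at he
  have h12 : u * u = 1 := by
    have h13 : u⁻¹ * u * u = u := by group
    rw [h13] at he
    nth_rewrite 1 [he]
    exact inv_mul_cancel _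
  exact h.1 (sq_eq_one h12)

theorem pre_power {u r : F} {c m : ℕ} (h : CR u) (hr : nm r ≤ c) (hm : c + 1 ≤ m) :
    Pre u (u ^ m * r) := by
  obtain ⟨k, rfl⟩ : ∃ k, m = k + 1 := ⟨m - 1, by omega⟩
  refine pre_stable ?_ ?_
  · rw [pow_succ']
    exact pre_mul_of_red (red_self_pow h k)
  · rw [pow_succ', inv_mul_cancel_left, cr_nm_pow h]
    have h1 := cr_nm_pos h
    nlinarith

theorem suf_power {u r : F} {c m : ℕ} (h : CR u) (hr : nm r ≤ c) (hm : c + 1 ≤ m) :
    Suf u (r * u ^ m) := by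
  unfold Suf
  rw [mul_inv_rev, ← inv_pow]
  exact pre_power (cr_inv h) (by rwa [nm_inv]) hm

/-- a long power of `u` between short elements contains a reduced factor `u` -/
theorem traverse {u : F} (h : CR u) (c : ℕ) (r r' : F) (hr : nm r ≤ c) (hr' : nm r' ≤ c) (k : ℕ)
    (hk : 2 * c + 3 ≤ k) :
    r⁻¹ * u ^ k * r' = (r⁻¹ * u ^ (c + 1)) * u * (u ^ (k - c - 2) * r') ∧
      nm (r⁻¹ * u ^ k * r') = nm (r⁻¹ * u ^ (c + 1)) + nm u + nm (u ^ (k - c - 2) * r') := by
  have e : r⁻¹ * u ^ k * r' = (r⁻¹ * u ^ (c + 1)) * u * (u ^ (k - c - 2) * r') := by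
    obtain ⟨j, rfl⟩ : ∃ j, k = c + 1 + 1 + j := ⟨k - c - 2, by omega⟩
    have hj : c + 1 + 1 + j - c - 2 = j := by omega
    rw [hj, pow_add, pow_add u (c + 1) 1, pow_one]
    simp only [mul_assoc]
  refine ⟨e, ?_⟩
  rw [e]
  refine red_three ?_ ?_ h.1
  · exact red_of_suf_pre h (suf_power h (by rwa [nm_inv]) (le_refl _)) (pre_refl u)
  · exact red_of_suf_pre h (suf_refl u) (pre_power h hr' (by omega))

end Pool.Agent.FTP
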