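import Mathlib
import Pool.Agent.FTP.Defs
import Pool.Agent.FTP.TreeA
import Pool.Agent.FTP.TreeB
import Pool.Agent.FTP.TreeC
import Pool.Agent.FTP.Lane

/-!
# FTP / LineGeo: the lines `Ln x g ν i = x^(ν 0) g x^(ν 1) g ... x^(ν (i-1)) g`

`x` cyclically reduced, `g ≠ 1`, `Red x g`, `Red g x`, all `ν l ≥ 1`: then all these products are reduced
(`red_three`, `red_mul_left`, `cr_red_pow`, `red_mul_cr_pow`, `red_cr_pow_mul`; `Ln (i+1)` ends with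
`g`, and `x^ν g` is reduced because `x` is, `ν ≥ 1`). So the lengths add up and the points
`Ln i * x^m` (`m ≤ ν i`) form a chain for the prefix order. `ln_vertex`: a prefix of `Ln (i+1)` of
length between `nm (Ln i)` and `nm (Ln i) + ν i * nm x` is `Ln i * x^m * w` with `w` a proper
prefix of `x` (or `m = ν i`, `w = 1`).

Then the special cases `B1`, `B2` of a `Lane`. Parities: `par (B1 n i) = i • β` because `p` is even
(`par (x ^ (p n)) = (p n) • par x = 0` in `(Z/2)^3`), and similarly for `B2`.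
-/

namespace Pool.Agent.FTP

section Lines

variable {x g : F} {ν : ℕ → ℕ}

theorem lnG_pow_ne (hx : CR x) {m : ℕ} (hm : 1 ≤ m) : x ^ m ≠ 1 := by
  intro h
  have h1 := cr_nm_pow hx m
  rw [h, nm_one] at h1
  have h2 := cr_nm_pos hx
  have h3 : 0 < m * nm x := Nat.mul_pos hm h2
  omega

theorem lnG_redA (hx : CR x) (hg : g ≠ 1) (hxg : Red x g) (hgx : Red g x) (hν : ∀ l, 1 ≤ ν l)
    (i : ℕ) : ∀ m : ℕ, Red (Ln x g ν i) (x ^ m) := by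
  induction i with
  | zero =>
    intro m
    exact red_one_left _
  | succ i ih =>
    intro m
    exact red_mul_left (red_mul_left (ih (ν i)) (red_cr_pow_mul hx hxg (ν i))
      (lnG_pow_ne hx (hν i))) (red_mul_cr_pow hx hgx m) hg

theorem lnG_redB (hx : CR x) (hg : g ≠ 1) (hxg : Red x g) (hgx : Red g x) (hν : ∀ l, 1 ≤ ν l)
    (i : ℕ) : Red (Ln x g ν i * x ^ ν i) g :=
  red_mul_left (lnG_redA hx hg hxg hgx hν i (ν i)) (red_cr_pow_mul hx hxg (ν i))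
    (lnG_pow_ne hx (hν i))

theorem ln_nm_pow (hx : CR x) (hg : g ≠ 1) (hxg : Red x g) (hgx : Red g x) (hν : ∀ l, 1 ≤ ν l)
    (i m : ℕ) : nm (Ln x g ν i * x ^ m) = nm (Ln x g ν i) + m * nm x := by
  have h := lnG_redA hx hg hxg hgx hν i m
  unfold Red at h
  rw [h, cr_nm_pow hx m]

theorem ln_nm_succ (hx : CR x) (hg : g ≠ 1) (hxg : Red x g) (hgx : Red g x) (hν : ∀ l, 1 ≤ ν l)
    (i : ℕ) : nm (Ln x g ν (i + 1)) = nm (Ln x g ν i) + ν i * nm x + nm g := by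
  have h := lnG_redB hx hg hxg hgx hν i
  unfold Red at h
  show nm (Ln x g ν i * x ^ ν i * g) = _
  rw [h, ln_nm_pow hx hg hxg hgx hν i (ν i)]

theorem ln_pre_pow (hx : CR x) (hg : g ≠ 1) (hxg : Red x g) (hgx : Red g x) (hν : ∀ l, 1 ≤ ν l)
    (i : ℕ) {m m' : ℕ} (h : m ≤ m') : Pre (Ln x g ν i * x ^ m) (Ln x g ν i * x ^ m') := by
  unfold Pre
  obtain ⟨k, rfl⟩ := Nat.exists_eq_add_of_le h
  have e : (Ln x g ν i * x ^ m)⁻¹ * (Ln x g ν i * x ^ (m + k)) = x ^ k := by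
    rw [pow_add]
    group
  rw [e, ln_nm_pow hx hg hxg hgx hν, ln_nm_pow hx hg hxg hgx hν, cr_nm_pow hx k]
  ring

theorem ln_pre_succ (hx : CR x) (hg : g ≠ 1) (hxg : Red x g) (hgx : Red g x) (hν : ∀ l, 1 ≤ ν l)
    (i : ℕ) {m : ℕ} (h : m ≤ ν i) : Pre (Ln x g ν i * x ^ m) (Ln x g ν (i + 1)) :=
  pre_trans (ln_pre_pow hx hg hxg hgx hν i h) (pre_mul_of_red (lnG_redB hx hg hxg hgx hν i))

theorem ln_pre (hx : CR x) (hg : g ≠ 1) (hxg : Red x g) (hgx : Red g x) (hν : ∀ l, 1 ≤ ν l)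
    {i j : ℕ} (h : i ≤ j) : Pre (Ln x g ν i) (Ln x g ν j) := by
  induction j, h using Nat.le_induction with
  | base => exact pre_refl _
  | succ j _ ih =>
    have h1 := ln_pre_succ hx hg hxg hgx hν j (m := 0) (Nat.zero_le _)
    rw [pow_zero, mul_one] at h1
    exact pre_trans ih h1

/-- prefixes of a power -/
theorem lnG_pow_pre (hx : CR x) {N : ℕ} {t : F} (ht : Pre t (x ^ N)) :
    ∃ (m : ℕ) (w : F), m ≤ N ∧ Pre w x ∧ nm w < nm x ∧ t = x ^ m * w := by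
  have hpos := cr_nm_pos hx
  have hle := pre_nm_le ht
  rw [cr_nm_pow hx N] at hle
  have hpow : ∀ {a b : ℕ}, a ≤ b → Pre (x ^ a) (x ^ b) := by
    intro a b hab
    obtain ⟨k, rfl⟩ := Nat.exists_eq_add_of_le hab
    rw [pow_add]
    exact pre_mul_of_red (cr_red_pow hx a k)
  have hdm := Nat.div_add_mod (nm t) (nm x)
  have hmod := Nat.mod_lt (nm t) hpos
  have hmN : nm t / nm x ≤ N := by
    have := Nat.div_le_div_right (c := nm x) hle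
    rwa [Nat.mul_div_cancel _ hpos] at this
  set m := nm t / nm x with hm
  have hmul : m * nm x ≤ nm t := Nat.div_mul_le_self _ _
  have hpre : Pre (x ^ m) t := by
    refine pre_of_le (hpow hmN) ht ?_
    rw [cr_nm_pow hx m]
    exact hmul
  have hw : nm t = m * nm x + nm ((x ^ m)⁻¹ * t) := by
    have := hpre
    unfold Pre at this
    rwa [cr_nm_pow hx m] at this
  have hcomm : nm x * m = m * nm x := Nat.mul_comm _ _
  have hwlt : nm ((x ^ m)⁻¹ * t) < nm x := by omega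
  refine ⟨m, (x ^ m)⁻¹ * t, hmN, ?_, hwlt, by group⟩
  rcases Nat.lt_or_ge m N with hlt | hge
  · have h1 : Pre t (x ^ (m + 1)) := by
      refine pre_of_le ht (hpow hlt) ?_
      rw [cr_nm_pow hx (m + 1), Nat.add_mul, one_mul]
      omega
    unfold Pre at h1 ⊢
    have e : ((x ^ m)⁻¹ * t)⁻¹ * x = t⁻¹ * x ^ (m + 1) := by
      rw [pow_succ]
      group
    rw [e]
    rw [cr_nm_pow hx (m + 1), Nat.add_mul, one_mul] at h1
    omega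
  · have hmN' : m = N := le_antisymm hmN hge
    rw [← hmN'] at hle
    have h0 : nm ((x ^ m)⁻¹ * t) = 0 := by omega
    rw [nm_eq_zero.1 h0]
    exact pre_one x

/-- prefixes of the periodic part of a block -/
theorem ln_vertex (hx : CR x) (hg : g ≠ 1) (hxg : Red x g) (hgx : Red g x) (hν : ∀ l, 1 ≤ ν l)
    {i j : ℕ} (hij : i < j) {v : F} (hv : Pre v (Ln x g ν j)) (h1 : nm (Ln x g ν i) ≤ nm v)
    (h2 : nm v ≤ nm (Ln x g ν i) + ν i * nm x) :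
    ∃ (m : ℕ) (w : F), m ≤ ν i ∧ Pre w x ∧ nm w < nm x ∧ v = Ln x g ν i * x ^ m * w := by
  have hz : Pre (Ln x g ν i * x ^ ν i) (Ln x g ν j) :=
    pre_trans (ln_pre_succ hx hg hxg hgx hν i le_rfl) (ln_pre hx hg hxg hgx hν hij)
  have hvz : Pre v (Ln x g ν i * x ^ ν i) := by
    refine pre_of_le hv hz ?_
    rw [ln_nm_pow hx hg hxg hgx hν]
    exact h2
  have hiv : Pre (Ln x g ν i) v :=
    pre_of_le (ln_pre hx hg hxg hgx hν hij.le) hv h1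
  have ht : Pre ((Ln x g ν i)⁻¹ * v) (x ^ ν i) := by
    unfold Pre at hvz hiv ⊢
    have e : ((Ln x g ν i)⁻¹ * v)⁻¹ * x ^ ν i = v⁻¹ * (Ln x g ν i * x ^ ν i) := by group
    rw [e]
    rw [ln_nm_pow hx hg hxg hgx hν] at hvz
    rw [cr_nm_pow hx (ν i)]
    omega
  obtain ⟨m, w, hm, hw, hwlt, e⟩ := lnG_pow_pre hx ht
  refine ⟨m, w, hm, hw, hwlt, ?_⟩
  rw [mul_assoc, ← e]
  group

end Lines

namespace Lane

variable (Λ : Lane) {n : ℕ → ℕ} (hn : ∀ i, 1 ≤ n i)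

include hn

theorem lnG_hp (l : ℕ) : 1 ≤ Λ.p * n l := Nat.mul_pos Λ.hp (hn l)

theorem lnG_hq (l : ℕ) : 1 ≤ Λ.q * n l := Nat.mul_pos Λ.hq (hn l)

theorem b1_nm_pow (i m : ℕ) : nm (Λ.B1 n i * Λ.x ^ m) = nm (Λ.B1 n i) + m * nm Λ.x :=
  ln_nm_pow Λ.hx Λ.hg1n Λ.hxg Λ.hgx (Λ.lnG_hp hn) i m

theorem b2_nm_pow (i m : ℕ) : nm (Λ.B2 n i * Λ.y ^ m) = nm (Λ.B2 n i) + m * nm Λ.y :=
  ln_nm_pow Λ.hy Λ.hg2n Λ.hyg Λ.hgy (Λ.lnG_hq hn) i m

theorem b1_nm_succ (i : ℕ) :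
    nm (Λ.B1 n (i + 1)) = nm (Λ.B1 n i) + Λ.p * n i * nm Λ.x + nm Λ.g1 :=
  ln_nm_succ Λ.hx Λ.hg1n Λ.hxg Λ.hgx (Λ.lnG_hp hn) i

theorem b2_nm_succ (i : ℕ) :
    nm (Λ.B2 n (i + 1)) = nm (Λ.B2 n i) + Λ.q * n i * nm Λ.y + nm Λ.g2 :=
  ln_nm_succ Λ.hy Λ.hg2n Λ.hyg Λ.hgy (Λ.lnG_hq hn) i

theorem b1_pre_succ (i : ℕ) {m : ℕ} (h : m ≤ Λ.p * n i) :
    Pre (Λ.B1 n i * Λ.x ^ m) (Λ.B1 n (i + 1)) :=
  ln_pre_succ Λ.hx Λ.hg1n Λ.hxg Λ.hgx (Λ.lnG_hp hn) i h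

theorem b2_pre_succ (i : ℕ) {m : ℕ} (h : m ≤ Λ.q * n i) :
    Pre (Λ.B2 n i * Λ.y ^ m) (Λ.B2 n (i + 1)) :=
  ln_pre_succ Λ.hy Λ.hg2n Λ.hyg Λ.hgy (Λ.lnG_hq hn) i h

theorem b1_pre {i j : ℕ} (h : i ≤ j) : Pre (Λ.B1 n i) (Λ.B1 n j) :=
  ln_pre Λ.hx Λ.hg1n Λ.hxg Λ.hgx (Λ.lnG_hp hn) h

theorem b2_pre {i j : ℕ} (h : i ≤ j) : Pre (Λ.B2 n i) (Λ.B2 n j) :=
  ln_pre Λ.hy Λ.hg2n Λ.hyg Λ.hgy (Λ.lnG_hq hn) h

theorem b2_nm_mono {i j : ℕ} (h : i ≤ j) : nm (Λ.B2 n i) ≤ nm (Λ.B2 n j) :=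
  pre_nm_le (Λ.b2_pre hn h)

theorem b1_nm_mono {i j : ℕ} (h : i ≤ j) : nm (Λ.B1 n i) ≤ nm (Λ.B1 n j) :=
  pre_nm_le (Λ.b1_pre hn h)

/-- prefixes in the periodic part of the block `i` of the second line -/
theorem b2_vertex {i j : ℕ} (hij : i < j) {v : F} (hv : Pre v (Λ.B2 n j))
    (h1 : nm (Λ.B2 n i) ≤ nm v) (h2 : nm v ≤ nm (Λ.B2 n i) + Λ.q * n i * nm Λ.y) :
    ∃ (m : ℕ) (w : F), m ≤ Λ.q * n i ∧ Pre w Λ.y ∧ nm w < nm Λ.y ∧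
      v = Λ.B2 n i * Λ.y ^ m * w :=
  ln_vertex Λ.hy Λ.hg2n Λ.hyg Λ.hgy (Λ.lnG_hq hn) hij hv h1 h2

omit hn

theorem lnG_even {p : ℕ} (hp : Even p) (k : ℕ) (v : Fin 3 → ZMod 2) : (p * k) • v = 0 := by
  obtain ⟨r, rfl⟩ := hp
  funext i
  rw [Pi.smul_apply, nsmul_eq_mul]
  push_cast
  have h : (r : ZMod 2) + r = 0 := CharTwo.add_self_eq_zero _
  rw [h, zero_mul, zero_mul]
  rfl

theorem par_B1 (n : ℕ → ℕ) (i : ℕ) : par (Λ.B1 n i) = i • Λ.β := by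
  induction i with
  | zero =>
    show par 1 = _
    rw [par_one, zero_smul]
  | succ i ih =>
    show par (Λ.B1 n i * Λ.x ^ (Λ.p * n i) * Λ.g1) = _
    rw [par_mul, par_mul, par_pow, lnG_even Λ.hpe, ih, Λ.hg1, add_zero, succ_nsmul]

theorem par_B2 (n : ℕ → ℕ) (i : ℕ) : par (Λ.B2 n i) = i • Λ.β := by
  induction i with
  | zero =>
    show par 1 = _
    rw [par_one, zero_smul]
  | succ i ih =>
    show par (Λ.B2 n i * Λ.y ^ (Λ.q * n i) * Λ.g2) = _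
    rw [par_mul, par_mul, par_pow, lnG_even Λ.hqe, ih, Λ.hg2, add_zero, succ_nsmul]

end Lane

end Pool.Agent.FTP
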