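import Mathlib
import Pool.Agent.FTP.Defs
import Pool.Agent.FTP.TreeA
import Pool.Agent.FTP.Words
import Pool.Agent.FTP.Lane
import Pool.Agent.FTP.LineGeo

/-!
# FTP / StepCost: explicit words along the corridor

`step_cost`: for every `D` there is `Fc` such that for all `N ≥ 1` and all `i` there is a word `l` in `A`
with `S i * l.prod = S (i+1)` (block lengths `nn N D`) and `m0 |l| - χ l.prod ≤ Fc`.

Proof. `l = U^N ++ l'` where `U^N` is the word `U` repeated `N` times, product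
`(ρ1⁻¹ x^(pN) ρ1, ρ2⁻¹ y^(qN) ρ2)`, and `l'` is a word for
`V = (ρ1⁻¹ x^(p (n_i - N)) g1 ρ1, ρ2⁻¹ y^(q (n_{i+2} - N)) g2 ρ2)` of length `wl A V`. Here `V ∈ GG`: both
components have parity `β` (`p, q` even). There are only four possibilities for `V`:
`n_i - N, n_{i+2} - N ∈ {0, D}`. Since all letters of `U` are tight, `m0 |U^N| = χ (U^N)`, so
`m0 |l| - χ l.prod = m0 wl A V - χ V`; let `Fc` be the maximum of the four values (and `0`).

`geo_excess`: if `w` is a geodesic word in `A` with `S 0 * w.prod = S M` then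
`m0 |w| - χ w.prod ≤ M Fc` (compare with the concatenation of the words above, which has the same
product; `m0 ≥ 0`: if `χ z ≤ m0` on the symmetric set `A`, then `m0 ≥ 0`, `A` is nonempty because
`M` is (`U` is not empty)).
-/

namespace Pool.Agent.FTP

theorem chi_one (Λ : Lane) : Λ.χ 1 = 0 := by
  have h := Λ.hχ 1 1
  simp at h
  exact h

theorem m0_nonneg (Λ : Lane) : 0 ≤ Λ.m0 := by
  have hlen : Λ.U.length = Λ.p * Λ.u := Λ.hUl
  have hpos : 0 < Λ.U.length := by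
    rw [hlen]
    exact Nat.mul_pos Λ.hp Λ.hu
  obtain ⟨z, hz⟩ := List.exists_mem_of_length_pos hpos
  have hzM : z ∈ Λ.M := Λ.hU z hz
  have hzA : z ∈ Λ.A := Λ.hMA hzM
  have h1 := Λ.hχle z hzA
  have h2 := Λ.hχle z⁻¹ (Λ.hAsym z hzA)
  have h3 : Λ.χ (z * z⁻¹) = Λ.χ z + Λ.χ z⁻¹ := Λ.hχ z z⁻¹
  rw [mul_inv_cancel, chi_one] at h3
  linarith

/-- the excess of a word is nonnegative, and zero for words in `M` -/
theorem excess_nonneg (Λ : Lane) {l : List (F × F)} (h : IsWord Λ.A l) :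
    Λ.χ l.prod ≤ Λ.m0 * l.length := by
  induction l with
  | nil =>
    rw [List.prod_nil, chi_one]
    simp
  | cons z l ih =>
    have hz : z ∈ Λ.A := h z (List.mem_cons_self)
    have hl : IsWord Λ.A l := fun a ha => h a (List.mem_cons_of_mem _ ha)
    have h1 := Λ.hχle z hz
    have h2 := ih hl
    rw [List.prod_cons, Λ.hχ, List.length_cons]
    push_cast
    linarith

theorem excess_tight (Λ : Lane) {l : List (F × F)} (h : IsWord Λ.M l) :
    Λ.χ l.prod = Λ.m0 * l.length := by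
  induction l with
  | nil =>
    rw [List.prod_nil, chi_one]
    simp
  | cons z l ih =>
    have hz : z ∈ Λ.M := h z (List.mem_cons_self)
    have hl : IsWord Λ.M l := fun a ha => h a (List.mem_cons_of_mem _ ha)
    have h1 := (Λ.hχM z (Λ.hMA hz)).2 hz
    have h2 := ih hl
    rw [List.prod_cons, Λ.hχ, List.length_cons, h1, h2]
    push_cast
    ring

/-- the product of the additional word of one step -/
private def stepV (Λ : Lane) (n1 n2 : ℕ) : F × F :=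
  (Λ.ρ1⁻¹ * Λ.x ^ (Λ.p * n1) * Λ.g1 * Λ.ρ1, Λ.ρ2⁻¹ * Λ.y ^ (Λ.q * n2) * Λ.g2 * Λ.ρ2)

private theorem even_smul_zero {k : ℕ} (hk : Even k) (v : Fin 3 → ZMod 2) : k • v = 0 := by
  obtain ⟨m, rfl⟩ := hk
  funext i
  have h2 : v i + v i = 0 := CharTwo.add_self_eq_zero (v i)
  simp only [Pi.smul_apply, Pi.zero_apply]
  rw [add_nsmul, ← nsmul_add, h2, nsmul_zero]

private theorem stepV_mem (Λ : Lane) (n1 n2 : ℕ) : stepV Λ n1 n2 ∈ GG := by
  rw [mem_GG]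
  unfold stepV
  simp only
  rw [par_mul, par_mul, par_mul, par_inv, par_pow, Λ.hg1, par_mul, par_mul, par_mul, par_inv,
    par_pow, Λ.hg2, even_smul_zero (Λ.hpe.mul_right n1), even_smul_zero (Λ.hqe.mul_right n2)]
  abel

/-- repeated word -/
private theorem pow_word (Λ : Lane) (N : ℕ) : ∃ l : List (F × F), IsWord Λ.M l ∧
    l.prod = (Λ.ρ1⁻¹ * Λ.x ^ (Λ.p * N) * Λ.ρ1, Λ.ρ2⁻¹ * Λ.y ^ (Λ.q * N) * Λ.ρ2) := by
  induction N with
  | zero =>
    refine ⟨[], isWord_nil, ?_⟩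
    simp
    rfl
  | succ N ih =>
    obtain ⟨l, hl, hp⟩ := ih
    refine ⟨l ++ Λ.U, isWord_append hl Λ.hU, ?_⟩
    rw [List.prod_append, hp, Λ.hUp, Prod.mk_mul_mk, Nat.mul_succ, Nat.mul_succ, pow_add, pow_add]
    congr 1
    · group
    · group

/-- cost of the additional word -/
private noncomputable def stepC (Λ : Lane) (n1 n2 : ℕ) : ℤ :=
  Λ.m0 * wl Λ.A (stepV Λ n1 n2) - Λ.χ (stepV Λ n1 n2)

private theorem step_eq (Λ : Lane) (n : ℕ → ℕ) (N i n1 n2 : ℕ) (h1 : n i = N + n1)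
    (h2 : n (i + 2) = N + n2) :
    Λ.S n i * ((Λ.ρ1⁻¹ * Λ.x ^ (Λ.p * N) * Λ.ρ1, Λ.ρ2⁻¹ * Λ.y ^ (Λ.q * N) * Λ.ρ2) *
      stepV Λ n1 n2) = Λ.S n (i + 1) := by
  have e1 : Λ.B1 n (i + 1) = Λ.B1 n i * Λ.x ^ (Λ.p * n i) * Λ.g1 := rfl
  have e2 : Λ.B2 n (i + 1 + 2) = Λ.B2 n (i + 2) * Λ.y ^ (Λ.q * n (i + 2)) * Λ.g2 := rfl
  unfold Lane.S stepV
  rw [e1, e2, h1, h2, mul_add, mul_add, pow_add, pow_add, Prod.mk_mul_mk, Prod.mk_mul_mk]
  congr 1
  · group
  · group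

private theorem step_aux (Λ : Lane) (n : ℕ → ℕ) (N i n1 n2 : ℕ) (h1 : n i = N + n1)
    (h2 : n (i + 2) = N + n2) :
    ∃ l : List (F × F), IsWord Λ.A l ∧ Λ.S n i * l.prod = Λ.S n (i + 1) ∧
      Λ.m0 * l.length - Λ.χ l.prod ≤ stepC Λ n1 n2 := by
  obtain ⟨l1, hl1, hp1⟩ := pow_word Λ N
  have hV : stepV Λ n1 n2 ∈ Subgroup.closure Λ.A := by
    rw [Λ.hAcl]
    exact stepV_mem Λ n1 n2
  obtain ⟨l2, hl2, hp2, hlen2⟩ := exists_geo (exists_word Λ.hAsym hV)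
  have hl1A : IsWord Λ.A l1 := fun a ha => Λ.hMA (hl1 a ha)
  refine ⟨l1 ++ l2, isWord_append hl1A hl2, ?_, ?_⟩
  · rw [List.prod_append, hp1, hp2]
    exact step_eq Λ n N i n1 n2 h1 h2
  · have h3 := excess_tight Λ hl1
    rw [List.prod_append, Λ.hχ, List.length_append, h3, hp2, hlen2]
    unfold stepC
    push_cast
    linarith

theorem step_cost (Λ : Lane) (D : ℕ) : ∃ Fc : ℕ, ∀ (N i : ℕ), 1 ≤ N →
    ∃ l : List (F × F), IsWord Λ.A l ∧ Λ.S (nn N D) i * l.prod = Λ.S (nn N D) (i + 1) ∧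
      Λ.m0 * l.length - Λ.χ l.prod ≤ Fc := by
  refine ⟨(stepC Λ 0 0).toNat + (stepC Λ 0 D).toNat + (stepC Λ D 0).toNat +
    (stepC Λ D D).toNat, ?_⟩
  intro N i _
  have hn : ∀ l, nn N D l = N + 0 ∨ nn N D l = N + D := by
    intro l
    unfold nn
    split
    · right; rfl
    · left; rfl
  have t1 := Int.self_le_toNat (stepC Λ 0 0)
  have t2 := Int.self_le_toNat (stepC Λ 0 D)
  have t3 := Int.self_le_toNat (stepC Λ D 0)
  have t4 := Int.self_le_toNat (stepC Λ D D)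
  have s1 : (0 : ℤ) ≤ (stepC Λ 0 0).toNat := Int.natCast_nonneg _
  have s2 : (0 : ℤ) ≤ (stepC Λ 0 D).toNat := Int.natCast_nonneg _
  have s3 : (0 : ℤ) ≤ (stepC Λ D 0).toNat := Int.natCast_nonneg _
  have s4 : (0 : ℤ) ≤ (stepC Λ D D).toNat := Int.natCast_nonneg _
  rcases hn i with h1 | h1 <;> rcases hn (i + 2) with h2 | h2
  · obtain ⟨l, hl, hp, hc⟩ := step_aux Λ (nn N D) N i 0 0 h1 h2
    refine ⟨l, hl, hp, ?_⟩
    push_cast
    linarith
  · obtain ⟨l, hl, hp, hc⟩ := step_aux Λ (nn N D) N i 0 D h1 h2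
    refine ⟨l, hl, hp, ?_⟩
    push_cast
    linarith
  · obtain ⟨l, hl, hp, hc⟩ := step_aux Λ (nn N D) N i D 0 h1 h2
    refine ⟨l, hl, hp, ?_⟩
    push_cast
    linarith
  · obtain ⟨l, hl, hp, hc⟩ := step_aux Λ (nn N D) N i D D h1 h2
    refine ⟨l, hl, hp, ?_⟩
    push_cast
    linarith

private theorem concat_words (Λ : Lane) (S : ℕ → F × F) (Fc : ℕ)
    (h : ∀ i, ∃ l : List (F × F), IsWord Λ.A l ∧ S i * l.prod = S (i + 1) ∧
      Λ.m0 * l.length - Λ.χ l.prod ≤ Fc) (M : ℕ) :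
    ∃ l : List (F × F), IsWord Λ.A l ∧ S 0 * l.prod = S M ∧
      Λ.m0 * l.length - Λ.χ l.prod ≤ M * Fc := by
  induction M with
  | zero =>
    refine ⟨[], isWord_nil, by simp, ?_⟩
    rw [List.prod_nil, chi_one]
    simp
  | succ M ih =>
    obtain ⟨l, hl, hp, hc⟩ := ih
    obtain ⟨l', hl', hp', hc'⟩ := h M
    refine ⟨l ++ l', isWord_append hl hl', ?_, ?_⟩
    · rw [List.prod_append, ← mul_assoc, hp, hp']
    · rw [List.prod_append, Λ.hχ, List.length_append]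
      push_cast
      linarith

theorem geo_excess (Λ : Lane) (D : ℕ) : ∃ Fc : ℕ, ∀ (N M : ℕ), 1 ≤ N →
    (∃ w : List (F × F), IsWord Λ.A w ∧ Λ.S (nn N D) 0 * w.prod = Λ.S (nn N D) M ∧
      Geo Λ.A w) ∧
    ∀ w : List (F × F), IsWord Λ.A w → Λ.S (nn N D) 0 * w.prod = Λ.S (nn N D) M → Geo Λ.A w →
      Λ.m0 * w.length - Λ.χ w.prod ≤ M * Fc := by
  obtain ⟨Fc, hFc⟩ := step_cost Λ D
  refine ⟨Fc, ?_⟩
  intro N M hN
  obtain ⟨l, hl, hp, hc⟩ := concat_words Λ (Λ.S (nn N D)) Fc (fun i => hFc N i hN) M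
  refine ⟨?_, ?_⟩
  · obtain ⟨w, hw, hwp, hwl⟩ := exists_geo ⟨l, hl, rfl⟩
    refine ⟨w, hw, ?_, ?_⟩
    · rw [hwp]
      exact hp
    · unfold Geo
      rw [hwl, hwp]
  · intro w hw hwp hwg
    have he : w.prod = l.prod := mul_left_cancel (hwp.trans hp.symm)
    have hle : w.length ≤ l.length := by
      unfold Geo at hwg
      rw [hwg, he]
      exact wl_le hl
    have hm := m0_nonneg Λ
    have h1 : Λ.m0 * (w.length : ℤ) ≤ Λ.m0 * (l.length : ℤ) :=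
      mul_le_mul_of_nonneg_left (by exact_mod_cast hle) hm
    rw [he]
    linarith

end Pool.Agent.FTP
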