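import Mathlib
import Pool.Agent.FTP.Defs
import Pool.Agent.FTP.TreeA
import Pool.Agent.FTP.Words
import Pool.Agent.FTP.Lane
import Pool.Agent.FTP.LineGeo
import Pool.Agent.FTP.StepCost

/-!
# FTP / CorrZero: powers of a period are cheap in the other corridor

Let `n = nn N D`, `j % 4 = 3`, `X = (B1 j)⁻¹ B1 (j+4)`, `Y = (B2 (j+2))⁻¹ B2 (j+6)`. By the definition of
`Ln` and since `n` has period four:
`X = x^(pN) g1 x^(pN) g1 x^(pN) g1 x^(p(N+D)) g1` (`n_3, n_4, n_5, n_6 = N, N, N, N + D`),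
`Y = y^(qN) g2 y^(q(N+D)) g2 y^(qN) g2 y^(qN) g2` (`n_5, n_6, n_7, n_8`). Put
`h = y^(qN) g2 y^(qN) g2` and `Y' = y^(qN) g2 y^(qN) g2 y^(qN) g2 y^(q(N+D)) g2`; then `Y = h⁻¹ Y' h`.
Let `c = (ρ1, ρ2)` and `V0 = c⁻¹ (g1, g2) c ∈ GG`. Then `c⁻¹ (X, Y') c` is the product of the four factors
`c⁻¹ (x^(p n) g1, y^(q n) g2) c = (U.prod)^n * V0`, `n = N, N, N, N + D`, so it is the product of a word in
`A` of length `L0 = (4 N + D) |U| + 4 wl A V0`, and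
`m0 L0 - χ (X, Y) = 4 (m0 wl A V0 - χ (g1, g2)) =: e1` (`χ` is invariant under conjugation;
`m0 |U| = χ (x^p, y^q)`, `excess_tight`).
If `par r1 - par r2 = par ρ1 - par ρ2`, then `c' = (ρ1⁻¹ r1, ρ2⁻¹ h r2) ∈ GG` (`par h = 2 β = 0`), and
`(r1⁻¹ X r1, r2⁻¹ Y r2) = c'⁻¹ (c⁻¹ (X, Y') c) c'`, so its `k`-th power has word length at most
`2 wl A c' + k L0`.
-/

namespace Pool.Agent.FTP

section CZ

variable (Λ : Lane)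

theorem cz_chi_one : Λ.χ 1 = 0 := by
  have h := Λ.hχ 1 1
  rw [one_mul] at h
  linarith

theorem cz_chi_inv (z : F × F) : Λ.χ z⁻¹ = - Λ.χ z := by
  have h := Λ.hχ z⁻¹ z
  rw [inv_mul_cancel, cz_chi_one] at h
  linarith

theorem cz_chi_pow (z : F × F) (n : ℕ) : Λ.χ (z ^ n) = n * Λ.χ z := by
  induction n with
  | zero => rw [pow_zero, cz_chi_one]; simp
  | succ n ih =>
    rw [pow_succ, Λ.hχ, ih]
    push_cast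
    ring

theorem cz_chi_conj (c z : F × F) : Λ.χ (c⁻¹ * z * c) = Λ.χ z := by
  rw [Λ.hχ, Λ.hχ, cz_chi_inv]
  ring

theorem cz_nn3 (N D j : ℕ) (h : j % 4 = 3) : nn N D j = N := by
  unfold nn
  rw [if_neg (by omega)]

theorem cz_nn0 (N D j : ℕ) (h : j % 4 = 0) : nn N D j = N := by
  unfold nn
  rw [if_neg (by omega)]

theorem cz_nn1 (N D j : ℕ) (h : j % 4 = 1) : nn N D j = N := by
  unfold nn
  rw [if_neg (by omega)]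

theorem cz_nn2 (N D j : ℕ) (h : j % 4 = 2) : nn N D j = N + D := by
  unfold nn
  rw [if_pos (by omega)]

theorem cz_X (N D j : ℕ) (h : j % 4 = 3) :
    (Λ.B1 (nn N D) j)⁻¹ * Λ.B1 (nn N D) (j + 4) =
      (Λ.x ^ (Λ.p * N) * Λ.g1) * (Λ.x ^ (Λ.p * N) * Λ.g1) * (Λ.x ^ (Λ.p * N) * Λ.g1) *
        (Λ.x ^ (Λ.p * (N + D)) * Λ.g1) := by
  have h0 : nn N D j = N := cz_nn3 N D j h
  have h1 : nn N D (j + 1) = N := cz_nn0 N D (j + 1) (by omega)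
  have h2 : nn N D (j + 2) = N := cz_nn1 N D (j + 2) (by omega)
  have h3 : nn N D (j + 3) = N + D := cz_nn2 N D (j + 3) (by omega)
  unfold Lane.B1
  rw [show j + 4 = j + 1 + 1 + 1 + 1 by ring]
  simp only [Ln]
  rw [show j + 1 + 1 + 1 = j + 3 by ring, show j + 1 + 1 = j + 2 by ring, h0, h1, h2, h3]
  group

theorem cz_Y (N D j : ℕ) (h : j % 4 = 3) :
    (Λ.B2 (nn N D) (j + 2))⁻¹ * Λ.B2 (nn N D) (j + 6) =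
      (Λ.y ^ (Λ.q * N) * Λ.g2) * (Λ.y ^ (Λ.q * (N + D)) * Λ.g2) * (Λ.y ^ (Λ.q * N) * Λ.g2) *
        (Λ.y ^ (Λ.q * N) * Λ.g2) := by
  have h0 : nn N D (j + 2) = N := cz_nn1 N D (j + 2) (by omega)
  have h1 : nn N D (j + 3) = N + D := cz_nn2 N D (j + 3) (by omega)
  have h2 : nn N D (j + 4) = N := cz_nn3 N D (j + 4) (by omega)
  have h3 : nn N D (j + 5) = N := cz_nn0 N D (j + 5) (by omega)
  unfold Lane.B2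
  rw [show j + 6 = (j + 2) + 1 + 1 + 1 + 1 by ring]
  rw [show Ln Λ.y Λ.g2 (fun l => Λ.q * nn N D l) (j + 2 + 1 + 1 + 1 + 1) =
    Ln Λ.y Λ.g2 (fun l => Λ.q * nn N D l) (j + 2) * Λ.y ^ (Λ.q * nn N D (j + 2)) * Λ.g2 *
      Λ.y ^ (Λ.q * nn N D (j + 3)) * Λ.g2 * Λ.y ^ (Λ.q * nn N D (j + 4)) * Λ.g2 *
      Λ.y ^ (Λ.q * nn N D (j + 5)) * Λ.g2 from rfl]
  rw [h0, h1, h2, h3]
  group

/-- the base point -/
def cz_c : F × F := (Λ.ρ1, Λ.ρ2)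

/-- the element `V0` -/
def cz_V0 : F × F := (cz_c Λ)⁻¹ * (Λ.g1, Λ.g2) * cz_c Λ

theorem cz_V0_mem : cz_V0 Λ ∈ Subgroup.closure Λ.A := by
  rw [Λ.hAcl, mem_GG]
  show par (Λ.ρ1⁻¹ * Λ.g1 * Λ.ρ1) = par (Λ.ρ2⁻¹ * Λ.g2 * Λ.ρ2)
  rw [par_mul, par_mul, par_inv, par_mul, par_mul, par_inv, Λ.hg1, Λ.hg2]
  abel

/-- one factor -/
theorem cz_factor (n : ℕ) : ∃ l : List (F × F), IsWord Λ.A l ∧
    l.prod = (cz_c Λ)⁻¹ * (Λ.x ^ (Λ.p * n) * Λ.g1, Λ.y ^ (Λ.q * n) * Λ.g2) * cz_c Λ ∧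
    l.length = n * (Λ.p * Λ.u) + wl Λ.A (cz_V0 Λ) := by
  obtain ⟨l0, h0, h0p, h0l⟩ := exists_geo (exists_word Λ.hAsym (cz_V0_mem Λ))
  have hUA : IsWord Λ.A Λ.U := fun a ha => Λ.hMA (Λ.hU a ha)
  have key : ∀ n : ℕ, ∃ l : List (F × F), IsWord Λ.A l ∧
      l.prod = (cz_c Λ)⁻¹ * (Λ.x ^ (Λ.p * n), Λ.y ^ (Λ.q * n)) * cz_c Λ ∧
      l.length = n * (Λ.p * Λ.u) := by
    intro n
    induction n with
    | zero =>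
      refine ⟨[], isWord_nil, ?_, by simp⟩
      simp only [Nat.mul_zero, pow_zero, List.prod_nil]
      have e : ((1 : F), (1 : F)) = 1 := rfl
      rw [e]
      group
    | succ n ih =>
      obtain ⟨l, hl, hlp, hll⟩ := ih
      refine ⟨l ++ Λ.U, isWord_append hl hUA, ?_, ?_⟩
      · rw [List.prod_append, hlp, Λ.hUp]
        unfold cz_c
        ext1
        · show Λ.ρ1⁻¹ * Λ.x ^ (Λ.p * n) * Λ.ρ1 * (Λ.ρ1⁻¹ * Λ.x ^ Λ.p * Λ.ρ1) =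
            Λ.ρ1⁻¹ * Λ.x ^ (Λ.p * (n + 1)) * Λ.ρ1
          rw [Nat.mul_succ, pow_add]
          group
        · show Λ.ρ2⁻¹ * Λ.y ^ (Λ.q * n) * Λ.ρ2 * (Λ.ρ2⁻¹ * Λ.y ^ Λ.q * Λ.ρ2) =
            Λ.ρ2⁻¹ * Λ.y ^ (Λ.q * (n + 1)) * Λ.ρ2
          rw [Nat.mul_succ, pow_add]
          group
      · rw [List.length_append, hll, Λ.hUl]
        ring
  obtain ⟨l, hl, hlp, hll⟩ := key n
  refine ⟨l ++ l0, isWord_append hl h0, ?_, ?_⟩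
  · rw [List.prod_append, hlp, h0p]
    unfold cz_V0 cz_c
    ext1
    · show Λ.ρ1⁻¹ * Λ.x ^ (Λ.p * n) * Λ.ρ1 * (Λ.ρ1⁻¹ * Λ.g1 * Λ.ρ1) =
        Λ.ρ1⁻¹ * (Λ.x ^ (Λ.p * n) * Λ.g1) * Λ.ρ1
      group
    · show Λ.ρ2⁻¹ * Λ.y ^ (Λ.q * n) * Λ.ρ2 * (Λ.ρ2⁻¹ * Λ.g2 * Λ.ρ2) =
        Λ.ρ2⁻¹ * (Λ.y ^ (Λ.q * n) * Λ.g2) * Λ.ρ2
      group
  · rw [List.length_append, hll, h0l]

theorem cz_chi_factor (n : ℕ) : Λ.χ (Λ.x ^ (Λ.p * n) * Λ.g1, Λ.y ^ (Λ.q * n) * Λ.g2) =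
    n * (Λ.m0 * (Λ.p * Λ.u : ℕ)) + Λ.χ (Λ.g1, Λ.g2) := by
  have e : (Λ.x ^ (Λ.p * n) * Λ.g1, Λ.y ^ (Λ.q * n) * Λ.g2) =
      (Λ.x ^ Λ.p, Λ.y ^ Λ.q) ^ n * (Λ.g1, Λ.g2) := by
    ext1
    · show Λ.x ^ (Λ.p * n) * Λ.g1 = (Λ.x ^ Λ.p) ^ n * Λ.g1
      rw [pow_mul]
    · show Λ.y ^ (Λ.q * n) * Λ.g2 = (Λ.y ^ Λ.q) ^ n * Λ.g2
      rw [pow_mul]
  have e2 := excess_tight Λ Λ.hU
  have e3 : Λ.U.prod = (cz_c Λ)⁻¹ * (Λ.x ^ Λ.p, Λ.y ^ Λ.q) * cz_c Λ := by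
    rw [Λ.hUp]; rfl
  rw [e3, cz_chi_conj, Λ.hUl] at e2
  rw [e, Λ.hχ, cz_chi_pow, e2]

end CZ

theorem corr_zero (Λ : Lane) : ∃ e1 : ℕ, ∀ N D j : ℕ, 1 ≤ N → j % 4 = 3 →
    ∃ L0 : ℕ, Λ.m0 * L0 - Λ.χ ((Λ.B1 (nn N D) j)⁻¹ * Λ.B1 (nn N D) (j + 4),
        (Λ.B2 (nn N D) (j + 2))⁻¹ * Λ.B2 (nn N D) (j + 6)) ≤ e1 ∧
      ∀ r1 r2 : F, par r1 - par r2 = par Λ.ρ1 - par Λ.ρ2 → ∃ C' : ℕ, ∀ k : ℕ,
        wl Λ.A ((r1⁻¹ * ((Λ.B1 (nn N D) j)⁻¹ * Λ.B1 (nn N D) (j + 4)) * r1,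
          r2⁻¹ * ((Λ.B2 (nn N D) (j + 2))⁻¹ * Λ.B2 (nn N D) (j + 6)) * r2) ^ k) ≤
            C' + k * L0 := by
  set w0 : ℕ := wl Λ.A (cz_V0 Λ) with hw0
  refine ⟨(4 * (Λ.m0 * w0 - Λ.χ (Λ.g1, Λ.g2))).toNat, ?_⟩
  intro N D j _ hj
  rw [cz_X Λ N D j hj, cz_Y Λ N D j hj]
  set a1 : F := Λ.x ^ (Λ.p * N) * Λ.g1 with ha1
  set b1 : F := Λ.x ^ (Λ.p * (N + D)) * Λ.g1 with hb1
  set a2 : F := Λ.y ^ (Λ.q * N) * Λ.g2 with ha2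
  set b2 : F := Λ.y ^ (Λ.q * (N + D)) * Λ.g2 with hb2
  obtain ⟨lN, hlN, hlNp, hlNl⟩ := cz_factor Λ N
  obtain ⟨lD, hlD, hlDp, hlDl⟩ := cz_factor Λ (N + D)
  rw [← ha1, ← ha2] at hlNp
  rw [← hb1, ← hb2] at hlDp
  have hcN := cz_chi_factor Λ N
  have hcD := cz_chi_factor Λ (N + D)
  rw [← ha1, ← ha2] at hcN
  rw [← hb1, ← hb2] at hcD
  -- the word
  have hword : IsWord Λ.A (lN ++ lN ++ lN ++ lD) :=
    isWord_append (isWord_append (isWord_append hlN hlN) hlN) hlD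
  have hwlen : (lN ++ lN ++ lN ++ lD).length = (4 * N + D) * (Λ.p * Λ.u) + 4 * w0 := by
    rw [List.length_append, List.length_append, List.length_append, hlNl, hlDl]
    ring
  have hwprod : (lN ++ lN ++ lN ++ lD).prod =
      (Λ.ρ1⁻¹ * (a1 * a1 * a1 * b1) * Λ.ρ1, Λ.ρ2⁻¹ * (a2 * a2 * a2 * b2) * Λ.ρ2) := by
    rw [List.prod_append, List.prod_append, List.prod_append, hlNp, hlDp]
    unfold cz_c
    ext1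
    · show (Λ.ρ1⁻¹ * a1 * Λ.ρ1) * (Λ.ρ1⁻¹ * a1 * Λ.ρ1) * (Λ.ρ1⁻¹ * a1 * Λ.ρ1) *
        (Λ.ρ1⁻¹ * b1 * Λ.ρ1) = Λ.ρ1⁻¹ * (a1 * a1 * a1 * b1) * Λ.ρ1
      group
    · show (Λ.ρ2⁻¹ * a2 * Λ.ρ2) * (Λ.ρ2⁻¹ * a2 * Λ.ρ2) * (Λ.ρ2⁻¹ * a2 * Λ.ρ2) *
        (Λ.ρ2⁻¹ * b2 * Λ.ρ2) = Λ.ρ2⁻¹ * (a2 * a2 * a2 * b2) * Λ.ρ2
      group
  refine ⟨(4 * N + D) * (Λ.p * Λ.u) + 4 * w0, ?_, ?_⟩
  · have e : Λ.χ (a1 * a1 * a1 * b1, a2 * b2 * a2 * a2) =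
        3 * Λ.χ (a1, a2) + Λ.χ (b1, b2) := by
      have e1 : ((a1 * a1 * a1 * b1, a2 * b2 * a2 * a2) : F × F) =
          (a1, a2) * (1, b2) * (a1, a2) * (a1, a2) * (b1, 1) := by
        ext1
        · show a1 * a1 * a1 * b1 = a1 * 1 * a1 * a1 * b1
          group
        · show a2 * b2 * a2 * a2 = a2 * b2 * a2 * a2 * 1
          group
      have e2 : ((b1, b2) : F × F) = (1, b2) * (b1, 1) := by
        ext1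
        · show b1 = 1 * b1
          rw [one_mul]
        · show b2 = b2 * 1
          rw [mul_one]
      rw [e1, e2, Λ.hχ, Λ.hχ, Λ.hχ, Λ.hχ, Λ.hχ]
      ring
    rw [e, hcN, hcD]
    refine le_trans (le_of_eq ?_) (Int.self_le_toNat _)
    push_cast
    ring
  · intro r1 r2 hr
    set h : F := a2 * a2 with hh
    set c' : F × F := (Λ.ρ1⁻¹ * r1, Λ.ρ2⁻¹ * h * r2) with hc'
    have hparh : par h = 0 := by
      rw [hh, par_mul, ← two_nsmul]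
      funext i
      show (2 : ℕ) • (par a2 i) = 0
      generalize par a2 i = z
      revert z
      decide
    have hc'mem : c' ∈ Subgroup.closure Λ.A := by
      rw [Λ.hAcl, mem_GG]
      show par (Λ.ρ1⁻¹ * r1) = par (Λ.ρ2⁻¹ * h * r2)
      rw [par_mul, par_inv, par_mul, par_mul, par_inv, hparh]
      have : par r1 = par r2 + (par Λ.ρ1 - par Λ.ρ2) := by
        rw [← hr]; abel
      rw [this]
      abel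
    have hWmem := word_mem hword
    have hWwl : wl Λ.A (lN ++ lN ++ lN ++ lD).prod ≤ (4 * N + D) * (Λ.p * Λ.u) + 4 * w0 := by
      rw [← hwlen]
      exact wl_le hword
    have heq : ((r1⁻¹ * (a1 * a1 * a1 * b1) * r1, r2⁻¹ * (a2 * b2 * a2 * a2) * r2) : F × F) =
        c'⁻¹ * (lN ++ lN ++ lN ++ lD).prod * c' := by
      rw [hwprod]
      ext1
      · show r1⁻¹ * (a1 * a1 * a1 * b1) * r1 = (Λ.ρ1⁻¹ * r1)⁻¹ *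
          (Λ.ρ1⁻¹ * (a1 * a1 * a1 * b1) * Λ.ρ1) * (Λ.ρ1⁻¹ * r1)
        group
      · show r2⁻¹ * (a2 * b2 * a2 * a2) * r2 = (Λ.ρ2⁻¹ * (a2 * a2) * r2)⁻¹ *
          (Λ.ρ2⁻¹ * (a2 * a2 * a2 * b2) * Λ.ρ2) * (Λ.ρ2⁻¹ * (a2 * a2) * r2)
        group
    refine ⟨2 * wl Λ.A c', ?_⟩
    intro k
    rw [heq]
    have hconj : (c'⁻¹ * (lN ++ lN ++ lN ++ lD).prod * c') ^ k =
        c'⁻¹ * (lN ++ lN ++ lN ++ lD).prod ^ k * c' := by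
      have := conj_pow (a := c'⁻¹) (b := (lN ++ lN ++ lN ++ lD).prod) (i := k)
      rw [inv_inv] at this
      exact this
    rw [hconj]
    have i1 := wl_mul_le Λ.hAsym
      (Subgroup.mul_mem _ (Subgroup.inv_mem _ hc'mem) (Subgroup.pow_mem _ hWmem k)) hc'mem
    have i2 := wl_mul_le Λ.hAsym (Subgroup.inv_mem _ hc'mem) (Subgroup.pow_mem _ hWmem k)
    have i3 := wl_inv Λ.hAsym hc'mem
    have i4 := wl_pow_le Λ.hAsym hWmem k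
    have i5 := Nat.mul_le_mul_left k hWwl
    omega

end Pool.Agent.FTP
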