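import Mathlib
import Pool.Agent.FTP.Defs

/-!
# FTP / Comb: three combinatorial lemmas

* `run_split`: let `f : ℕ → ℤ` increase by at most `R` per step on `[s, s')` and by at most `A` on every
  subinterval `[t, t']` without bad times (all `v` with `t ≤ v ≤ t'` are not bad). Then
  `f s' - f s ≤ (A + 2 R) (cnt bad s s' + 1)`.
  Induction on `s'` (or on the number of bad times in `[s, s')`): no bad time in `[s, s')`: the
  interval `[s, s'-1]` and one step. Otherwise let `v0` be the first bad time: `f` increases by at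
  most `A + R` from `s` to `v0`, by `R` from `v0` to `v0 + 1`, and the rest by induction.

* `last_occ` (last occurrence trick): let `w : ℕ → ℤ` and states `st : ℕ → S` (`S` a finite type with
  `n` elements) such that `w a ≤ w b` whenever `l ≤ a ≤ b ≤ m` and `st a = st b`, and
  `w a - w (a+1) ≤ c` for `l ≤ a < m`. Then `w l - w m ≤ c * n`.
  Proof: let `a_0` be the last time with the state of `l`: `w a_0 ≥ w l`; `w (a_0+1) ≥ w a_0 - c`; let
  `a_1` be the last time with the state of `a_0 + 1`, ... ; every state is used at most once, so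
  after at most `n` rounds (with at most `n - 1 ≤ n` steps of cost `c`) we are at `m`.
  (Induction on the number of states that occur in `[l, m]`, for all `l`.)

* `cover` (Vitali type covering lemma on the line): let `Q` be a predicate on times (special times)
  and `S` a finite set of times in `[a, b)` such that every `t ∈ S` lies in an interval `[s, s']`,
  `a ≤ s ≤ t ≤ s' ≤ b`, with `s' - s ≤ C0 + c1 * cnt Q s s'` and `1 ≤ cnt Q s s'`. Then
  `S.card ≤ 2 * (C0 + c1 + 1) * cnt Q a b`.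
  Proof (greedy): process from the left: `t_1 = min S`, `I_1 = [s_1, s_1']` an interval as above
  containing `t_1` with `s_1'` maximal; `t_2` = the least element of `S` above `s_1'`, `I_2` an interval
  containing `t_2` with maximal right end, and so on. `I_{i+2}` is disjoint from `I_i`: as
  `s'_{i+1} ≥ t_{i+1}`; `I_{i+2}` does not contain `t_{i+1}` (otherwise, by maximality of `s'_{i+1}`,
  `s'_{i+2} ≤ s'_{i+1} < t_{i+2}`), so its left end is `> t_{i+1} > s'_i`. Every interval has at most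
  `C0 + c1 cnt + 1 ≤ (C0 + c1 + 1) * cnt Q I` points, and the sum of `cnt Q I_i` over odd `i`, and over
  even `i`, is at most `cnt Q a b` each.
  For the induction one may prove the following stronger statement: for `S ⊆ [t0, b)` with
  intervals that may start anywhere `≥ a`, `S.card ≤ (C0+c1+1) * (cnt Q a x + 2 * ...)` or any
  other bookkeeping; any constant instead of `2` is fine as long as the statement below is proved.
-/

namespace Pool.Agent.FTP

private theorem run_split_aux (f : ℕ → ℤ) (bad : ℕ → Prop) (s' : ℕ) (A R : ℤ)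
    (hA : 0 ≤ A) (hR : 0 ≤ R) : ∀ n s : ℕ, s' - s ≤ n → s ≤ s' →
    (∀ v, s ≤ v → v < s' → f (v + 1) - f v ≤ R) →
    (∀ t t', s ≤ t → t ≤ t' → t' < s' → (∀ v, t ≤ v → v ≤ t' → ¬ bad v) →
      f t' - f t ≤ A) →
    f s' - f s ≤ (A + 2 * R) * ((cnt bad s s' : ℤ) + 1) := by
  classical
  intro n
  induction n with
  | zero =>
    intro s hn hss _ _
    obtain rfl : s = s' := by omega
    rw [cnt_self]
    push_cast
    linarith
  | succ n ih =>
    intro s hn hss hstep hfree
    rcases hss.eq_or_lt with rfl | hlt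
    · rw [cnt_self]
      push_cast
      linarith
    -- going through free times
    have hgo : ∀ u, s ≤ u → u ≤ s' → (∀ v, s ≤ v → v < u → ¬ bad v) → f u - f s ≤ A + R := by
      intro u hu hus hv
      rcases hu.eq_or_lt with rfl | hlt'
      · linarith
      obtain ⟨u', rfl⟩ : ∃ u', u = u' + 1 := ⟨u - 1, by omega⟩
      have h1 := hfree s u' le_rfl (by omega) (by omega) fun v h1 h2 => hv v h1 (by omega)
      have h2 := hstep u' (by omega) (by omega)
      linarith
    by_cases hb : ∃ v, s ≤ v ∧ v < s' ∧ bad v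
    · obtain ⟨h1, h2, h3⟩ := Nat.find_spec hb
      have hmin : ∀ v, s ≤ v → v < Nat.find hb → ¬ bad v := by
        intro v hv1 hv2 hv3
        exact Nat.find_min hb hv2 ⟨hv1, by omega, hv3⟩
      set v0 := Nat.find hb with hv0
      have e1 := hgo v0 h1 (by omega) hmin
      have e2 := hstep v0 h1 h2
      have e3 := ih (v0 + 1) (by omega) (by omega) (fun v hv1 hv2 => hstep v (by omega) hv2)
        (fun t t' ht1 ht2 ht3 ht4 => hfree t t' (by omega) ht2 ht3 ht4)
      have e4 : cnt bad s s' = cnt bad s v0 + (1 + cnt bad (v0 + 1) s') := by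
        have q1 := cnt_single_pos h3
        have q2 : cnt bad v0 (v0 + 1) + cnt bad (v0 + 1) s' = cnt bad v0 s' :=
          cnt_add bad (by omega) (by omega)
        have q3 : cnt bad s v0 + cnt bad v0 s' = cnt bad s s' := cnt_add bad h1 (by omega)
        omega
      have e5 : (cnt bad (v0 + 1) s' : ℤ) + 1 ≤ (cnt bad s s' : ℤ) := by
        rw [e4]
        push_cast
        have : (0 : ℤ) ≤ (cnt bad s v0 : ℤ) := Int.natCast_nonneg _
        linarith
      have e6 : (A + 2 * R) * ((cnt bad (v0 + 1) s' : ℤ) + 1) ≤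
          (A + 2 * R) * (cnt bad s s' : ℤ) := mul_le_mul_of_nonneg_left e5 (by linarith)
      linarith
    · push Not at hb
      have e1 := hgo s' hss le_rfl fun v h1 h2 => hb v h1 h2
      have e2 : (A + 2 * R) * 1 ≤ (A + 2 * R) * ((cnt bad s s' : ℤ) + 1) := by
        refine mul_le_mul_of_nonneg_left ?_ (by linarith)
        have : (0 : ℤ) ≤ (cnt bad s s' : ℤ) := Int.natCast_nonneg _
        linarith
      linarith

theorem run_split (f : ℕ → ℤ) (bad : ℕ → Prop) (s s' : ℕ) (hss : s ≤ s') (A R : ℤ)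
    (hA : 0 ≤ A) (hR : 0 ≤ R) (hstep : ∀ v, s ≤ v → v < s' → f (v + 1) - f v ≤ R)
    (hfree : ∀ t t', s ≤ t → t ≤ t' → t' < s' → (∀ v, t ≤ v → v ≤ t' → ¬ bad v) →
      f t' - f t ≤ A) :
    f s' - f s ≤ (A + 2 * R) * ((cnt bad s s' : ℤ) + 1) :=
  run_split_aux f bad s' A R hA hR (s' - s) s le_rfl hss hstep hfree

private theorem last_occ_aux {S : Type} [DecidableEq S] (st : ℕ → S) (w : ℕ → ℤ) (c : ℤ)
    (hc : 0 ≤ c) (m : ℕ) : ∀ (k l : ℕ), l ≤ m → ((Finset.Icc l m).image st).card ≤ k →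
    (∀ a b, l ≤ a → a ≤ b → b ≤ m → st a = st b → w a ≤ w b) →
    (∀ a, l ≤ a → a < m → w a - w (a + 1) ≤ c) → w l - w m ≤ c * k := by
  intro k
  induction k with
  | zero =>
    intro l hlm hk _ _
    exfalso
    have h1 : st l ∈ (Finset.Icc l m).image st :=
      Finset.mem_image_of_mem _ (Finset.mem_Icc.2 ⟨le_rfl, hlm⟩)
    have h2 := Finset.card_pos.2 ⟨_, h1⟩
    omega
  | succ k ih =>
    intro l hlm hk hw hstep
    -- the last time with the state of `l`
    have hne : ((Finset.Icc l m).filter (fun a => st a = st l)).Nonempty :=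
      ⟨l, Finset.mem_filter.2 ⟨Finset.mem_Icc.2 ⟨le_rfl, hlm⟩, rfl⟩⟩
    set a0 := ((Finset.Icc l m).filter (fun a => st a = st l)).max' hne with ha0
    have hmem := Finset.max'_mem _ hne
    rw [← ha0] at hmem
    obtain ⟨h1, h2⟩ := Finset.mem_filter.1 hmem
    obtain ⟨h3, h4⟩ := Finset.mem_Icc.1 h1
    have hlast : ∀ a, l ≤ a → a ≤ m → st a = st l → a ≤ a0 := fun a e1 e2 e3 =>
      Finset.le_max' _ _ (Finset.mem_filter.2 ⟨Finset.mem_Icc.2 ⟨e1, e2⟩, e3⟩)
    have e1 : w l ≤ w a0 := hw l a0 le_rfl h3 h4 h2.symm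
    have hk0 : (0 : ℤ) ≤ c * (k : ℤ) := mul_nonneg hc (Int.natCast_nonneg k)
    rcases h4.eq_or_lt with h5 | h5
    · rw [h5] at e1
      push_cast
      linarith
    · have e2 := hstep a0 h3 h5
      have hcard : ((Finset.Icc (a0 + 1) m).image st).card ≤ k := by
        have hss : insert (st l) ((Finset.Icc (a0 + 1) m).image st) ⊆
            (Finset.Icc l m).image st := by
          intro x hx
          rcases Finset.mem_insert.1 hx with rfl | hx
          · exact Finset.mem_image_of_mem _ (Finset.mem_Icc.2 ⟨le_rfl, hlm⟩)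
          · obtain ⟨y, hy, rfl⟩ := Finset.mem_image.1 hx
            obtain ⟨hy1, hy2⟩ := Finset.mem_Icc.1 hy
            exact Finset.mem_image_of_mem _ (Finset.mem_Icc.2 ⟨by omega, hy2⟩)
        have hnot : st l ∉ (Finset.Icc (a0 + 1) m).image st := by
          intro hx
          obtain ⟨y, hy, hyl⟩ := Finset.mem_image.1 hx
          obtain ⟨hy1, hy2⟩ := Finset.mem_Icc.1 hy
          have := hlast y (by omega) hy2 hyl
          omega
        have h6 := Finset.card_le_card hss
        rw [Finset.card_insert_of_notMem hnot] at h6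
        omega
      have e3 := ih (a0 + 1) h5 hcard
        (fun a b q1 q2 q3 q4 => hw a b (by omega) q2 q3 q4)
        (fun a q1 q2 => hstep a (by omega) q2)
      push_cast
      linarith

theorem last_occ {S : Type} [Fintype S] (st : ℕ → S) (w : ℕ → ℤ) (c : ℤ) (hc : 0 ≤ c) (l m : ℕ)
    (hlm : l ≤ m) (hw : ∀ a b, l ≤ a → a ≤ b → b ≤ m → st a = st b → w a ≤ w b)
    (hstep : ∀ a, l ≤ a → a < m → w a - w (a + 1) ≤ c) :
    w l - w m ≤ c * Fintype.card S := by
  classical
  exact last_occ_aux st w c hc m (Fintype.card S) l hlm (Finset.card_le_univ _) hw hstep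

theorem cover (Q : ℕ → Prop) (S : Finset ℕ) (a b C0 c1 : ℕ)
    (hS : ∀ t ∈ S, ∃ s s', a ≤ s ∧ s ≤ t ∧ t ≤ s' ∧ s' ≤ b ∧ s' - s ≤ C0 + c1 * cnt Q s s' ∧
      1 ≤ cnt Q s s') :
    S.card ≤ 2 * (C0 + c1 + 1) * cnt Q a b := by
  classical
  choose! s s' h1 h2 h3 h4 h5 h6 using hS
  -- a smallest subfamily of the intervals which covers `S`
  obtain ⟨P, hP⟩ : ∃ P : Finset ℕ → Prop,
      ∀ T, P T ↔ ∀ x ∈ S, ∃ t ∈ T, s t ≤ x ∧ x ≤ s' t := ⟨_, fun _ => Iff.rfl⟩
  have hne : (S.powerset.filter P).Nonempty :=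
    ⟨S, Finset.mem_filter.2 ⟨Finset.mem_powerset.2 (Finset.Subset.refl S),
      (hP S).2 fun x hx => ⟨x, hx, h2 x hx, h3 x hx⟩⟩⟩
  obtain ⟨T, hT, hmin⟩ := Finset.exists_min_image (S.powerset.filter P) Finset.card hne
  obtain ⟨hTS', hcov'⟩ := Finset.mem_filter.1 hT
  have hcov := (hP T).1 hcov'
  have hTS : T ⊆ S := Finset.mem_powerset.1 hTS'
  -- multiplicity at most two
  have hmult : ∀ x : ℕ, (T.filter (fun t => s t ≤ x ∧ x < s' t)).card ≤ 2 := by
    intro x
    by_contra hcon
    push Not at hcon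
    set Tx := T.filter (fun t => s t ≤ x ∧ x < s' t) with hTx
    have hTxne : Tx.Nonempty := Finset.card_pos.1 (by omega)
    obtain ⟨t1, ht1, hm1⟩ := Finset.exists_min_image Tx s hTxne
    obtain ⟨t2, ht2, hm2⟩ := Finset.exists_max_image Tx s' hTxne
    have hex : ∃ t3 ∈ Tx, t3 ∉ ({t1, t2} : Finset ℕ) := by
      apply Finset.exists_mem_notMem_of_card_lt_card
      exact lt_of_le_of_lt (Finset.card_le_two) hcon
    obtain ⟨t3, ht3, hnot⟩ := hex
    have hn1 : t1 ≠ t3 := fun h => hnot (by simp [h])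
    have hn2 : t2 ≠ t3 := fun h => hnot (by simp [h])
    obtain ⟨p1, q1, r1⟩ := Finset.mem_filter.1 ht1
    obtain ⟨p2, q2, r2⟩ := Finset.mem_filter.1 ht2
    obtain ⟨p3, q3, r3⟩ := Finset.mem_filter.1 ht3
    have hE : T.erase t3 ∈ S.powerset.filter P := by
      refine Finset.mem_filter.2 ⟨Finset.mem_powerset.2
        ((Finset.erase_subset _ _).trans hTS), (hP _).2 fun y hy => ?_⟩
      obtain ⟨t, ht, e1, e2⟩ := hcov y hy
      by_cases htt : t = t3
      · subst htt
        rcases le_or_gt y x with hyx | hyx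
        · exact ⟨t1, Finset.mem_erase.2 ⟨hn1, p1⟩, (hm1 t ht3).trans e1, by omega⟩
        · exact ⟨t2, Finset.mem_erase.2 ⟨hn2, p2⟩, by omega, e2.trans (hm2 t ht3)⟩
      · exact ⟨t, Finset.mem_erase.2 ⟨htt, ht⟩, e1, e2⟩
    have h7 := hmin _ hE
    have h8 := Finset.card_erase_lt_of_mem p3
    omega
  -- counting the points
  have hcard : S.card ≤ ∑ t ∈ T, (s' t + 1 - s t) := by
    have hsub : S ⊆ T.biUnion (fun t => Finset.Icc (s t) (s' t)) := by
      intro x hx
      obtain ⟨t, ht, e1, e2⟩ := hcov x hx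
      exact Finset.mem_biUnion.2 ⟨t, ht, Finset.mem_Icc.2 ⟨e1, e2⟩⟩
    refine (Finset.card_le_card hsub).trans (Finset.card_biUnion_le.trans ?_)
    refine Finset.sum_le_sum fun t _ => ?_
    rw [Nat.card_Icc]
  have hle : ∀ t ∈ T, s' t + 1 - s t ≤ (C0 + c1 + 1) * cnt Q (s t) (s' t) := by
    intro t ht
    have e1 := h5 t (hTS ht)
    have e2 := h6 t (hTS ht)
    have e3 := h2 t (hTS ht)
    have e4 := h3 t (hTS ht)
    have e5 : C0 ≤ C0 * cnt Q (s t) (s' t) := Nat.le_mul_of_pos_right _ e2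
    have e6 : (C0 + c1 + 1) * cnt Q (s t) (s' t) = C0 * cnt Q (s t) (s' t) +
        c1 * cnt Q (s t) (s' t) + cnt Q (s t) (s' t) := by ring
    rw [e6]
    omega
  have hsum : ∑ t ∈ T, cnt Q (s t) (s' t) ≤ 2 * cnt Q a b := by
    have e1 : ∀ t ∈ T, cnt Q (s t) (s' t) =
        ∑ x ∈ (Finset.Ico a b).filter Q, if s t ≤ x ∧ x < s' t then 1 else 0 := by
      intro t ht
      rw [← Finset.card_filter]
      unfold cnt
      congr 1
      ext x
      simp only [Finset.mem_filter, Finset.mem_Ico]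
      have q1 := h1 t (hTS ht)
      have q4 := h4 t (hTS ht)
      constructor
      · rintro ⟨⟨e1, e2⟩, e3⟩
        exact ⟨⟨⟨by omega, by omega⟩, e3⟩, e1, e2⟩
      · rintro ⟨⟨⟨_, _⟩, e3⟩, e1, e2⟩
        exact ⟨⟨e1, e2⟩, e3⟩
    rw [Finset.sum_congr rfl e1, Finset.sum_comm]
    calc ∑ x ∈ (Finset.Ico a b).filter Q, ∑ t ∈ T, (if s t ≤ x ∧ x < s' t then 1 else 0)
        ≤ ∑ x ∈ (Finset.Ico a b).filter Q, 2 := by
          refine Finset.sum_le_sum fun x _ => ?_
          rw [← Finset.card_filter]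
          exact hmult x
      _ = 2 * cnt Q a b := by
          rw [Finset.sum_const, smul_eq_mul, mul_comm]
          unfold cnt
          congr
  calc S.card ≤ ∑ t ∈ T, (s' t + 1 - s t) := hcard
    _ ≤ ∑ t ∈ T, (C0 + c1 + 1) * cnt Q (s t) (s' t) := Finset.sum_le_sum hle
    _ = (C0 + c1 + 1) * ∑ t ∈ T, cnt Q (s t) (s' t) := by rw [Finset.mul_sum]
    _ ≤ (C0 + c1 + 1) * (2 * cnt Q a b) := Nat.mul_le_mul_left _ hsum
    _ = 2 * (C0 + c1 + 1) * cnt Q a b := by ring

end Pool.Agent.FTP
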