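import Mathlib
import Pool.Agent.FTP.Defs
import Pool.Agent.FTP.TreeA
import Pool.Agent.FTP.TreeB

/-!
# FTP / Near: a path in the tree near a line

`x : ℕ → F` is a path with steps of length at most `R` on `[a, b]`, `Z` a fixed element, and
`P = pos Z (x t)` the position of the projection at the time `t`.

`near_line`: if `pos Z (x a) ≠ P` and `pos Z (x b) ≠ P`, `a ≤ t ≤ b`, let `s` be the last time before
`t` (in `[a, t)`) at which the position is not `P`, and `s'` the first time after `t` (in `(t, b]`) at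
which the position is not `P`. At the time `s + 1` the position is `P` (it may be that
`s + 1 = t`), so by `near_change` applied to `z := x (s+1)`, `z' := x s` the geodesic from `x (s+1)` to
`x s` passes through `v = vtx Z P`, hence `nm (v⁻¹ x s) ≤ R`; similarly for `s'` with `z := x (s'-1)`,
`z' := x s'`.

`last_exit`: let `¬ Pre p (x a)` and `Pre p (x b)`; let `T` be the least time in `(a, b]` such that
`Pre p (x v)` for all `T ≤ v ≤ b`. Then `¬ Pre p (x (T-1))`, `Pre p (x T)`, so by the crossing lemma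
`nm (p⁻¹ x T) ≤ R`.

`first_hit`: let `¬ Pre p (x a)` and `Pre p (x b)`; let `T` be the least time in `(a, b]` with
`Pre p (x T)`. Then `nm (p⁻¹ x T) ≤ R` (crossing lemma for the step from `T - 1` to `T`).

`first_pos`: the same for positions: if `pos Z (x a) < n ≤ pos Z (x b)`, `n ≤ nm Z`, then at the
first time `T` with `n ≤ pos Z (x T)` we have `nm ((vtx Z n)⁻¹ x T) ≤ R`.

`last_pos`: if `pos Z (x a) ≤ n < pos Z (x b)`, there is a last time `T` in `[a, b)` with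
`pos Z (x T) ≤ n`; `nm ((vtx Z n)⁻¹ x (T+1)) ≤ R` and `nm ((vtx Z n)⁻¹ x T) ≤ R`: the vertex `vtx Z (n+1)` is
a prefix of `x (T+1)`, not of `x T`; the geodesic between them passes through it and (coming from
`x T`) through `vtx Z n`: use `near_change` for `z := x T`, `z' := x (T+1)` and
`dist_vtx_of_le`, or the projection of `x T`.
-/

namespace Pool.Agent.FTP

variable {x : ℕ → F} {R a b : ℕ}

private theorem last_not {Q : ℕ → Prop} {c : ℕ} (h1 : ¬ Q c) : ∀ d, c ≤ d → Q d →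
    ∃ T, c ≤ T ∧ T < d ∧ ¬ Q T ∧ ∀ v, T < v → v ≤ d → Q v := by
  intro d hcd
  induction d, hcd using Nat.le_induction with
  | base => intro h; exact absurd h h1
  | succ n hn ih =>
    intro h
    by_cases hq : Q n
    · obtain ⟨T, h3, h4, h5, h6⟩ := ih hq
      refine ⟨T, h3, by omega, h5, fun v hv hv' => ?_⟩
      rcases Nat.lt_or_ge v (n + 1) with h7 | h7
      · exact h6 v hv (by omega)
      · obtain rfl : v = n + 1 := by omega
        exact h
    · refine ⟨n, hn, Nat.lt_succ_self n, hq, fun v hv hv' => ?_⟩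
      obtain rfl : v = n + 1 := by omega
      exact h

private theorem first_yes {Q : ℕ → Prop} {c d : ℕ} (h1 : ¬ Q c) (hcd : c ≤ d) (h2 : Q d) :
    ∃ T, c ≤ T ∧ T < d ∧ Q (T + 1) ∧ ∀ v, c ≤ v → v ≤ T → ¬ Q v := by
  classical
  have hex : ∃ T, c ≤ T ∧ Q T := ⟨d, hcd, h2⟩
  obtain ⟨h3, h4⟩ := Nat.find_spec hex
  have h5 : Nat.find hex ≤ d := Nat.find_min' hex ⟨hcd, h2⟩
  have h6 : Nat.find hex ≠ c := fun h => h1 (h ▸ h4)
  refine ⟨Nat.find hex - 1, by omega, by omega, ?_, fun v hv hv' hQ => ?_⟩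
  · have h7 : Nat.find hex - 1 + 1 = Nat.find hex := by omega
    rw [h7]; exact h4
  · exact Nat.find_min hex (m := v) (by omega) ⟨hv, hQ⟩

theorem near_line (Z : F) (hstep : ∀ s, a ≤ s → s < b → nm ((x s)⁻¹ * x (s + 1)) ≤ R) {t : ℕ}
    (hat : a ≤ t) (htb : t ≤ b) (h1 : pos Z (x a) ≠ pos Z (x t)) (h2 : pos Z (x b) ≠ pos Z (x t)) :
    ∃ s s', a ≤ s ∧ s < t ∧ t < s' ∧ s' ≤ b ∧ nm ((vtx Z (pos Z (x t)))⁻¹ * x s) ≤ R ∧
      nm ((vtx Z (pos Z (x t)))⁻¹ * x s') ≤ R := by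
  obtain ⟨s, hs1, hs2, hs3, hs4⟩ := last_not (Q := fun v => pos Z (x v) = pos Z (x t)) h1 t hat rfl
  obtain ⟨s', hu1, hu2, hu3, hu4⟩ := first_yes (Q := fun v => pos Z (x v) ≠ pos Z (x t)) (c := t)
    (d := b) (fun h => h rfl) htb h2
  refine ⟨s, s' + 1, hs1, hs2, by omega, by omega, ?_, ?_⟩
  · have h3 : pos Z (x (s + 1)) = pos Z (x t) := hs4 (s + 1) (by omega) (by omega)
    have h4 := near_change (Z := Z) (z := x (s + 1)) (z' := x s) (fun h => hs3 (h.symm.trans h3))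
    rw [h3, nm_comm (x (s + 1)) (x s)] at h4
    have h5 := hstep s hs1 (by omega)
    omega
  · have h3 : pos Z (x s') = pos Z (x t) := not_not.1 (hu4 s' hu1 le_rfl)
    have h4 := near_change (Z := Z) (z := x s') (z' := x (s' + 1)) (fun h => hu3 (h.symm.trans h3))
    rw [h3] at h4
    have h5 := hstep s' (by omega) (by omega)
    omega

theorem last_exit (hstep : ∀ s, a ≤ s → s < b → nm ((x s)⁻¹ * x (s + 1)) ≤ R) (hab : a ≤ b)
    {p : F} (h1 : ¬ Pre p (x a)) (h2 : Pre p (x b)) :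
    ∃ T, a < T ∧ T ≤ b ∧ (∀ v, T ≤ v → v ≤ b → Pre p (x v)) ∧ ¬ Pre p (x (T - 1)) ∧
      nm (p⁻¹ * x T) ≤ R := by
  obtain ⟨T, hT1, hT2, hT3, hT4⟩ := last_not (Q := fun v => Pre p (x v)) h1 b hab h2
  refine ⟨T + 1, by omega, by omega, fun v hv hv' => hT4 v (by omega) hv', ?_, ?_⟩
  · rw [Nat.add_sub_cancel]; exact hT3
  · have h3 := cross hT3 (hT4 (T + 1) (by omega) (by omega))
    have h4 := hstep T hT1 hT2
    omega

theorem first_hit (hstep : ∀ s, a ≤ s → s < b → nm ((x s)⁻¹ * x (s + 1)) ≤ R) (hab : a ≤ b)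
    {p : F} (h1 : ¬ Pre p (x a)) (h2 : Pre p (x b)) :
    ∃ T, a < T ∧ T ≤ b ∧ (∀ v, a ≤ v → v < T → ¬ Pre p (x v)) ∧ Pre p (x T) ∧
      nm (p⁻¹ * x T) ≤ R := by
  obtain ⟨T, hT1, hT2, hT3, hT4⟩ := first_yes (Q := fun v => Pre p (x v)) h1 hab h2
  refine ⟨T + 1, by omega, by omega, fun v hv hv' => hT4 v hv (by omega), hT3, ?_⟩
  have h3 := cross (hT4 T hT1 le_rfl) hT3
  have h4 := hstep T hT1 hT2
  omega

theorem first_pos (Z : F) (hstep : ∀ s, a ≤ s → s < b → nm ((x s)⁻¹ * x (s + 1)) ≤ R)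
    (hab : a ≤ b) {n : ℕ} (h1 : pos Z (x a) < n) (h2 : n ≤ pos Z (x b)) :
    ∃ T, a < T ∧ T ≤ b ∧ (∀ v, a ≤ v → v < T → pos Z (x v) < n) ∧ n ≤ pos Z (x T) ∧
      nm ((vtx Z n)⁻¹ * x T) ≤ R := by
  have hn : n ≤ nm Z := h2.trans (pos_le_left Z _)
  obtain ⟨T, hT1, hT2, hT3, hT4, hT5⟩ := first_hit (p := vtx Z n) hstep hab
    (fun h => by have := (vtx_pre_iff hn _).1 h; omega) ((vtx_pre_iff hn _).2 h2)
  refine ⟨T, hT1, hT2, fun v hv hv' => ?_, (vtx_pre_iff hn _).1 hT4, hT5⟩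
  by_contra hc
  exact hT3 v hv hv' ((vtx_pre_iff hn _).2 (by omega))

theorem last_pos (Z : F) (hstep : ∀ s, a ≤ s → s < b → nm ((x s)⁻¹ * x (s + 1)) ≤ R)
    (hab : a ≤ b) {n : ℕ} (h1 : pos Z (x a) ≤ n) (h2 : n < pos Z (x b)) :
    ∃ T, a ≤ T ∧ T < b ∧ (∀ v, T < v → v ≤ b → n < pos Z (x v)) ∧ pos Z (x T) ≤ n ∧
      nm ((vtx Z n)⁻¹ * x T) ≤ R ∧ nm ((vtx Z n)⁻¹ * x (T + 1)) ≤ R := by
  have hn : n + 1 ≤ nm Z := lt_of_lt_of_le h2 (pos_le_left Z _)
  obtain ⟨T, hT1, hT2, hT3, hT4⟩ := last_not (Q := fun v => n < pos Z (x v)) (c := a)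
    (fun h => by omega) b hab h2
  have hT3' : pos Z (x T) ≤ n := by omega
  have hT5 : n < pos Z (x (T + 1)) := hT4 (T + 1) (by omega) (by omega)
  have hs := hstep T hT1 hT2
  have h3 := cross (p := vtx Z (n + 1)) (x := x T) (y := x (T + 1))
    (fun h => by have := (vtx_pre_iff hn _).1 h; omega) ((vtx_pre_iff hn _).2 hT5)
  have h4 := dist_vtx_of_le (Z := Z) (z := x T) (n := n + 1) (by omega) hn
  have h5 := dist_vtx_of_le (Z := Z) (z := x T) (n := n) hT3' (by omega)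
  have h6 := nm_triangle (vtx Z n) (vtx Z (n + 1)) (x (T + 1))
  have h7 := dist_vtx (Z := Z) (m := n) (n := n + 1) (by omega) hn
  have h8 := nm_comm (vtx Z n) (x T)
  refine ⟨T, hT1, hT2, hT4, hT3', ?_, ?_⟩ <;> omega

end Pool.Agent.FTP
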