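import Mathlib
import Pool.Agent.FTP.Defs
import Pool.Agent.FTP.TreeA
import Pool.Agent.FTP.TreeB
import Pool.Agent.FTP.Lane
import Pool.Agent.FTP.LineGeo

/-!
# FTP / Rigid: the first component is rigid (counting with `τ`)

For times `s ≤ s' ≤ L` of a trip, `τ ((γ s).1⁻¹ (γ s').1)` is the sum of `τ` of the first components of the
letters, `α` for tight letters and at least `-R` for the others; so
`α (s' - s) ≤ τ (..) + (α + R) * (number of letters that are not tight)`, hence (`α ≥ 1`)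
`s' - s ≤ nm ((γ s).1⁻¹ (γ s').1) + (1 + R) * cnt off s s'`.

`len_bound`: from the time `T i` to the time `T (i+1)`:
`(γ (T i)).1 = B1 i * r`, `(γ (T (i+1))).1 = B1 (i+1) * r'`, `nm r, nm r' ≤ R1`, so the displacement is
`r⁻¹ x^(p n_i) g1 r'`, and `τ` of it is at most `p n_i α u + nm g1 + 2 R1`; divide by `α`.

`trip_word`: the displacement between two times is the product of a word in `M` if all letters in
between are tight (and of a word in `A` in general).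
-/

namespace Pool.Agent.FTP

private theorem tau_one (Λ : Lane) : Λ.τ 1 = 0 := by
  have h := Λ.hτ 1 1
  rw [mul_one] at h
  linarith

private theorem tau_inv (Λ : Lane) (x : F) : Λ.τ x⁻¹ = - Λ.τ x := by
  have h := Λ.hτ x x⁻¹
  rw [mul_inv_cancel, tau_one] at h
  linarith

private theorem tau_pow (Λ : Lane) (x : F) (m : ℕ) : Λ.τ (x ^ m) = m * Λ.τ x := by
  induction m with
  | zero => rw [pow_zero, tau_one]; simp
  | succ m ih => rw [pow_succ, Λ.hτ, ih]; push_cast; ring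

namespace Trip

variable {Λ : Lane} (tr : Trip Λ)

theorem T_mono {i j : ℕ} (h : i ≤ j) (hj : j ≤ tr.len) : tr.T i ≤ tr.T j := by
  induction j, h using Nat.le_induction with
  | base => exact le_rfl
  | succ j _ ih => exact (ih (by omega)).trans (tr.mono j (by omega))

theorem T_le_L {i : ℕ} (h : i ≤ tr.len) : tr.T i ≤ tr.L := by
  have h1 := tr.T_mono h le_rfl
  rwa [tr.TL] at h1

/-- the displacement between two times is the product of a word of the right length -/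
theorem word {s s' : ℕ} (h : s ≤ s') (h' : s' ≤ tr.L) :
    ∃ l : List (F × F), IsWord Λ.A l ∧ l.length = s' - s ∧ l.prod = (tr.γ s)⁻¹ * tr.γ s' ∧
      (cnt tr.off s s' = 0 → IsWord Λ.M l) := by
  induction s', h using Nat.le_induction with
  | base =>
    refine ⟨[], ?_, ?_, ?_, ?_⟩
    · intro a ha
      simp at ha
    · simp
    · simp
    · intro _ a ha
      simp at ha
  | succ s' hs ih =>
    obtain ⟨l, h1, h2, h3, h4⟩ := ih (by omega)
    refine ⟨l ++ [(tr.γ s')⁻¹ * tr.γ (s' + 1)], ?_, ?_, ?_, ?_⟩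
    · intro a ha
      rcases List.mem_append.1 ha with h | h
      · exact h1 a h
      · rw [List.mem_singleton.1 h]
        exact tr.step s' (by omega)
    · rw [List.length_append, h2, List.length_singleton]
      omega
    · rw [List.prod_append, List.prod_singleton, h3]
      group
    · intro h0
      rw [cnt_eq_zero] at h0
      have h5 : cnt tr.off s s' = 0 := cnt_eq_zero.2 fun t ht ht' => h0 t ht (by omega)
      have h6 := h0 s' hs (by omega)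
      intro a ha
      rcases List.mem_append.1 ha with h | h
      · exact h4 h5 a h
      · rw [List.mem_singleton.1 h]
        exact not_not.1 h6

theorem step_le {t : ℕ} (h : t < tr.L) :
    nm ((tr.γ t).1⁻¹ * (tr.γ (t + 1)).1) ≤ Λ.R ∧ nm ((tr.γ t).2⁻¹ * (tr.γ (t + 1)).2) ≤ Λ.R := Λ.hR _ (tr.step t h)

theorem P_step {t : ℕ} (h : t < tr.L) :
    tr.P (t + 1) ≤ tr.P t + Λ.R ∧ tr.P t ≤ tr.P (t + 1) + Λ.R := by
  have h1 := (tr.step_le h).2
  have h2 := pos_lip (Λ.B2 tr.n (tr.len + 2)) (tr.γ t).2 (tr.γ (t + 1)).2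
  have h3 := pos_lip (Λ.B2 tr.n (tr.len + 2)) (tr.γ (t + 1)).2 (tr.γ t).2
  rw [nm_comm] at h3
  unfold P
  constructor <;> omega

theorem P_lip {s s' : ℕ} (h : s ≤ s') (h' : s' ≤ tr.L) : tr.P s' ≤ tr.P s + Λ.R * (s' - s) := by
  induction s', h using Nat.le_induction with
  | base => omega
  | succ s' hs ih =>
    have h1 := ih (by omega)
    have h2 := (tr.P_step (t := s') (by omega)).1
    have h3 : s' + 1 - s = (s' - s) + 1 := by omega
    rw [h3, Nat.mul_add, Nat.mul_one]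
    omega

theorem rigid_tau {s s' : ℕ} (h : s ≤ s') (h' : s' ≤ tr.L) :
    (Λ.α : ℤ) * ((s' : ℤ) - s) ≤ Λ.τ ((tr.γ s).1⁻¹ * (tr.γ s').1) +
      ((Λ.α : ℤ) + Λ.R) * cnt tr.off s s' := by
  induction s', h using Nat.le_induction with
  | base => rw [inv_mul_cancel, tau_one, cnt_self]; simp
  | succ s' hs ih =>
    have h1 := ih (by omega)
    have h2 : (tr.γ s).1⁻¹ * (tr.γ (s' + 1)).1 = ((tr.γ s).1⁻¹ * (tr.γ s').1) *
        ((tr.γ s').1⁻¹ * (tr.γ (s' + 1)).1) := by group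
    rw [h2, Λ.hτ, cnt_succ tr.off hs]
    push_cast
    by_cases h3 : tr.off s'
    · rw [cnt_single_pos h3]
      have h4 := (tr.step_le (t := s') (by omega)).1
      have h5 := (abs_le.1 (Λ.hτle ((tr.γ s').1⁻¹ * (tr.γ (s' + 1)).1))).1
      have h6 : ((nm ((tr.γ s').1⁻¹ * (tr.γ (s' + 1)).1) : ℕ) : ℤ) ≤ Λ.R := by exact_mod_cast h4
      push_cast
      linarith
    · rw [cnt_single_neg h3]
      have h4 : Λ.τ ((tr.γ s').1⁻¹ * (tr.γ (s' + 1)).1) = Λ.α := Λ.hτM _ (not_not.1 h3)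
      rw [h4]
      push_cast
      linarith

/-- rigidity -/
theorem rigid {s s' : ℕ} (h : s ≤ s') (h' : s' ≤ tr.L) :
    s' - s ≤ nm ((tr.γ s).1⁻¹ * (tr.γ s').1) + (1 + Λ.R) * cnt tr.off s s' := by
  have h1 := tr.rigid_tau h h'
  have h2 := (abs_le.1 (Λ.hτle ((tr.γ s).1⁻¹ * (tr.γ s').1))).2
  have h3 : (1 : ℤ) ≤ Λ.α := by exact_mod_cast Λ.hα
  have h4 : (0 : ℤ) ≤ nm ((tr.γ s).1⁻¹ * (tr.γ s').1) := Int.natCast_nonneg _
  have h5 : (0 : ℤ) ≤ (Λ.R : ℤ) * cnt tr.off s s' := by positivity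
  have h6 : (Λ.α : ℤ) * ((s' : ℤ) - s) ≤
      (Λ.α : ℤ) * (nm ((tr.γ s).1⁻¹ * (tr.γ s').1) + (1 + Λ.R) * cnt tr.off s s') := by
    nlinarith
  have h7 := le_of_mul_le_mul_left h6 (by linarith)
  have h8 : ((s' - s : ℕ) : ℤ) ≤
      ((nm ((tr.γ s).1⁻¹ * (tr.γ s').1) + (1 + Λ.R) * cnt tr.off s s' : ℕ) : ℤ) := by
    rw [Nat.cast_sub h]
    push_cast
    exact h7
  exact_mod_cast h8

/-- exact count for tight letters -/
theorem tau_tight {s s' : ℕ} (h : s ≤ s') (h' : s' ≤ tr.L) (h0 : cnt tr.off s s' = 0) :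
    Λ.τ ((tr.γ s).1⁻¹ * (tr.γ s').1) = (Λ.α : ℤ) * ((s' : ℤ) - s) := by
  induction s', h using Nat.le_induction with
  | base => rw [inv_mul_cancel, tau_one]; simp
  | succ s' hs ih =>
    rw [cnt_eq_zero] at h0
    have h1 := ih (by omega) (cnt_eq_zero.2 fun t ht ht' => h0 t ht (by omega))
    have h2 : (tr.γ s).1⁻¹ * (tr.γ (s' + 1)).1 = ((tr.γ s).1⁻¹ * (tr.γ s').1) *
        ((tr.γ s').1⁻¹ * (tr.γ (s' + 1)).1) := by group
    have h3 := h0 s' hs (by omega)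
    have h4 : Λ.τ ((tr.γ s').1⁻¹ * (tr.γ (s' + 1)).1) = Λ.α := Λ.hτM _ (not_not.1 h3)
    rw [h2, Λ.hτ, h1, h4]
    push_cast
    ring

theorem len_bound : ∀ i, i < tr.len →
    ((tr.T (i + 1) : ℤ) - tr.T i) ≤ Λ.p * Λ.u * tr.n i + (nm Λ.g1 + 2 * Λ.R1) +
      (1 + Λ.R) * (tr.k i : ℤ) := by
  intro i hi
  have hm := tr.mono i hi
  have h1 := tr.rigid_tau hm (tr.T_le_L (show i + 1 ≤ tr.len by omega))
  have n1 := tr.near1 i (by omega)
  have n2 := tr.near1 (i + 1) (by omega)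
  have hB : Λ.B1 tr.n (i + 1) = Λ.B1 tr.n i * Λ.x ^ (Λ.p * tr.n i) * Λ.g1 := rfl
  have h2 : (tr.γ (tr.T i)).1⁻¹ * (tr.γ (tr.T (i + 1))).1 =
      ((Λ.B1 tr.n i)⁻¹ * (tr.γ (tr.T i)).1)⁻¹ * Λ.x ^ (Λ.p * tr.n i) * Λ.g1 *
        ((Λ.B1 tr.n (i + 1))⁻¹ * (tr.γ (tr.T (i + 1))).1) := by
    rw [hB]
    group
  rw [h2, Λ.hτ, Λ.hτ, Λ.hτ, tau_inv, tau_pow, Λ.hτx] at h1
  have t1 := (abs_le.1 (Λ.hτle ((Λ.B1 tr.n i)⁻¹ * (tr.γ (tr.T i)).1))).1
  have t2 := (abs_le.1 (Λ.hτle ((Λ.B1 tr.n (i + 1))⁻¹ * (tr.γ (tr.T (i + 1))).1))).2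
  have t3 := (abs_le.1 (Λ.hτle Λ.g1)).2
  have n1' : ((nm ((Λ.B1 tr.n i)⁻¹ * (tr.γ (tr.T i)).1) : ℕ) : ℤ) ≤ Λ.R1 := by exact_mod_cast n1
  have n2' : ((nm ((Λ.B1 tr.n (i + 1))⁻¹ * (tr.γ (tr.T (i + 1))).1) : ℕ) : ℤ) ≤ Λ.R1 := by
    exact_mod_cast n2
  have h3 : (1 : ℤ) ≤ Λ.α := by exact_mod_cast Λ.hα
  have h4 : (0 : ℤ) ≤ (nm Λ.g1 : ℤ) + 2 * Λ.R1 := by positivity
  have h5 : (0 : ℤ) ≤ (Λ.R : ℤ) * tr.k i := by positivity
  change (Λ.α : ℤ) * ((tr.T (i + 1) : ℤ) - tr.T i) ≤ _ + ((Λ.α : ℤ) + Λ.R) * tr.k i at h1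
  have h6 : (Λ.α : ℤ) * ((tr.T (i + 1) : ℤ) - tr.T i) ≤
      (Λ.α : ℤ) * (Λ.p * Λ.u * tr.n i + (nm Λ.g1 + 2 * Λ.R1) + (1 + Λ.R) * (tr.k i : ℤ)) := by
    push_cast at h1
    have e1 := mul_le_mul_of_nonneg_right h3 h4
    have e2 := mul_le_mul_of_nonneg_right h3 h5
    linarith
  exact le_of_mul_le_mul_left h6 (by linarith)

/-- parities along the trip: position of the second component relative to the first -/
theorem parity {t : ℕ} (h : t ≤ tr.L) :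
    par (tr.γ t).1 - par (tr.γ t).2 = par Λ.ρ1 - par Λ.ρ2 := tr.coset t h

end Trip

end Pool.Agent.FTP
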