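import Mathlib
import Pool.Agent.FTP.Defs
import Pool.Agent.FTP.TreeA
import Pool.Agent.FTP.TreeB
import Pool.Agent.FTP.TreeC
import Pool.Agent.FTP.Comb
import Pool.Agent.FTP.Near
import Pool.Agent.FTP.Lane
import Pool.Agent.FTP.LineGeo
import Pool.Agent.FTP.Rigid
import Pool.Agent.FTP.Words

/-!
# FTP / LaneBound: in a free interval the second component is not faster than the fastest lane

Claim: there is `A1` (depending on the lane only): if `[t, t']` is free in the block `i` and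
`nm (B2 j) ≤ P t`, `P t' ≤ nm (B2 j')`, `j ≤ j' ≤ len + 2`, then
`p u (P t' - P t) ≤ q |y| (t' - t) + A1 (1 + (j' - j))`, `|y| = nm y`.

Proof. If `P t' ≤ P t` there is nothing to show (`t ≤ t'`); so `j < j'`. For `P t < c ≤ P t'` let
`v_c = vtx Z2 c` (`Z2 = B2 (len + 2)`), and let `s_c ∈ (t, t']` be the last exit time (`last_exit` in
Near.lean applied to the second component on `[t, t']`, `p = v_c`; `v_c` is no prefix of `(γ t).2`, and a
prefix of `(γ t').2`: `vtx_pre_iff`): it is a prefix of `(γ v).2` for all `v ∈ [s_c, t']`, and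
`(γ s_c).2 = v_c r2`, `nm r2 ≤ R`. `s_c ≤ s_c'` for `c ≤ c'` (a prefix of a prefix is a prefix; for this use
that `s_c` is the least such time: `¬ Pre v_c (γ (s_c - 1)).2`). Moreover `(γ s_c).1 = B1 i x^μ r1`,
`nm r1 ≤ c0` (good times).
The state of `c` is `(j2, o, r1, r2)`: `j2` the block, `nm (B2 j2) < c ≤ nm (B2 (j2 + 1))` or
`nm (B2 j2) ≤ c < nm (B2 (j2+1))` (choose one convention; for `j ≤ j2 < j'` there are `j' - j` (+ 1)
possibilities), `o` the offset in the block: if `c ≤ nm (B2 j2) + q n |y|`, `o` is the remainder of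
`c - nm (B2 j2)` modulo `|y|`; otherwise `o = |y| + (c - nm (B2 j2) - q n |y|) ≤ |y| + nm g2`. The number
of states is at most `(j' - j + 1) * const`.
If `c < c'` have the same state, then they are in the periodic part (in the other part equal states
imply `c = c'`), `v_c = B2 j2 y^m w`, `v_c' = B2 j2 y^m' w` with the same prefix `w` of `y`
(`b2_vertex`, the lengths determine `m` and `w`), `c' - c = (m' - m) |y|`. The word between `s_c`
and `s_c'` is a word in `M` (`Trip.word`) with product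
`(r1⁻¹ x^(μ'-μ) r1, (w r2)⁻¹ y^(m'-m) (w r2))`; by `tau_tight`, `α (s_c' - s_c) = (μ' - μ) α u`, so
`μ' ≥ μ` and `s_c' - s_c = (μ' - μ) u`; by `rate`: `(m' - m) p ≤ (μ' - μ) q`. Hence
`p u (c' - c) ≤ q |y| (s_c' - s_c)`: the function `w c = q |y| s_c - p u c` satisfies the hypothesis of
`last_occ` (Comb.lean) on `[P t + 1, P t']`, with one step drop at most `p u`. So
`w (P t + 1) - w (P t') ≤ p u * (number of states)`, which is the claim.
-/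

namespace Pool.Agent.FTP

theorem lb_tau_one (Λ : Lane) : Λ.τ 1 = 0 := by
  have h := Λ.hτ 1 1
  rw [mul_one] at h
  linarith

theorem lb_tau_inv (Λ : Lane) (x : F) : Λ.τ x⁻¹ = - Λ.τ x := by
  have h := Λ.hτ x⁻¹ x
  rw [inv_mul_cancel, lb_tau_one] at h
  linarith

theorem lb_tau_pow (Λ : Lane) (x : F) (n : ℕ) : Λ.τ (x ^ n) = n * Λ.τ x := by
  induction n with
  | zero => simp [lb_tau_one]
  | succ n ih =>
    rw [pow_succ, Λ.hτ, ih]
    push_cast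
    ring

/-- the state of the vertex `c`, last left at the time `s` -/
def LBState {Λ : Lane} (tr : Trip Λ) (i j s c a o : ℕ) (r1 r2 : F) : Prop :=
  nm (Λ.B2 tr.n (j + a)) < c ∧ j + a < tr.len + 2 ∧
    ((c ≤ nm (Λ.B2 tr.n (j + a)) + Λ.q * tr.n (j + a) * nm Λ.y ∧
        o = (c - nm (Λ.B2 tr.n (j + a))) % nm Λ.y) ∨
      (nm (Λ.B2 tr.n (j + a)) + Λ.q * tr.n (j + a) * nm Λ.y < c ∧
        o = nm Λ.y + (c - nm (Λ.B2 tr.n (j + a)) - Λ.q * tr.n (j + a) * nm Λ.y))) ∧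
    (∃ μ, (tr.γ s).1 = Λ.B1 tr.n i * Λ.x ^ μ * r1) ∧
    (tr.γ s).2 = vtx (Λ.B2 tr.n (tr.len + 2)) c * r2

theorem lb_vertex {Λ : Lane} {n : ℕ → ℕ} (hn : ∀ i, 1 ≤ n i) {k l c : ℕ} (hkl : k < l)
    (hc : c ≤ nm (Λ.B2 n l)) (h1 : nm (Λ.B2 n k) ≤ c)
    (h2 : c ≤ nm (Λ.B2 n k) + Λ.q * n k * nm Λ.y) :
    ∃ (m : ℕ) (w : F), Pre w Λ.y ∧ nm w < nm Λ.y ∧
      vtx (Λ.B2 n l) c = Λ.B2 n k * Λ.y ^ m * w ∧ c = nm (Λ.B2 n k) + m * nm Λ.y + nm w := by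
  have hv := pre_vtx (Λ.B2 n l) c
  have hnv := nm_vtx hc
  obtain ⟨m, w, -, hw, hwy, he⟩ := Λ.b2_vertex hn hkl hv (by rw [hnv]; exact h1)
    (by rw [hnv]; exact h2)
  refine ⟨m, w, hw, hwy, he, ?_⟩
  have hred : Red (Λ.B2 n k * Λ.y ^ m) Λ.y := by
    unfold Red
    have e1 := Λ.b2_nm_pow hn k (m + 1)
    have e2 := Λ.b2_nm_pow hn k m
    rw [mul_assoc, ← pow_succ, e1, e2]
    ring
  have h3 := red_of_red_pre hred hw
  unfold Red at h3
  rw [← he, hnv, Λ.b2_nm_pow hn k m] at h3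
  exact h3

theorem lb_key {Λ : Lane} (tr : Trip Λ) (i j a o : ℕ) (r1 r2 : F) (s s' c c' : ℕ) (hss : s ≤ s')
    (hsL : s' ≤ tr.L) (h0 : cnt tr.off s s' = 0) (hcc : c ≤ c')
    (hcZ : c' ≤ nm (Λ.B2 tr.n (tr.len + 2)))
    (h : LBState tr i j s c a o r1 r2) (h' : LBState tr i j s' c' a o r1 r2) :
    ((Λ.p * Λ.u : ℕ) : ℤ) * ((c' : ℤ) - c) ≤ ((Λ.q * nm Λ.y : ℕ) : ℤ) * ((s' : ℤ) - s) := by
  obtain ⟨h1, h2, h3, ⟨μ, h4⟩, h5⟩ := h
  obtain ⟨h1', -, h3', ⟨μ', h4'⟩, h5'⟩ := h'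
  have hy := cr_nm_pos Λ.hy
  have hs0 : (0 : ℤ) ≤ (s' : ℤ) - s := by
    have : (s : ℤ) ≤ s' := by exact_mod_cast hss
    linarith
  have hR0 : (0 : ℤ) ≤ ((Λ.q * nm Λ.y : ℕ) : ℤ) * ((s' : ℤ) - s) := by positivity
  rcases h3 with ⟨h3, ho⟩ | ⟨h3, ho⟩
  · rcases h3' with ⟨h3', ho'⟩ | ⟨h3', ho'⟩
    · obtain ⟨m, w, hw, hwy, he, hc⟩ := lb_vertex tr.hn h2 (hcc.trans hcZ) h1.le h3
      obtain ⟨m', w', hw', hwy', he', hc'⟩ := lb_vertex tr.hn h2 hcZ h1'.le h3'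
      have e1 : o = nm w := by
        rw [ho, hc]
        have : nm (Λ.B2 tr.n (j + a)) + m * nm Λ.y + nm w - nm (Λ.B2 tr.n (j + a)) =
            nm w + m * nm Λ.y := by omega
        rw [this, Nat.add_mul_mod_self_right, Nat.mod_eq_of_lt hwy]
      have e2 : o = nm w' := by
        rw [ho', hc']
        have : nm (Λ.B2 tr.n (j + a)) + m' * nm Λ.y + nm w' - nm (Λ.B2 tr.n (j + a)) =
            nm w' + m' * nm Λ.y := by omega
        rw [this, Nat.add_mul_mod_self_right, Nat.mod_eq_of_lt hwy']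
      have ew : w = w' := pre_unique hw hw' (by rw [← e1, ← e2])
      subst ew
      have hm : m ≤ m' := by
        have : m * nm Λ.y ≤ m' * nm Λ.y := by omega
        exact Nat.le_of_mul_le_mul_right this hy
      obtain ⟨l, -, -, hl, hM⟩ := tr.word hss hsL
      have hlM := hM h0
      have ht := tr.tau_tight hss hsL h0
      have ht2 : Λ.τ ((tr.γ s).1⁻¹ * (tr.γ s').1) = ((μ' : ℤ) - μ) * (Λ.α * Λ.u) := by
        rw [Λ.hτ, lb_tau_inv, h4, h4', Λ.hτ, Λ.hτ, Λ.hτ, Λ.hτ, lb_tau_pow, lb_tau_pow, Λ.hτx]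
        ring
      have hα : (1 : ℤ) ≤ Λ.α := by exact_mod_cast Λ.hα
      have hu : (1 : ℤ) ≤ Λ.u := by exact_mod_cast Λ.hu
      have hsu : ((s' : ℤ) - s) = ((μ' : ℤ) - μ) * Λ.u := by
        have e3 : (Λ.α : ℤ) * ((s' : ℤ) - s) = Λ.α * (((μ' : ℤ) - μ) * Λ.u) := by
          rw [← ht, ht2]
          ring
        exact mul_left_cancel₀ (by linarith) e3
      have hμ : μ ≤ μ' := by
        by_contra hcon
        push Not at hcon
        have : (μ' : ℤ) - μ ≤ -1 := by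
          have : (μ' : ℤ) < μ := by exact_mod_cast hcon
          linarith
        nlinarith
      obtain ⟨d, rfl⟩ := Nat.exists_eq_add_of_le hμ
      obtain ⟨e, rfl⟩ := Nat.exists_eq_add_of_le hm
      have hr := Λ.rate l hlM r1 (w * r2) d e
        (by
          rw [hl, Prod.fst_mul, Prod.fst_inv, h4, h4', pow_add]
          group)
        (by
          rw [hl, Prod.snd_mul, Prod.snd_inv, h5, h5', he, he', pow_add]
          group)
      have hr' : (e : ℤ) * Λ.p ≤ d * Λ.q := by exact_mod_cast hr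
      rw [hsu, hc, hc']
      push_cast
      have hyZ : (1 : ℤ) ≤ (nm Λ.y : ℤ) := by exact_mod_cast hy
      have h6 : (Λ.u : ℤ) * (nm Λ.y : ℤ) * ((e : ℤ) * Λ.p) ≤
          (Λ.u : ℤ) * (nm Λ.y : ℤ) * (d * Λ.q) :=
        mul_le_mul_of_nonneg_left hr' (by positivity)
      nlinarith
    · exfalso
      have := Nat.mod_lt (c - nm (Λ.B2 tr.n (j + a))) hy
      omega
  · rcases h3' with ⟨h3', ho'⟩ | ⟨h3', ho'⟩
    · exfalso
      have := Nat.mod_lt (c' - nm (Λ.B2 tr.n (j + a))) hy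
      omega
    · have : c = c' := by omega
      subst this
      simpa using hR0

/-- the state exists -/
theorem lb_exists {Λ : Lane} (tr : Trip Λ) {i j j' s c : ℕ} (hj' : j' ≤ tr.len + 2)
    (h1 : nm (Λ.B2 tr.n j) < c) (h2 : c ≤ nm (Λ.B2 tr.n j')) (hgood : tr.good i s)
    (hR : nm ((vtx (Λ.B2 tr.n (tr.len + 2)) c)⁻¹ * (tr.γ s).2) ≤ Λ.R) :
    ∃ (a o : ℕ) (r1 r2 : F), a < j' - j + 1 ∧ o < nm Λ.y + nm Λ.g2 + 1 ∧ nm r1 ≤ Λ.c0 ∧
      nm r2 ≤ Λ.R ∧ LBState tr i j s c a o r1 r2 := by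
  classical
  have hy := cr_nm_pos Λ.hy
  have hex : ∃ k, c ≤ nm (Λ.B2 tr.n (j + k)) := by
    by_cases hjj : j ≤ j'
    · exact ⟨j' - j, by rw [Nat.add_sub_cancel' hjj]; exact h2⟩
    · exfalso
      push Not at hjj
      have := Λ.b2_nm_mono tr.hn hjj.le
      omega
  have hk := Nat.find_spec hex
  have hkmin := fun m (hm : m < Nat.find hex) => Nat.find_min hex hm
  generalize Nat.find hex = k at hk hkmin
  have hk0 : k ≠ 0 := by
    rintro rfl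
    rw [add_zero] at hk
    omega
  obtain ⟨a, rfl⟩ := Nat.exists_eq_succ_of_ne_zero hk0
  have ha := hkmin a (Nat.lt_succ_self a)
  push Not at ha
  have hjj : j + a < j' := by
    by_contra hcon
    push Not at hcon
    have := Λ.b2_nm_mono tr.hn hcon
    omega
  obtain ⟨μ, r1, -, hr1, he⟩ := hgood
  have hsucc := Λ.b2_nm_succ tr.hn (j + a)
  rw [Nat.succ_eq_add_one, ← add_assoc, hsucc] at hk
  by_cases hp : c ≤ nm (Λ.B2 tr.n (j + a)) + Λ.q * tr.n (j + a) * nm Λ.y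
  · refine ⟨a, (c - nm (Λ.B2 tr.n (j + a))) % nm Λ.y, r1,
      (vtx (Λ.B2 tr.n (tr.len + 2)) c)⁻¹ * (tr.γ s).2, by omega, ?_, hr1, hR, ha, by omega,
      Or.inl ⟨hp, rfl⟩, ⟨μ, he⟩, by group⟩
    have := Nat.mod_lt (c - nm (Λ.B2 tr.n (j + a))) hy
    omega
  · push Not at hp
    exact ⟨a, nm Λ.y + (c - nm (Λ.B2 tr.n (j + a)) - Λ.q * tr.n (j + a) * nm Λ.y), r1,
      (vtx (Λ.B2 tr.n (tr.len + 2)) c)⁻¹ * (tr.γ s).2, by omega, by omega, hr1, hR, ha, by omega,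
      Or.inr ⟨hp, rfl⟩, ⟨μ, he⟩, by group⟩

theorem lane_bound (Λ : Lane) : ∃ A1 : ℕ, ∀ tr : Trip Λ, ∀ i, i < tr.len → ∀ t t',
    tr.Free i t t' → ∀ j j', j ≤ j' → j' ≤ tr.len + 2 → nm (Λ.B2 tr.n j) ≤ tr.P t →
      tr.P t' ≤ nm (Λ.B2 tr.n j') →
      ((Λ.p * Λ.u : ℕ) : ℤ) * ((tr.P t' : ℤ) - tr.P t) ≤
        ((Λ.q * nm Λ.y : ℕ) : ℤ) * ((t' : ℤ) - t) + A1 * (1 + ((j' : ℤ) - j)) := by
  classical
  letI f1 : Fintype {r : F // nm r ≤ Λ.c0} := (norm_ball_finite Λ.c0).fintype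
  letI f2 : Fintype {r : F // nm r ≤ Λ.R} := (norm_ball_finite Λ.R).fintype
  have hS : ∀ k : ℕ, Fintype.card (Fin k × (Fin (nm Λ.y + nm Λ.g2 + 1) ×
      ({r : F // nm r ≤ Λ.c0} × {r : F // nm r ≤ Λ.R}))) =
      k * ((nm Λ.y + nm Λ.g2 + 1) * (Fintype.card {r : F // nm r ≤ Λ.c0} *
        Fintype.card {r : F // nm r ≤ Λ.R})) := by
    intro k
    simp only [Fintype.card_prod, Fintype.card_fin]
  set K : ℕ := (nm Λ.y + nm Λ.g2 + 1) * (Fintype.card {r : F // nm r ≤ Λ.c0} *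
        Fintype.card {r : F // nm r ≤ Λ.R}) with hK
  refine ⟨Λ.p * Λ.u * (1 + K), ?_⟩
  intro tr i hi t t' hfree j j' hjj hj' hP hP'
  obtain ⟨hTt, htt, htT, hoff, hgood⟩ := hfree
  have hTL : tr.T (i + 1) ≤ tr.L := tr.T_le_L hi
  have htL : t' ≤ tr.L := htT.trans hTL
  have httZ : (t : ℤ) ≤ t' := by exact_mod_cast htt
  have hjjZ : (j : ℤ) ≤ j' := by exact_mod_cast hjj
  have hA0 : (0 : ℤ) ≤ ((Λ.q * nm Λ.y : ℕ) : ℤ) * ((t' : ℤ) - t) :=
    mul_nonneg (by positivity) (by linarith)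
  have hA1 : (0 : ℤ) ≤ ((Λ.p * Λ.u * (1 + K) : ℕ) : ℤ) * (1 + ((j' : ℤ) - j)) :=
    mul_nonneg (by positivity) (by linarith)
  by_cases hPP : tr.P t' ≤ tr.P t
  · have h1 : ((tr.P t' : ℤ) - tr.P t) ≤ 0 := by
      have : (tr.P t' : ℤ) ≤ tr.P t := by exact_mod_cast hPP
      linarith
    have h2 : ((Λ.p * Λ.u : ℕ) : ℤ) * ((tr.P t' : ℤ) - tr.P t) ≤ 0 :=
      mul_nonpos_of_nonneg_of_nonpos (by positivity) h1
    linarith
  push Not at hPP
  set Z := Λ.B2 tr.n (tr.len + 2) with hZ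
  have hPZ : tr.P t' ≤ nm Z := pos_le_left _ _
  have hstep : ∀ s, t ≤ s → s < t' →
      nm (((fun v => (tr.γ v).2) s)⁻¹ * (fun v => (tr.γ v).2) (s + 1)) ≤ Λ.R :=
    fun s _ h2 => (tr.step_le (lt_of_lt_of_le h2 htL)).2
  have hs : ∀ c, ∃ s, tr.P t < c → c ≤ tr.P t' → t < s ∧ s ≤ t' ∧
      (∀ v, s ≤ v → v ≤ t' → Pre (vtx Z c) (tr.γ v).2) ∧ ¬ Pre (vtx Z c) (tr.γ (s - 1)).2 ∧
      nm ((vtx Z c)⁻¹ * (tr.γ s).2) ≤ Λ.R := by
    intro c
    by_cases hc : tr.P t < c ∧ c ≤ tr.P t'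
    · have hcZ : c ≤ nm Z := hc.2.trans hPZ
      obtain ⟨s, h1, h2, h3, h4, h5⟩ := last_exit (x := fun v => (tr.γ v).2) hstep htt
        (p := vtx Z c) (by
          intro hcon
          have := (vtx_pre_iff hcZ _).1 hcon
          have h6 : c ≤ tr.P t := this
          omega) ((vtx_pre_iff hcZ _).2 hc.2)
      exact ⟨s, fun _ _ => ⟨h1, h2, h3, h4, h5⟩⟩
    · exact ⟨0, fun h1 h2 => absurd ⟨h1, h2⟩ hc⟩
  choose s hs using hs
  have hmono : ∀ c c', tr.P t < c → c ≤ c' → c' ≤ tr.P t' → s c ≤ s c' := by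
    intro c c' h1 h2 h3
    obtain ⟨a1, a2, a3, a4, a5⟩ := hs c h1 (h2.trans h3)
    obtain ⟨b1, b2, b3, b4, b5⟩ := hs c' (lt_of_lt_of_le h1 h2) h3
    by_contra hcon
    push Not at hcon
    exact a4 (pre_trans (vtx_mono Z h2) (b3 (s c - 1) (by omega) (by omega)))
  have hst : ∀ c, ∃ σ : Fin (j' - j + 1) × (Fin (nm Λ.y + nm Λ.g2 + 1) ×
      ({r : F // nm r ≤ Λ.c0} × {r : F // nm r ≤ Λ.R})), tr.P t < c → c ≤ tr.P t' →
      LBState tr i j (s c) c σ.1.val σ.2.1.val σ.2.2.1.val σ.2.2.2.val := by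
    intro c
    by_cases hc : tr.P t < c ∧ c ≤ tr.P t'
    · obtain ⟨a1, a2, a3, a4, a5⟩ := hs c hc.1 hc.2
      obtain ⟨a, o, r1, r2, ha, ho, hr1, hr2, hL⟩ := lb_exists tr (i := i) hj'
        (lt_of_le_of_lt hP hc.1) (hc.2.trans hP') (hgood (s c) a1.le a2) a5
      exact ⟨(⟨a, ha⟩, (⟨o, ho⟩, (⟨r1, hr1⟩, ⟨r2, hr2⟩))), fun _ _ => hL⟩
    · exact ⟨(⟨0, by omega⟩, (⟨0, by omega⟩, (⟨1, by rw [nm_one]; omega⟩,
        ⟨1, by rw [nm_one]; omega⟩))), fun h1 h2 => absurd ⟨h1, h2⟩ hc⟩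
  choose st hst using hst
  have hpu : (0 : ℤ) ≤ ((Λ.p * Λ.u : ℕ) : ℤ) := by positivity
  have hqy : (0 : ℤ) ≤ ((Λ.q * nm Λ.y : ℕ) : ℤ) := by positivity
  have key := last_occ st
    (fun c => ((Λ.q * nm Λ.y : ℕ) : ℤ) * (s c : ℤ) - ((Λ.p * Λ.u : ℕ) : ℤ) * (c : ℤ))
    ((Λ.p * Λ.u : ℕ) : ℤ) hpu (tr.P t + 1) (tr.P t') hPP
    (by
      intro a b ha hab hb hstab
      have hsab := hmono a b (by omega) hab hb
      obtain ⟨a1, a2, -⟩ := hs a (by omega) (by omega)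
      obtain ⟨b1, b2, -⟩ := hs b (by omega) hb
      have h0 : cnt tr.off (s a) (s b) = 0 := by
        rw [cnt_eq_zero]
        intro v hv1 hv2
        exact hoff v (by omega) (by omega)
      have hsa := hst a (by omega) (by omega)
      have hsb := hst b (by omega) hb
      rw [← hstab] at hsb
      have := lb_key tr i j _ _ _ _ (s a) (s b) a b hsab (by omega) h0 hab (hb.trans hPZ) hsa hsb
      linarith [this])
    (by
      intro a ha ha'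
      have hsab := hmono a (a + 1) (by omega) (by omega) (by omega)
      have h1 : (s a : ℤ) ≤ s (a + 1) := by exact_mod_cast hsab
      have h2 := mul_le_mul_of_nonneg_left h1 hqy
      push_cast at *
      linarith)
  rw [hS] at key
  obtain ⟨a1, a2, -⟩ := hs (tr.P t + 1) (by omega) hPP
  obtain ⟨b1, b2, -⟩ := hs (tr.P t') hPP le_rfl
  have c1 : (t : ℤ) ≤ s (tr.P t + 1) := by exact_mod_cast a1.le
  have c2 : (s (tr.P t') : ℤ) ≤ t' := by exact_mod_cast b2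
  have d1 := mul_le_mul_of_nonneg_left c1 hqy
  have d2 := mul_le_mul_of_nonneg_left c2 hqy
  have hcast : ((j' - j + 1 : ℕ) : ℤ) = 1 + ((j' : ℤ) - j) := by
    push_cast [Nat.cast_sub hjj]
    ring
  have hk2 : (((j' - j + 1) * K : ℕ) : ℤ) = (1 + ((j' : ℤ) - j)) * K := by
    rw [Nat.cast_mul, hcast]
  rw [hk2] at key
  have e1 : ((Λ.p * Λ.u * (1 + K) : ℕ) : ℤ) * (1 + ((j' : ℤ) - j)) =
      ((Λ.p * Λ.u : ℕ) : ℤ) * (1 + ((j' : ℤ) - j)) +
        ((Λ.p * Λ.u : ℕ) : ℤ) * ((1 + ((j' : ℤ) - j)) * K) := by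
    push_cast
    ring
  have e2 : ((Λ.p * Λ.u : ℕ) : ℤ) * 1 ≤ ((Λ.p * Λ.u : ℕ) : ℤ) * (1 + ((j' : ℤ) - j)) :=
    mul_le_mul_of_nonneg_left (by linarith) hpu
  rw [e1]
  have e3 : (((tr.P t + 1 : ℕ) : ℤ)) = (tr.P t : ℤ) + 1 := by push_cast; ring
  rw [e3] at key
  linarith [key, d1, d2, e2]

end Pool.Agent.FTP
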