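import Mathlib
import Pool.Agent.FTP.Defs
import Pool.Agent.FTP.TreeA
import Pool.Agent.FTP.TreeB
import Pool.Agent.FTP.TreeC
import Pool.Agent.FTP.Near

/-!
# FTP / T1Near: a rigid path along a periodic segment stays near it

`x : ℕ → F` is a path on `[a, b]` with steps at most `R`; `Q t` marks the special times; the inequality
`s' - s ≤ nm ((x s)⁻¹ x s') + c1 * cnt Q s s'` holds (rigidity). The segment goes from `B` to
`Z := B * w ^ ν`, `w` cyclically reduced, `nm (B w^m) = nm B + m nm w` for `m ≤ ν`; the path starts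
within `R1` of `B`, ends within `R1` of `Z`, and `B` is a prefix of all `x t`.

Claim: there are `e, f` with `e ≤ a + C`, `b ≤ f + C`, `C = 2R + 2R1 + 2 + c1 cnt Q a b`, such that
every `t ∈ [e, f]` lies in an interval `[s, s'] ⊆ [a, b]` with `s' - s ≤ 2R + c1 cnt Q s s'`, and if there
is no special time in `[s, s')`, then `x t = B w^m r` with `m ≤ ν`, `nm r ≤ R + 2R^2 + nm w`.

Proof. Positions are taken with respect to `Z`. All positions are `≥ nm B` and `≤ nm Z`.
Let `P0 = pos Z (x a)`, `P1 = pos Z (x b)`. The projection `vtx Z P0` is within `R1` of `x a`: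
`B` is a prefix of `x a`, so `nm ((vtx Z P0)⁻¹ x a) = nm (x a) - P0 ≤ nm (x a) - nm B ≤ nm (B⁻¹ x a)`
(`depth_eq`). Similarly `vtx Z P1` is within `R1` of `x b`: by `pos_dist`,
`nm (Z⁻¹ x b) = (nm Z - P1) + (nm (x b) - P1)`.
* If `P0 < P1`: let `e` be one plus the last time in `[a, b)` with position `≤ P0` (`last_pos` with
  `n = P0`): `nm ((vtx Z P0)⁻¹ x e) ≤ R`, so `nm ((x a)⁻¹ x e) ≤ R + R1` and rigidity gives
  `e - a ≤ R + R1 + c1 cnt Q a e`; all times `t ≥ e`, `t ≤ b` have position `> P0`. Let `f + 1` be the first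
  time in `(a, b]` with position `≥ P1` (`first_pos` with `n = P1`): within `R` of `vtx Z P1`, so
  `b - (f + 1) ≤ R + R1 + c1 cnt`; all times `≤ f` have position `< P1`. For `e ≤ t ≤ f` the position `P` of
  `x t` is strictly between `P0` and `P1`, and `near_line` gives `s < t < s'` with
  `x s, x s'` within `R` of `v = vtx Z P`. So `s' - s ≤ 2R + c1 cnt Q s s'`. If there is no special time
  in `[s, s')`, then `s' - s ≤ 2R`, so `nm ((x s)⁻¹ x t) ≤ R (t - s) ≤ 2 R^2`, `nm (v⁻¹ x t) ≤ R + 2R^2`; and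
  `v = B w^m w'` with `m ≤ ν` and `w'` a proper prefix of `w` (or `w' = 1`) because `nm B ≤ P ≤ nm Z`
  (`P = nm B + m nm w + o`, `o < nm w`, both sides are prefixes of `Z` of the same length).
* If `P1 ≤ P0`: then `vtx Z P1` is on the segment from `B` to `vtx Z P0`, and the distance from `B` to
  `Z` is small: `nm B + (nm Z - nm B)`: `P0 - nm B ≤ R1` and `nm Z - P1 ≤ R1`, hence
  `nm Z - nm B ≤ 2 R1 - (P0 - P1)`, and the distance from `x a` to `x b` is at most
  `R1 + (P0 - P1)`... in any case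
  `nm ((x a)⁻¹ x b) ≤ nm ((x a)⁻¹ B) + nm (B⁻¹ Z) + nm (Z⁻¹ x b)`; better:
  `nm ((x a)⁻¹ x b) ≤ nm ((x a)⁻¹ vtx Z P0) + (P0 - P1) + nm ((vtx Z P1)⁻¹ x b)` where the first term plus
  `P0 - nm B` is at most `R1` and the last plus `nm Z - P1` is at most `R1`; so the sum is at most
  `2 R1`. Then `b - a ≤ 2 R1 + c1 cnt Q a b`, and we may take `e = b + 1`, `f = b` (no `t`).
-/

namespace Pool.Agent.FTP

private theorem t1n_path {x : ℕ → F} {R a b : ℕ}
    (hstep : ∀ s, a ≤ s → s < b → nm ((x s)⁻¹ * x (s + 1)) ≤ R) {s : ℕ} (has : a ≤ s) :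
    ∀ k, s + k ≤ b → nm ((x s)⁻¹ * x (s + k)) ≤ R * k
  | 0, _ => by simp
  | k + 1, h => by
    have h1 := t1n_path hstep has k (by omega)
    have h2 := hstep (s + k) (by omega) (by omega)
    have h3 := nm_triangle (x s) (x (s + k)) (x (s + k + 1))
    have e : s + (k + 1) = s + k + 1 := rfl
    rw [e, Nat.mul_succ]
    omega

private theorem t1n_pre {w : F} (hw : CR w) {B : F} {ν : ℕ}
    (hB : ∀ m ≤ ν, nm (B * w ^ m) = nm B + m * nm w) {m : ℕ} (hm : m ≤ ν) :
    Pre (B * w ^ m) (B * w ^ ν) := by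
  unfold Pre
  have e : (B * w ^ m)⁻¹ * (B * w ^ ν) = w ^ (ν - m) := by
    obtain ⟨k, rfl⟩ := Nat.exists_eq_add_of_le hm
    rw [Nat.add_sub_cancel_left, pow_add]
    group
  rw [e, cr_nm_pow hw, hB m hm, hB ν le_rfl, add_assoc, ← add_mul, Nat.add_sub_cancel' hm]

theorem t1near {x : ℕ → F} {R R1 c1 a b : ℕ} (Q : ℕ → Prop) (hab : a ≤ b)
    (hstep : ∀ s, a ≤ s → s < b → nm ((x s)⁻¹ * x (s + 1)) ≤ R)
    (hrig : ∀ s s', a ≤ s → s ≤ s' → s' ≤ b →
      s' - s ≤ nm ((x s)⁻¹ * x s') + c1 * cnt Q s s')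
    (B w : F) (hw : CR w) (ν : ℕ) (hB : ∀ m ≤ ν, nm (B * w ^ m) = nm B + m * nm w)
    (h1 : nm (B⁻¹ * x a) ≤ R1) (h2 : nm ((B * w ^ ν)⁻¹ * x b) ≤ R1)
    (hahead : ∀ t, a ≤ t → t ≤ b → Pre B (x t)) :
    ∃ e f, a ≤ e ∧ f ≤ b ∧ e ≤ a + (2 * R + 2 * R1 + 2 + c1 * cnt Q a b) ∧
      b ≤ f + (2 * R + 2 * R1 + 2 + c1 * cnt Q a b) ∧
      ∀ t, e ≤ t → t ≤ f → ∃ s s', a ≤ s ∧ s ≤ t ∧ t ≤ s' ∧ s' ≤ b ∧
        s' - s ≤ 2 * R + c1 * cnt Q s s' ∧
        (cnt Q s s' = 0 → ∃ (m : ℕ) (r : F), m ≤ ν ∧ nm r ≤ R + 2 * R * R + nm w ∧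
          x t = B * w ^ m * r) := by
  have hwpos := cr_nm_pos hw
  have hZn : nm (B * w ^ ν) = nm B + ν * nm w := hB ν le_rfl
  have hPB : Pre B (B * w ^ ν) := by
    have h := t1n_pre hw hB (Nat.zero_le ν)
    rwa [pow_zero, mul_one] at h
  set Z := B * w ^ ν with hZ
  have hlow : ∀ t, a ≤ t → t ≤ b → nm B ≤ pos Z (x t) := fun t h h' =>
    (pos_spec hPB (x t)).1 (hahead t h h')
  have ha0 := hlow a le_rfl hab
  have hb0 := hlow b hab le_rfl
  have hda := depth_eq Z (x a)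
  have hdb := depth_eq Z (x b)
  have hra := pos_le_right Z (x a)
  have hrb := pos_le_right Z (x b)
  have hla := pos_le_left Z (x a)
  have hlb := pos_le_left Z (x b)
  have hBa : nm (x a) = nm B + nm (B⁻¹ * x a) := hahead a le_rfl hab
  have hZb := pos_dist Z (x b)
  rcases lt_or_ge (pos Z (x a)) (pos Z (x b)) with hlt | hge
  · obtain ⟨T, haT, hTb, hT1, hT2, hT3, hT4⟩ := last_pos Z hstep hab (n := pos Z (x a)) le_rfl hlt
    obtain ⟨T', haT', hTb', hT1', hT2', hT3'⟩ := first_pos Z hstep hab (n := pos Z (x b)) hlt le_rfl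
    have hcm1 : c1 * cnt Q a (T + 1) ≤ c1 * cnt Q a b :=
      Nat.mul_le_mul_left _ (cnt_mono Q le_rfl (by omega))
    have hcm2 : c1 * cnt Q T' b ≤ c1 * cnt Q a b :=
      Nat.mul_le_mul_left _ (cnt_mono Q (by omega) le_rfl)
    have hr1 := hrig a (T + 1) le_rfl (by omega) (by omega)
    have hr2 := hrig T' b (by omega) hTb' le_rfl
    have ht1 := nm_triangle (x a) (vtx Z (pos Z (x a))) (x (T + 1))
    have ht2 := nm_triangle (x T') (vtx Z (pos Z (x b))) (x b)
    rw [nm_comm (x a) (vtx Z (pos Z (x a)))] at ht1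
    rw [nm_comm (x T') (vtx Z (pos Z (x b)))] at ht2
    refine ⟨T + 1, T' - 1, by omega, by omega, by omega, by omega, ?_⟩
    intro t het htf
    have hp1 : pos Z (x a) < pos Z (x t) := hT1 t (by omega) (by omega)
    have hp2 : pos Z (x t) < pos Z (x b) := hT1' t (by omega) (by omega)
    obtain ⟨s, s', has, hst, hts', hs'b, hv1, hv2⟩ := near_line Z hstep (t := t) (by omega) (by omega)
      (Nat.ne_of_lt hp1) (Nat.ne_of_gt hp2)
    have hr := hrig s s' has (by omega) hs'b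
    have htr := nm_triangle (x s) (vtx Z (pos Z (x t))) (x s')
    rw [nm_comm (x s) (vtx Z (pos Z (x t)))] at htr
    refine ⟨s, s', has, hst.le, hts'.le, hs'b, by omega, ?_⟩
    intro hc
    rw [hc, Nat.mul_zero] at hr
    have hk := t1n_path hstep has (t - s) (by omega)
    rw [Nat.add_sub_cancel' hst.le] at hk
    have hk2 : R * (t - s) ≤ 2 * R * R := by
      rw [mul_comm (2 * R) R]
      exact Nat.mul_le_mul_left _ (by omega)
    have hvt := nm_triangle (vtx Z (pos Z (x t))) (x s) (x t)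
    have hP1 : nm B ≤ pos Z (x t) := hlow t (by omega) (by omega)
    have hP2 : pos Z (x t) ≤ nm Z := pos_le_left Z (x t)
    have hm : (pos Z (x t) - nm B) / nm w ≤ ν := by
      have h5 : pos Z (x t) - nm B ≤ ν * nm w := by omega
      calc (pos Z (x t) - nm B) / nm w ≤ (ν * nm w) / nm w := Nat.div_le_div_right h5
        _ = ν := Nat.mul_div_cancel _ hwpos
    set m := (pos Z (x t) - nm B) / nm w with hmdef
    have hdm : nm w * m + (pos Z (x t) - nm B) % nm w = pos Z (x t) - nm B := Nat.div_add_mod _ _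
    have hmod : (pos Z (x t) - nm B) % nm w < nm w := Nat.mod_lt _ hwpos
    have hpm := t1n_pre hw hB hm
    rw [← hZ] at hpm
    have hvm := vtx_of_pre hpm
    have hBm := hB m hm
    have hcomm : nm w * m = m * nm w := mul_comm _ _
    have hdist := dist_vtx (Z := Z) (m := nm (B * w ^ m)) (n := pos Z (x t)) (by omega) hP2
    rw [hvm] at hdist
    have hfin := nm_triangle (B * w ^ m) (vtx Z (pos Z (x t))) (x t)
    refine ⟨m, (B * w ^ m)⁻¹ * x t, hm, by omega, ?_⟩
    group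
  · have ht1 := nm_triangle (x a) (vtx Z (pos Z (x a))) (x b)
    have ht2 := nm_triangle (vtx Z (pos Z (x a))) (vtx Z (pos Z (x b))) (x b)
    rw [nm_comm (x a) (vtx Z (pos Z (x a)))] at ht1
    have hdist := dist_vtx (Z := Z) hge hla
    rw [nm_comm] at hdist
    have hr := hrig a b le_rfl hab le_rfl
    refine ⟨b + 1, b, by omega, le_rfl, by omega, by omega, ?_⟩
    intro t h1' h2'
    omega

end Pool.Agent.FTP
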