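import Mathlib
import Pool.Agent.FTP.Defs
import Pool.Agent.FTP.Comb
import Pool.Agent.FTP.T1Near
import Pool.Agent.FTP.Lane
import Pool.Agent.FTP.LineGeo
import Pool.Agent.FTP.Rigid

/-!
# FTP / T1Good: few bad times in every block

Claim: there is `C` (depending on the lane only) such that for every trip and every block `i` the
number of bad times in `[T i, T (i+1))` is at most `C (1 + k i)`.

Proof. Apply `t1near` to the first component, `a = T i`, `b = T (i+1)`, `Q = off`, `c1 = 1 + R`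
(`Trip.rigid`), `R1` replaced by `R1 + nm g1`, `B = B1 n i`, `w = x`, `ν = p * n i` (`b1_nm_pow`,
`ahead`, `near1`; at the end: `B1 (i+1) = B x^ν g1`). The radius in the conclusion is
`R + 2 R R + nm x = c0`. The bad times `t < e` and `t > f` number at most
`2 (2R + 2(R1 + nm g1) + 3 + c1 k i)`. A bad time `t ∈ [e, f]`, `t < T (i+1)`: if the letter at `t` is not
tight, the interval `[t, t+1]` has one such letter; otherwise `t` is not good, and the interval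
`[s, s']` of `t1near` contains a letter which is not tight (`cnt ≠ 0`). In both cases
`s' - s ≤ 2R + c1 cnt off s s'` (`R ≥ 1`), and `cover` with `C0 = 2R` gives that there are at most
`2 (2R + c1 + 1) k i` such times.
-/

namespace Pool.Agent.FTP

theorem t1good (Λ : Lane) : ∃ C : ℕ, ∀ tr : Trip Λ, ∀ i, i < tr.len →
    cnt (tr.bad i) (tr.T i) (tr.T (i + 1)) ≤ C * (1 + tr.k i) := by
  classical
  set D : ℕ := 2 * Λ.R + 2 * (Λ.R1 + nm Λ.g1) + 2 with hD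
  refine ⟨2 * D + 2 * (1 + Λ.R) + 2 * (2 * Λ.R + (1 + Λ.R) + 1), ?_⟩
  intro tr i hi
  have hab : tr.T i ≤ tr.T (i + 1) := tr.mono i hi
  have hbL : tr.T (i + 1) ≤ tr.L := tr.T_le_L (by omega)
  have hstep : ∀ s, tr.T i ≤ s → s < tr.T (i + 1) →
      nm (((fun t => (tr.γ t).1) s)⁻¹ * (fun t => (tr.γ t).1) (s + 1)) ≤ Λ.R := by
    intro s _ hs
    exact (tr.step_le (t := s) (by omega)).1
  have hrig : ∀ s s', tr.T i ≤ s → s ≤ s' → s' ≤ tr.T (i + 1) →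
      s' - s ≤ nm (((fun t => (tr.γ t).1) s)⁻¹ * (fun t => (tr.γ t).1) s') +
        (1 + Λ.R) * cnt tr.off s s' := by
    intro s s' _ hss hs'
    exact tr.rigid hss (by omega)
  have h1 : nm ((Λ.B1 tr.n i)⁻¹ * (fun t => (tr.γ t).1) (tr.T i)) ≤ Λ.R1 + nm Λ.g1 := by
    have := tr.near1 i (by omega)
    exact this.trans (Nat.le_add_right _ _)
  have h2 : nm ((Λ.B1 tr.n i * Λ.x ^ (Λ.p * tr.n i))⁻¹ * (fun t => (tr.γ t).1) (tr.T (i + 1))) ≤
      Λ.R1 + nm Λ.g1 := by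
    have h3 := tr.near1 (i + 1) (by omega)
    have hB : Λ.B1 tr.n (i + 1) = Λ.B1 tr.n i * Λ.x ^ (Λ.p * tr.n i) * Λ.g1 := rfl
    have e : (Λ.B1 tr.n i * Λ.x ^ (Λ.p * tr.n i))⁻¹ * (tr.γ (tr.T (i + 1))).1 =
        Λ.g1 * ((Λ.B1 tr.n (i + 1))⁻¹ * (tr.γ (tr.T (i + 1))).1) := by
      rw [hB]
      group
    show nm ((Λ.B1 tr.n i * Λ.x ^ (Λ.p * tr.n i))⁻¹ * (tr.γ (tr.T (i + 1))).1) ≤ _
    rw [e]
    have h4 : nm (Λ.g1 * ((Λ.B1 tr.n (i + 1))⁻¹ * (tr.γ (tr.T (i + 1))).1)) ≤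
        nm Λ.g1 + nm ((Λ.B1 tr.n (i + 1))⁻¹ * (tr.γ (tr.T (i + 1))).1) :=
      FreeGroup.norm_mul_le _ _
    omega
  obtain ⟨e, f, hae, hfb, he, hf, hmid⟩ := t1near (x := fun t => (tr.γ t).1) tr.off hab hstep hrig
    (Λ.B1 tr.n i) Λ.x Λ.hx (Λ.p * tr.n i) (fun m _ => Λ.b1_nm_pow tr.hn i m) h1 h2
    (fun t ht ht' => tr.ahead i hi t ht ht')
  set k := cnt tr.off (tr.T i) (tr.T (i + 1)) with hk
  have hkk : tr.k i = k := rfl
  set S : Finset ℕ := (Finset.Ico (tr.T i) (tr.T (i + 1))).filter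
    (fun t => tr.bad i t ∧ e ≤ t ∧ t ≤ f) with hS
  have hcov : S.card ≤ 2 * (2 * Λ.R + (1 + Λ.R) + 1) * k := by
    refine cover tr.off S (tr.T i) (tr.T (i + 1)) (2 * Λ.R) (1 + Λ.R) ?_
    intro t ht
    rw [hS, Finset.mem_filter, Finset.mem_Ico] at ht
    obtain ⟨⟨ht1, ht2⟩, hbad, ht3, ht4⟩ := ht
    by_cases hoff : tr.off t
    · refine ⟨t, t + 1, ht1, le_rfl, Nat.le_succ t, ht2, ?_, ?_⟩
      · rw [cnt_single_pos hoff]
        have := Λ.hR1
        omega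
      · rw [cnt_single_pos hoff]
    · obtain ⟨s, s', hs1, hs2, hs3, hs4, hs5, hs6⟩ := hmid t ht3 ht4
      refine ⟨s, s', hs1, hs2, hs3, hs4, hs5, ?_⟩
      by_contra hcon
      have h0 : cnt tr.off s s' = 0 := by omega
      obtain ⟨m, r, hm, hr, hx⟩ := hs6 h0
      rcases hbad with hb | hb
      · exact hoff hb
      · exact hb ⟨m, r, hm, hr, hx⟩
  have hsub : (Finset.Ico (tr.T i) (tr.T (i + 1))).filter (tr.bad i) ⊆
      (Finset.Ico (tr.T i) e ∪ Finset.Ico (f + 1) (tr.T (i + 1))) ∪ S := by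
    intro t ht
    rw [Finset.mem_filter, Finset.mem_Ico] at ht
    rw [Finset.mem_union, Finset.mem_union, Finset.mem_Ico, Finset.mem_Ico, hS, Finset.mem_filter,
      Finset.mem_Ico]
    rcases Nat.lt_or_ge t e with h | h
    · exact Or.inl (Or.inl ⟨ht.1.1, h⟩)
    · rcases Nat.lt_or_ge f t with h' | h'
      · exact Or.inl (Or.inr ⟨h', ht.1.2⟩)
      · exact Or.inr ⟨ht.1, ht.2, h, h'⟩
  have hcard : cnt (tr.bad i) (tr.T i) (tr.T (i + 1)) ≤
      (e - tr.T i) + (tr.T (i + 1) - (f + 1)) + S.card := by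
    have h5 := Finset.card_le_card hsub
    have h6 := Finset.card_union_le (Finset.Ico (tr.T i) e ∪ Finset.Ico (f + 1) (tr.T (i + 1))) S
    have h7 := Finset.card_union_le (Finset.Ico (tr.T i) e) (Finset.Ico (f + 1) (tr.T (i + 1)))
    rw [Nat.card_Ico, Nat.card_Ico] at h7
    have h8 : cnt (tr.bad i) (tr.T i) (tr.T (i + 1)) =
        ((Finset.Ico (tr.T i) (tr.T (i + 1))).filter (tr.bad i)).card := by
      unfold cnt
      congr
    omega
  rw [hkk]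
  have h9 : cnt (tr.bad i) (tr.T i) (tr.T (i + 1)) ≤
      2 * D + 2 * ((1 + Λ.R) * k) + 2 * (2 * Λ.R + (1 + Λ.R) + 1) * k := by
    omega
  refine h9.trans ?_
  have e1 : (2 * D + 2 * (1 + Λ.R) + 2 * (2 * Λ.R + (1 + Λ.R) + 1)) * (1 + k) =
      (2 * D + 2 * ((1 + Λ.R) * k) + 2 * (2 * Λ.R + (1 + Λ.R) + 1) * k) +
        (2 * (1 + Λ.R) + 2 * (2 * Λ.R + (1 + Λ.R) + 1) + 2 * D * k) := by ring
  rw [e1]
  exact Nat.le_add_right _ _

end Pool.Agent.FTP
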