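import Mathlib
import Pool.Agent.FTP.Defs
import Pool.Agent.FTP.Comb
import Pool.Agent.FTP.Lane
import Pool.Agent.FTP.Rigid
import Pool.Agent.FTP.T1Good
import Pool.Agent.FTP.LaneBound

/-!
# FTP / RateInt: speed limit for the second component in a block

Claim: there is `A2` (depending on the lane only): for `T i ≤ s ≤ s' ≤ T (i+1)` such that on `[s, s']` the
position `P` stays between `nm (B2 j)` and `nm (B2 j')`:
`p u (P s' - P s) ≤ q |y| (s' - s) + A2 (1 + (j' - j)) (1 + k i)`.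

Proof. `run_split` (Comb.lean) for `f v = p u P v - q |y| v`, `bad = tr.bad i`: one step increases `f` by at
most `p u R` (`P_step`); an interval `[t, t']` with `t' < s'` without bad times is free in the block
`i`, so `lane_bound` gives `f t' - f t ≤ A1 (1 + (j' - j))`. Hence
`f s' - f s ≤ (A1 (1 + (j' - j)) + 2 p u R) (cnt bad s s' + 1)`, and
`cnt bad s s' ≤ cnt bad (T i) (T (i+1)) ≤ C (1 + k i)` (`t1good`, `cnt_mono`).
-/

namespace Pool.Agent.FTP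

private theorem T_le_T {Λ : Lane} (tr : Trip Λ) {i j : ℕ} (h : i ≤ j) (hj : j ≤ tr.len) :
    tr.T i ≤ tr.T j := by
  induction j, h using Nat.le_induction with
  | base => exact le_refl _
  | succ j hij ih => exact (ih (by omega)).trans (tr.mono j (by omega))

theorem rate_int (Λ : Lane) : ∃ A2 : ℕ, ∀ tr : Trip Λ, ∀ i, i < tr.len → ∀ s s',
    tr.T i ≤ s → s ≤ s' → s' ≤ tr.T (i + 1) → ∀ j j', j ≤ j' → j' ≤ tr.len + 2 →
      (∀ v, s ≤ v → v ≤ s' → nm (Λ.B2 tr.n j) ≤ tr.P v ∧ tr.P v ≤ nm (Λ.B2 tr.n j')) →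
      ((Λ.p * Λ.u : ℕ) : ℤ) * ((tr.P s' : ℤ) - tr.P s) ≤
        ((Λ.q * nm Λ.y : ℕ) : ℤ) * ((s' : ℤ) - s) + A2 * (1 + ((j' : ℤ) - j)) * (1 + tr.k i) := by
  obtain ⟨A1, hA1⟩ := lane_bound Λ
  obtain ⟨C, hC⟩ := t1good Λ
  refine ⟨(A1 + 2 * (Λ.p * Λ.u * Λ.R)) * (C + 1), ?_⟩
  intro tr i hi s s' hs hss hs' j j' hj hj' hv
  have hTL : tr.T (i + 1) ≤ tr.L := by
    have := T_le_T tr (i := i + 1) (j := tr.len) (by omega) (le_refl _)
    rwa [tr.TL] at this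
  have hD : (0 : ℤ) ≤ (j' : ℤ) - j := by
    have : (j : ℤ) ≤ j' := by exact_mod_cast hj
    omega
  have hsplit := run_split
    (fun v => ((Λ.p * Λ.u : ℕ) : ℤ) * (tr.P v : ℤ) - ((Λ.q * nm Λ.y : ℕ) : ℤ) * (v : ℤ))
    (tr.bad i) s s' hss ((A1 : ℤ) * (1 + ((j' : ℤ) - j))) (((Λ.p * Λ.u * Λ.R : ℕ) : ℤ))
    (mul_nonneg (by positivity) (by omega)) (by positivity) (by
      intro v h1 h2
      have h3 := (tr.P_step (t := v) (by omega)).1
      have h4 : (tr.P (v + 1) : ℤ) ≤ tr.P v + Λ.R := by exact_mod_cast h3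
      have h5 : ((Λ.p * Λ.u : ℕ) : ℤ) * (tr.P (v + 1) : ℤ) ≤
          ((Λ.p * Λ.u : ℕ) : ℤ) * ((tr.P v : ℤ) + Λ.R) :=
        mul_le_mul_of_nonneg_left h4 (by positivity)
      have h6 : (0 : ℤ) ≤ ((Λ.q * nm Λ.y : ℕ) : ℤ) := by positivity
      push_cast at h5 h6 ⊢
      nlinarith) (by
      intro t t' h1 h2 h3 h4
      have hfree : tr.Free i t t' := by
        refine ⟨by omega, h2, by omega, ?_, ?_⟩
        · intro v hv1 hv2 hoff
          exact h4 v hv1 (by omega) (Or.inl hoff)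
        · intro v hv1 hv2
          by_contra hng
          exact h4 v hv1 hv2 (Or.inr hng)
      have h5 := hA1 tr i hi t t' hfree j j' hj hj' (hv t h1 (by omega)).1
        (hv t' (by omega) (by omega)).2
      push_cast at h5 ⊢
      linarith)
  have hcnt : cnt (tr.bad i) s s' ≤ C * (1 + tr.k i) := by
    have h1 := cnt_add (tr.bad i) (a := tr.T i) (b := s) (c := tr.T (i + 1)) hs (by omega)
    have h2 := cnt_add (tr.bad i) (a := s) (b := s') (c := tr.T (i + 1)) hss hs'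
    have h3 := hC tr i hi
    omega
  have hcnt' : ((cnt (tr.bad i) s s' : ℕ) : ℤ) + 1 ≤ ((C : ℤ) + 1) * (1 + (tr.k i : ℤ)) := by
    have h1 : ((cnt (tr.bad i) s s' : ℕ) : ℤ) ≤ (C : ℤ) * (1 + (tr.k i : ℤ)) := by
      exact_mod_cast hcnt
    have h2 : (0 : ℤ) ≤ (tr.k i : ℤ) := by positivity
    nlinarith
  have hfac : (A1 : ℤ) * (1 + ((j' : ℤ) - j)) + 2 * ((Λ.p * Λ.u * Λ.R : ℕ) : ℤ) ≤
      ((A1 : ℤ) + 2 * ((Λ.p * Λ.u * Λ.R : ℕ) : ℤ)) * (1 + ((j' : ℤ) - j)) := by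
    have h1 : (0 : ℤ) ≤ ((Λ.p * Λ.u * Λ.R : ℕ) : ℤ) := by positivity
    have h2 := mul_nonneg h1 hD
    nlinarith
  have hpos : (0 : ℤ) ≤ ((A1 : ℤ) + 2 * ((Λ.p * Λ.u * Λ.R : ℕ) : ℤ)) * (1 + ((j' : ℤ) - j)) :=
    mul_nonneg (by positivity) (by omega)
  have hprod : ((A1 : ℤ) * (1 + ((j' : ℤ) - j)) + 2 * ((Λ.p * Λ.u * Λ.R : ℕ) : ℤ)) *
      (((cnt (tr.bad i) s s' : ℕ) : ℤ) + 1) ≤
      (((A1 : ℤ) + 2 * ((Λ.p * Λ.u * Λ.R : ℕ) : ℤ)) * (1 + ((j' : ℤ) - j))) *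
        (((C : ℤ) + 1) * (1 + (tr.k i : ℤ))) :=
    mul_le_mul hfac hcnt' (by positivity) hpos
  have hfin := hsplit.trans hprod
  push_cast at hfin ⊢
  nlinarith [hfin]

end Pool.Agent.FTP
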