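import Mathlib
import Pool.Agent.FTP.Defs
import Pool.Agent.FTP.TreeB
import Pool.Agent.FTP.Lane
import Pool.Agent.FTP.LineGeo
import Pool.Agent.FTP.Rigid
import Pool.Agent.FTP.RateInt

/-!
# FTP / Global: the second component stays near the diagonal

Block lengths `n = nn N D`, `len = M` blocks, at most `E` letters that are not tight. Claim: there is
`CG` depending on `Λ, D, M, E` but NOT on `N` such that
`|P (T j) - nm (B2 (j + 2))| ≤ CG` for `j ≤ M`, and for `T j ≤ t ≤ T (j+1)`, `j < M`: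
`nm (B2 (j+2)) - CG ≤ P t ≤ nm (B2 (j+3)) + CG`.

Proof. Write `|y| = nm y`, `f v = p u P v - q |y| v`. `rate_int` with the blocks `0` and `M + 2`
(`nm (B2 0) = 0 ≤ P v ≤ nm (B2 (M+2))` always, `pos_le_left`) gives for `T i ≤ s ≤ s' ≤ T (i+1)`:
`f s' - f s ≤ A2 (M + 3) (1 + E) =: a` (as `k i ≤ E`). By `len_bound`,
`T (i+1) - T i ≤ p u n_i + a'`, `a' = nm g1 + 2 R1 + (1 + R) E`.
Upper bound: summing over the blocks `0, ..., j-1`:
`p u P (T j) ≤ p u P 0 + j a + q |y| (p u Σ_{i<j} n_i + j a')`, and `P 0 ≤ nm (B2 2) + R1`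
(`start2`), `nm (B2 (j+2)) = nm (B2 2) + Σ_{i=2}^{j+1} (q n_i |y| + nm g2)` (`b2_nm_succ`), where
`Σ_{i<j} n_i ≤ Σ_{i=2}^{j+1} n_i + 2 D` (the two sums have `j` terms; they differ in the first two and
last two blocks, each `n_i ∈ {N, N + D}`). Divide by `p u ≥ 1`.
Lower bound: the same for the blocks `j, ..., M-1` and `end2`:
`nm (B2 (M+2)) - R1 ≤ P (T M) ≤ P (T j) + (..)` and `Σ_{i=j}^{M-1} n_i ≤ Σ_{i=j+2}^{M+1} n_i + 2D`.
Intermediate times: `p u (P t - P (T j)) ≤ q |y| (t - T j) + a ≤ q |y| (p u n_j + a') + a`, so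
`P t ≤ P (T j) + q |y| n_j + (..) ≤ nm (B2 (j+2)) + q |y| n_j + (..) ≤ nm (B2 (j+3)) + (..)` since
`n_j ≤ n_{j+2} + D`; and from `t` to `T (j+1)`:
`P t ≥ P (T (j+1)) - q |y| n_j - (..) ≥ nm (B2 (j+3)) - q |y| n_j - (..) ≥ nm (B2 (j+2)) - (..)` since
`n_{j+2} ≥ n_j - D`.
(For the final constant: `CG` = any natural number computed from the bounds; it is convenient to
prove the bounds in `ℤ`, multiplied by `p u`, and to use `P' ≤ P + c` from
`p u P' ≤ p u P + c`.)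
-/

namespace Pool.Agent.FTP

theorem global (Λ : Lane) (D M E : ℕ) : ∃ CG : ℕ, ∀ tr : Trip Λ, tr.len = M →
    ∀ N : ℕ, 1 ≤ N → tr.n = nn N D → cnt tr.off 0 tr.L ≤ E →
      (∀ j, j ≤ M → tr.P (tr.T j) ≤ nm (Λ.B2 tr.n (j + 2)) + CG ∧
        nm (Λ.B2 tr.n (j + 2)) ≤ tr.P (tr.T j) + CG) ∧
      ∀ j, j < M → ∀ t, tr.T j ≤ t → t ≤ tr.T (j + 1) →
        tr.P t ≤ nm (Λ.B2 tr.n (j + 3)) + CG ∧ nm (Λ.B2 tr.n (j + 2)) ≤ tr.P t + CG := by
  obtain ⟨A2, hA2⟩ := rate_int Λ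
  obtain ⟨Q, hQ⟩ : ∃ Q : ℕ, Q = Λ.q * nm Λ.y := ⟨_, rfl⟩
  obtain ⟨a', ha'⟩ : ∃ a' : ℕ, a' = nm Λ.g1 + 2 * Λ.R1 + (1 + Λ.R) * E := ⟨_, rfl⟩
  obtain ⟨b, hb⟩ : ∃ b : ℕ, b = Q * a' + A2 * (M + 3) * (1 + E) := ⟨_, rfl⟩
  refine ⟨Λ.R1 + (M + 1) * b + 3 * (Q * D), ?_⟩
  intro tr hlen N hN hn hE
  have hTL : ∀ i, i ≤ M → tr.T i ≤ tr.L := fun i hi => tr.T_le_L (by omega)
  have hk : ∀ i, i < M → tr.k i ≤ E := by
    intro i hi
    exact (cnt_mono tr.off (Nat.zero_le _) (hTL (i + 1) (by omega))).trans hE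
  have hPle : ∀ v, tr.P v ≤ nm (Λ.B2 tr.n (tr.len + 2)) := fun v => pos_le_left _ _
  have hnm0 : nm (Λ.B2 tr.n 0) = 0 := nm_one
  -- growth inside a block
  have H3 : ∀ i, i < M → ∀ s s', tr.T i ≤ s → s ≤ s' → s' ≤ tr.T (i + 1) →
      tr.P s' ≤ tr.P s + Q * tr.n i + b := by
    intro i hi s s' h1 h2 h3
    have r := hA2 tr i (by omega) s s' h1 h2 h3 0 (tr.len + 2) (Nat.zero_le _) le_rfl
      (fun v _ _ => ⟨by rw [hnm0]; exact Nat.zero_le _, hPle v⟩)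
    have l := tr.len_bound i (by omega)
    have hki : (tr.k i : ℤ) ≤ E := by exact_mod_cast hk i hi
    have hW : (1 : ℤ) ≤ ((Λ.p * Λ.u : ℕ) : ℤ) := by exact_mod_cast Nat.mul_pos Λ.hp Λ.hu
    rw [hlen, ← hQ] at r
    have h1' : (tr.T i : ℤ) ≤ s := by exact_mod_cast h1
    have h3' : (s' : ℤ) ≤ tr.T (i + 1) := by exact_mod_cast h3
    have hss : ((s' : ℤ) - s) ≤ ((Λ.p * Λ.u : ℕ) : ℤ) * tr.n i + a' := by
      have e1 : ((1 : ℤ) + Λ.R) * (tr.k i : ℤ) ≤ (1 + Λ.R) * E :=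
        mul_le_mul_of_nonneg_left hki (by positivity)
      rw [ha']
      push_cast at l e1 ⊢
      linarith
    have hQ0 : (0 : ℤ) ≤ (Q : ℤ) := Int.natCast_nonneg _
    have e2 : (Q : ℤ) * ((s' : ℤ) - s) ≤ Q * (((Λ.p * Λ.u : ℕ) : ℤ) * tr.n i + a') :=
      mul_le_mul_of_nonneg_left hss hQ0
    have e3 : (A2 : ℤ) * (1 + (((M + 2 : ℕ) : ℤ) - ((0 : ℕ) : ℤ))) * (1 + (tr.k i : ℤ)) ≤
        A2 * (M + 3) * (1 + E) := by
      have e4 : (A2 : ℤ) * (1 + (((M + 2 : ℕ) : ℤ) - ((0 : ℕ) : ℤ))) = A2 * (M + 3) := by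
        push_cast
        ring
      rw [e4]
      exact mul_le_mul_of_nonneg_left (by linarith) (by positivity)
    have e5 : ((Λ.p * Λ.u : ℕ) : ℤ) * ((tr.P s' : ℤ) - tr.P s - Q * tr.n i) ≤ b := by
      rw [hb]
      push_cast at r e2 e3 ⊢
      nlinarith [r, e2, e3]
    have hb0 : (0 : ℤ) ≤ (b : ℤ) := Int.natCast_nonneg _
    have e6 : ((tr.P s' : ℤ) - tr.P s - Q * tr.n i) ≤ b := by
      by_contra hcon
      push Not at hcon
      have h0 : (0 : ℤ) ≤ ((tr.P s' : ℤ) - tr.P s - Q * tr.n i) := by linarith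
      have h7 : ((tr.P s' : ℤ) - tr.P s - Q * tr.n i) ≤
          ((Λ.p * Λ.u : ℕ) : ℤ) * ((tr.P s' : ℤ) - tr.P s - Q * tr.n i) :=
        le_mul_of_one_le_left h0 hW
      linarith
    have e7 : (tr.P s' : ℤ) ≤ ((tr.P s + Q * tr.n i + b : ℕ) : ℤ) := by
      push_cast
      linarith
    exact_mod_cast e7
  -- the line
  have hB : ∀ j, nm (Λ.B2 tr.n (j + 1)) = nm (Λ.B2 tr.n j) + Q * tr.n j + nm Λ.g2 := by
    intro j
    rw [Λ.b2_nm_succ tr.hn j, hQ]
    ring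
  have hnl : ∀ l, N ≤ tr.n l ∧ tr.n l ≤ N + D := by
    intro l
    rw [hn]
    unfold nn
    split <;> omega
  have hQl : ∀ l, Q * N ≤ Q * tr.n l ∧ Q * tr.n l ≤ Q * N + Q * D := by
    intro l
    refine ⟨Nat.mul_le_mul_left _ (hnl l).1, ?_⟩
    rw [← Nat.mul_add]
    exact Nat.mul_le_mul_left _ (hnl l).2
  -- upper bound at the times T j
  have hup : ∀ j, j ≤ M → tr.P (tr.T j) + Q * tr.n j + Q * tr.n (j + 1) ≤
      nm (Λ.B2 tr.n (j + 2)) + Λ.R1 + Q * tr.n 0 + Q * tr.n 1 + j * b := by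
    intro j
    induction j with
    | zero =>
      intro _
      have h1 : tr.P (tr.T 0) ≤ nm (Λ.B2 tr.n 2) + Λ.R1 := by
        rw [tr.T0]
        exact tr.start2
      simp only [Nat.zero_add, Nat.zero_mul]
      omega
    | succ j ih =>
      intro hj
      have h1 := ih (by omega)
      have h2 := H3 j (by omega) (tr.T j) (tr.T (j + 1)) le_rfl (tr.mono j (by omega)) le_rfl
      have h3 := hB (j + 2)
      have h4 : (j + 1) * b = j * b + b := by ring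
      rw [show j + 1 + 2 = j + 2 + 1 by ring, show j + 1 + 1 = j + 2 by ring, h3, h4]
      omega
  -- lower bound at the times T j
  have hlow : ∀ d j, j + d = M → nm (Λ.B2 tr.n (j + 2)) + Q * tr.n M + Q * tr.n (M + 1) ≤
      tr.P (tr.T j) + Q * tr.n j + Q * tr.n (j + 1) + Λ.R1 + d * b := by
    intro d
    induction d with
    | zero =>
      intro j hj
      have hjM : j = M := by omega
      subst hjM
      have h1 := tr.end2
      have h2 : tr.P (tr.T j) = pos (Λ.B2 tr.n (tr.len + 2)) (tr.γ tr.L).2 := by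
        rw [← hlen, tr.TL]
        rfl
      rw [← h2, hlen] at h1
      omega
    | succ d ih =>
      intro j hj
      have h1 := ih (j + 1) (by omega)
      have h2 := H3 j (by omega) (tr.T j) (tr.T (j + 1)) le_rfl (tr.mono j (by omega)) le_rfl
      have h3 := hB (j + 2)
      have h4 : (d + 1) * b = d * b + b := by ring
      rw [show j + 1 + 2 = j + 2 + 1 by ring, show j + 1 + 1 = j + 2 by ring, h3] at h1
      omega
  have hjb : ∀ j, j ≤ M → j * b ≤ M * b := fun j hj => Nat.mul_le_mul_right _ hj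
  have hMb : (M + 1) * b = M * b + b := by ring
  have h01 : Q * tr.n 0 + Q * tr.n 1 = Q * N + Q * N := by
    rw [hn]
    simp [nn]
  have hT1 : ∀ j, j ≤ M → tr.P (tr.T j) ≤ nm (Λ.B2 tr.n (j + 2)) + Λ.R1 + M * b := by
    intro j hj
    have h1 := hup j hj
    have h2 := hjb j hj
    have h3 := hQl j
    have h4 := hQl (j + 1)
    omega
  have hT2 : ∀ j, j ≤ M →
      nm (Λ.B2 tr.n (j + 2)) ≤ tr.P (tr.T j) + Λ.R1 + M * b + 2 * (Q * D) := by
    intro j hj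
    have h1 := hlow (M - j) j (by omega)
    have h2 := hjb (M - j) (by omega)
    have h3 := hQl j
    have h4 := hQl (j + 1)
    have h5 := hQl M
    have h6 := hQl (M + 1)
    omega
  constructor
  · intro j hj
    have h1 := hT1 j hj
    have h2 := hT2 j hj
    rw [hMb]
    constructor <;> omega
  · intro j hj t ht1 ht2
    have h1 := hT1 j (by omega)
    have h2 := hT2 (j + 1) (by omega)
    have h3 := H3 j hj (tr.T j) t le_rfl ht1 ht2
    have h4 := H3 j hj t (tr.T (j + 1)) ht1 ht2 le_rfl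
    have h5 := hB (j + 2)
    have h6 := hQl j
    have h7 := hQl (j + 2)
    rw [show j + 1 + 2 = j + 2 + 1 by ring, h5] at h2
    rw [show j + 3 = j + 2 + 1 by ring, h5, hMb]
    constructor <;> omega

end Pool.Agent.FTP
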