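import Mathlib
import Pool.Agent.FTP.Defs

/-!
# FTP / LineAlg: the relation InLine and parities

`InLine a v`: `v` lies on the rational line through `a` (`v = 0` if `a = 0`).

* It is a subgroup: for `a ≠ 0` the conditions `v i * a j = v j * a i` are linear in `v`.
* Two vectors `v, w` in line with the same `a` satisfy `v i * w j = v j * w i`: if `a = 0` both are
  zero; otherwise choose `k` with `a k ≠ 0`: `v i * a k = v k * a i`, `w j * a k = w k * a j`; so
  `a k ^ 2 * v i * w j = v k * a i * w k * a j = a k ^ 2 * v j * w i`.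
* Hence, if `modTwo v ≠ 0` and `modTwo w ≠ 0` then `modTwo v = modTwo w` (mod two: `v i w j = v j w i`;
  `v k = 1` for some `k` and `w l = 1` for some `l`; `w l = v k w l = v l w k` gives `v l = w k = 1`
  ... then `v j = v j w k = v k w j = w j` for all `j`; a finite check over `ZMod 2` works too).
* `exists_beta`: the set of all `modTwo v + modTwo w`, `InLine a v`, `InLine b w` has at most four
  elements: there are `p, q` with `modTwo v ∈ {0, p}`, `modTwo w ∈ {0, q}`; so it is contained in
  `{0, p, q, p + q}`, and `(Z/2)^3` has eight elements.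
* `lineMap a`: a homomorphism (additive) whose kernel is `InLine a`, with values in a group without
  torsion: `v ↦ (fun i j => v i * a j - v j * a i, if a = 0 then v else 0)`.
-/

namespace Pool.Agent.FTP

theorem inLine_zero (a : Fin 3 → ℤ) : InLine a 0 := ⟨fun _ => rfl, fun i j => by simp⟩

theorem inLine_self (a : Fin 3 → ℤ) : InLine a a := ⟨fun h => h, fun i j => by ring⟩

theorem inLine_add {a v w : Fin 3 → ℤ} (hv : InLine a v) (hw : InLine a w) :
    InLine a (v + w) := by
  refine ⟨fun h => by rw [hv.1 h, hw.1 h, add_zero], fun i j => ?_⟩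
  have h1 := hv.2 i j
  have h2 := hw.2 i j
  simp only [Pi.add_apply]
  linear_combination h1 + h2

theorem inLine_neg {a v : Fin 3 → ℤ} (hv : InLine a v) : InLine a (-v) := by
  refine ⟨fun h => by rw [hv.1 h, neg_zero], fun i j => ?_⟩
  have h1 := hv.2 i j
  simp only [Pi.neg_apply]
  linear_combination -h1

theorem inLine_sub {a v w : Fin 3 → ℤ} (hv : InLine a v) (hw : InLine a w) :
    InLine a (v - w) := by
  rw [sub_eq_add_neg]
  exact inLine_add hv (inLine_neg hw)

theorem inLine_nsmul {a v : Fin 3 → ℤ} (n : ℕ) (hv : InLine a v) : InLine a (n • v) := by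
  induction n with
  | zero => rw [zero_nsmul]; exact inLine_zero a
  | succ n ih => rw [succ_nsmul]; exact inLine_add ih hv

/-- the exponent vector of a product of elements with vectors in line with `a` -/
theorem inLine_list_prod {a : Fin 3 → ℤ} (l : List F) (hl : ∀ b ∈ l, InLine a (vec b)) :
    InLine a (vec l.prod) := by
  induction l with
  | nil => rw [List.prod_nil, vec_one]; exact inLine_zero a
  | cons b l ih =>
    rw [List.prod_cons, vec_mul]
    exact inLine_add (hl b (by simp)) (ih fun c hc => hl c (by simp [hc]))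

theorem inLine_cross {a v w : Fin 3 → ℤ} (hv : InLine a v) (hw : InLine a w) (i j : Fin 3) :
    v i * w j = v j * w i := by
  by_cases ha : a = 0
  · rw [hv.1 ha, hw.1 ha, Pi.zero_apply, Pi.zero_apply]
  · obtain ⟨k, hk⟩ := Function.ne_iff.1 ha
    have hk' : a k ≠ 0 := hk
    have h1 := hv.2 i k
    have h2 := hw.2 j k
    have h3 := hv.2 j k
    have h4 := hw.2 i k
    have h5 : a k * (a k * (v i * w j - v j * w i)) = 0 := by
      linear_combination a k * w j * h1 + v k * a i * h2 - a k * w i * h3 - v k * a j * h4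
    have h6 := mul_eq_zero.1 ((mul_eq_zero.1 h5).resolve_left hk')
    exact sub_eq_zero.1 (h6.resolve_left hk')

theorem zmod2_pair : ∀ (v w : Fin 3 → ZMod 2), (∀ i j, v i * w j = v j * w i) → v ≠ 0 → w ≠ 0 →
    v = w := by
  decide

theorem modTwo_inLine_eq {a v w : Fin 3 → ℤ} (hv : InLine a v) (hw : InLine a w)
    (hv0 : modTwo v ≠ 0) (hw0 : modTwo w ≠ 0) : modTwo v = modTwo w := by
  apply zmod2_pair _ _ _ hv0 hw0
  intro i j
  have h := inLine_cross hv hw i j
  unfold modTwo
  rw [← Int.cast_mul, ← Int.cast_mul, h]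

theorem exists_par_cover (a : Fin 3 → ℤ) : ∃ p : Fin 3 → ZMod 2, ∀ v, InLine a v →
    modTwo v = 0 ∨ modTwo v = p := by
  by_cases h : ∃ v, InLine a v ∧ modTwo v ≠ 0
  · obtain ⟨v, hv, hv0⟩ := h
    refine ⟨modTwo v, fun w hw => ?_⟩
    by_cases hw0 : modTwo w = 0
    · exact Or.inl hw0
    · exact Or.inr (modTwo_inLine_eq hw hv hw0 hv0)
  · refine ⟨0, fun v hv => Or.inl ?_⟩
    by_contra hv0
    exact h ⟨v, hv, hv0⟩

theorem zmod2_avoid : ∀ p q : Fin 3 → ZMod 2, ∃ β : Fin 3 → ZMod 2,
    (0 : Fin 3 → ZMod 2) + 0 ≠ β ∧ 0 + q ≠ β ∧ p + 0 ≠ β ∧ p + q ≠ β := by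
  intro p q
  by_contra hcon
  push Not at hcon
  have hsub : (Finset.univ : Finset (Fin 3 → ZMod 2)) ⊆ {0 + 0, 0 + q, p + 0, p + q} := by
    intro β _
    simp only [Finset.mem_insert, Finset.mem_singleton]
    by_cases h1 : (0 : Fin 3 → ZMod 2) + 0 = β
    · exact Or.inl h1.symm
    by_cases h2 : 0 + q = β
    · exact Or.inr (Or.inl h2.symm)
    by_cases h3 : p + 0 = β
    · exact Or.inr (Or.inr (Or.inl h3.symm))
    exact Or.inr (Or.inr (Or.inr (hcon β h1 h2 h3).symm))
  have h1 := Finset.card_le_card hsub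
  have h2 : (Finset.univ : Finset (Fin 3 → ZMod 2)).card = 8 := by
    rw [Finset.card_univ]
    simp [ZMod.card]
  have h3 := Finset.card_le_four (a := (0 : Fin 3 → ZMod 2) + 0) (b := 0 + q) (c := p + 0)
    (d := p + q)
  omega

theorem exists_beta (a b : Fin 3 → ℤ) :
    ∃ β : Fin 3 → ZMod 2, ∀ v w, InLine a v → InLine b w → modTwo v + modTwo w ≠ β := by
  obtain ⟨p, hp⟩ := exists_par_cover a
  obtain ⟨q, hq⟩ := exists_par_cover b
  obtain ⟨β, h1, h2, h3, h4⟩ := zmod2_avoid p q
  refine ⟨β, fun v w hv hw => ?_⟩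
  rcases hp v hv with h | h <;> rcases hq w hw with h' | h' <;> rw [h, h'] <;> assumption

/-- a homomorphism with kernel `InLine a` -/
noncomputable def lineMap (a v : Fin 3 → ℤ) : (Fin 3 → Fin 3 → ℤ) × (Fin 3 → ℤ) :=
  open Classical in (fun i j => v i * a j - v j * a i, if a = 0 then v else 0)

theorem lineMap_add (a v w : Fin 3 → ℤ) : lineMap a (v + w) = lineMap a v + lineMap a w := by
  unfold lineMap
  refine Prod.ext ?_ ?_
  · funext i j
    simp only [Prod.fst_add, Pi.add_apply]
    ring
  · simp only [Prod.snd_add]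
    split_ifs <;> simp

theorem lineMap_eq_zero (a v : Fin 3 → ℤ) : lineMap a v = 0 ↔ InLine a v := by
  unfold lineMap InLine
  rw [Prod.ext_iff]
  constructor
  · rintro ⟨h1, h2⟩
    refine ⟨fun ha => ?_, fun i j => ?_⟩
    · simpa [ha] using h2
    · have h := congrFun (congrFun h1 i) j
      simp only [Prod.fst_zero, Pi.zero_apply] at h
      linarith
  · rintro ⟨h1, h2⟩
    refine ⟨?_, ?_⟩
    · funext i j
      simp only [Prod.fst_zero, Pi.zero_apply]
      rw [h2 i j, sub_self]
    · simp only [Prod.snd_zero]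
      split_ifs with ha
      · exact h1 ha
      · rfl

theorem lineMap_torsion_free (x : (Fin 3 → Fin 3 → ℤ) × (Fin 3 → ℤ)) (n : ℕ) (hn : n ≠ 0)
    (h : n • x = 0) : x = 0 := by
  have hn' : (n : ℤ) ≠ 0 := by exact_mod_cast hn
  rw [Prod.ext_iff] at h
  refine Prod.ext ?_ ?_
  · funext i j
    have h1 := congrFun (congrFun h.1 i) j
    simp only [Prod.fst_zero, Pi.zero_apply, Prod.smul_fst, Pi.smul_apply, nsmul_eq_mul] at h1 ⊢
    exact (mul_eq_zero.1 h1).resolve_left hn'
  · funext i
    have h1 := congrFun h.2 i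
    simp only [Prod.snd_zero, Pi.zero_apply, Prod.smul_snd, Pi.smul_apply, nsmul_eq_mul] at h1 ⊢
    exact (mul_eq_zero.1 h1).resolve_left hn'

end Pool.Agent.FTP
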