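import Mathlib
import Pool.Agent.FTP.Defs
import Pool.Agent.FTP.TreeA
import Pool.Agent.FTP.TreeB
import Pool.Agent.FTP.TreeC
import Pool.Agent.FTP.LineAlg
import Pool.Agent.FTP.Lane
import Pool.Agent.FTP.LineGeo
import Pool.Agent.FTP.Rigid

/-!
# FTP / ParLock: tight progress is only possible in blocks of equal parity

Claim: there is `A0` (depending on the lane only): if `[t, t']` is free in the block `i` (tight letters,
good times) and the second component advances by more than `A0` inside the block `j` of the second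
line, then `i` and `j` have the same parity.

Proof. Let `(γ t).1 = B1 i x^m r`, `(γ t').1 = B1 i x^m' r'` (good times, `nm r, nm r' ≤ c0`).
(1) By `P_lip`, `t' - t ≥ (P t' - P t) / R` is large. By `tau_tight`,
`α (t' - t) = τ (r⁻¹ x^(m'-m) r') = τ r' - τ r + (m' - m) α u`, so `(m' - m) u ≥ (t' - t) - 2 c0`, and
`m' - m ≥ 2 c0 + 3` if `A0` is large (first exclude `m' < m` in the same way; use integers).
By `traverse` (TreeC) with `c = c0`, `k = m' - m`, the first component of the product of the word `l`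
between `t` and `t'` (`Trip.word`, it is a word in `M`) is the reduced product
`(r⁻¹ x^(c0+1)) * x * (..)`, so by `kp1`: `InLine a (vec (r⁻¹ x^(c0+1)))`, hence `InLine a (vec r)` by
`hxa`, hence `vec (γ t).1 = vec (B1 i) + v1` with `InLine a v1`.
(2) Let `A0 ≥ nm g2 + 3 nm y`, and `m2 = (P t - nm (B2 j)) / nm y + 1`. Then
`nm (B2 j) + m2 nm y > P t`, `nm (B2 j) + (m2 + 1) nm y ≤ P t'`, `m2 + 1 ≤ q n_j` (because
`P t' ≤ nm (B2 (j+1)) = nm (B2 j) + q n_j nm y + nm g2`). The point `h = B2 j y^m2` is on the line `Z2`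
(`b2_pre_succ`, `b2_pre`), no prefix of `(γ t).2` (`pos_spec`), while `h y` is a prefix of `(γ t').2`. By
the crossing lemma twice, `(γ t).2⁻¹ (γ t').2 = ((γ t).2⁻¹ h) * y * ((h y)⁻¹ (γ t').2)` is reduced, so
`kp2` gives `InLine b (vec ((γ t).2⁻¹ h))`, hence `vec (γ t).2 = vec (B2 j) + v2`, `InLine b v2`.
(3) Parities (`Trip.parity`, `par_B1`, `par_B2`): `(i • β + modTwo v1) - (j • β + modTwo v2) =
modTwo (vec ρ1) - modTwo (vec ρ2)`. If `i` and `j` had different parities, `i • β - j • β = β`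
(characteristic two), so `β = modTwo (vec ρ1 - v1) + modTwo (v2 - vec ρ2)`, contradicting `hβ`
(`hρ1`, `hρ2`).
-/

namespace Pool.Agent.FTP

private theorem smul_diff (β : Fin 3 → ZMod 2) {i j : ℕ} (h : i % 2 ≠ j % 2) : i • β - j • β = β := by
  have key : ((i : ZMod 2) - (j : ZMod 2)) = 1 := by
    rw [← ZMod.natCast_mod i 2, ← ZMod.natCast_mod j 2]
    rcases Nat.mod_two_eq_zero_or_one i with h1 | h1 <;> rcases Nat.mod_two_eq_zero_or_one j with h2 | h2 <;>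
      rw [h1, h2] at h ⊢
    · exact absurd rfl h
    · decide
    · decide
    · exact absurd rfl h
  funext k
  rw [Pi.sub_apply, Pi.smul_apply, Pi.smul_apply, nsmul_eq_mul, nsmul_eq_mul, ← sub_mul, key, one_mul]

private theorem tau_one (Λ : Lane) : Λ.τ 1 = 0 := by
  have h := Λ.hτ 1 1
  rw [mul_one] at h
  omega

private theorem tau_inv (Λ : Lane) (z : F) : Λ.τ z⁻¹ = - Λ.τ z := by
  have h := Λ.hτ z⁻¹ z
  rw [inv_mul_cancel, tau_one] at h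
  omega

private theorem tau_pow (Λ : Lane) (m : ℕ) : Λ.τ (Λ.x ^ m) = (m : ℤ) * (Λ.α * Λ.u) := by
  induction m with
  | zero => rw [pow_zero, tau_one]; simp
  | succ m ih =>
    rw [pow_succ, Λ.hτ, ih, Λ.hτx]
    push_cast
    ring

/-- first component: the vector is in line with `a` -/
private theorem first (Λ : Lane) (tr : Trip Λ) {i : ℕ} (hi : i < tr.len) {t t' : ℕ} (hf : tr.Free i t t')
    (hlen : 2 * Λ.c0 + Λ.u * (2 * Λ.c0 + 3) < t' - t) :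
    ∃ v1, InLine Λ.a v1 ∧ vec (tr.γ t).1 = vec (Λ.B1 tr.n i) + v1 := by
  obtain ⟨h1, h2, h3, h4, h5⟩ := hf
  have hL : t' ≤ tr.L := h3.trans (tr.T_le_L hi)
  have hcnt : cnt tr.off t t' = 0 := cnt_eq_zero.2 h4
  obtain ⟨m, r, hm, hr, e1⟩ := h5 t le_rfl h2
  obtain ⟨m', r', hm', hr', e2⟩ := h5 t' h2 le_rfl
  have ht := tr.tau_tight h2 hL hcnt
  have e3 : Λ.τ ((tr.γ t).1⁻¹ * (tr.γ t').1) = ((m' : ℤ) - m) * (Λ.α * Λ.u) + Λ.τ r' - Λ.τ r := by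
    rw [e1, e2, Λ.hτ, tau_inv, Λ.hτ, Λ.hτ, Λ.hτ, Λ.hτ, tau_pow, tau_pow]
    ring
  rw [ht] at e3
  have hτr := abs_le.1 (Λ.hτle r)
  have hτr' := abs_le.1 (Λ.hτle r')
  have hα : (1 : ℤ) ≤ Λ.α := by exact_mod_cast Λ.hα
  have hu : (1 : ℤ) ≤ Λ.u := by exact_mod_cast Λ.hu
  have hrz : (nm r : ℤ) ≤ Λ.c0 := by exact_mod_cast hr
  have hrz' : (nm r' : ℤ) ≤ Λ.c0 := by exact_mod_cast hr'
  have hlen' : 2 * (Λ.c0 : ℤ) + Λ.u * (2 * Λ.c0 + 3) < (t' : ℤ) - t := by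
    have : ((2 * Λ.c0 + Λ.u * (2 * Λ.c0 + 3) : ℕ) : ℤ) < ((t' - t : ℕ) : ℤ) := by exact_mod_cast hlen
    rw [Nat.cast_sub h2] at this
    push_cast at this
    exact this
  have hc0 : (0 : ℤ) ≤ Λ.c0 := by positivity
  have e4 : (Λ.α : ℤ) * (Λ.u * (2 * Λ.c0 + 3)) ≤ (Λ.α : ℤ) * (((m' : ℤ) - m) * Λ.u) := by
    have h6 : (Λ.α : ℤ) * (2 * (Λ.c0 : ℤ) + Λ.u * (2 * Λ.c0 + 3)) ≤ (Λ.α : ℤ) * ((t' : ℤ) - t) :=
      mul_le_mul_of_nonneg_left hlen'.le (by linarith)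
    nlinarith
  have e5 : (Λ.u : ℤ) * (2 * Λ.c0 + 3) ≤ ((m' : ℤ) - m) * Λ.u := le_of_mul_le_mul_left e4 (by linarith)
  have e6 : 2 * (Λ.c0 : ℤ) + 3 ≤ (m' : ℤ) - m := by
    have : (Λ.u : ℤ) * (2 * Λ.c0 + 3) ≤ Λ.u * ((m' : ℤ) - m) := by linarith
    exact le_of_mul_le_mul_left this (by linarith)
  have hk : 2 * Λ.c0 + 3 ≤ m' - m := by omega
  have hmm : m ≤ m' := by omega
  obtain ⟨f1, f2⟩ := traverse Λ.hx Λ.c0 r r' hr hr' (m' - m) hk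
  obtain ⟨l, _, _, hl3, hl4⟩ := tr.word h2 hL
  have hlM := hl4 hcnt
  have f3 : l.prod.1 = r⁻¹ * Λ.x ^ (m' - m) * r' := by
    rw [hl3, Prod.fst_mul, Prod.fst_inv, e1, e2]
    obtain ⟨k, rfl⟩ := Nat.exists_eq_add_of_le hmm
    rw [Nat.add_sub_cancel_left, pow_add]
    group
  have f4 : InLine Λ.a (vec (r⁻¹ * Λ.x ^ (Λ.c0 + 1))) := by
    refine Λ.kp1 l hlM _ _ (f3.trans f1) ?_
    rw [f3]
    exact f2
  rw [vec_mul, vec_inv, vec_pow] at f4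
  have f5 : InLine Λ.a (vec r) := by
    have := inLine_sub (inLine_nsmul (Λ.c0 + 1) Λ.hxa) f4
    convert this using 1
    abel
  refine ⟨m • vec Λ.x + vec r, inLine_add (inLine_nsmul m Λ.hxa) f5, ?_⟩
  rw [e1, vec_mul, vec_mul, vec_pow]
  abel

/-- second component: the vector is in line with `b` -/
private theorem second (Λ : Lane) (tr : Trip Λ) {t t' : ℕ} (htt : t ≤ t') (hL : t' ≤ tr.L)
    (hcnt : cnt tr.off t t' = 0) {j : ℕ} (hj : j ≤ tr.len + 1) (h1 : nm (Λ.B2 tr.n j) ≤ tr.P t)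
    (h2 : tr.P t' ≤ nm (Λ.B2 tr.n (j + 1))) (h3 : tr.P t + (nm Λ.g2 + 3 * nm Λ.y) < tr.P t') :
    ∃ v2, InLine Λ.b v2 ∧ vec (tr.γ t).2 = vec (Λ.B2 tr.n j) + v2 := by
  obtain ⟨d, hd⟩ := Nat.exists_eq_add_of_le h1
  have hY : 1 ≤ nm Λ.y := cr_nm_pos Λ.hy
  obtain ⟨m2, hm2, hm2'⟩ : ∃ m2 : ℕ, d < m2 * nm Λ.y ∧ m2 * nm Λ.y ≤ d + nm Λ.y := by
    refine ⟨d / nm Λ.y + 1, ?_, ?_⟩
    · have h4 := Nat.div_add_mod d (nm Λ.y)
      have h5 := Nat.mod_lt d (show nm Λ.y > 0 from hY)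
      rw [add_mul, one_mul, mul_comm]
      omega
    · have h4 := Nat.div_mul_le_self d (nm Λ.y)
      rw [add_mul, one_mul]
      omega
  have hs := Λ.b2_nm_succ tr.hn j
  have hq : m2 + 1 ≤ Λ.q * tr.n j := by
    by_contra hcon
    have h5 : Λ.q * tr.n j * nm Λ.y ≤ m2 * nm Λ.y := Nat.mul_le_mul_right _ (by omega)
    omega
  have n1 := Λ.b2_nm_pow tr.hn j m2
  have n2 := Λ.b2_nm_pow tr.hn j (m2 + 1)
  rw [add_mul, one_mul] at n2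
  have hpre : Pre (Λ.B2 tr.n (j + 1)) (Λ.B2 tr.n (tr.len + 2)) := Λ.b2_pre tr.hn (by omega)
  have p1 : Pre (Λ.B2 tr.n j * Λ.y ^ m2) (Λ.B2 tr.n (tr.len + 2)) :=
    pre_trans (Λ.b2_pre_succ tr.hn j (by omega)) hpre
  have p2 : Pre (Λ.B2 tr.n j * Λ.y ^ (m2 + 1)) (Λ.B2 tr.n (tr.len + 2)) :=
    pre_trans (Λ.b2_pre_succ tr.hn j hq) hpre
  have q1 : ¬ Pre (Λ.B2 tr.n j * Λ.y ^ m2) (tr.γ t).2 := by
    rw [pos_spec p1]
    change ¬ nm (Λ.B2 tr.n j * Λ.y ^ m2) ≤ tr.P t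
    omega
  have q2 : Pre (Λ.B2 tr.n j * Λ.y ^ (m2 + 1)) (tr.γ t').2 := by
    rw [pos_spec p2]
    change nm (Λ.B2 tr.n j * Λ.y ^ (m2 + 1)) ≤ tr.P t'
    omega
  have q3 : Pre (Λ.B2 tr.n j * Λ.y ^ m2) (Λ.B2 tr.n j * Λ.y ^ (m2 + 1)) := by
    unfold Pre
    have e : (Λ.B2 tr.n j * Λ.y ^ m2)⁻¹ * (Λ.B2 tr.n j * Λ.y ^ (m2 + 1)) = Λ.y := by
      rw [pow_succ]
      group
    rw [e, n1, n2]
    omega
  have q4 : ¬ Pre (Λ.B2 tr.n j * Λ.y ^ (m2 + 1)) (tr.γ t).2 := by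
    intro h
    exact q1 (pre_trans q3 h)
  have c1 := cross q4 q2
  have c2 := cross q1 q3
  have e1 : (Λ.B2 tr.n j * Λ.y ^ m2)⁻¹ * (Λ.B2 tr.n j * Λ.y ^ (m2 + 1)) = Λ.y := by
    rw [pow_succ]
    group
  rw [e1] at c2
  obtain ⟨l, _, _, hl3, hl4⟩ := tr.word htt hL
  have hlM := hl4 hcnt
  have f1 : l.prod.2 = ((tr.γ t).2⁻¹ * (Λ.B2 tr.n j * Λ.y ^ m2)) * Λ.y *
      ((Λ.B2 tr.n j * Λ.y ^ (m2 + 1))⁻¹ * (tr.γ t').2) := by
    rw [hl3, Prod.snd_mul, Prod.snd_inv, pow_succ]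
    group
  have f2 : l.prod.2 = (tr.γ t).2⁻¹ * (tr.γ t').2 := by
    rw [hl3, Prod.snd_mul, Prod.snd_inv]
  have f4 : InLine Λ.b (vec ((tr.γ t).2⁻¹ * (Λ.B2 tr.n j * Λ.y ^ m2))) := by
    refine Λ.kp2 l hlM _ _ f1 ?_
    rw [f2]
    omega
  refine ⟨m2 • vec Λ.y - vec ((tr.γ t).2⁻¹ * (Λ.B2 tr.n j * Λ.y ^ m2)),
    inLine_sub (inLine_nsmul m2 Λ.hyb) f4, ?_⟩
  rw [vec_mul, vec_inv, vec_mul, vec_pow]
  abel

theorem par_lock (Λ : Lane) : ∃ A0 : ℕ, ∀ tr : Trip Λ, ∀ i, i < tr.len → ∀ t t', tr.Free i t t' →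
    ∀ j, j ≤ tr.len + 1 → nm (Λ.B2 tr.n j) ≤ tr.P t → tr.P t' ≤ nm (Λ.B2 tr.n (j + 1)) →
      tr.P t + A0 < tr.P t' → i % 2 = j % 2 := by
  refine ⟨(nm Λ.g2 + 3 * nm Λ.y) + Λ.R * (2 * Λ.c0 + Λ.u * (2 * Λ.c0 + 3)), ?_⟩
  intro tr i hi t t' hf j hj h1 h2 h3
  obtain ⟨hf1, htt, hf3, hf4, hf5⟩ := id hf
  have hL : t' ≤ tr.L := hf3.trans (tr.T_le_L hi)
  have hcnt : cnt tr.off t t' = 0 := cnt_eq_zero.2 hf4
  have hlen : 2 * Λ.c0 + Λ.u * (2 * Λ.c0 + 3) < t' - t := by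
    have h4 := tr.P_lip htt hL
    by_contra hcon
    have h5 : Λ.R * (t' - t) ≤ Λ.R * (2 * Λ.c0 + Λ.u * (2 * Λ.c0 + 3)) := Nat.mul_le_mul_left _ (by omega)
    omega
  obtain ⟨v1, hv1, e1⟩ := first Λ tr hi hf hlen
  obtain ⟨v2, hv2, e2⟩ := second Λ tr htt hL hcnt hj h1 h2 (by omega)
  by_contra hcon
  have hp := tr.parity (htt.trans hL)
  have p1 : par (tr.γ t).1 = i • Λ.β + modTwo v1 := by
    rw [← Λ.par_B1 tr.n i, par, e1, modTwo_add]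
    rfl
  have p2 : par (tr.γ t).2 = j • Λ.β + modTwo v2 := by
    rw [← Λ.par_B2 tr.n j, par, e2, modTwo_add]
    rfl
  have hβ := Λ.hβ (vec Λ.ρ1 - v1) (v2 - vec Λ.ρ2) (inLine_sub Λ.hρ1 hv1) (inLine_sub hv2 Λ.hρ2)
  apply hβ
  rw [sub_eq_add_neg, sub_eq_add_neg, modTwo_add, modTwo_add, modTwo_neg, modTwo_neg]
  have hd := smul_diff Λ.β hcon
  rw [p1, p2] at hp
  have q1 : par Λ.ρ1 = modTwo (vec Λ.ρ1) := rfl
  have q2 : par Λ.ρ2 = modTwo (vec Λ.ρ2) := rfl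
  rw [q1, q2] at hp
  calc modTwo (vec Λ.ρ1) + -modTwo v1 + (modTwo v2 + -modTwo (vec Λ.ρ2))
      = (modTwo (vec Λ.ρ1) - modTwo (vec Λ.ρ2)) - modTwo v1 + modTwo v2 := by abel
    _ = (i • Λ.β + modTwo v1 - (j • Λ.β + modTwo v2)) - modTwo v1 + modTwo v2 := by rw [hp]
    _ = i • Λ.β - j • Λ.β := by abel
    _ = Λ.β := hd

end Pool.Agent.FTP
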