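import Mathlib
import Pool.Agent.FTP.Defs
import Pool.Agent.FTP.Comb
import Pool.Agent.FTP.Lane
import Pool.Agent.FTP.LineGeo
import Pool.Agent.FTP.Rigid
import Pool.Agent.FTP.T1Good
import Pool.Agent.FTP.ParLock
import Pool.Agent.FTP.Global

/-!
# FTP / Sync: the two components pass their switches at about the same time

Claim: there is `C` (depending on the lane only) such that for all `D, M, E` there is `N0` such that
for `N ≥ N0` and every trip with `M` blocks, block lengths `nn N D` and at most `E` letters that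
are not tight: `|P (T j) - nm (B2 (j+2))| ≤ C (1 + k (j-1) + k j)` for `1 ≤ j`, `j + 1 ≤ M`.

Proof. Let `CG` be the constant of `global` and `N0` so large that `N0 ≥ 2 CG + 2 R + 2` (then
`q n_i |y| ≥ N > 2 CG + 2R + 1`). Let `A0` be the constant of `par_lock`.
(1) Upper bound. Suppose `P (T j) ≥ nm (B2 (j+2))`. At the time `T (j-1)`:
`P ≤ nm (B2 (j+1)) + CG < nm (B2 (j+2))`. Let `s` be the last time in `[T (j-1), T j)` with
`P s < nm (B2 (j+2))`. On `[s+1, T j]`: `nm (B2 (j+2)) ≤ P ≤ nm (B2 (j+2)) + CG ≤ nm (B2 (j+3))`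
(`global` for the block `j-1`). An interval `[t, t'] ⊆ [s+1, T j)` without bad times is free in the
block `j-1`, and `P` stays in the block `j + 2` of the second line; the parities of `j - 1` and
`j + 2` are different, so by `par_lock`: `P t' ≤ P t + A0`. By `run_split` (`f = P`, step bound `R`):
`P (T j) - P (s+1) ≤ (A0 + 2R)(cnt bad (T (j-1)) (T j) + 1)`, at most a constant times `1 + k (j-1)` by
`t1good`. And `P (s+1) ≤ P s + R < nm (B2 (j+2)) + R`.
(2) Lower bound. Suppose `P (T j) < nm (B2 (j+2))`. At the time `T (j+1)`: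
`P ≥ nm (B2 (j+3)) - CG ≥ nm (B2 (j+2))`. Let `s` be the first time in `(T j, T (j+1)]` with
`P s ≥ nm (B2 (j+2))`. On `[T j, s-1]`: `nm (B2 (j+1)) ≤ nm (B2 (j+2)) - CG ≤ P < nm (B2 (j+2))`
(`global` for the block `j`). Intervals in `[T j, s-1]` without bad times are free in the block `j`, `P` stays
in the block `j + 1` of the second line; by `par_lock` (different parities) `P t' ≤ P t + A0`. So
`P (s-1) - P (T j) ≤ (A0 + 2R)(cnt bad (T j) (T (j+1)) + 1)`, and
`nm (B2 (j+2)) ≤ P s ≤ P (s-1) + R`.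
-/

namespace Pool.Agent.FTP

private theorem sync_find_last (p : ℕ → Prop) (a b : ℕ) (hab : a ≤ b) (ha : p a) (hb : ¬ p b) :
    ∃ s, a ≤ s ∧ s < b ∧ p s ∧ ∀ t, s < t → t ≤ b → ¬ p t := by
  classical
  induction b, hab using Nat.le_induction with
  | base => exact absurd ha hb
  | succ b hab ih =>
    by_cases h : p b
    · refine ⟨b, hab, Nat.lt_succ_self b, h, fun t h1 h2 => ?_⟩
      obtain rfl : t = b + 1 := by omega
      exact hb
    · obtain ⟨s, h1, h2, h3, h4⟩ := ih h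
      refine ⟨s, h1, by omega, h3, fun t h5 h6 => ?_⟩
      rcases Nat.lt_or_ge b t with h7 | h7
      · obtain rfl : t = b + 1 := by omega
        exact hb
      · exact h4 t h5 h7

private theorem sync_find_first (p : ℕ → Prop) (a b : ℕ) (hab : a ≤ b) (ha : ¬ p a) (hb : p b) :
    ∃ s, a < s ∧ s ≤ b ∧ p s ∧ ∀ t, a ≤ t → t < s → ¬ p t := by
  classical
  induction b, hab using Nat.le_induction with
  | base => exact absurd hb ha
  | succ b hab ih =>
    by_cases h : p b
    · obtain ⟨s, h1, h2, h3, h4⟩ := ih h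
      exact ⟨s, h1, by omega, h3, h4⟩
    · by_cases h' : ∃ t, a ≤ t ∧ t ≤ b ∧ p t
      · obtain ⟨t0, ht0⟩ := h'
        have hex : ∃ t, a ≤ t ∧ p t := ⟨t0, ht0.1, ht0.2.2⟩
        refine ⟨Nat.find hex, ?_, ?_, (Nat.find_spec hex).2, fun t h1 h2 h3 => ?_⟩
        · rcases (Nat.find_spec hex).1.eq_or_lt with h5 | h5
          · exact absurd (h5 ▸ (Nat.find_spec hex).2) ha
          · exact h5
        · exact (Nat.find_min' hex ⟨ht0.1, ht0.2.2⟩).trans (by omega)
        · exact Nat.find_min hex h2 ⟨h1, h3⟩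
      · refine ⟨b + 1, by omega, le_rfl, hb, fun t h1 h2 h3 => h' ⟨t, h1, by omega, h3⟩⟩

private theorem sync_grow (Λ : Lane) (N D j : ℕ) (n : ℕ → ℕ) (hn1 : ∀ i, 1 ≤ n i) (hn : n = nn N D) :
    nm (Λ.B2 n j) + N ≤ nm (Λ.B2 n (j + 1)) := by
  rw [Λ.b2_nm_succ hn1 j]
  have h1 : 1 ≤ nm Λ.y := by
    rcases Nat.eq_zero_or_pos (nm Λ.y) with h | h
    · exact absurd (FreeGroup.norm_eq_zero.1 h) Λ.hy.1
    · exact h
  have h2 : N ≤ n j := by
    rw [hn]
    unfold nn
    split
    · omega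
    · exact le_rfl
  have h3 : n j ≤ Λ.q * n j * nm Λ.y := by
    calc n j = 1 * n j * 1 := by ring
      _ ≤ Λ.q * n j * nm Λ.y := Nat.mul_le_mul (Nat.mul_le_mul Λ.hq le_rfl) h1
  omega

theorem sync (Λ : Lane) : ∃ C : ℕ, ∀ D M E : ℕ, ∃ N0 : ℕ, ∀ N, N0 ≤ N → ∀ tr : Trip Λ,
    tr.len = M → tr.n = nn N D → cnt tr.off 0 tr.L ≤ E → ∀ j, 1 ≤ j → j + 1 ≤ M →
      tr.P (tr.T j) ≤ nm (Λ.B2 tr.n (j + 2)) + C * (1 + tr.k (j - 1) + tr.k j) ∧
      nm (Λ.B2 tr.n (j + 2)) ≤ tr.P (tr.T j) + C * (1 + tr.k (j - 1) + tr.k j) := by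
  obtain ⟨A0, hA0⟩ := par_lock Λ
  obtain ⟨Cg, hCg⟩ := t1good Λ
  refine ⟨Λ.R + (A0 + 2 * Λ.R) * (Cg + 1), fun D M E => ?_⟩
  obtain ⟨CG, hCG⟩ := global Λ D M E
  refine ⟨CG + 1, fun N hN tr hlen hn hE j hj1 hjM => ?_⟩
  obtain ⟨hG1, hG2⟩ := hCG tr hlen N (by omega) hn hE
  -- growth of the second line
  have hgr : ∀ i, nm (Λ.B2 tr.n i) + N ≤ nm (Λ.B2 tr.n (i + 1)) :=
    fun i => sync_grow Λ N D i tr.n tr.hn hn
  -- free intervals
  have hfree : ∀ i t t', tr.T i ≤ t → t ≤ t' → t' ≤ tr.T (i + 1) →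
      (∀ v, t ≤ v → v ≤ t' → ¬ tr.bad i v) → tr.Free i t t' := by
    intro i t t' h1 h2 h3 h4
    refine ⟨h1, h2, h3, fun v h5 h6 h7 => h4 v h5 h6.le (Or.inl h7), fun v h5 h6 => ?_⟩
    by_contra h7
    exact h4 v h5 h6 (Or.inr h7)
  have hTj1 : tr.T (j - 1) ≤ tr.T j := tr.T_mono (by omega) (by omega)
  have hTj2 : tr.T j ≤ tr.T (j + 1) := tr.T_mono (by omega) (by omega)
  have hTL : tr.T (j + 1) ≤ tr.L := tr.T_le_L (by omega)
  have hjm : j - 1 + 1 = j := by omega
  -- the final estimate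
  have hfin : ∀ c k k' : ℕ, c ≤ Cg * (1 + k) →
      Λ.R + (A0 + 2 * Λ.R) * (c + 1) ≤ (Λ.R + (A0 + 2 * Λ.R) * (Cg + 1)) * (1 + k + k') := by
    intro c k k' hc
    have h1 : c + 1 ≤ (Cg + 1) * (1 + k + k') := by
      calc c + 1 ≤ Cg * (1 + k) + 1 := by omega
        _ ≤ Cg * (1 + k) + 1 + (Cg * k' + k + k') := Nat.le_add_right _ _
        _ = (Cg + 1) * (1 + k + k') := by ring
    have h2 : Λ.R ≤ Λ.R * (1 + k + k') := Nat.le_mul_of_pos_right _ (by omega)
    calc Λ.R + (A0 + 2 * Λ.R) * (c + 1)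
        ≤ Λ.R * (1 + k + k') + (A0 + 2 * Λ.R) * ((Cg + 1) * (1 + k + k')) :=
          Nat.add_le_add h2 (Nat.mul_le_mul le_rfl h1)
      _ = (Λ.R + (A0 + 2 * Λ.R) * (Cg + 1)) * (1 + k + k') := by ring
  constructor
  · -- upper bound
    by_cases hcase : tr.P (tr.T j) < nm (Λ.B2 tr.n (j + 2))
    · exact hcase.le.trans (Nat.le_add_right _ _)
    have hstart : tr.P (tr.T (j - 1)) < nm (Λ.B2 tr.n (j + 2)) := by
      have h1 := (hG1 (j - 1) (by omega)).1
      have h2 := hgr (j + 1)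
      have e1 : j - 1 + 2 = j + 1 := by omega
      rw [e1] at h1
      have e2 : j + 1 + 1 = j + 2 := rfl
      rw [e2] at h2
      omega
    obtain ⟨s, hs1, hs2, hs3, hs4⟩ := sync_find_last (fun t => tr.P t < nm (Λ.B2 tr.n (j + 2)))
      (tr.T (j - 1)) (tr.T j) hTj1 hstart hcase
    have hrs := run_split (fun t => (tr.P t : ℤ)) (tr.bad (j - 1)) (s + 1) (tr.T j) (by omega)
      (A0 : ℤ) (Λ.R : ℤ) (by positivity) (by positivity)
      (by
        intro v hv1 hv2
        have h1 := tr.P_step (t := v) (by omega)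
        omega)
      (by
        intro t t' h1 h2 h3 h4
        have hF : tr.Free (j - 1) t t' :=
          hfree (j - 1) t t' (by omega) h2 (by rw [hjm]; omega) h4
        by_contra hcon
        have hlt : tr.P t + A0 < tr.P t' := by
          omega
        have h5 : nm (Λ.B2 tr.n (j + 2)) ≤ tr.P t := by
          have := hs4 t (by omega) (by omega)
          simpa using this
        have h6 : tr.P t' ≤ nm (Λ.B2 tr.n (j + 2 + 1)) := by
          have h7 := (hG2 (j - 1) (by omega) t' (by omega) (by rw [hjm]; omega)).1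
          have e1 : j - 1 + 3 = j + 2 := by omega
          rw [e1] at h7
          have h8 := hgr (j + 2)
          omega
        have h9 := hA0 tr (j - 1) (by omega) t t' hF (j + 2) (by omega) h5 h6 hlt
        omega)
    have hc1 : cnt (tr.bad (j - 1)) (s + 1) (tr.T j) ≤ Cg * (1 + tr.k (j - 1)) := by
      have h1 := hCg tr (j - 1) (by omega)
      rw [hjm] at h1
      exact (cnt_mono _ (by omega) le_rfl).trans h1
    have hst : tr.P (s + 1) ≤ tr.P s + Λ.R := by
      have h1 := tr.P_step (t := s) (by omega)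
      omega
    have hf := hfin _ _ (tr.k j) hc1
    have hrs' : tr.P (tr.T j) ≤ tr.P (s + 1) +
        (A0 + 2 * Λ.R) * (cnt (tr.bad (j - 1)) (s + 1) (tr.T j) + 1) := by
      have h1 : ((tr.P (tr.T j) : ℕ) : ℤ) ≤ ((tr.P (s + 1) +
        (A0 + 2 * Λ.R) * (cnt (tr.bad (j - 1)) (s + 1) (tr.T j) + 1) : ℕ) : ℤ) := by
        push_cast
        linarith
      exact_mod_cast h1
    omega
  · -- lower bound
    by_cases hcase : nm (Λ.B2 tr.n (j + 2)) ≤ tr.P (tr.T j)
    · exact hcase.trans (Nat.le_add_right _ _)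
    have hend : nm (Λ.B2 tr.n (j + 2)) ≤ tr.P (tr.T (j + 1)) := by
      have h1 := (hG1 (j + 1) (by omega)).2
      have h2 := hgr (j + 2)
      have e1 : j + 1 + 2 = j + 2 + 1 := by omega
      rw [e1] at h1
      omega
    obtain ⟨s, hs1, hs2, hs3, hs4⟩ := sync_find_first (fun t => nm (Λ.B2 tr.n (j + 2)) ≤ tr.P t)
      (tr.T j) (tr.T (j + 1)) hTj2 hcase hend
    obtain ⟨s0, rfl⟩ : ∃ s0, s = s0 + 1 := ⟨s - 1, by omega⟩
    have hrs := run_split (fun t => (tr.P t : ℤ)) (tr.bad j) (tr.T j) s0 (by omega)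
      (A0 : ℤ) (Λ.R : ℤ) (by positivity) (by positivity)
      (by
        intro v hv1 hv2
        have h1 := tr.P_step (t := v) (by omega)
        omega)
      (by
        intro t t' h1 h2 h3 h4
        have hF : tr.Free j t t' := hfree j t t' (by omega) h2 (by omega) h4
        by_contra hcon
        have hlt : tr.P t + A0 < tr.P t' := by
          omega
        have h5 : nm (Λ.B2 tr.n (j + 1)) ≤ tr.P t := by
          have h7 := (hG2 j (by omega) t (by omega) (by omega)).2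
          have h8 := hgr (j + 1)
          have e2 : j + 1 + 1 = j + 2 := rfl
          rw [e2] at h8
          omega
        have h6 : tr.P t' ≤ nm (Λ.B2 tr.n (j + 1 + 1)) := by
          have h7 := hs4 t' (by omega) (by omega)
          have e2 : j + 1 + 1 = j + 2 := rfl
          rw [e2]
          omega
        have h9 := hA0 tr j (by omega) t t' hF (j + 1) (by omega) h5 h6 hlt
        omega)
    have hc1 : cnt (tr.bad j) (tr.T j) s0 ≤ Cg * (1 + tr.k j) := by
      have h1 := hCg tr j (by omega)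
      exact (cnt_mono _ le_rfl (by omega)).trans h1
    have hst : tr.P (s0 + 1) ≤ tr.P s0 + Λ.R := by
      have h1 := tr.P_step (t := s0) (by omega)
      omega
    have hf := hfin _ _ (tr.k (j - 1)) hc1
    have hrs' : tr.P s0 ≤ tr.P (tr.T j) +
        (A0 + 2 * Λ.R) * (cnt (tr.bad j) (tr.T j) s0 + 1) := by
      have h1 : ((tr.P s0 : ℕ) : ℤ) ≤ ((tr.P (tr.T j) +
        (A0 + 2 * Λ.R) * (cnt (tr.bad j) (tr.T j) s0 + 1) : ℕ) : ℤ) := by
        push_cast
        linarith
      exact_mod_cast h1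
    have e3 : 1 + tr.k (j - 1) + tr.k j = 1 + tr.k j + tr.k (j - 1) := by ring
    rw [e3]
    omega

end Pool.Agent.FTP
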