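import Mathlib
import Pool.Agent.FTP.Defs
import Pool.Agent.FTP.TreeA
import Pool.Agent.FTP.TreeB
import Pool.Agent.FTP.Near
import Pool.Agent.FTP.Lane
import Pool.Agent.FTP.LineGeo
import Pool.Agent.FTP.Rigid
import Pool.Agent.FTP.RateInt
import Pool.Agent.FTP.Global
import Pool.Agent.FTP.Sync

/-!
# FTP / Depth: the second component is near its switch at the time `T j`

Claim: there is `C` (depending on the lane only) such that for all `D, M, E` there is `N0` such that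
for `N ≥ N0` and trips as in `sync`: for `2 ≤ j`, `j + 2 ≤ M`,
`nm ((B2 (j+2))⁻¹ (γ (T j)).2) ≤ C (1 + D + k (j-2) + k (j-1) + k j + k (j+1))`.

Proof. Let `N0` be large (as in `sync`, and `N0 > 2 CG + 1`, `CG` from `global`). Let `P = P (T j)` and
`v = vtx Z2 P`. The positions at the times `T (j-1)` and `T (j+1)` are different from `P` (they are
within `CG` of `nm (B2 (j+1))`, `nm (B2 (j+3))`, and `P` within `CG` of `nm (B2 (j+2))`). By `near_line`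
applied to the second component on `[T (j-1), T (j+1)]`, `t = T j`: there are times
`T (j-1) ≤ s < T j < s' ≤ T (j+1)` with `(γ s).2, (γ s').2` within `R` of `v`; so `P s, P s'` are within
`R` of `P` (`pos_lip`, `pos_of_pre`). On `[T (j-1), s]` and on `[s', T (j+1)]` use `rate_int` for the
blocks `j-1` (positions between `nm (B2 j)` and `nm (B2 (j+3))`) and `j` (positions between
`nm (B2 (j+1))` and `nm (B2 (j+4))`), which hold by `global` for `N` large. With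
`f v = p u P v - q |y| v`: `f s - f (T (j-1)) ≤ 4 A2 (1 + k (j-1))`, `f (T (j+1)) - f s' ≤ 4 A2 (1 + k j)`,
`f s' - f s ≤ 2 p u R - q |y| (s' - s)`. Sum:
`q |y| (s' - s) ≤ f (T (j-1)) - f (T (j+1)) + const (1 + k (j-1) + k j)`. By `sync` at `j-1`, `j+1` and
`len_bound` for the blocks `j-1`, `j`:
`f (T (j-1)) - f (T (j+1)) ≤ - p u (nm (B2 (j+3)) - nm (B2 (j+1))) + q |y| p u (n_{j-1} + n_j)
+ const (1 + k (j-2) + k (j-1) + k j + k (j+1))`, and
`nm (B2 (j+3)) - nm (B2 (j+1)) ≥ q |y| (n_{j+1} + n_{j+2})`, `n_{j-1} + n_j ≤ n_{j+1} + n_{j+2} + 2D`.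
So `s' - s ≤ const (1 + D + k (j-2) + ... + k (j+1))`. Finally
`nm (v⁻¹ (γ (T j)).2) ≤ R + R (T j - s) ≤ R + R (s' - s)`, and
`nm ((B2 (j+2))⁻¹ v) = |nm (B2 (j+2)) - P| ≤ C' (1 + k (j-1) + k j)` by `sync` at `j` (both are prefixes of
`Z2`: `pre_dist`, `pre_of_le`).
-/

namespace Pool.Agent.FTP

private theorem disp2_le {Λ : Lane} (tr : Trip Λ) {s : ℕ} : ∀ d, s + d ≤ tr.L →
    nm ((tr.γ s).2⁻¹ * (tr.γ (s + d)).2) ≤ Λ.R * d := by
  intro d
  induction d with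
  | zero => intro _; simp
  | succ d ih =>
    intro h
    have h1 := ih (by omega)
    have h2 := (tr.step_le (t := s + d) (by omega)).2
    have h3 := nm_triangle (tr.γ s).2 (tr.γ (s + d)).2 (tr.γ (s + d + 1)).2
    have h4 : Λ.R * (d + 1) = Λ.R * d + Λ.R := by ring
    rw [← add_assoc, h4]
    omega

private theorem nm_b2_vtx {Λ : Lane} (tr : Trip Λ) {i : ℕ} (hi : i ≤ tr.len + 2) {v : F}
    (hv : Pre v (Λ.B2 tr.n (tr.len + 2))) {c : ℕ} (h1 : nm v ≤ nm (Λ.B2 tr.n i) + c)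
    (h2 : nm (Λ.B2 tr.n i) ≤ nm v + c) : nm ((Λ.B2 tr.n i)⁻¹ * v) ≤ c := by
  have hB : Pre (Λ.B2 tr.n i) (Λ.B2 tr.n (tr.len + 2)) := Λ.b2_pre tr.hn hi
  rcases le_total (nm (Λ.B2 tr.n i)) (nm v) with h | h
  · have := pre_dist (pre_of_le hB hv h)
    omega
  · have := pre_dist (pre_of_le hv hB h)
    rw [nm_comm]
    omega

private theorem final_arith {y1 pu Cs A2 R c1 D k0 k1 k2 k3 a0 a1 a2 a3 n1 n2 n3 n4 t1 t2 t3 s s'
    B3 B4 B5 g : ℤ} (hpu : 0 ≤ pu) (hy : 1 ≤ y1) (hCs : 0 ≤ Cs) (hA2 : 0 ≤ A2) (hR : 0 ≤ R)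
    (hc1 : 0 ≤ c1) (hD : 0 ≤ D) (hk0 : 0 ≤ k0) (hk1 : 0 ≤ k1) (hk2 : 0 ≤ k2) (hk3 : 0 ≤ k3)
    (hg : 0 ≤ g) (hss : s ≤ s')
    (l1 : t2 - t1 ≤ pu * n1 + c1 + (1 + R) * k1) (l2 : t3 - t2 ≤ pu * n2 + c1 + (1 + R) * k2)
    (r1 : pu * (a1 - a0) ≤ y1 * (s - t1) + A2 * 4 * (1 + k1))
    (r2 : pu * (a3 - a2) ≤ y1 * (t3 - s') + A2 * 4 * (1 + k2))
    (w1 : a0 ≤ B3 + Cs * (1 + k0 + k1)) (w3 : B5 ≤ a3 + Cs * (1 + k2 + k3))
    (w4 : B4 = B3 + y1 * n3 + g) (w5 : B5 = B4 + y1 * n4 + g)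
    (w7 : n1 + n2 ≤ n3 + n4 + 2 * D) (w8 : a2 ≤ a1 + 2 * R) :
    s' - s ≤ (2 * (y1 * pu) + 2 * (pu * Cs) + y1 * (2 * c1 + 1 + R) + 8 * A2 + 2 * (pu * R)) *
      (1 + D + (k0 + k1 + k2 + k3)) := by
  have hy0 : 0 ≤ y1 := by linarith only [hy]
  have z1 : y1 * (t3 - t1) ≤ y1 * (pu * (n1 + n2) + 2 * c1 + (1 + R) * (k1 + k2)) := by
    apply mul_le_mul_of_nonneg_left _ hy0
    linarith only [l1, l2]
  have z2 : pu * (y1 * (n3 + n4) - Cs * (2 + (k0 + k1 + k2 + k3))) ≤ pu * (a3 - a0) := by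
    apply mul_le_mul_of_nonneg_left _ hpu
    rw [w5, w4] at w3
    linarith only [w1, w3, hg]
  have z3 : pu * (y1 * (n1 + n2)) ≤ pu * (y1 * (n3 + n4 + 2 * D)) := by
    apply mul_le_mul_of_nonneg_left _ hpu
    apply mul_le_mul_of_nonneg_left _ hy0
    exact w7
  have z4 : pu * (a2 - a1) ≤ pu * (2 * R) := by
    apply mul_le_mul_of_nonneg_left _ hpu
    linarith only [w8]
  have z8 : s' - s ≤ y1 * (s' - s) := by
    have h : 1 * (s' - s) ≤ y1 * (s' - s) :=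
      mul_le_mul_of_nonneg_right hy (by linarith only [hss])
    linarith only [h]
  have q1 : (2 * (y1 * pu)) * D ≤ (2 * (y1 * pu)) * (1 + D + (k0 + k1 + k2 + k3)) := by
    apply mul_le_mul_of_nonneg_left _ (by positivity)
    linarith only [hk0, hk1, hk2, hk3]
  have q2 : (y1 * (2 * c1)) * 1 ≤ (y1 * (2 * c1)) * (1 + D + (k0 + k1 + k2 + k3)) := by
    apply mul_le_mul_of_nonneg_left _ (by positivity)
    linarith only [hk0, hk1, hk2, hk3, hD]
  have q3 : (y1 * (1 + R)) * (k1 + k2) ≤ (y1 * (1 + R)) * (1 + D + (k0 + k1 + k2 + k3)) := by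
    apply mul_le_mul_of_nonneg_left _ (by positivity)
    linarith only [hk0, hk1, hk2, hk3, hD]
  have q4 : (pu * Cs) * (2 + (k0 + k1 + k2 + k3)) ≤
      (pu * Cs) * (2 * (1 + D + (k0 + k1 + k2 + k3))) := by
    apply mul_le_mul_of_nonneg_left _ (by positivity)
    linarith only [hk0, hk1, hk2, hk3, hD]
  have q5 : (4 * A2) * (2 + k1 + k2) ≤ (4 * A2) * (2 * (1 + D + (k0 + k1 + k2 + k3))) := by
    apply mul_le_mul_of_nonneg_left _ (by positivity)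
    linarith only [hk0, hk1, hk2, hk3, hD]
  have q6 : (2 * (pu * R)) * 1 ≤ (2 * (pu * R)) * (1 + D + (k0 + k1 + k2 + k3)) := by
    apply mul_le_mul_of_nonneg_left _ (by positivity)
    linarith only [hk0, hk1, hk2, hk3, hD]
  have z7 : y1 * (s' - s) ≤ (2 * (y1 * pu)) * D + (y1 * (2 * c1)) * 1 +
      (y1 * (1 + R)) * (k1 + k2) + (pu * Cs) * (2 + (k0 + k1 + k2 + k3)) +
      (4 * A2) * (2 + k1 + k2) + (2 * (pu * R)) * 1 := by
    linarith only [z1, z2, z3, z4, r1, r2]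
  linarith only [z8, z7, q1, q2, q3, q4, q5, q6]

theorem depth (Λ : Lane) : ∃ C : ℕ, ∀ D M E : ℕ, ∃ N0 : ℕ, ∀ N, N0 ≤ N → ∀ tr : Trip Λ,
    tr.len = M → tr.n = nn N D → cnt tr.off 0 tr.L ≤ E → ∀ j, 2 ≤ j → j + 2 ≤ M →
      nm ((Λ.B2 tr.n (j + 2))⁻¹ * (tr.γ (tr.T j)).2) ≤
        C * (1 + D + tr.k (j - 2) + tr.k (j - 1) + tr.k j + tr.k (j + 1)) := by
  obtain ⟨A2, hA2⟩ := rate_int Λ
  obtain ⟨Cs, hCs⟩ := sync Λ
  set c1 : ℕ := nm Λ.g1 + 2 * Λ.R1 with hc1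
  set y1 : ℕ := Λ.q * nm Λ.y with hy1
  set pu : ℕ := Λ.p * Λ.u with hpu
  have hypos : 1 ≤ nm Λ.y := by
    by_contra h
    exact Λ.hy.1 (nm_eq_zero.1 (by omega))
  have hy1pos : 1 ≤ y1 := Nat.mul_pos Λ.hq hypos
  -- the constant
  set C0 : ℕ := 2 * (y1 * pu) + 2 * (pu * Cs) + y1 * (2 * c1 + 1 + Λ.R) + 8 * A2 + 2 * (pu * Λ.R)
    with hC0
  refine ⟨Cs + Λ.R + Λ.R * C0, ?_⟩
  intro D M E
  obtain ⟨CG, hCG⟩ := global Λ D M E
  obtain ⟨Ns, hNs⟩ := hCs D M E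
  refine ⟨max Ns (2 * CG + 2), ?_⟩
  intro N hN tr hlen hn hE j hj hjM
  have hN1 : Ns ≤ N := le_trans (le_max_left _ _) hN
  have hN2 : 2 * CG + 2 ≤ N := le_trans (le_max_right _ _) hN
  obtain ⟨i, rfl⟩ : ∃ i, j = i + 2 := ⟨j - 2, by omega⟩
  have e1 : i + 2 - 2 = i := by omega
  have e2 : i + 2 - 1 = i + 1 := by omega
  rw [e1, e2]
  obtain ⟨hG1, hG2⟩ := hCG tr hlen N (by omega) hn hE
  -- spacing of the line
  have hnn : ∀ l, N ≤ tr.n l ∧ tr.n l ≤ N + D := by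
    intro l
    rw [hn]
    unfold nn
    split_ifs <;> constructor <;> omega
  have hsp : ∀ l, nm (Λ.B2 tr.n (l + 1)) = nm (Λ.B2 tr.n l) + y1 * tr.n l + nm Λ.g2 := by
    intro l
    rw [Λ.b2_nm_succ tr.hn l, hy1]
    ring
  have hyn : ∀ l, N ≤ y1 * tr.n l := by
    intro l
    exact le_trans (hnn l).1 (Nat.le_mul_of_pos_left _ hy1pos)
  have hsp1 : ∀ l, nm (Λ.B2 tr.n l) + N ≤ nm (Λ.B2 tr.n (l + 1)) := by
    intro l
    have := hsp l
    have := hyn l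
    omega
  -- times
  have hT1 : tr.T (i + 1) ≤ tr.T (i + 2) := tr.mono _ (by omega)
  have hT2 : tr.T (i + 2) ≤ tr.T (i + 3) := tr.mono _ (by omega)
  have hTL : tr.T (i + 3) ≤ tr.L := tr.T_le_L (by omega)
  -- global positions
  have g1 := hG1 (i + 1) (by omega)
  have g2 := hG1 (i + 2) (by omega)
  have g3 := hG1 (i + 3) (by omega)
  have s3 := hsp1 (i + 3)
  have s4 := hsp1 (i + 4)
  have s2 := hsp1 (i + 2)
  have s5 := hsp1 (i + 5)
  have e3 : i + 1 + 2 = i + 3 := by omega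
  have e4 : i + 2 + 2 = i + 4 := by omega
  have e5 : i + 3 + 2 = i + 5 := by omega
  have e6 : i + 3 + 1 = i + 4 := by omega
  have e7 : i + 4 + 1 = i + 5 := by omega
  have e8 : i + 2 + 1 = i + 3 := by omega
  have e9 : i + 5 + 1 = i + 6 := by omega
  have e10 : i + 1 + 3 = i + 4 := by omega
  have e11 : i + 2 + 3 = i + 5 := by omega
  have e12 : i + 1 + 1 = i + 2 := by omega
  rw [e3] at g1
  rw [e4] at g2
  rw [e5] at g3
  rw [e6] at s3
  rw [e7] at s4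
  rw [e8] at s2
  rw [e9] at s5
  -- the projection at the time T j
  set Z : F := Λ.B2 tr.n (tr.len + 2) with hZ
  have hPle : ∀ t, tr.P t ≤ nm Z := fun t => pos_le_left _ _
  have hne1 : pos Z (tr.γ (tr.T (i + 1))).2 ≠ pos Z (tr.γ (tr.T (i + 2))).2 := by
    have : tr.P (tr.T (i + 1)) < tr.P (tr.T (i + 2)) := by omega
    exact this.ne
  have hne2 : pos Z (tr.γ (tr.T (i + 3))).2 ≠ pos Z (tr.γ (tr.T (i + 2))).2 := by
    have : tr.P (tr.T (i + 2)) < tr.P (tr.T (i + 3)) := by omega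
    exact this.ne'
  obtain ⟨s, s', hs1, hs2, hs3, hs4, hs5, hs6⟩ :=
    near_line (x := fun t => (tr.γ t).2) (R := Λ.R) (a := tr.T (i + 1)) (b := tr.T (i + 3)) Z
      (fun t _ ht => (tr.step_le (t := t) (by omega)).2) hT1 hT2 hne1 hne2
  set v : F := vtx Z (pos Z (tr.γ (tr.T (i + 2))).2) with hv
  have hPj : pos Z (tr.γ (tr.T (i + 2))).2 = tr.P (tr.T (i + 2)) := rfl
  have hvn : nm v = tr.P (tr.T (i + 2)) := by
    rw [hv, hPj]
    exact nm_vtx (hPle _)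
  have hvpre : Pre v Z := pre_vtx _ _
  have hvpos : pos Z v = tr.P (tr.T (i + 2)) := by rw [pos_of_pre hvpre, hvn]
  have close : ∀ t, nm (v⁻¹ * (tr.γ t).2) ≤ Λ.R → tr.P t ≤ tr.P (tr.T (i + 2)) + Λ.R ∧
      tr.P (tr.T (i + 2)) ≤ tr.P t + Λ.R := by
    intro t ht
    constructor
    · have := pos_lip Z v (tr.γ t).2
      have hh : tr.P t = pos Z (tr.γ t).2 := rfl
      omega
    · have := pos_lip Z (tr.γ t).2 v
      rw [nm_comm] at this
      have hh : tr.P t = pos Z (tr.γ t).2 := rfl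
      omega
  have cs := close s hs5
  have cs' := close s' hs6
  -- the speed limit
  have r1 := hA2 tr (i + 1) (by omega) (tr.T (i + 1)) s le_rfl hs1 (by rw [e12]; omega)
    (i + 2) (i + 5) (by omega) (by omega) (by
      intro w hw1 hw2
      have hg := hG2 (i + 1) (by omega) w hw1 (by rw [e12]; omega)
      rw [e10, e3] at hg
      constructor <;> omega)
  have r2 := hA2 tr (i + 2) (by omega) s' (tr.T (i + 3)) (by omega) hs4 (by rw [e8])
    (i + 3) (i + 6) (by omega) (by omega) (by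
      intro w hw1 hw2
      have hg := hG2 (i + 2) (by omega) w (by omega) (by rw [e8]; omega)
      rw [e11, e4] at hg
      constructor <;> omega)
  have y1s := hNs N hN1 tr hlen hn hE (i + 1) (by omega) (by omega)
  have y2s := hNs N hN1 tr hlen hn hE (i + 2) (by omega) (by omega)
  have y3s := hNs N hN1 tr hlen hn hE (i + 3) (by omega) (by omega)
  have e13 : i + 1 - 1 = i := by omega
  have e14 : i + 3 - 1 = i + 2 := by omega
  rw [e3, e13] at y1s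
  rw [e4, e2] at y2s
  rw [e5, e14] at y3s
  have l1 := tr.len_bound (i + 1) (by omega)
  have l2 := tr.len_bound (i + 2) (by omega)
  rw [e12] at l1
  rw [e8] at l2
  have p3 := hsp (i + 3)
  have p4 := hsp (i + 4)
  rw [e6] at p3
  rw [e7] at p4
  set K : ℕ := tr.k i + tr.k (i + 1) + tr.k (i + 2) + tr.k (i + 3) with hK
  -- bound for s' - s
  have main : s' - s ≤ C0 * (1 + D + K) := by
    have hq : ((Λ.p : ℤ) * Λ.u) = (pu : ℤ) := by rw [hpu]; push_cast; ring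
    have hq2 : ((nm Λ.g1 : ℤ) + 2 * Λ.R1) = (c1 : ℤ) := by rw [hc1]; push_cast; ring
    rw [hq, hq2] at l1 l2
    have hh1 : (1 + (((i + 5 : ℕ) : ℤ) - ((i + 2 : ℕ) : ℤ))) = 4 := by push_cast; ring
    have hh2 : (1 + (((i + 6 : ℕ) : ℤ) - ((i + 3 : ℕ) : ℤ))) = 4 := by push_cast; ring
    rw [hh1] at r1
    rw [hh2] at r2
    have w1 : (tr.P (tr.T (i + 1)) : ℤ) ≤ nm (Λ.B2 tr.n (i + 3)) +
        Cs * (1 + tr.k i + tr.k (i + 1)) := by exact_mod_cast y1s.1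
    have w3 : (nm (Λ.B2 tr.n (i + 5)) : ℤ) ≤ tr.P (tr.T (i + 3)) +
        Cs * (1 + tr.k (i + 2) + tr.k (i + 3)) := by exact_mod_cast y3s.2
    have w4 : (nm (Λ.B2 tr.n (i + 4)) : ℤ) = nm (Λ.B2 tr.n (i + 3)) + y1 * tr.n (i + 3) +
        nm Λ.g2 := by exact_mod_cast p3
    have w5 : (nm (Λ.B2 tr.n (i + 5)) : ℤ) = nm (Λ.B2 tr.n (i + 4)) + y1 * tr.n (i + 4) +
        nm Λ.g2 := by exact_mod_cast p4
    have w7 : (tr.n (i + 1) : ℤ) + tr.n (i + 2) ≤ tr.n (i + 3) + tr.n (i + 4) + 2 * D := by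
      have a1 := (hnn (i + 1)).2
      have a2 := (hnn (i + 2)).2
      have a3 := (hnn (i + 3)).1
      have a4 := (hnn (i + 4)).1
      have : tr.n (i + 1) + tr.n (i + 2) ≤ tr.n (i + 3) + tr.n (i + 4) + 2 * D := by omega
      exact_mod_cast this
    have w8 : (tr.P s' : ℤ) ≤ tr.P s + 2 * Λ.R := by
      have h1 := cs.2
      have h2 := cs'.1
      have : tr.P s' ≤ tr.P s + 2 * Λ.R := by omega
      exact_mod_cast this
    have hss : (s : ℤ) ≤ s' := by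
      have : s ≤ s' := by omega
      exact_mod_cast this
    have hfin := final_arith (y1 := y1) (pu := pu) (Cs := Cs) (A2 := A2) (R := Λ.R) (c1 := c1)
      (D := D) (k0 := tr.k i) (k1 := tr.k (i + 1)) (k2 := tr.k (i + 2)) (k3 := tr.k (i + 3))
      (Int.natCast_nonneg _) (by exact_mod_cast hy1pos)
      (Int.natCast_nonneg _) (Int.natCast_nonneg _) (Int.natCast_nonneg _)
      (Int.natCast_nonneg _) (Int.natCast_nonneg _) (Int.natCast_nonneg _)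
      (Int.natCast_nonneg _) (Int.natCast_nonneg _) (Int.natCast_nonneg _)
      (Int.natCast_nonneg _) hss l1 l2 r1 r2 w1 w3 w4 w5 w7 w8
    have q8 : (s' : ℤ) ≤ ((s + C0 * (1 + D + K) : ℕ) : ℤ) := by
      rw [hC0, hK]
      push_cast
      linarith only [hfin]
    have q9 : s' ≤ s + C0 * (1 + D + K) := by exact_mod_cast q8
    omega
  have hb : nm ((Λ.B2 tr.n (i + 2 + 2))⁻¹ * v) ≤ Cs * (1 + tr.k (i + 1) + tr.k (i + 2)) := by
    apply nm_b2_vtx tr (by omega) hvpre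
    · rw [hvn, e4]; exact y2s.1
    · rw [hvn, e4]; exact y2s.2
  have hd : nm ((tr.γ s).2⁻¹ * (tr.γ (tr.T (i + 2))).2) ≤ Λ.R * (tr.T (i + 2) - s) := by
    have := disp2_le tr (s := s) (tr.T (i + 2) - s) (by omega)
    rwa [show s + (tr.T (i + 2) - s) = tr.T (i + 2) by omega] at this
  have ht1 := nm_triangle (Λ.B2 tr.n (i + 2 + 2)) v (tr.γ (tr.T (i + 2))).2
  have ht2 := nm_triangle v (tr.γ s).2 (tr.γ (tr.T (i + 2))).2
  have hd2 : Λ.R * (tr.T (i + 2) - s) ≤ Λ.R * (C0 * (1 + D + K)) :=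
    Nat.mul_le_mul_left _ (by omega)
  have hb2 : Cs * (1 + tr.k (i + 1) + tr.k (i + 2)) ≤ Cs * (1 + D + K) :=
    Nat.mul_le_mul_left _ (by omega)
  have hR2 : Λ.R ≤ Λ.R * (1 + D + K) := Nat.le_mul_of_pos_right _ (by omega)
  have hfin : (Cs + Λ.R + Λ.R * C0) * (1 + D + K) =
      Cs * (1 + D + K) + Λ.R * (1 + D + K) + Λ.R * (C0 * (1 + D + K)) := by ring
  have hfin2 : 1 + D + tr.k i + tr.k (i + 1) + tr.k (i + 2) + tr.k (i + 2 + 1) = 1 + D + K := by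
    rw [hK]; ring
  rw [hfin2, hfin]
  omega

end Pool.Agent.FTP
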