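import Mathlib
import Pool.Agent.FTP.Defs
import Pool.Agent.FTP.Lane
import Pool.Agent.FTP.LineGeo
import Pool.Agent.FTP.Rigid
import Pool.Agent.FTP.RateInt
import Pool.Agent.FTP.Global
import Pool.Agent.FTP.Sync

/-!
# FTP / Gain: a block of length `N` against a block of length `N + D` costs letters

Claim: there is `C` (depending on the lane only) such that for all `D, M, E` there is `N0` such that
for `N ≥ N0` and trips as in `sync`: if `1 ≤ j`, `j + 2 ≤ M` and `j % 4 = 0`, then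
`D ≤ C (1 + k (j-1) + k j + k (j+1))`.

Proof. `n_j = N` and `n_{j+2} = N + D` (`nn`). Take `N0` at least the constant of `sync` and so large
that (with `CG` from `global`) `nm (B2 (j+1)) ≤ nm (B2 (j+2)) - CG` and
`nm (B2 (j+3)) + CG ≤ nm (B2 (j+4))`, `N0 ≥ 1`. By `global` for the block `j`, on `[T j, T (j+1)]` the
position `P` is between `nm (B2 (j+1))` and `nm (B2 (j+4))`, `j + 4 ≤ M + 2`. By `rate_int` (three
blocks): `p u (P (T (j+1)) - P (T j)) ≤ q |y| (T (j+1) - T j) + 4 A2 (1 + k j)`, by `len_bound`: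
`T (j+1) - T j ≤ p u N + a (1 + k j)`, by `sync` at `j` and `j+1`:
`P (T (j+1)) - P (T j) ≥ nm (B2 (j+3)) - nm (B2 (j+2)) - C' (2 + k (j-1) + 2 k j + k (j+1))`, where
`nm (B2 (j+3)) - nm (B2 (j+2)) = q (N + D) |y| + nm g2`. Hence
`p u q |y| D ≤ const * (1 + k (j-1) + k j + k (j+1))`, and `p u q |y| ≥ 1`.
-/

namespace Pool.Agent.FTP

private theorem nn_ge (N D l : ℕ) : N ≤ nn N D l := by
  unfold nn
  split_ifs <;> omega

private theorem gain_aux {pu qy N D Pj Pj1 Bj2 Bj3 Tj Tj1 g2 a R A2 C' kp k kn : ℤ}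
    (hpu : 1 ≤ pu) (hqy : 1 ≤ qy) (hD : 0 ≤ D) (hg2 : 0 ≤ g2) (ha : 0 ≤ a) (hR : 0 ≤ R)
    (hA2 : 0 ≤ A2) (hC' : 0 ≤ C') (hkp : 0 ≤ kp) (hk : 0 ≤ k) (hkn : 0 ≤ kn)
    (h1 : pu * (Pj1 - Pj) ≤ qy * (Tj1 - Tj) + A2 * 4 * (1 + k))
    (h2 : Tj1 - Tj ≤ pu * N + a + (1 + R) * k)
    (h3 : Pj ≤ Bj2 + C' * (1 + kp + k)) (h4 : Bj3 ≤ Pj1 + C' * (1 + k + kn))
    (h5 : Bj3 = Bj2 + qy * (N + D) + g2) :
    D ≤ (2 * pu * C' + qy * (a + 1 + R) + 4 * A2) * (1 + kp + k + kn) := by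
  have e1 : qy * (N + D) - C' * (2 + kp + 2 * k + kn) ≤ Pj1 - Pj := by nlinarith
  have e2 : pu * (qy * (N + D) - C' * (2 + kp + 2 * k + kn)) ≤
      qy * (pu * N + a + (1 + R) * k) + A2 * 4 * (1 + k) := by
    calc pu * (qy * (N + D) - C' * (2 + kp + 2 * k + kn)) ≤ pu * (Pj1 - Pj) :=
          mul_le_mul_of_nonneg_left e1 (by linarith)
      _ ≤ qy * (Tj1 - Tj) + A2 * 4 * (1 + k) := h1
      _ ≤ _ := by
          have := mul_le_mul_of_nonneg_left h2 (show (0 : ℤ) ≤ qy by linarith)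
          linarith
  have e3 : pu * qy * D ≤ pu * C' * (2 + kp + 2 * k + kn) + qy * (a + (1 + R) * k) +
      A2 * 4 * (1 + k) := by
    have e4 : pu * (qy * (N + D) - C' * (2 + kp + 2 * k + kn)) =
        pu * qy * D + qy * (pu * N) - pu * C' * (2 + kp + 2 * k + kn) := by ring
    have e5 : qy * (pu * N + a + (1 + R) * k) = qy * (pu * N) + qy * (a + (1 + R) * k) := by ring
    rw [e4, e5] at e2
    linarith
  have e6 : D ≤ pu * qy * D := by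
    have : 1 ≤ pu * qy := by nlinarith
    nlinarith
  have e7 : pu * C' * (2 + kp + 2 * k + kn) ≤ 2 * pu * C' * (1 + kp + k + kn) := by
    have : 0 ≤ pu * C' := mul_nonneg (by linarith) hC'
    nlinarith
  have e8 : qy * (a + (1 + R) * k) ≤ qy * (a + 1 + R) * (1 + kp + k + kn) := by
    rw [mul_assoc]
    apply mul_le_mul_of_nonneg_left _ (by linarith)
    nlinarith [mul_nonneg ha hk, mul_nonneg ha hkp, mul_nonneg ha hkn, mul_nonneg hR hkp,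
      mul_nonneg hR hkn]
  have e9 : A2 * 4 * (1 + k) ≤ 4 * A2 * (1 + kp + k + kn) := by nlinarith
  nlinarith

theorem gain (Λ : Lane) : ∃ C : ℕ, ∀ D M E : ℕ, ∃ N0 : ℕ, ∀ N, N0 ≤ N → ∀ tr : Trip Λ,
    tr.len = M → tr.n = nn N D → cnt tr.off 0 tr.L ≤ E → ∀ j, 1 ≤ j → j + 2 ≤ M → j % 4 = 0 →
      D ≤ C * (1 + tr.k (j - 1) + tr.k j + tr.k (j + 1)) := by
  obtain ⟨C', hsync⟩ := sync Λ
  obtain ⟨A2, hrate⟩ := rate_int Λ
  refine ⟨2 * (Λ.p * Λ.u) * C' + (Λ.q * nm Λ.y) * (nm Λ.g1 + 2 * Λ.R1 + 1 + Λ.R) + 4 * A2, ?_⟩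
  intro D M E
  obtain ⟨N1, hN1⟩ := hsync D M E
  obtain ⟨CG, hG⟩ := global Λ D M E
  refine ⟨N1 + CG + 1, ?_⟩
  intro N hN tr hlen hn hoff j hj1 hj2 hj4
  have hN1' : N1 ≤ N := by omega
  obtain ⟨-, hG2⟩ := hG tr hlen N (by omega) hn hoff
  have hy1 : 1 ≤ nm Λ.y := by
    rcases Nat.eq_zero_or_pos (nm Λ.y) with h | h
    · exact absurd (FreeGroup.norm_eq_zero.1 h) Λ.hy.1
    · exact h
  have hqy : 1 ≤ Λ.q * nm Λ.y := Nat.mul_pos Λ.hq hy1
  have hstep : ∀ i, nm (Λ.B2 tr.n i) + N ≤ nm (Λ.B2 tr.n (i + 1)) := by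
    intro i
    rw [Lane.b2_nm_succ Λ tr.hn i]
    have h1 : N ≤ tr.n i := by rw [hn]; exact nn_ge N D i
    have h2 : 1 * tr.n i * 1 ≤ Λ.q * tr.n i * nm Λ.y :=
      Nat.mul_le_mul (Nat.mul_le_mul_right _ Λ.hq) hy1
    rw [one_mul, mul_one] at h2
    omega
  have hst1 := hstep (j + 1)
  have hst3 := hstep (j + 3)
  have hjlen : j < tr.len := by omega
  have hmono : tr.T j ≤ tr.T (j + 1) := tr.mono j hjlen
  have hr := hrate tr j hjlen (tr.T j) (tr.T (j + 1)) le_rfl hmono le_rfl (j + 1) (j + 4)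
    (by omega) (by omega) (by
      intro v hv1 hv2
      obtain ⟨h1, h2⟩ := hG2 j (by omega) v hv1 hv2
      have e1 : j + 1 + 1 = j + 2 := rfl
      have e3 : j + 3 + 1 = j + 4 := rfl
      rw [e1] at hst1
      rw [e3] at hst3
      constructor <;> omega)
  have hlb := tr.len_bound j hjlen
  obtain ⟨hs1, -⟩ := hN1 N hN1' tr hlen hn hoff j hj1 (by omega)
  obtain ⟨-, hs2⟩ := hN1 N hN1' tr hlen hn hoff (j + 1) (by omega) (by omega)
  have hnj : tr.n j = N := by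
    rw [hn]
    unfold nn
    rw [if_neg (by omega)]
  have hnj2 : tr.n (j + 2) = N + D := by
    rw [hn]
    unfold nn
    rw [if_pos (by omega)]
  have hB := Lane.b2_nm_succ Λ tr.hn (j + 2)
  rw [hnj2] at hB
  have e2 : j + 1 + 2 = j + 3 := rfl
  have e4 : j + 2 + 1 = j + 3 := rfl
  have e5 : j + 1 - 1 = j := by omega
  rw [e2, e5] at hs2
  rw [e4] at hB
  rw [hnj] at hlb
  have key := gain_aux (pu := ((Λ.p * Λ.u : ℕ) : ℤ)) (qy := ((Λ.q * nm Λ.y : ℕ) : ℤ)) (N := (N : ℤ))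
    (D := (D : ℤ)) (Pj := (tr.P (tr.T j) : ℤ)) (Pj1 := (tr.P (tr.T (j + 1)) : ℤ))
    (Bj2 := (nm (Λ.B2 tr.n (j + 2)) : ℤ)) (Bj3 := (nm (Λ.B2 tr.n (j + 3)) : ℤ))
    (Tj := (tr.T j : ℤ)) (Tj1 := (tr.T (j + 1) : ℤ)) (g2 := (nm Λ.g2 : ℤ))
    (a := ((nm Λ.g1 + 2 * Λ.R1 : ℕ) : ℤ)) (R := (Λ.R : ℤ)) (A2 := (A2 : ℤ)) (C' := (C' : ℤ))
    (kp := (tr.k (j - 1) : ℤ)) (k := (tr.k j : ℤ)) (kn := (tr.k (j + 1) : ℤ))
    (by exact_mod_cast Nat.mul_pos Λ.hp Λ.hu) (by exact_mod_cast hqy) (by positivity)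
    (by positivity) (by positivity) (by positivity) (by positivity) (by positivity)
    (by positivity) (by positivity) (by positivity)
    (by
      refine hr.trans (le_of_eq ?_)
      push_cast
      ring)
    (by
      refine hlb.trans (le_of_eq ?_)
      push_cast
      ring)
    (by exact_mod_cast hs1)
    (by exact_mod_cast hs2)
    (by
      rw [hB]
      push_cast
      ring)
  have key' : (D : ℤ) ≤ ((2 * (Λ.p * Λ.u) * C' +
      (Λ.q * nm Λ.y) * (nm Λ.g1 + 2 * Λ.R1 + 1 + Λ.R) + 4 * A2) *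
        (1 + tr.k (j - 1) + tr.k j + tr.k (j + 1)) : ℕ) := by
    refine key.trans (le_of_eq ?_)
    push_cast
    ring
  exact_mod_cast key'

end Pool.Agent.FTP
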