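import Mathlib
import Pool.Agent.FTP.Defs

/-!
# FTP / GoodIdx: pigeonhole for good indices, and the period of the lines

`good_indices`: let `M = 8 (m + 8)` and let `k 0 + ... + k (M-1) ≤ M Fc`. Call `j` good if `j % 4 = 3`,
`3 ≤ j`, `j + 6 ≤ M` and `k (j-2) + k (j-1) + k j + k (j+1) ≤ 8 (Fc + 1)`. The windows
`{j-2, ..., j+1}` for different `j` with `j % 4 = 3` are disjoint, so the sum of the window sums is at
most `M Fc`, and the number of `j` whose window sum is `> 8 (Fc + 1)` is at most `M / 8` (if `b` is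
this number, `8 (Fc + 1) b ≤ M Fc`, so `b ≤ M / 8`). There are at least `(M - 9) / 4 - 1` indices
`j % 4 = 3` with `3 ≤ j ≤ M - 6` (write `j = 4 i + 3`, `i ≤ (M - 9) / 4`), so more than `m` good ones
(`M / 4 - 3 - M / 8 ≥ m + 1`), and two of them have the same colour.
(Any way to organise the count is fine; for instance induct or use `Finset.sum` over `i` of
`k (4i+1) + ... + k (4i+4)`.)

`ln_period`: if `ν (l + 4) = ν l` for all `l`, then
`(Ln x g ν i)⁻¹ * Ln x g ν (i + 4 q) = ((Ln x g ν i)⁻¹ * Ln x g ν (i + 4)) ^ q`.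
Proof: `(Ln i)⁻¹ Ln (i + 1) = x ^ ν i * g`; so `(Ln i)⁻¹ Ln (i+4)` is the product of four such factors,
the same for `i` and `i + 4`; induction on `q`.
-/

namespace Pool.Agent.FTP

theorem sum_windows_le (k : ℕ → ℕ) (N : ℕ) :
    ∑ i ∈ Finset.range N, (k (4 * i + 1) + k (4 * i + 2) + k (4 * i + 3) + k (4 * i + 4)) ≤
      ∑ j ∈ Finset.range (4 * N + 1), k j := by
  induction N with
  | zero => simp
  | succ N ih =>
    rw [Finset.sum_range_succ, show 4 * (N + 1) + 1 = 4 * N + 1 + 1 + 1 + 1 + 1 by ring,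
      Finset.sum_range_succ, Finset.sum_range_succ, Finset.sum_range_succ, Finset.sum_range_succ]
    have h1 : 4 * N + 1 + 1 = 4 * N + 2 := by ring
    have h2 : 4 * N + 1 + 1 + 1 = 4 * N + 3 := by ring
    have h3 : 4 * N + 1 + 1 + 1 + 1 = 4 * N + 4 := by ring
    rw [h3, h2, h1]
    omega

theorem good_indices (Fc m : ℕ) (k : ℕ → ℕ)
    (hk : ∑ j ∈ Finset.range (8 * (m + 8)), k j ≤ 8 * (m + 8) * Fc) (col : ℕ → Fin m) :
    ∃ j j' : ℕ, 3 ≤ j ∧ j < j' ∧ j' + 6 ≤ 8 * (m + 8) ∧ j % 4 = 3 ∧ j' % 4 = 3 ∧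
      k (j - 2) + k (j - 1) + k j + k (j + 1) ≤ 8 * (Fc + 1) ∧
      k (j' - 2) + k (j' - 1) + k j' + k (j' + 1) ≤ 8 * (Fc + 1) ∧ col j = col j' := by
  set K : ℕ → ℕ := fun i => k (4 * i + 1) + k (4 * i + 2) + k (4 * i + 3) + k (4 * i + 4) with hK
  have hsum : ∑ i ∈ Finset.range (2 * m + 14), K i ≤ 8 * (m + 8) * Fc := by
    refine le_trans (sum_windows_le k (2 * m + 14)) (le_trans ?_ hk)
    apply Finset.sum_le_sum_of_subset
    intro x hx
    rw [Finset.mem_range] at hx ⊢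
    omega
  have hbad : ((Finset.range (2 * m + 14)).filter (fun i => ¬ K i ≤ 8 * (Fc + 1))).card < m + 8 := by
    by_contra hcon
    have hcon := Nat.le_of_not_lt hcon
    have h1 : ((Finset.range (2 * m + 14)).filter (fun i => ¬ K i ≤ 8 * (Fc + 1))).card *
        (8 * (Fc + 1)) ≤ ∑ i ∈ (Finset.range (2 * m + 14)).filter
          (fun i => ¬ K i ≤ 8 * (Fc + 1)), K i := by
      rw [← smul_eq_mul]
      apply Finset.card_nsmul_le_sum
      intro x hx
      have := (Finset.mem_filter.mp hx).2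
      omega
    have h2 : ∑ i ∈ (Finset.range (2 * m + 14)).filter
          (fun i => ¬ K i ≤ 8 * (Fc + 1)), K i ≤ ∑ i ∈ Finset.range (2 * m + 14), K i :=
      Finset.sum_le_sum_of_subset (Finset.filter_subset _ _)
    have h3 : (m + 8) * (8 * (Fc + 1)) ≤ 8 * (m + 8) * Fc :=
      le_trans (Nat.mul_le_mul_right _ hcon) (le_trans h1 (le_trans h2 hsum))
    nlinarith
  have hgood : m < ((Finset.range (2 * m + 14)).filter (fun i => K i ≤ 8 * (Fc + 1))).card := by
    have := Finset.card_filter_add_card_filter_not (s := Finset.range (2 * m + 14))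
      (fun i => K i ≤ 8 * (Fc + 1))
    rw [Finset.card_range] at this
    omega
  obtain ⟨a, ha, b, hb, hne, hcol⟩ := Finset.exists_ne_map_eq_of_card_lt_of_maps_to
    (s := (Finset.range (2 * m + 14)).filter (fun i => K i ≤ 8 * (Fc + 1)))
    (t := (Finset.univ : Finset (Fin m))) (f := fun i => col (4 * i + 3))
    (by simpa using hgood) (by intro x _; exact Finset.mem_coe.mpr (Finset.mem_univ _))
  have key : ∀ a b : ℕ, a < b → a ∈ (Finset.range (2 * m + 14)).filter (fun i => K i ≤ 8 * (Fc + 1)) →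
      b ∈ (Finset.range (2 * m + 14)).filter (fun i => K i ≤ 8 * (Fc + 1)) →
      col (4 * a + 3) = col (4 * b + 3) →
      ∃ j j' : ℕ, 3 ≤ j ∧ j < j' ∧ j' + 6 ≤ 8 * (m + 8) ∧ j % 4 = 3 ∧ j' % 4 = 3 ∧
      k (j - 2) + k (j - 1) + k j + k (j + 1) ≤ 8 * (Fc + 1) ∧
      k (j' - 2) + k (j' - 1) + k j' + k (j' + 1) ≤ 8 * (Fc + 1) ∧ col j = col j' := by
    intro a b hab ha hb hc
    rw [Finset.mem_filter, Finset.mem_range] at ha hb
    refine ⟨4 * a + 3, 4 * b + 3, by omega, by omega, by omega, by omega, by omega, ?_, ?_, hc⟩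
    · have e1 : 4 * a + 3 - 2 = 4 * a + 1 := by omega
      have e2 : 4 * a + 3 - 1 = 4 * a + 2 := by omega
      rw [e1, e2]; exact ha.2
    · have e1 : 4 * b + 3 - 2 = 4 * b + 1 := by omega
      have e2 : 4 * b + 3 - 1 = 4 * b + 2 := by omega
      rw [e1, e2]; exact hb.2
  rcases lt_or_gt_of_ne hne with h | h
  · exact key a b h ha hb hcol
  · exact key b a h hb ha hcol.symm

theorem ln_period {x g : F} {ν : ℕ → ℕ} (hν : ∀ l, ν (l + 4) = ν l) (i q : ℕ) :
    (Ln x g ν i)⁻¹ * Ln x g ν (i + 4 * q) = ((Ln x g ν i)⁻¹ * Ln x g ν (i + 4)) ^ q := by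
  have hW : ∀ j, Ln x g ν (j + 4) = Ln x g ν j * ((x ^ ν j * g) * (x ^ ν (j + 1) * g) *
      (x ^ ν (j + 2) * g) * (x ^ ν (j + 3) * g)) := by
    intro j
    show Ln x g ν j * x ^ ν j * g * x ^ ν (j + 1) * g * x ^ ν (j + 2) * g * x ^ ν (j + 3) * g = _
    group
  have hper : ∀ l q, ν (l + 4 * q) = ν l := by
    intro l q
    induction q with
    | zero => simp
    | succ q ih => rw [show l + 4 * (q + 1) = (l + 4 * q) + 4 by ring, hν, ih]
  induction q with
  | zero => simp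
  | succ q ih =>
    rw [show i + 4 * (q + 1) = (i + 4 * q) + 4 by ring, hW (i + 4 * q), ← mul_assoc, ih, pow_succ,
      hW i, hper i q, show i + 4 * q + 1 = (i + 1) + 4 * q by ring, hper (i + 1) q,
      show i + 4 * q + 2 = (i + 2) + 4 * q by ring, hper (i + 2) q,
      show i + 4 * q + 3 = (i + 3) + 4 * q by ring, hper (i + 3) q]
    group

theorem nn_period (N D l : ℕ) : nn N D (l + 4) = nn N D l := by
  unfold nn
  congr 1
  simp [Nat.add_mod]

end Pool.Agent.FTP
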