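import Mathlib
import Pool.Agent.FTP.Defs
import Pool.Agent.FTP.Words

/-!
# FTP / Pump: finitely many cone types, and pumping of geodesics

Let `A` be finite and closed under inverses and `FFT A K`. For `g` in the group generated by `A` let
`Ty g` be the set of all `h` in the ball of radius `K` (a finite set, `ball_finite`) with
`wl (g h) ≤ wl g`. (1) If `Ty g = Ty g'`, then for every word `z`: `wl (g z) = wl g + |z|` implies
`wl (g' z) = wl g' + |z|`.
Proof. Suppose not; let `i` be minimal with `wl (g' z[i+1]) < wl g' + i + 1` where `z[i]` is the prefix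
of length `i` (`z = z[|z|]`; `wl (g' z[i]) ≤ wl g' + i` always). Let `u'` be a geodesic word for `g'` and
`v = u' ++ z[i+1]`, a word which is not geodesic. By `FFT` there is a shorter word `w` with the
same product which `K`-fellow travels with `v`. Let `t = wl g' = |u'|` and
`h = (v.take t).prod⁻¹ (w.take t).prod = g'⁻¹ (w.take t).prod`, so `wl h ≤ K` (and `h` is in the ball),
`g' h = (w.take t).prod`, `wl (g' h) ≤ t = wl g'`. So `h ∈ Ty g' = Ty g`: `wl (g h) ≤ wl g`. The rest of `w`,
`w2 = w.drop t`, has length `|w| - t < i + 1` (or `0` if `|w| < t`), and `h w2 = z[i+1]`, so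
`wl (g z[i+1]) = wl (g h w2) ≤ wl g + |w2| < wl g + i + 1`. But `wl (g z) = wl g + |z|` implies
`wl (g z[i+1]) = wl g + i + 1` (the rest of `z` adds at most its length). Contradiction.
(2) Let `C g` be the set of words `z` with `wl (g z) = wl g + |z|`. If `Ty g = Ty g'` then `C g = C g'`.
Let now `Ty (g z) = Ty g`, `z ∈ C g`. By induction on `k`: `wl (g z^k) = wl g + k |z|` and
`C (g z^k) = C g`. Step: `z ∈ C g = C (g z^k)` gives the first claim; a word `w` is in
`C (g z^(k+1))` iff `z ++ w ∈ C (g z^k) = C g` (as `z ∈ C (g z^k)`) iff `w ∈ C (g z)` (as `z ∈ C g`), and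
`C (g z) = C g` by (1).
(3) `wl g + k |z| = wl (g z^k) ≤ wl g + wl (z^k)` and `wl (z^k) ≤ k |z|`. So `wl (z^k) = k |z|`.
The number `n` of types is the number of subsets of the ball, `ty` = a bijection of this finite
type with `Fin n`.
-/

namespace Pool.Agent.FTP

/-- the ball of radius `K` (words of length at most `K`) -/
private def bal {Γ : Type*} [Group Γ] (A : Set Γ) (K : ℕ) : Set Γ :=
  {g : Γ | ∃ l : List Γ, IsWord A l ∧ l.prod = g ∧ l.length ≤ K}

/-- equality of cones, one direction -/
private theorem cone_imp {Γ : Type*} [Group Γ] {A : Set Γ} (hsym : ∀ a ∈ A, a⁻¹ ∈ A)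
    {K : ℕ} (hFFT : FFT A K) {g g' : Γ} (hg : g ∈ Subgroup.closure A)
    (hg' : g' ∈ Subgroup.closure A)
    (hT : ∀ h ∈ bal A K, wl A (g' * h) ≤ wl A g' → wl A (g * h) ≤ wl A g)
    {z : List Γ} (hz : IsWord A z) (hc : wl A (g * z.prod) = wl A g + z.length) :
    wl A (g' * z.prod) = wl A g' + z.length := by
  obtain ⟨u, hu, hup, hul⟩ := exists_geo (exists_word hsym hg')
  by_contra hne
  have hv : IsWord A (u ++ z) := isWord_append hu hz
  have hng : ¬ Geo A (u ++ z) := by
    unfold Geo
    rw [List.length_append, List.prod_append, hup, hul]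
    exact fun h => hne h.symm
  obtain ⟨w, hw, hwp, hwl, hft⟩ := hFFT (u ++ z) hv hng
  have hz0 : 0 < z.length := by
    rcases Nat.eq_zero_or_pos z.length with h0 | h0
    · exfalso
      apply hne
      rw [List.length_eq_zero_iff] at h0
      subst h0
      simp
    · exact h0
  have ht := hft u.length
  rw [List.take_left', hup] at ht
  · set h : Γ := g'⁻¹ * (w.take u.length).prod with hh
    have hh' : g' * h = (w.take u.length).prod := by rw [hh, mul_inv_cancel_left]
    have hcl : h ∈ Subgroup.closure A :=
      (Subgroup.closure A).mul_mem ((Subgroup.closure A).inv_mem hg')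
        (word_mem (isWord_take hw _))
    have hb : h ∈ bal A K := by
      obtain ⟨l, hl, hlp, hll⟩ := exists_geo (exists_word hsym hcl)
      exact ⟨l, hl, hlp, by omega⟩
    have h1 : wl A (g' * h) ≤ wl A g' := by
      rw [hh', ← hul]
      refine (wl_le (isWord_take hw _)).trans ?_
      rw [List.length_take]
      exact min_le_left _ _
    have h2 := hT h hb h1
    have h3 : h * (w.drop u.length).prod = z.prod := by
      have h4 : g' * (h * (w.drop u.length).prod) = g' * z.prod := by
        rw [← mul_assoc, hh', ← List.prod_append, List.take_append_drop, hwp, List.prod_append,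
          hup]
      exact mul_left_cancel h4
    have h5 : wl A (g * z.prod) ≤ wl A g + (w.drop u.length).length := by
      rw [← h3, ← mul_assoc]
      refine (wl_mul_le hsym ((Subgroup.closure A).mul_mem hg hcl)
        (word_mem (isWord_drop hw _))).trans ?_
      exact Nat.add_le_add h2 (wl_le (isWord_drop hw _))
    rw [List.length_append] at hwl
    rw [List.length_drop] at h5
    omega
  · rfl

theorem pump {Γ : Type*} [Group Γ] (A : Set Γ) (hfin : A.Finite) (hsym : ∀ a ∈ A, a⁻¹ ∈ A)
    (K : ℕ) (hFFT : FFT A K) :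
    ∃ (n : ℕ) (ty : Γ → Fin n), ∀ (g : Γ) (z : List Γ), g ∈ Subgroup.closure A → IsWord A z →
      ty g = ty (g * z.prod) → wl A (g * z.prod) = wl A g + z.length →
        ∀ k : ℕ, wl A (z.prod ^ k) = k * z.length := by
  classical
  have hB : (bal A K).Finite := ball_finite hfin K
  set B : Finset Γ := hB.toFinset with hBdef
  have hmem : ∀ h : Γ, h ∈ B ↔ h ∈ bal A K := fun h => hB.mem_toFinset
  let Ty : Γ → Finset Γ := fun g => B.filter (fun h => wl A (g * h) ≤ wl A g)
  have hTy : ∀ g, Ty g ∈ B.powerset := fun g => Finset.mem_powerset.2 (Finset.filter_subset _ _)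
  refine ⟨B.powerset.card, fun g => B.powerset.equivFin ⟨Ty g, hTy g⟩, ?_⟩
  intro g z hg hz hty hc
  have hT : Ty g = Ty (g * z.prod) := by
    have := B.powerset.equivFin.injective hty
    exact congrArg Subtype.val this
  have key : ∀ h ∈ bal A K, (wl A (g * h) ≤ wl A g ↔
      wl A (g * z.prod * h) ≤ wl A (g * z.prod)) := by
    intro h hh
    have e1 : h ∈ Ty g ↔ wl A (g * h) ≤ wl A g := by
      simp only [Ty, Finset.mem_filter, hmem]
      exact and_iff_right hh
    have e2 : h ∈ Ty (g * z.prod) ↔ wl A (g * z.prod * h) ≤ wl A (g * z.prod) := by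
      simp only [Ty, Finset.mem_filter, hmem]
      exact and_iff_right hh
    rw [← e1, ← e2, hT]
  have hzc : z.prod ∈ Subgroup.closure A := word_mem hz
  have hgz : g * z.prod ∈ Subgroup.closure A := (Subgroup.closure A).mul_mem hg hzc
  have hcone : ∀ w : List Γ, IsWord A w →
      (wl A (g * z.prod * w.prod) = wl A (g * z.prod) + w.length ↔
        wl A (g * w.prod) = wl A g + w.length) := by
    intro w hw
    constructor
    · exact cone_imp hsym hFFT hgz hg (fun h hh h1 => (key h hh).1 h1) hw
    · exact cone_imp hsym hFFT hg hgz (fun h hh h1 => (key h hh).2 h1) hw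
  have main : ∀ k : ℕ, wl A (g * z.prod ^ k) = wl A g + k * z.length ∧
      ∀ w : List Γ, IsWord A w →
        (wl A (g * z.prod ^ k * w.prod) = wl A (g * z.prod ^ k) + w.length ↔
          wl A (g * w.prod) = wl A g + w.length) := by
    intro k
    induction k with
    | zero =>
      refine ⟨by simp, ?_⟩
      intro w hw
      simp
    | succ k ih =>
      obtain ⟨ih1, ih2⟩ := ih
      have e : g * z.prod ^ (k + 1) = g * z.prod ^ k * z.prod := by rw [pow_succ, mul_assoc]
      have h1 : wl A (g * z.prod ^ (k + 1)) = wl A (g * z.prod ^ k) + z.length := by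
        rw [e]
        exact (ih2 z hz).2 hc
      refine ⟨by rw [h1, ih1]; ring, ?_⟩
      intro w hw
      have h2 := ih2 (z ++ w) (isWord_append hz hw)
      rw [List.prod_append, List.length_append] at h2
      have h3 : g * z.prod ^ k * (z.prod * w.prod) = g * z.prod ^ (k + 1) * w.prod := by
        rw [e]; group
      have h4 : g * (z.prod * w.prod) = g * z.prod * w.prod := by rw [mul_assoc]
      rw [h3, h4] at h2
      have h5 := hcone w hw
      rw [hc] at h5
      rw [h1]
      constructor
      · intro h6
        exact h5.1 (by rw [h2.1 (by rw [h6]; ring)]; ring)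
      · intro h6
        rw [h2.2 (by rw [h5.2 h6]; ring)]
        ring
  intro k
  have h1 := (main k).1
  have hzk : z.prod ^ k ∈ Subgroup.closure A := (Subgroup.closure A).pow_mem hzc k
  have h2 := wl_mul_le hsym hg hzk
  have h3 := wl_pow_le hsym hzc k
  have h4 : k * wl A z.prod ≤ k * z.length := Nat.mul_le_mul_left k (wl_le hz)
  omega

end Pool.Agent.FTP
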