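import Mathlib
import Pool.Agent.FTP.Defs
import Pool.Agent.FTP.TreeA
import Pool.Agent.FTP.TreeB
import Pool.Agent.FTP.Near
import Pool.Agent.FTP.Lane
import Pool.Agent.FTP.LineGeo

/-!
# FTP / Times: a word from `S 0` to `S M` is a trip

Let `N ≥ N0` (large, depending on the lane only: `N0 > nm ρ1 + nm ρ2`), `n = nn N D`, `M ≥ 1`, and let
`w` be a word in `A` with `S 0 * w.prod = S M` (`S i = (B1 i ρ1, B2 (i+2) ρ2)`). Put
`γ t = S 0 * (w.take t).prod`, `L = w.length`. Then this is a `Trip` with `len = M`, with times `T j` such that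
`nm ((B1 j)⁻¹ (γ (T j)).1) ≤ R` for `1 ≤ j < M`.

Proof. `T 0 = 0`, `T j = L` for `j ≥ M`, and for `1 ≤ j < M` let `T j` be the last exit time of `B1 j`
(`last_exit` in Near.lean for the first component on `[0, L]`): `B1 j` is no prefix of
`(γ 0).1 = ρ1` (as `nm (B1 j) ≥ N > nm ρ1`, `pre_nm_le`), and it is a prefix of `(γ L).1 = B1 M ρ1`
(`pre_stable`: `nm ((B1 j)⁻¹ (B1 M)) = nm (B1 M) - nm (B1 j) ≥ N ≥ nm ρ1`). Monotonicity:
`B1 j` is a prefix of `B1 (j+1)`, so `B1 j` is a prefix of `(γ v).1` for all `v ≥ T (j+1)`; hence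
`T j ≤ T (j+1)` because `¬ Pre (B1 j) (γ (T j - 1)).1`.
`ahead`: for `j = 0` `B1 0 = 1`; for `1 ≤ j < M` by definition of `T j`. `near1`: at `j = 0`, `M` the
distance is `nm ρ1 ≤ R1`. `step`: `(γ t)⁻¹ γ (t+1)` is the letter number `t` of `w`, for `t < L`.
`coset`: all elements of `A` are in `GG` (`hAcl`, `Subgroup.subset_closure`), so
`par (γ t).1 - par (γ t).2` does not depend on `t`; at `t = 0` it is
`par ρ1 - (par (B2 2) + par ρ2) = par ρ1 - par ρ2` (`par_B2`: `2 • β = 0`).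
`start2`, `end2`: `pos_lip` and `pos_of_pre`: the position of `B2 2 ρ2` is at most
`nm (B2 2) + nm ρ2`, that of `B2 (M+2) ρ2` at least `nm (B2 (M+2)) - nm ρ2`.
The number of letters that are not tight: `cnt off 0 L` is the number of letters of `w` not in `M`, and
(`hχle`, `hχM`, integers) `cnt off 0 L ≤ m0 * w.length - χ w.prod`; more generally between two times.
-/

namespace Pool.Agent.FTP

/-- the number of letters which are not tight is at most the excess -/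
theorem Trip.cnt_le_excess {Λ : Lane} (tr : Trip Λ) {s s' : ℕ} (h : s ≤ s') (h' : s' ≤ tr.L) :
    (cnt tr.off s s' : ℤ) ≤ Λ.m0 * ((s' : ℤ) - s) - Λ.χ ((tr.γ s)⁻¹ * tr.γ s') := by
  have hχ1 : Λ.χ 1 = 0 := by
    have := Λ.hχ 1 1
    rw [mul_one] at this
    omega
  induction s', h using Nat.le_induction with
  | base =>
    rw [cnt_self, inv_mul_cancel, hχ1]
    simp
  | succ t ht ih =>
    have ih' := ih (by omega)
    have hst : (tr.γ t)⁻¹ * tr.γ (t + 1) ∈ Λ.A := tr.step t (by omega)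
    have e : (tr.γ s)⁻¹ * tr.γ (t + 1) = ((tr.γ s)⁻¹ * tr.γ t) * ((tr.γ t)⁻¹ * tr.γ (t + 1)) := by
      group
    rw [e, Λ.hχ, cnt_succ _ ht]
    have hle := Λ.hχle _ hst
    have hc : (cnt tr.off t (t + 1) : ℤ) ≤ Λ.m0 - Λ.χ ((tr.γ t)⁻¹ * tr.γ (t + 1)) := by
      by_cases ho : tr.off t
      · rw [cnt_single_pos ho]
        have hne : Λ.χ ((tr.γ t)⁻¹ * tr.γ (t + 1)) ≠ Λ.m0 := fun hh => ho ((Λ.hχM _ hst).1 hh)
        have : Λ.χ ((tr.γ t)⁻¹ * tr.γ (t + 1)) < Λ.m0 := lt_of_le_of_ne hle hne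
        push_cast
        omega
      · rw [cnt_single_neg ho]
        push_cast
        omega
    push_cast
    nlinarith [ih', hc]

theorem mem_GG_of_mem_A (Λ : Lane) {z : F × F} (hz : z ∈ Λ.A) : z ∈ GG := by
  rw [← Λ.hAcl]
  exact Subgroup.subset_closure hz

theorem prod_mem_GG (Λ : Lane) {l : List (F × F)} (hl : IsWord Λ.A l) : l.prod ∈ GG := by
  apply Subgroup.list_prod_mem
  intro z hz
  exact mem_GG_of_mem_A Λ (hl z hz)

theorem exists_trip (Λ : Lane) : ∃ N0 : ℕ, ∀ (N D M : ℕ), N0 ≤ N → 1 ≤ M →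
    ∀ w : List (F × F), IsWord Λ.A w → Λ.S (nn N D) 0 * w.prod = Λ.S (nn N D) M →
      ∃ tr : Trip Λ, tr.n = nn N D ∧ tr.len = M ∧ tr.L = w.length ∧
        (∀ t, t ≤ w.length → tr.γ t = Λ.S (nn N D) 0 * (w.take t).prod) ∧
        ∀ j, 1 ≤ j → j < M → nm ((Λ.B1 (nn N D) j)⁻¹ * (tr.γ (tr.T j)).1) ≤ Λ.R := by
  classical
  refine ⟨nm Λ.ρ1 + nm Λ.ρ2 + 1, ?_⟩
  intro N D M hN hM w hw hS
  obtain ⟨n, hnn⟩ : ∃ n, n = nn N D := ⟨_, rfl⟩
  rw [← hnn] at hS ⊢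
  have hn0 : ∀ i, N ≤ n i := by
    intro i
    rw [hnn]
    unfold nn
    split_ifs <;> omega
  have hn : ∀ i, 1 ≤ n i := fun i => le_trans (by omega) (hn0 i)
  obtain ⟨γ, hγ⟩ : ∃ γ : ℕ → F × F, ∀ t, γ t = Λ.S n 0 * (w.take t).prod :=
    ⟨fun t => Λ.S n 0 * (w.take t).prod, fun t => rfl⟩
  have hγ0 : γ 0 = Λ.S n 0 := by rw [hγ]; simp
  have hγL : γ w.length = Λ.S n M := by rw [hγ, List.take_length, hS]
  have hstep : ∀ t, t < w.length → (γ t)⁻¹ * γ (t + 1) ∈ Λ.A := by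
    intro t ht
    rw [hγ, hγ, List.prod_take_succ _ _ ht]
    have e : (Λ.S n 0 * (w.take t).prod)⁻¹ * (Λ.S n 0 * ((w.take t).prod * w[t])) = w[t] := by
      group
    rw [e]
    exact hw _ (List.getElem_mem ht)
  have hB10 : Λ.B1 n 0 = 1 := rfl
  have hx0 : (γ 0).1 = Λ.ρ1 := by
    rw [hγ0]
    show Λ.B1 n 0 * Λ.ρ1 = Λ.ρ1
    rw [hB10, one_mul]
  have hxL : (γ w.length).1 = Λ.B1 n M * Λ.ρ1 := by rw [hγL]; rfl
  have hstep1 : ∀ s, 0 ≤ s → s < w.length →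
      nm (((fun t => (γ t).1) s)⁻¹ * (fun t => (γ t).1) (s + 1)) ≤ Λ.R := by
    intro s _ hs
    exact (Λ.hR _ (hstep s hs)).1
  have hxnm : 1 ≤ nm Λ.x := by
    rcases Nat.eq_zero_or_pos (nm Λ.x) with h | h
    · exact absurd (nm_eq_zero.1 h) Λ.hx.1
    · exact h
  have hgrow : ∀ i, nm (Λ.B1 n i) + N ≤ nm (Λ.B1 n (i + 1)) := by
    intro i
    rw [Λ.b1_nm_succ hn i]
    have h1 : N ≤ Λ.p * n i * nm Λ.x := by
      calc N ≤ n i := hn0 i
        _ = 1 * n i * 1 := by ring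
        _ ≤ Λ.p * n i * nm Λ.x := Nat.mul_le_mul (Nat.mul_le_mul_right _ Λ.hp) hxnm
    omega
  have key : ∀ j, 1 ≤ j → j < M → ∃ T, 0 < T ∧ T ≤ w.length ∧
      (∀ v, T ≤ v → v ≤ w.length → Pre (Λ.B1 n j) (γ v).1) ∧
      ¬ Pre (Λ.B1 n j) (γ (T - 1)).1 ∧ nm ((Λ.B1 n j)⁻¹ * (γ T).1) ≤ Λ.R := by
    intro j hj1 hjM
    have h1 : ¬ Pre (Λ.B1 n j) ((fun t => (γ t).1) 0) := by
      intro hp
      have h2 := pre_nm_le hp
      have h3 : nm ((fun t => (γ t).1) 0) = nm Λ.ρ1 := by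
        show nm (γ 0).1 = _
        rw [hx0]
      have h4 := hgrow 0
      have h5 := Λ.b1_nm_mono hn hj1
      rw [h3] at h2
      rw [zero_add] at h4
      omega
    have h2 : Pre (Λ.B1 n j) ((fun t => (γ t).1) w.length) := by
      show Pre (Λ.B1 n j) (γ w.length).1
      rw [hxL]
      have hpre := Λ.b1_pre hn hjM.le
      apply pre_stable hpre
      rw [pre_dist hpre]
      have h4 := hgrow j
      have h5 := Λ.b1_nm_mono hn (Nat.succ_le_of_lt hjM)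
      rw [Nat.succ_eq_add_one] at h5
      omega
    exact last_exit hstep1 (Nat.zero_le _) h1 h2
  choose! T0 hT0 using key
  obtain ⟨T, hT⟩ : ∃ T : ℕ → ℕ, ∀ j, T j = if j = 0 then 0 else if j < M then T0 j else w.length :=
    ⟨fun j => if j = 0 then 0 else if j < M then T0 j else w.length, fun j => rfl⟩
  have hTz : T 0 = 0 := by rw [hT]; simp
  have hTM : T M = w.length := by
    rw [hT, if_neg (by omega), if_neg (by omega)]
  have hTj : ∀ j, 1 ≤ j → j < M → T j = T0 j := by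
    intro j h1 h2
    rw [hT, if_neg (by omega), if_pos h2]
  have hTle : ∀ j, j ≤ M → T j ≤ w.length := by
    intro j hj
    rcases Nat.eq_zero_or_pos j with rfl | h
    · rw [hTz]
      exact Nat.zero_le _
    · rcases lt_or_eq_of_le hj with h2 | rfl
      · rw [hTj j h h2]
        exact (hT0 j h h2).2.1
      · rw [hTM]
  have hmono : ∀ j, j < M → T j ≤ T (j + 1) := by
    intro j hj
    rcases Nat.eq_zero_or_pos j with rfl | h
    · rw [hTz]
      exact Nat.zero_le _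
    · rcases lt_or_eq_of_le (Nat.succ_le_of_lt hj) with h2 | h2
      · rw [Nat.succ_eq_add_one] at h2
        obtain ⟨a1, a2, a3, a4, a5⟩ := hT0 j h hj
        obtain ⟨b1, b2, b3, b4, b5⟩ := hT0 (j + 1) (by omega) h2
        rw [hTj j h hj, hTj (j + 1) (by omega) h2]
        by_contra hc
        push Not at hc
        apply a4
        exact pre_trans (Λ.b1_pre hn (Nat.le_succ j)) (b3 (T0 j - 1) (by omega) (by omega))
      · rw [Nat.succ_eq_add_one] at h2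
        rw [h2, hTM]
        exact hTle j hj.le
  have hR1 : nm Λ.ρ1 ≤ Λ.R1 := by unfold Lane.R1; omega
  have hR2 : nm Λ.ρ2 ≤ Λ.R1 := by unfold Lane.R1; omega
  have hRR : Λ.R ≤ Λ.R1 := by unfold Lane.R1; omega
  have hnear : ∀ j, 1 ≤ j → j < M → nm ((Λ.B1 n j)⁻¹ * (γ (T j)).1) ≤ Λ.R := by
    intro j h1 h2
    rw [hTj j h1 h2]
    exact (hT0 j h1 h2).2.2.2.2
  have htwo : (2 : ℕ) • Λ.β = 0 := by
    funext i
    have h2 : ∀ z : ZMod 2, (2 : ℕ) • z = 0 := by decide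
    exact h2 (Λ.β i)
  refine ⟨⟨n, hn, M, w.length, γ, hstep, T, hTz, hTM, hmono, ?_, ?_, ?_, ?_, ?_⟩, rfl, rfl, rfl,
    fun t _ => hγ t, hnear⟩
  · intro j hj
    rcases Nat.eq_zero_or_pos j with rfl | h
    · rw [hTz, hx0, hB10, inv_one, one_mul]
      exact hR1
    · rcases lt_or_eq_of_le hj with h2 | rfl
      · exact (hnear j h h2).trans hRR
      · rw [hTM, hxL, inv_mul_cancel_left]
        exact hR1
  · intro j hj t h1 h2
    rcases Nat.eq_zero_or_pos j with rfl | h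
    · rw [hB10]
      exact pre_one _
    · rw [hTj j h hj] at h1
      exact (hT0 j h hj).2.2.1 t h1 (h2.trans (hTle (j + 1) hj))
  · intro t _
    have hg : (w.take t).prod ∈ GG := prod_mem_GG Λ (fun a ha => hw a (List.mem_of_mem_take ha))
    rw [mem_GG] at hg
    rw [hγ]
    show par (Λ.B1 n 0 * Λ.ρ1 * (w.take t).prod.1) - par (Λ.B2 n (0 + 2) * Λ.ρ2 * (w.take t).prod.2)
      = _
    rw [par_mul, par_mul, par_mul, par_mul, hB10, par_one, Λ.par_B2, hg, htwo]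
    abel
  · show pos (Λ.B2 n (M + 2)) (γ 0).2 ≤ nm (Λ.B2 n 2) + Λ.R1
    have e : (γ 0).2 = Λ.B2 n 2 * Λ.ρ2 := by rw [hγ0]; rfl
    rw [e]
    exact (pos_le_right _ _).trans ((nm_mul_le _ _).trans (by omega))
  · show nm (Λ.B2 n (M + 2)) ≤ pos (Λ.B2 n (M + 2)) (γ w.length).2 + Λ.R1
    have e : (γ w.length).2 = Λ.B2 n (M + 2) * Λ.ρ2 := by rw [hγL]; rfl
    rw [e]
    have h1 := pos_lip (Λ.B2 n (M + 2)) (Λ.B2 n (M + 2) * Λ.ρ2) (Λ.B2 n (M + 2))
    rw [pos_of_pre (pre_refl _)] at h1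
    have e2 : (Λ.B2 n (M + 2) * Λ.ρ2)⁻¹ * Λ.B2 n (M + 2) = Λ.ρ2⁻¹ := by group
    rw [e2, nm_inv] at h1
    omega

end Pool.Agent.FTP
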