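import Mathlib
import Pool.Agent.FTP.Defs
import Pool.Agent.FTP.TreeA
import Pool.Agent.FTP.Words
import Pool.Agent.FTP.Pump
import Pool.Agent.FTP.Lane
import Pool.Agent.FTP.LineGeo
import Pool.Agent.FTP.Rigid
import Pool.Agent.FTP.Gain
import Pool.Agent.FTP.Depth
import Pool.Agent.FTP.Times
import Pool.Agent.FTP.StepCost
import Pool.Agent.FTP.CorrZero
import Pool.Agent.FTP.GoodIdx

/-!
# FTP / CaseOne: the falsification property fails in case 1

Order of the constants. `e1` from `corr_zero`; `C2` from `gain`; `D = C2 (e1 + 2)`; `Fc` from `geo_excess`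
(for `D`); `C1` from `depth`; `thr = 8 (Fc + 1)`; `(nty, ty)` from `pump`; the number `m` of triples
(type, `r1`, `r2`) with `nm r1 ≤ R`, `nm r2 ≤ C1 (1 + D + thr)`, `r1, r2 : F` (finite, `norm_ball_finite`);
`M = 8 (m + 8)` as in `good_indices` (GoodIdx.lean); `E = M Fc`; `N0` the maximum of the constants of `gain`, `depth` (for `D, M, E`) and
`exists_trip`; `N ≥ N0`, `N ≥ 1`; `n = nn N D`.

Let `w` be a geodesic word with `S 0 w = S M` (`geo_excess`) and `tr` the trip of `exists_trip`. By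
`Trip.cnt_le_excess` (from `0` to `L`), `cnt off 0 L ≤ M Fc = E`.
Good indices (see GoodIdx.lean; `Σ_{j < M} k j = cnt off 0 L` by `cnt_add`): `j % 4 = 3`, `3 ≤ j`,
`j + 6 ≤ M`, and `k (j-2) + k (j-1) + k j + k (j+1) ≤ thr`. The colour of a good index is the triple
(type, `r1`, `r2`) below, the colour of the other indices is arbitrary.
For good `j` write `γ (T j) = (B1 j r1, B2 (j+2) r2)`: `nm r1 ≤ R` (`exists_trip`) and
`nm r2 ≤ C1 (1 + D + thr)` (`depth`). By pigeonhole there are good `j < j'` with the same `r1, r2` and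
the same type of `g_j = (w.take (T j)).prod`. Let `z = (w.take (T j')).drop (T j)`, so
`g_j' = g_j z.prod`, `γ (T j)⁻¹ γ (T j') = z.prod`. As `w` is geodesic, `wl g_j = T j`,
`wl g_j' = T j'` (prefixes of geodesic words are geodesic), so `wl (g_j z) = wl g_j + |z|`. By `pump`,
`wl (z.prod^k) = k |z|` for all `k`.
`j' = j + 4 q'`, `q' ≥ 1`, and `z.prod = (r1⁻¹ X^q' r1, r2⁻¹ Y^q' r2) = (r1⁻¹ X r1, r2⁻¹ Y r2)^q'` with `X, Y` as in
`corr_zero`, by `ln_period` and `nn_period` (GoodIdx.lean). Parities of `r1, r2`: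
`par (B1 j r1) - par (B2 (j+2) r2) = par ρ1 - par ρ2` (`parity`) and `par (B1 j) = j β = (j+2) β =
par (B2 (j+2))`. By `corr_zero`: `k |z| = wl (z.prod^k) ≤ C' + k q' L0` for all `k`, hence
`|z| ≤ q' L0`, and (`χ z.prod = q' χ (X, Y)`: additive, conjugation invariant; `m0 ≥ 0`)
`m0 |z| - χ z.prod ≤ q' (m0 L0 - χ (X, Y)) ≤ q' e1`.
On the other hand (`Trip.cnt_le_excess` from `T j` to `T j'`)
`m0 |z| - χ z.prod ≥ cnt off (T j) (T j') = Σ_{j ≤ l < j'} k l ≥ Σ_{l = j+1, j+5, ..., < j'} (k (l-1) + k l +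
k (l+1))`, `q'` terms with `l % 4 = 0`, each with `D ≤ C2 (1 + ...)` by `gain`, i.e. each at least
`D / C2 - 1 = e1 + 1` (`C2 ≥ 1`; if `C2 = 0` then `D = 0`; replace `C2` by `C2 + 1`). So
`q' (e1 + 1) ≤ q' e1`, a contradiction.
-/

namespace Pool.Agent.FTP

private theorem sum_k {Λ : Lane} (tr : Trip Λ) (i : ℕ) (hi : i ≤ tr.len) :
    ∑ j ∈ Finset.range i, tr.k j = cnt tr.off 0 (tr.T i) := by
  induction i with
  | zero => rw [tr.T0]; simp [cnt_self]
  | succ i ih =>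
    rw [Finset.sum_range_succ, ih (by omega)]
    exact cnt_add tr.off (Nat.zero_le _) (tr.mono i (by omega))

private theorem blocks_ge {Λ : Lane} (tr : Trip Λ) (e j q : ℕ) (hq : j + 4 * q ≤ tr.len)
    (h : ∀ i, i < q → e ≤ tr.k (j + 4 * i) + tr.k (j + 4 * i + 1) + tr.k (j + 4 * i + 2)) :
    q * e ≤ cnt tr.off (tr.T j) (tr.T (j + 4 * q)) := by
  induction q with
  | zero => simp
  | succ q ih =>
    have h0 := ih (by omega) (fun i hi => h i (by omega))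
    have h1 := h q (by omega)
    have m0 : tr.T j ≤ tr.T (j + 4 * q) := tr.T_mono (by omega) (by omega)
    have m1 : tr.T (j + 4 * q) ≤ tr.T (j + 4 * q + 1) := tr.mono _ (by omega)
    have m2 : tr.T (j + 4 * q + 1) ≤ tr.T (j + 4 * q + 2) := tr.mono _ (by omega)
    have m3 : tr.T (j + 4 * q + 2) ≤ tr.T (j + 4 * q + 3) := tr.mono _ (by omega)
    have m4 : tr.T (j + 4 * q + 3) ≤ tr.T (j + 4 * q + 4) := tr.mono _ (by omega)
    have c1 := cnt_add tr.off m1 m2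
    have c2 := cnt_add tr.off (m1.trans m2) m3
    have c3 := cnt_add tr.off ((m1.trans m2).trans m3) m4
    have c4 := cnt_add tr.off m0 (((m1.trans m2).trans m3).trans m4)
    have k0 : tr.k (j + 4 * q) = cnt tr.off (tr.T (j + 4 * q)) (tr.T (j + 4 * q + 1)) := rfl
    have k1 : tr.k (j + 4 * q + 1) = cnt tr.off (tr.T (j + 4 * q + 1)) (tr.T (j + 4 * q + 2)) := rfl
    have k2 : tr.k (j + 4 * q + 2) = cnt tr.off (tr.T (j + 4 * q + 2)) (tr.T (j + 4 * q + 3)) := rfl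
    have e4 : j + 4 * (q + 1) = j + 4 * q + 4 := by ring
    rw [e4]
    have e5 : (q + 1) * e = q * e + e := by ring
    rw [e5]
    omega

private theorem wl_take_geo {Γ : Type*} [Group Γ] {A : Set Γ} (hsym : ∀ a ∈ A, a⁻¹ ∈ A)
    {w : List Γ} (hw : IsWord A w) (hg : Geo A w) {t : ℕ} (ht : t ≤ w.length) :
    wl A (w.take t).prod = t := by
  have h1 := wl_le (isWord_take hw t)
  have h2 := wl_le (isWord_drop hw t)
  have h3 := wl_mul_le hsym (word_mem (isWord_take hw t)) (word_mem (isWord_drop hw t))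
  rw [← List.prod_append, List.take_append_drop] at h3
  rw [List.length_take] at h1
  rw [List.length_drop] at h2
  unfold Geo at hg
  have h4 := min_eq_left ht
  omega

private theorem chi_pow (Λ : Lane) (g : F × F) (k : ℕ) : Λ.χ (g ^ k) = k * Λ.χ g := by
  induction k with
  | zero => simp [chi_one]
  | succ k ih => rw [pow_succ, Λ.hχ, ih]; push_cast; ring

private theorem chi_inv (Λ : Lane) (g : F × F) : Λ.χ g⁻¹ = - Λ.χ g := by
  have h := Λ.hχ g⁻¹ g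
  rw [inv_mul_cancel, chi_one] at h
  linarith

private theorem chi_conj (Λ : Lane) (c g : F × F) : Λ.χ (c⁻¹ * g * c) = Λ.χ g := by
  rw [Λ.hχ, Λ.hχ, chi_inv]; ring

/-- retraction of the free group onto a ball -/
private def ballProj (r : ℕ) (z : F) : {x : F // nm x ≤ r} :=
  if h : nm z ≤ r then ⟨z, h⟩ else ⟨1, by rw [nm_one]; exact Nat.zero_le _⟩

private theorem ballProj_inj {r : ℕ} {z z' : F} (h : nm z ≤ r) (h' : nm z' ≤ r)
    (he : ballProj r z = ballProj r z') : z = z' := by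
  unfold ballProj at he
  rw [dif_pos h, dif_pos h'] at he
  exact congrArg Subtype.val he

private theorem conj_pow_inv (r X : F) (q : ℕ) : (r⁻¹ * X * r) ^ q = r⁻¹ * X ^ q * r := by
  induction q with
  | zero => simp
  | succ q ih => rw [pow_succ, ih, pow_succ]; group

theorem case_one (Λ : Lane) (K : ℕ) (hFFT : FFT Λ.A K) : False := by
  classical
  obtain ⟨e1, he1⟩ := corr_zero Λ
  obtain ⟨C2, hC2⟩ := gain Λ
  obtain ⟨D, hD⟩ : ∃ D : ℕ, D = (C2 + 1) * (e1 + 2) := ⟨_, rfl⟩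
  obtain ⟨Fc, hFc⟩ := geo_excess Λ D
  obtain ⟨C1, hC1⟩ := depth Λ
  obtain ⟨nty, ty, hty⟩ := pump Λ.A Λ.hAfin Λ.hAsym K hFFT
  obtain ⟨Nt, hNt⟩ := exists_trip Λ
  obtain ⟨rb, hrb⟩ : ∃ rb : ℕ, rb = C1 * (1 + D + 8 * (Fc + 1)) := ⟨_, rfl⟩
  have f1 : Fintype {x : F // nm x ≤ Λ.R} := (norm_ball_finite Λ.R).fintype
  have f2 : Fintype {x : F // nm x ≤ rb} := (norm_ball_finite rb).fintype
  obtain ⟨m, ⟨e⟩⟩ : ∃ m : ℕ, Nonempty
      ((Fin nty × {x : F // nm x ≤ Λ.R} × {x : F // nm x ≤ rb}) ≃ Fin m) :=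
    ⟨_, ⟨Fintype.equivFin _⟩⟩
  obtain ⟨M, hM⟩ : ∃ M : ℕ, M = 8 * (m + 8) := ⟨_, rfl⟩
  obtain ⟨N1, hN1⟩ := hC2 D M (M * Fc)
  obtain ⟨N2, hN2⟩ := hC1 D M (M * Fc)
  obtain ⟨N, hN⟩ : ∃ N : ℕ, N = N1 + N2 + Nt + 1 := ⟨_, rfl⟩
  have hNone : 1 ≤ N := by omega
  obtain ⟨⟨w, hw, hwS, hwg⟩, hex⟩ := hFc N M hNone
  have hexw := hex w hw hwS hwg
  obtain ⟨tr, htn, htlen, htL, htγ, htnear⟩ := hNt N D M (by omega) (by omega) w hw hwS
  -- total number of letters that are not tight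
  have hγ0 : tr.γ 0 = Λ.S (nn N D) 0 := by
    rw [htγ 0 (Nat.zero_le _)]; simp
  have hcnt : cnt tr.off 0 tr.L ≤ M * Fc := by
    have h := tr.cnt_le_excess (Nat.zero_le tr.L) (le_refl _)
    have h2 : (tr.γ 0)⁻¹ * tr.γ tr.L = w.prod := by
      rw [hγ0, htL, htγ w.length (le_refl _), List.take_length, inv_mul_cancel_left]
    rw [h2, htL] at h
    rw [htL]
    have h3 : ((cnt tr.off 0 w.length : ℕ) : ℤ) ≤ ((M * Fc : ℕ) : ℤ) := by
      push_cast
      push_cast at h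
      linarith
    exact_mod_cast h3
  have hsum : ∑ j ∈ Finset.range (8 * (m + 8)), tr.k j ≤ 8 * (m + 8) * Fc := by
    rw [← hM, sum_k tr M (le_of_eq htlen.symm), ← htlen, tr.TL, htlen]
    exact hcnt
  -- the colouring
  obtain ⟨j, j', h3j, hjj', hj'M, hj4, hj'4, hkj, hkj', hcol⟩ := good_indices Fc m tr.k hsum
    (fun j => e (ty (w.take (tr.T j)).prod,
      ballProj Λ.R ((Λ.B1 tr.n j)⁻¹ * (tr.γ (tr.T j)).1),
      ballProj rb ((Λ.B2 tr.n (j + 2))⁻¹ * (tr.γ (tr.T j)).2)))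
  rw [← hM] at hj'M
  have hcol' := e.injective hcol
  rw [Prod.mk.injEq, Prod.mk.injEq] at hcol'
  obtain ⟨hc1, hc2, hc3⟩ := hcol'
  have near2 : ∀ i, 3 ≤ i → i + 6 ≤ M → tr.k (i - 2) + tr.k (i - 1) + tr.k i + tr.k (i + 1) ≤
      8 * (Fc + 1) → nm ((Λ.B2 tr.n (i + 2))⁻¹ * (tr.γ (tr.T i)).2) ≤ rb := by
    intro i hi hiM hik
    refine (hN2 N (by omega) tr htlen htn hcnt i (by omega) (by omega)).trans ?_
    rw [hrb]
    exact Nat.mul_le_mul_left _ (by omega)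
  have near1 : ∀ i, 3 ≤ i → i + 6 ≤ M → nm ((Λ.B1 tr.n i)⁻¹ * (tr.γ (tr.T i)).1) ≤ Λ.R := by
    intro i hi hiM
    rw [htn]
    exact htnear i (by omega) (by omega)
  have hr1 := ballProj_inj (near1 j h3j (by omega)) (near1 j' (by omega) hj'M) hc2
  have hr2 := ballProj_inj (near2 j h3j (by omega) hkj) (near2 j' (by omega) hj'M hkj') hc3
  obtain ⟨r1, hr1d⟩ : ∃ r1 : F, r1 = (Λ.B1 tr.n j)⁻¹ * (tr.γ (tr.T j)).1 := ⟨_, rfl⟩
  obtain ⟨r2, hr2d⟩ : ∃ r2 : F, r2 = (Λ.B2 tr.n (j + 2))⁻¹ * (tr.γ (tr.T j)).2 := ⟨_, rfl⟩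
  rw [← hr1d] at hr1
  rw [← hr2d] at hr2
  have hg1 : (tr.γ (tr.T j)).1 = Λ.B1 tr.n j * r1 := by rw [hr1d]; group
  have hg2 : (tr.γ (tr.T j)).2 = Λ.B2 tr.n (j + 2) * r2 := by rw [hr2d]; group
  have hg1' : (tr.γ (tr.T j')).1 = Λ.B1 tr.n j' * r1 := by rw [hr1]; group
  have hg2' : (tr.γ (tr.T j')).2 = Λ.B2 tr.n (j' + 2) * r2 := by rw [hr2]; group
  -- the word between the two times
  have hTT : tr.T j ≤ tr.T j' := tr.T_mono (by omega) (by omega)
  have hTL' : tr.T j' ≤ w.length := by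
    rw [← htL]
    exact tr.T_le_L (by omega)
  have hTL : tr.T j ≤ w.length := hTT.trans hTL'
  obtain ⟨z, hz⟩ : ∃ z : List (F × F), z = (w.take (tr.T j')).drop (tr.T j) := ⟨_, rfl⟩
  have hzw : IsWord Λ.A z := by
    rw [hz]; exact isWord_drop (isWord_take hw _) _
  have hzlen : z.length = tr.T j' - tr.T j := by
    rw [hz, List.length_drop, List.length_take, min_eq_left hTL']
  have hsplit : (w.take (tr.T j)).prod * z.prod = (w.take (tr.T j')).prod := by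
    have h : w.take (tr.T j) = (w.take (tr.T j')).take (tr.T j) := by
      rw [List.take_take, min_eq_left hTT]
    rw [h, hz, ← List.prod_append, List.take_append_drop]
  have hzprod : (tr.γ (tr.T j))⁻¹ * tr.γ (tr.T j') = z.prod := by
    rw [htγ _ hTL, htγ _ hTL', ← hsplit]
    group
  have hpump := hty (w.take (tr.T j)).prod z (word_mem (isWord_take hw _)) hzw
    (by rw [hsplit]; exact hc1)
    (by rw [hsplit, wl_take_geo Λ.hAsym hw hwg hTL', wl_take_geo Λ.hAsym hw hwg hTL, hzlen]; omega)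
  -- the number of periods
  obtain ⟨q, hq⟩ : ∃ q : ℕ, j' = j + 4 * q := ⟨(j' - j) / 4, by omega⟩
  have hqpos : 1 ≤ q := by omega
  obtain ⟨L0, hL0, hcorr⟩ := he1 N D j hNone hj4
  rw [← htn] at hL0 hcorr
  obtain ⟨X, hX⟩ : ∃ X : F, X = (Λ.B1 tr.n j)⁻¹ * Λ.B1 tr.n (j + 4) := ⟨_, rfl⟩
  obtain ⟨Y, hY⟩ : ∃ Y : F, Y = (Λ.B2 tr.n (j + 2))⁻¹ * Λ.B2 tr.n (j + 6) := ⟨_, rfl⟩
  rw [← hX, ← hY] at hL0 hcorr
  have hpX : (Λ.B1 tr.n j)⁻¹ * Λ.B1 tr.n j' = X ^ q := by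
    rw [hX, hq]
    unfold Lane.B1
    exact ln_period (fun l => by simp only [htn, nn_period]) j q
  have hpY : (Λ.B2 tr.n (j + 2))⁻¹ * Λ.B2 tr.n (j' + 2) = Y ^ q := by
    have e6 : j' + 2 = (j + 2) + 4 * q := by omega
    rw [hY, e6]
    unfold Lane.B2
    exact ln_period (fun l => by simp only [htn, nn_period]) (j + 2) q
  have hzX : z.prod = (r1⁻¹ * X * r1, r2⁻¹ * Y * r2) ^ q := by
    rw [← hzprod]
    refine Prod.ext ?_ ?_
    · rw [Prod.fst_mul, Prod.fst_inv, hg1, hg1', Prod.pow_fst, conj_pow_inv, ← hpX]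
      group
    · rw [Prod.snd_mul, Prod.snd_inv, hg2, hg2', Prod.pow_snd, conj_pow_inv, ← hpY]
      group
  have hpar : par r1 - par r2 = par Λ.ρ1 - par Λ.ρ2 := by
    have h := tr.parity (t := tr.T j) (by rw [htL]; exact hTL)
    rw [hg1, hg2, par_mul, par_mul, Λ.par_B1, Λ.par_B2] at h
    have h2 : (j + 2) • Λ.β = j • Λ.β := by
      rw [add_smul]
      have h3 : (2 : ℕ) • Λ.β = 0 := by
        funext i
        simp only [Pi.smul_apply, Pi.zero_apply, nsmul_eq_mul]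
        have : ((2 : ℕ) : ZMod 2) = 0 := by decide
        rw [this, zero_mul]
      rw [h3, add_zero]
    rw [h2] at h
    rw [← h]
    abel
  obtain ⟨C', hC'⟩ := hcorr r1 r2 hpar
  have hzle : z.length ≤ q * L0 := by
    by_contra hcon
    push Not at hcon
    have h1 := hpump (C' + 1)
    have h2 := hC' (q * (C' + 1))
    rw [pow_mul, ← hzX, h1] at h2
    have h3 : (C' + 1) * (q * L0 + 1) ≤ (C' + 1) * z.length := Nat.mul_le_mul_left _ hcon
    have h4 : (C' + 1) * (q * L0 + 1) = q * (C' + 1) * L0 + (C' + 1) := by ring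
    omega
  have hchi : Λ.χ z.prod = q * Λ.χ (X, Y) := by
    rw [hzX, chi_pow]
    congr 1
    have h := chi_conj Λ (r1, r2) (X, Y)
    rw [← h]
    rfl
  have hup := tr.cnt_le_excess hTT (by rw [htL]; exact hTL')
  rw [hzprod, hchi] at hup
  have hlo : q * (e1 + 1) ≤ cnt tr.off (tr.T j) (tr.T j') := by
    rw [hq]
    refine blocks_ge tr (e1 + 1) j q (by omega) ?_
    intro i hi
    have h := hN1 N (by omega) tr htlen htn hcnt (j + 4 * i + 1) (by omega) (by omega) (by omega)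
    have e7 : j + 4 * i + 1 - 1 = j + 4 * i := by omega
    rw [e7] at h
    by_contra hcon
    push Not at hcon
    have h2 : 1 + tr.k (j + 4 * i) + tr.k (j + 4 * i + 1) + tr.k (j + 4 * i + 2) ≤ e1 + 1 := by
      omega
    have h3 : C2 * (1 + tr.k (j + 4 * i) + tr.k (j + 4 * i + 1) + tr.k (j + 4 * i + 1 + 1)) ≤
        C2 * (e1 + 1) := Nat.mul_le_mul_left _ h2
    have h4 : (C2 + 1) * (e1 + 2) = C2 * (e1 + 1) + C2 + e1 + 2 := by ring
    omega
  have hm0 := m0_nonneg Λ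
  have hzT : ((tr.T j' : ℤ) - tr.T j) = z.length := by
    rw [hzlen]
    push_cast [Nat.cast_sub hTT]
    ring
  rw [hzT] at hup
  have h5 : Λ.m0 * (z.length : ℤ) ≤ Λ.m0 * ((q : ℤ) * L0) := by
    refine mul_le_mul_of_nonneg_left ?_ hm0
    exact_mod_cast hzle
  have h6 : ((q * (e1 + 1) : ℕ) : ℤ) ≤ (cnt tr.off (tr.T j) (tr.T j') : ℤ) := by
    exact_mod_cast hlo
  push_cast at h6
  have h7 : (q : ℤ) * (Λ.m0 * L0 - Λ.χ (X, Y)) ≤ (q : ℤ) * e1 :=
    mul_le_mul_of_nonneg_left hL0 (by positivity)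
  have h8 : (1 : ℤ) ≤ q := by exact_mod_cast hqpos
  have h9 : Λ.m0 * ((q : ℤ) * L0) - (q : ℤ) * Λ.χ (X, Y) = (q : ℤ) * (Λ.m0 * L0 - Λ.χ (X, Y)) := by
    ring
  have h10 : (q : ℤ) * ((e1 : ℤ) + 1) = (q : ℤ) * e1 + q := by ring
  clear * - hup h5 h6 h7 h8 h9 h10
  linarith

end Pool.Agent.FTP
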