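import Mathlib
import Pool.Agent.FTP.Defs
import Pool.Agent.FTP.Words

/-!
# FTP / Iter: iterating the falsification property

Let `FFT A K`, `v0` a word which is at most `n` letters longer than a geodesic word. Then some word
with the same product which `K (n+1)`-fellow travels with `v0` is geodesic. (Stated as: it is
impossible that all of them are not geodesic.)

Proof. By induction on `i ≤ n + 1` construct a word `w_i` in `A` with the same product,
`|w_i| + i ≤ |v0|` and `FellowTravel A (K i) v0 w_i`: `w_0 = v0` (`wl A 1 = 0`); `w_i` is not geodesic by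
assumption (for `i ≤ n`, monotonicity of `FellowTravel` in the constant), so `FFT` gives `w_{i+1}`,
and `fellowTravel_trans`. For `i = n + 1`: `wl A v0.prod ≤ |w_{n+1}| ≤ |v0| - n - 1 < wl A v0.prod`.
-/

namespace Pool.Agent.FTP

theorem iterate {Γ : Type*} [Group Γ] (A : Set Γ) (hsym : ∀ a ∈ A, a⁻¹ ∈ A) (K : ℕ)
    (hFFT : FFT A K) (v0 : List Γ) (hv0 : IsWord A v0) (n : ℕ)
    (hn : v0.length ≤ wl A v0.prod + n)
    (hng : ∀ w : List Γ, IsWord A w → w.prod = v0.prod → FellowTravel A (K * (n + 1)) v0 w →
      ¬ Geo A w) : False := by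
  have key : ∀ i : ℕ, i ≤ n + 1 → ∃ w : List Γ, IsWord A w ∧ w.prod = v0.prod ∧
      w.length + i ≤ v0.length ∧ FellowTravel A (K * i) v0 w := by
    intro i
    induction i with
    | zero =>
      intro _
      refine ⟨v0, hv0, rfl, le_rfl, fun t => ?_⟩
      rw [inv_mul_cancel, wl_one]
      exact Nat.zero_le _
    | succ i ih =>
      intro hi
      obtain ⟨w, h1, h2, h3, h4⟩ := ih (by omega)
      have h5 : ¬ Geo A w := hng w h1 h2 fun t =>
        (h4 t).trans (Nat.mul_le_mul_left K (by omega))
      obtain ⟨w', g1, g2, g3, g4⟩ := hFFT w h1 h5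
      refine ⟨w', g1, g2.trans h2, by omega, ?_⟩
      rw [Nat.mul_succ]
      exact fellowTravel_trans hsym hv0 h1 g1 h4 g4
  obtain ⟨w, h1, h2, h3, _⟩ := key (n + 1) le_rfl
  have h4 : wl A v0.prod ≤ w.length := by
    rw [← h2]
    exact wl_le h1
  omega

end Pool.Agent.FTP
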