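import Mathlib
import Pool.Agent.FTP.Defs

/-!
# FTP / Slide: the data of case 2

`A` finite, symmetric, generating `GG`; `χ` additive with maximum `m > 0` on `A`. A letter `z` is tight if
`χ z = m`. All tight letters have exponent vectors in line with `a` resp. `b`; a tight letter with
nontrivial first component has `τ1 ≥ 1` there, one with nontrivial second component has `τ2 ≥ 1`
there. Horizontal letters: tight letters `(s, 1)`; vertical letters: tight letters `(1, s)`.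
`x` is a product of first components of horizontal letters (word `lx`), cyclically reduced and a
killer for horizontal words; `y` likewise for vertical letters. `β` is the forbidden parity, `g` an
element of parity `β`.
-/

namespace Pool.Agent.FTP

/-- data of case 2 -/
structure Slide where
  A : Set (F × F)
  hAfin : A.Finite
  hAsym : ∀ z ∈ A, z⁻¹ ∈ A
  hAcl : Subgroup.closure A = GG
  χ : F × F → ℤ
  hχ : ∀ z w, χ (z * w) = χ z + χ w
  m : ℤ
  hm : 1 ≤ m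
  hχle : ∀ z ∈ A, χ z ≤ m
  a : Fin 3 → ℤ
  b : Fin 3 → ℤ
  htight : ∀ z ∈ A, χ z = m → InLine a (vec z.1) ∧ InLine b (vec z.2)
  c : ℕ
  τ1 : F → ℤ
  τ2 : F → ℤ
  hτ1 : ∀ x y, τ1 (x * y) = τ1 x + τ1 y
  hτ2 : ∀ x y, τ2 (x * y) = τ2 x + τ2 y
  hτ1le : ∀ x, |τ1 x| ≤ (c : ℤ) * nm x
  hτ2le : ∀ x, |τ2 x| ≤ (c : ℤ) * nm x
  hV : ∀ z ∈ A, χ z = m → z.1 = 1 ∨ 1 ≤ τ1 z.1
  hH : ∀ z ∈ A, χ z = m → z.2 = 1 ∨ 1 ≤ τ2 z.2
  x : F
  y : F
  hx : CR x
  hy : CR y
  lx : List F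
  ly : List F
  hlx : ∀ s ∈ lx, (s, (1 : F)) ∈ A ∧ χ (s, 1) = m
  hly : ∀ s ∈ ly, ((1 : F), s) ∈ A ∧ χ (1, s) = m
  hlxp : lx.prod = x
  hlyp : ly.prod = y
  hxa : InLine a (vec x)
  hyb : InLine b (vec y)
  killx : ∀ l : List F, (∀ s ∈ l, (s, (1 : F)) ∈ A ∧ χ (s, 1) = m) → ∀ ρ ρ' : F,
    l.prod = ρ * x * ρ' → nm l.prod = nm ρ + nm x + nm ρ' → InLine a (vec ρ)
  killy : ∀ l : List F, (∀ s ∈ l, ((1 : F), s) ∈ A ∧ χ (1, s) = m) → ∀ ρ ρ' : F,
    l.prod = ρ * y * ρ' → nm l.prod = nm ρ + nm y + nm ρ' → InLine b (vec ρ)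
  β : Fin 3 → ZMod 2
  hβ : ∀ v w, InLine a v → InLine b w → modTwo v + modTwo w ≠ β
  g : F
  hg : par g = β

namespace Slide

variable (Λ : Slide)

/-- the vertex number `j` of the second line -/
def h (j : ℕ) : F := Λ.g⁻¹ * Λ.y⁻¹ ^ j

/-- excess of the shortest word with product `z` -/
noncomputable def cost (z : F × F) : ℤ := Λ.m * wl Λ.A z - Λ.χ z

/-- `z` is near the position `j` (first component near `1`, second near `h j`) -/
def Near (r j : ℕ) (z : F × F) : Prop := z ∈ GG ∧ nm z.1 ≤ r ∧ nm ((Λ.h j)⁻¹ * z.2) ≤ r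

end Slide

end Pool.Agent.FTP
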