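import Mathlib
import Pool.Agent.FTP.Defs
import Pool.Agent.FTP.TreeA
import Pool.Agent.FTP.Words
import Pool.Agent.FTP.Slide

/-!
# FTP / SlideInf: the limit cost

`cost z ≥ 0` for `z ∈ GG` (`χ z ≤ m * wl z`: take a geodesic word). Let `Cset` be the set of all
natural numbers `c` such that for some `r`, for all `J` there are `j ≥ J` and `z` with `Near r j z` and
`cost z⁻¹ ≤ c`. It is not empty: for `z = (g, h j)` (in `GG` since `par y = 0`: `(1, y)` is a product of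
elements of `A`, so it is in `GG`), `z⁻¹ = (g⁻¹, y^j g) = (1, y)^j * (g⁻¹, g)`, and `(1, y)` is the
product of a word of tight letters, so `cost z⁻¹ ≤ m wl (g⁻¹, g) - χ (g⁻¹, g)` for all `j`, and
`Near (nm g) j z`. Let `cinf` be the minimum of `Cset` and `rs` a corresponding `r`.
Second claim: let `r` be given. If there were no `J` as claimed, then for all `J` there are `j ≥ J`, `z` with
`Near r j z` and `cost z⁻¹ < cinf`, i.e. `≤ cinf - 1`, and `cinf ≥ 1` because costs are `≥ 0`; so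
`cinf - 1 ∈ Cset`, a contradiction.
First claim: for `J` take `J' ≥ J` such that all costs for `r = rs`, `j ≥ J'` are `≥ cinf` (second
claim), and then `j ≥ J'`, `z` with `cost z⁻¹ ≤ cinf` by the choice of `rs`.
-/

namespace Pool.Agent.FTP

theorem Slide.inf_chi_one (Λ : Slide) : Λ.χ 1 = 0 := by
  have h := Λ.hχ 1 1
  rw [mul_one] at h
  linarith

/-- excess of a word -/
theorem Slide.excess_nonneg (Λ : Slide) {l : List (F × F)} (h : IsWord Λ.A l) :
    Λ.χ l.prod ≤ Λ.m * l.length := by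
  induction l with
  | nil => simp [Λ.inf_chi_one]
  | cons a l ih =>
    have h1 : IsWord Λ.A l := fun b hb => h b (List.mem_cons_of_mem a hb)
    have h2 := Λ.hχle a (h a List.mem_cons_self)
    have h3 := ih h1
    rw [List.prod_cons, Λ.hχ, List.length_cons]
    push_cast
    linarith

theorem Slide.inf_geo_word (Λ : Slide) {z : F × F} (hz : z ∈ GG) :
    ∃ l : List (F × F), IsWord Λ.A l ∧ l.prod = z ∧ l.length = wl Λ.A z := by
  apply exists_geo
  apply exists_word Λ.hAsym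
  rw [Λ.hAcl]
  exact hz

theorem Slide.cost_nonneg (Λ : Slide) {z : F × F} (hz : z ∈ GG) : 0 ≤ Λ.cost z := by
  obtain ⟨l, hl, hp, hlen⟩ := Λ.inf_geo_word hz
  have h := Λ.excess_nonneg hl
  rw [hp, hlen] at h
  unfold Slide.cost
  linarith

theorem Slide.cost_le_word (Λ : Slide) {l : List (F × F)} (h : IsWord Λ.A l) :
    Λ.cost l.prod ≤ Λ.m * l.length - Λ.χ l.prod := by
  have h1 := wl_le h
  have h2 : (wl Λ.A l.prod : ℤ) ≤ (l.length : ℤ) := by exact_mod_cast h1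
  have h3 : Λ.m * (wl Λ.A l.prod : ℤ) ≤ Λ.m * (l.length : ℤ) :=
    mul_le_mul_of_nonneg_left h2 (by linarith [Λ.hm])
  unfold Slide.cost
  linarith

theorem inf_par_list_prod {l : List F} (h : ∀ s ∈ l, par s = 0) : par l.prod = 0 := by
  induction l with
  | nil => simp [par_one]
  | cons a l ih =>
    rw [List.prod_cons, par_mul, h a List.mem_cons_self,
      ih (fun s hs => h s (List.mem_cons_of_mem a hs)), add_zero]

theorem Slide.inf_mem_GG (Λ : Slide) {z : F × F} (h : z ∈ Λ.A) : z ∈ GG := by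
  rw [← Λ.hAcl]
  exact Subgroup.subset_closure h

theorem Slide.par_x (Λ : Slide) : par Λ.x = 0 := by
  rw [← Λ.hlxp]
  apply inf_par_list_prod
  intro s hs
  have h := Λ.inf_mem_GG (Λ.hlx s hs).1
  rw [mem_GG] at h
  simpa [par_one] using h

theorem Slide.par_y (Λ : Slide) : par Λ.y = 0 := by
  rw [← Λ.hlyp]
  apply inf_par_list_prod
  intro s hs
  have h := Λ.inf_mem_GG (Λ.hly s hs).1
  rw [mem_GG] at h
  have h' : par (1 : F) = par s := h
  rw [← h', par_one]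

theorem inf_neg_par (x : F) : - par x = par x := by
  funext i
  have h : ∀ a : ZMod 2, -a = a := by decide
  exact h _

theorem Slide.inf_g_mem (Λ : Slide) : ((Λ.g⁻¹, Λ.g) : F × F) ∈ GG := by
  rw [mem_GG]
  change par Λ.g⁻¹ = par Λ.g
  rw [par_inv, inf_neg_par]

theorem Slide.inf_h_mem (Λ : Slide) (j : ℕ) : ((Λ.g, Λ.h j) : F × F) ∈ GG := by
  rw [mem_GG]
  change par Λ.g = par (Λ.g⁻¹ * Λ.y⁻¹ ^ j)
  rw [par_mul, par_pow, par_inv, par_inv, Λ.par_y, inf_neg_par]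
  simp

theorem Slide.inf_y_word (Λ : Slide) : ∃ l : List (F × F), IsWord Λ.A l ∧ l.prod = (1, Λ.y) ∧
    Λ.χ l.prod = Λ.m * l.length := by
  have key : ∀ l : List F, (∀ s ∈ l, ((1 : F), s) ∈ Λ.A ∧ Λ.χ (1, s) = Λ.m) →
      IsWord Λ.A (l.map (fun s => ((1 : F), s))) ∧
      (l.map (fun s => ((1 : F), s))).prod = (1, l.prod) ∧
      Λ.χ (l.map (fun s => ((1 : F), s))).prod = Λ.m * (l.map (fun s => ((1 : F), s))).length := by
    intro l
    induction l with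
    | nil =>
      intro _
      refine ⟨isWord_nil, rfl, ?_⟩
      simp [Λ.inf_chi_one]
    | cons a l ih =>
      intro h
      obtain ⟨h1, h2, h3⟩ := ih (fun s hs => h s (List.mem_cons_of_mem a hs))
      have ha := h a List.mem_cons_self
      refine ⟨?_, ?_, ?_⟩
      · intro z hz
        rw [List.map_cons, List.mem_cons] at hz
        rcases hz with rfl | hz
        · exact ha.1
        · exact h1 z hz
      · rw [List.map_cons, List.prod_cons, h2, List.prod_cons]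
        simp
      · rw [List.map_cons, List.prod_cons, Λ.hχ, h3, ha.2, List.length_cons]
        push_cast
        ring
  obtain ⟨h1, h2, h3⟩ := key Λ.ly Λ.hly
  refine ⟨_, h1, ?_, h3⟩
  rw [h2, Λ.hlyp]

theorem Slide.inf_cost_h (Λ : Slide) (j : ℕ) :
    Λ.cost ((Λ.g, Λ.h j) : F × F)⁻¹ ≤ Λ.cost (Λ.g⁻¹, Λ.g) := by
  obtain ⟨l0, hl0, hp0, hc0⟩ := Λ.inf_y_word
  have key : ∀ j : ℕ, ∃ l : List (F × F), IsWord Λ.A l ∧
      l.prod = (Λ.g⁻¹, Λ.y ^ j * Λ.g) ∧ Λ.m * l.length - Λ.χ l.prod = Λ.cost (Λ.g⁻¹, Λ.g) := by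
    intro j
    induction j with
    | zero =>
      obtain ⟨l, hl, hp, hlen⟩ := Λ.inf_geo_word Λ.inf_g_mem
      refine ⟨l, hl, ?_, ?_⟩
      · rw [hp]
        simp
      · rw [hp, hlen]
        rfl
    | succ j ih =>
      obtain ⟨l, hl, hp, hc⟩ := ih
      refine ⟨l0 ++ l, isWord_append hl0 hl, ?_, ?_⟩
      · rw [List.prod_append, hp0, hp, Prod.mk_mul_mk, one_mul, pow_succ', mul_assoc]
      · rw [List.prod_append, Λ.hχ, hc0, List.length_append, ← hc]
        push_cast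
        ring
  obtain ⟨l, hl, hp, hc⟩ := key j
  have h1 := Λ.cost_le_word hl
  rw [hc, hp] at h1
  have e : ((Λ.g, Λ.h j) : F × F)⁻¹ = (Λ.g⁻¹, Λ.y ^ j * Λ.g) := by
    ext
    · rfl
    · change (Λ.g⁻¹ * Λ.y⁻¹ ^ j)⁻¹ = _
      rw [mul_inv_rev, inv_inv, inv_pow, inv_inv]
  rw [e]
  exact h1

theorem Slide.inf_near_h (Λ : Slide) (j : ℕ) : Λ.Near (nm Λ.g) j (Λ.g, Λ.h j) := by
  refine ⟨Λ.inf_h_mem j, le_refl _, ?_⟩
  change nm ((Λ.h j)⁻¹ * Λ.h j) ≤ _
  rw [inv_mul_cancel, nm_one]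
  exact Nat.zero_le _

theorem slide_inf (Λ : Slide) : ∃ (rs cinf : ℕ),
    (∀ J : ℕ, ∃ j, J ≤ j ∧ ∃ z : F × F, Λ.Near rs j z ∧ Λ.cost z⁻¹ = cinf) ∧
    (∀ r : ℕ, ∃ J : ℕ, ∀ j, J ≤ j → ∀ z : F × F, Λ.Near r j z → (cinf : ℤ) ≤ Λ.cost z⁻¹) := by
  let Cset : Set ℕ := {c : ℕ | ∃ r : ℕ, ∀ J : ℕ, ∃ j, J ≤ j ∧ ∃ z : F × F, Λ.Near r j z ∧
    Λ.cost z⁻¹ ≤ c}
  have hne : Cset.Nonempty := by
    refine ⟨(Λ.cost (Λ.g⁻¹, Λ.g)).toNat, nm Λ.g, ?_⟩
    intro J
    refine ⟨J, le_refl _, (Λ.g, Λ.h J), Λ.inf_near_h J, ?_⟩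
    exact (Λ.inf_cost_h J).trans (Int.self_le_toNat _)
  have hmem : sInf Cset ∈ Cset := Nat.sInf_mem hne
  obtain ⟨rs, hrs⟩ := hmem
  have second : ∀ r : ℕ, ∃ J : ℕ, ∀ j, J ≤ j → ∀ z : F × F, Λ.Near r j z →
      ((sInf Cset : ℕ) : ℤ) ≤ Λ.cost z⁻¹ := by
    intro r
    by_contra hcon
    push Not at hcon
    have hpos : 1 ≤ sInf Cset := by
      obtain ⟨j, -, z, hz, hlt⟩ := hcon 0
      have h0 := Λ.cost_nonneg (GG.inv_mem hz.1)
      omega
    have hmem' : sInf Cset - 1 ∈ Cset := by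
      refine ⟨r, fun J => ?_⟩
      obtain ⟨j, hj, z, hz, hlt⟩ := hcon J
      refine ⟨j, hj, z, hz, ?_⟩
      push_cast [Nat.cast_sub hpos]
      omega
    have hle := Nat.sInf_le hmem'
    omega
  refine ⟨rs, sInf Cset, ?_, second⟩
  intro J
  obtain ⟨J', hJ'⟩ := second rs
  obtain ⟨j, hj, z, hz, hle⟩ := hrs (max J J')
  refine ⟨j, le_trans (le_max_left _ _) hj, z, hz, ?_⟩
  exact le_antisymm hle (hJ' j (le_trans (le_max_right _ _) hj) z hz)

end Pool.Agent.FTP
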