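import Mathlib
import Pool.Agent.FTP.Defs
import Pool.Agent.FTP.TreeA
import Pool.Agent.FTP.TreeC
import Pool.Agent.FTP.LineAlg
import Pool.Agent.FTP.Slide
import Pool.Agent.FTP.SlideInf

/-!
# FTP / SlideHead: no tight path runs along both lines

Let `w : ℕ → F x F` be a path in `GG` on `[0, L]` with tight letters only. Suppose that there are times
`t1 0 ≤ t1 1 ≤ ... ≤ t1 n1 ≤ L` with `(w (t1 i)).1` within `r` of `g` and `(w (t1 i)).2` within `r` of
`h (jP - i)` (`n1 ≤ jP`), and times `t2 0 ≤ ... ≤ t2 n2 ≤ L` with `(w (t2 i)).1` within `r` of `x^i` and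
`(w (t2 i)).2` within `r` of a fixed element `z0`. If `n1, n2 ≥ J = (2 c r + 1)(2 r + 3)` this is
impossible.

Proof. (1) The sum of `τ1` of the first components of the letters between `t1 0` and `t1 n1` is
`τ1 ((w (t1 0)).1⁻¹ (w (t1 n1)).1) ≤ 2 c r`; every summand is `0` (first component `1`) or `≥ 1`. So at most
`2 c r` letters have a nontrivial first component. Put `κ = 2 r + 3`; the `2 c r + 1` intervals
`[t1 (s κ), t1 ((s+1) κ)]`, `0 ≤ s ≤ 2 c r`, are consecutive; so one of them contains only vertical letters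
(first component `1`). For this `s`: let `r1 = (h (jP - s κ))⁻¹ (w (t1 (s κ))).2`,
`r2 = (h (jP - (s+1) κ))⁻¹ (w (t1 ((s+1) κ))).2`, of norm at most `r`. Since
`(h (j + κ))⁻¹ h j = y^κ`, the product of the second components of these letters is
`r1⁻¹ y^κ r2`, by `traverse` (TreeC, `c = r`, `k = κ`) a reduced product
`(r1⁻¹ y^(r+1)) * y * (..)`; by `killy`: `InLine b (vec (r1⁻¹ y^(r+1)))`, so `InLine b (vec r1)`, so the
vector of `(w (t1 (s κ))).2` is `- vec g` plus a vector in line with `b` (`hyb`).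
(2) In the same way with `t2`, `τ2`, `killx`: for some `s'` the vector of `(w (t2 (s' κ))).1` is in line
with `a`.
(3) Along the path the vector of the first component changes by vectors in line with `a`, that of
the second component by vectors in line with `b` (`htight`). So for every time
`vec (w t).1 = v1`, `vec (w t).2 = - vec g + v2`, `InLine a v1`, `InLine b v2`; as `w t ∈ GG`,
`modTwo v1 = - β + modTwo v2`, so `β = modTwo (-v1) + modTwo v2` contradicting `hβ`.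
-/

namespace Pool.Agent.FTP

namespace SlideHeadAux

theorem step_add {τ : F → ℤ} (hτ : ∀ x y, τ (x * y) = τ x + τ y) (u : ℕ → F) (t : ℕ) :
    τ (u (t + 1)) = τ (u t) + τ ((u t)⁻¹ * u (t + 1)) := by
  rw [← hτ, mul_inv_cancel_left]

theorem tau_one {τ : F → ℤ} (hτ : ∀ x y, τ (x * y) = τ x + τ y) : τ 1 = 0 := by
  have h := hτ 1 1
  rw [mul_one] at h
  omega

theorem mono_path {τ : F → ℤ} (hτ : ∀ x y, τ (x * y) = τ x + τ y) (u : ℕ → F) {L : ℕ}
    (hstep : ∀ t, t < L → (u t)⁻¹ * u (t + 1) = 1 ∨ 1 ≤ τ ((u t)⁻¹ * u (t + 1)))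
    {s t : ℕ} (hst : s ≤ t) (ht : t ≤ L) : τ (u s) ≤ τ (u t) := by
  induction t, hst using Nat.le_induction with
  | base => exact le_refl _
  | succ t hst ih =>
    refine (ih (by omega)).trans ?_
    rw [step_add hτ u t]
    rcases hstep t (by omega) with h | h
    · rw [h, tau_one hτ]; omega
    · omega

theorem sel {τ : F → ℤ} (hτ : ∀ x y, τ (x * y) = τ x + τ y) (u : ℕ → F) {L : ℕ}
    (hstep : ∀ t, t < L → (u t)⁻¹ * u (t + 1) = 1 ∨ 1 ≤ τ ((u t)⁻¹ * u (t + 1)))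
    (T : ℕ → ℕ) (hT : ∀ i, T i ≤ T (i + 1)) {κ n K : ℕ} (hK : K * κ ≤ n) (hTn : T n ≤ L)
    (hB : τ (u (T (K * κ))) - τ (u (T 0)) < K) :
    ∃ s, s < K ∧ ∀ t, T (s * κ) ≤ t → t < T ((s + 1) * κ) → (u t)⁻¹ * u (t + 1) = 1 := by
  have hTm : Monotone T := monotone_nat_of_le_succ hT
  by_contra hcon
  push Not at hcon
  have key : ∀ s, s ≤ K → τ (u (T 0)) + s ≤ τ (u (T (s * κ))) := by
    intro s
    induction s with
    | zero => intro _; simp
    | succ s ih =>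
      intro hs
      have h1 := ih (by omega)
      obtain ⟨t, ht1, ht2, ht3⟩ := hcon s (by omega)
      have hle : T ((s + 1) * κ) ≤ L := by
        refine (hTm ?_).trans hTn
        exact (Nat.mul_le_mul_right κ hs).trans hK
      have h2 := mono_path hτ u hstep ht1 (by omega)
      have h3 := mono_path hτ u hstep (show t + 1 ≤ T ((s + 1) * κ) by omega) hle
      have h4 : 1 ≤ τ ((u t)⁻¹ * u (t + 1)) := by
        rcases hstep t (by omega) with h | h
        · exact absurd h ht3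
        · exact h
      have h5 := step_add hτ u t
      push_cast
      omega
  have := key K le_rfl
  omega

theorem prod_path (v : ℕ → F) (a : ℕ) (n : ℕ) :
    ((List.range n).map (fun i => (v (a + i))⁻¹ * v (a + i + 1))).prod = (v a)⁻¹ * v (a + n) := by
  induction n with
  | zero => simp
  | succ n ih =>
    rw [List.range_succ, List.map_append, List.prod_append, ih]
    simp [mul_assoc, add_assoc]

theorem inLine_path {a : Fin 3 → ℤ} (v : ℕ → F) {L : ℕ}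
    (h : ∀ t, t < L → InLine a (vec ((v t)⁻¹ * v (t + 1)))) {t : ℕ} (ht : t ≤ L) :
    InLine a (vec (v t) - vec (v 0)) := by
  induction t with
  | zero => simpa using inLine_zero a
  | succ t ih =>
    have h1 := ih (by omega)
    have h2 := h t (by omega)
    rw [vec_mul, vec_inv] at h2
    have h3 := inLine_add h1 h2
    convert h3 using 1
    abel

/-- the main step: a killer traversed inside a stretch of pure letters -/
theorem kill_step {a : Fin 3 → ℤ} {x : F} (hx : CR x) (hxa : InLine a (vec x)) {P : F → Prop}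
    (kill : ∀ l : List F, (∀ s ∈ l, P s) → ∀ ρ ρ' : F,
      l.prod = ρ * x * ρ' → nm l.prod = nm ρ + nm x + nm ρ' → InLine a (vec ρ))
    (v : ℕ → F) {s e r : ℕ} (hse : s ≤ e)
    (hP : ∀ t, s ≤ t → t < e → P ((v t)⁻¹ * v (t + 1)))
    {r1 r2 : F} (hr1 : nm r1 ≤ r) (hr2 : nm r2 ≤ r)
    (h : (v s)⁻¹ * v e = r1⁻¹ * x ^ (2 * r + 3) * r2) : InLine a (vec r1) := by
  have hp := prod_path v s (e - s)
  rw [Nat.add_sub_cancel' hse, h] at hp
  obtain ⟨h1, h2⟩ := traverse hx r r1 r2 hr1 hr2 (2 * r + 3) le_rfl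
  have h3 := kill _ (by
    intro z hz
    rw [List.mem_map] at hz
    obtain ⟨i, hi, rfl⟩ := hz
    rw [List.mem_range] at hi
    exact hP (s + i) (by omega) (by omega)) (r1⁻¹ * x ^ (r + 1)) (x ^ (2 * r + 3 - r - 2) * r2)
    (hp.trans h1) (by rw [hp, h2])
  rw [vec_mul, vec_inv, vec_pow] at h3
  have h4 := inLine_neg (inLine_sub h3 (inLine_nsmul (r + 1) hxa))
  convert h4 using 1
  abel

end SlideHeadAux

open SlideHeadAux

theorem slide_head (Λ : Slide) (r : ℕ) : ∃ J : ℕ, ∀ (w : ℕ → F × F) (L : ℕ),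
    (∀ t, t ≤ L → w t ∈ GG) → (∀ t, t < L → (w t)⁻¹ * w (t + 1) ∈ Λ.A) →
    (∀ t, t < L → Λ.χ ((w t)⁻¹ * w (t + 1)) = Λ.m) →
    ∀ (t1 t2 : ℕ → ℕ) (n1 n2 jP : ℕ) (z0 : F), J ≤ n1 → J ≤ n2 → n1 ≤ jP →
      (∀ i, t1 i ≤ t1 (i + 1)) → (∀ i, t2 i ≤ t2 (i + 1)) → t1 n1 ≤ L → t2 n2 ≤ L →
      (∀ i, i ≤ n1 → nm (Λ.g⁻¹ * (w (t1 i)).1) ≤ r ∧
        nm ((Λ.h (jP - i))⁻¹ * (w (t1 i)).2) ≤ r) →
      (∀ i, i ≤ n2 → nm ((Λ.x ^ i)⁻¹ * (w (t2 i)).1) ≤ r ∧
        nm (z0⁻¹ * (w (t2 i)).2) ≤ r) → False := by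
  refine ⟨(2 * Λ.c * r + 1) * (2 * r + 3), ?_⟩
  intro w L hGG hA hχ t1 t2 n1 n2 jP z0 hJ1 hJ2 hjP hm1 hm2 hL1 hL2 hN1 hN2
  have hM1 : Monotone t1 := monotone_nat_of_le_succ hm1
  have hM2 : Monotone t2 := monotone_nat_of_le_succ hm2
  -- difference of a functional between two points near the same point
  have hdiff : ∀ (τ : F → ℤ), (∀ x y, τ (x * y) = τ x + τ y) →
      (∀ x, |τ x| ≤ (Λ.c : ℤ) * nm x) → ∀ G p q : F, nm (G⁻¹ * p) ≤ r → nm (G⁻¹ * q) ≤ r →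
      τ q - τ p < ((2 * Λ.c * r + 1 : ℕ) : ℤ) := by
    intro τ hτ hτle G p q hp hq
    have e1 : τ p = τ G + τ (G⁻¹ * p) := by rw [← hτ, mul_inv_cancel_left]
    have e2 : τ q = τ G + τ (G⁻¹ * q) := by rw [← hτ, mul_inv_cancel_left]
    have b1 : |τ (G⁻¹ * p)| ≤ (Λ.c : ℤ) * r :=
      (hτle _).trans (mul_le_mul_of_nonneg_left (by exact_mod_cast hp) (by positivity))
    have b2 : |τ (G⁻¹ * q)| ≤ (Λ.c : ℤ) * r :=
      (hτle _).trans (mul_le_mul_of_nonneg_left (by exact_mod_cast hq) (by positivity))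
    have b1' := (abs_le.1 b1).1
    have b2' := (abs_le.1 b2).2
    push_cast
    rw [e1, e2]
    linarith
  have hcomp1 : ∀ t, ((w t)⁻¹ * w (t + 1)).1 = ((w t).1)⁻¹ * (w (t + 1)).1 := fun t => rfl
  have hcomp2 : ∀ t, ((w t)⁻¹ * w (t + 1)).2 = ((w t).2)⁻¹ * (w (t + 1)).2 := fun t => rfl
  -- (1)
  obtain ⟨s, hs, hs'⟩ := sel Λ.hτ1 (fun t => (w t).1) (L := L)
    (fun t ht => by
      have := Λ.hV _ (hA t ht) (hχ t ht)
      simpa only [hcomp1] using this) t1 hm1 (κ := 2 * r + 3) (n := n1)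
    (K := 2 * Λ.c * r + 1) hJ1 hL1
    (hdiff Λ.τ1 Λ.hτ1 Λ.hτ1le Λ.g _ _ (hN1 0 (Nat.zero_le _)).1 (hN1 _ hJ1).1)
  -- (2)
  obtain ⟨s2, hs2, hs2'⟩ := sel Λ.hτ2 (fun t => (w t).2) (L := L)
    (fun t ht => by
      have := Λ.hH _ (hA t ht) (hχ t ht)
      simpa only [hcomp2] using this) t2 hm2 (κ := 2 * r + 3) (n := n2)
    (K := 2 * Λ.c * r + 1) hJ2 hL2
    (hdiff Λ.τ2 Λ.hτ2 Λ.hτ2le z0 _ _ (hN2 0 (Nat.zero_le _)).2 (hN2 _ hJ2).2)
  have hk1 : (s + 1) * (2 * r + 3) ≤ n1 := (Nat.mul_le_mul_right _ hs).trans hJ1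
  have hk2 : (s2 + 1) * (2 * r + 3) ≤ n2 := (Nat.mul_le_mul_right _ hs2).trans hJ2
  have hk1' : s * (2 * r + 3) ≤ (s + 1) * (2 * r + 3) := Nat.mul_le_mul_right _ (by omega)
  have hk2' : s2 * (2 * r + 3) ≤ (s2 + 1) * (2 * r + 3) := Nat.mul_le_mul_right _ (by omega)
  have hA1 : InLine Λ.b (vec ((Λ.h (jP - s * (2 * r + 3)))⁻¹ * (w (t1 (s * (2 * r + 3)))).2)) := by
    refine kill_step (P := fun z => ((1 : F), z) ∈ Λ.A ∧ Λ.χ (1, z) = Λ.m) Λ.hy Λ.hyb Λ.killy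
      (fun t => (w t).2) (r := r) (hM1 hk1') ?_ (hN1 _ (by omega)).2
      (hN1 _ hk1).2 ?_
    · intro t ht1 ht2
      have ht3 : t < L := lt_of_lt_of_le ht2 ((hM1 hk1).trans hL1)
      have h1 := hs' t ht1 ht2
      have h2 : ((1 : F), ((w t).2)⁻¹ * (w (t + 1)).2) = (w t)⁻¹ * w (t + 1) := by
        apply Prod.ext
        · exact h1.symm
        · rfl
      refine ⟨?_, ?_⟩
      · show ((1 : F), ((w t).2)⁻¹ * (w (t + 1)).2) ∈ Λ.A
        rw [h2]; exact hA t ht3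
      · show Λ.χ ((1 : F), ((w t).2)⁻¹ * (w (t + 1)).2) = Λ.m
        rw [h2]; exact hχ t ht3
    · have e : jP - s * (2 * r + 3) = (jP - (s + 1) * (2 * r + 3)) + (2 * r + 3) := by
        have e0 : (s + 1) * (2 * r + 3) = s * (2 * r + 3) + (2 * r + 3) := by ring
        omega
      have e2 : (Λ.h (jP - s * (2 * r + 3))) = (Λ.h (jP - (s + 1) * (2 * r + 3))) *
          (Λ.y ^ (2 * r + 3))⁻¹ := by
        rw [e]
        unfold Slide.h
        rw [pow_add]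
        simp [mul_assoc]
      simp only [e2]
      group
  have hA2 : InLine Λ.a (vec ((Λ.x ^ (s2 * (2 * r + 3)))⁻¹ * (w (t2 (s2 * (2 * r + 3)))).1)) := by
    refine kill_step (P := fun z => (z, (1 : F)) ∈ Λ.A ∧ Λ.χ (z, 1) = Λ.m) Λ.hx Λ.hxa Λ.killx
      (fun t => (w t).1) (r := r) (hM2 hk2') ?_ (hN2 _ (by omega)).1
      (hN2 _ hk2).1 ?_
    · intro t ht1 ht2
      have ht3 : t < L := lt_of_lt_of_le ht2 ((hM2 hk2).trans hL2)
      have h1 := hs2' t ht1 ht2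
      have h2 : (((w t).1)⁻¹ * (w (t + 1)).1, (1 : F)) = (w t)⁻¹ * w (t + 1) := by
        apply Prod.ext
        · rfl
        · exact h1.symm
      refine ⟨?_, ?_⟩
      · show (((w t).1)⁻¹ * (w (t + 1)).1, (1 : F)) ∈ Λ.A
        rw [h2]; exact hA t ht3
      · show Λ.χ (((w t).1)⁻¹ * (w (t + 1)).1, (1 : F)) = Λ.m
        rw [h2]; exact hχ t ht3
    · have e : Λ.x ^ ((s2 + 1) * (2 * r + 3)) = Λ.x ^ (s2 * (2 * r + 3)) * Λ.x ^ (2 * r + 3) := by
        rw [← pow_add]; congr 1; ring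
      simp only [e]
      group
  -- (3)
  have hpa : ∀ t, t ≤ L → InLine Λ.a (vec (w t).1 - vec (w 0).1) := fun t ht =>
    inLine_path (fun t => (w t).1) (fun t ht => (Λ.htight _ (hA t ht) (hχ t ht)).1) ht
  have hpb : ∀ t, t ≤ L → InLine Λ.b (vec (w t).2 - vec (w 0).2) := fun t ht =>
    inLine_path (fun t => (w t).2) (fun t ht => (Λ.htight _ (hA t ht) (hχ t ht)).2) ht
  have hv1 : InLine Λ.a (vec (w 0).1) := by
    have h1 := hpa (t2 (s2 * (2 * r + 3))) ((hM2 (hk2'.trans hk2)).trans hL2)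
    rw [vec_mul, vec_inv, vec_pow] at hA2
    have h3 := inLine_sub (inLine_add hA2 (inLine_nsmul (s2 * (2 * r + 3)) Λ.hxa)) h1
    convert h3 using 1
    abel
  have hv2 : InLine Λ.b (vec (w 0).2 + vec Λ.g) := by
    have h1 := hpb (t1 (s * (2 * r + 3))) ((hM1 (hk1'.trans hk1)).trans hL1)
    have e3 : vec (Λ.h (jP - s * (2 * r + 3))) = -vec Λ.g - (jP - s * (2 * r + 3)) • vec Λ.y := by
      unfold Slide.h
      rw [vec_mul, vec_inv, vec_pow, vec_inv, smul_neg, sub_eq_add_neg]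
    rw [vec_mul, vec_inv, e3] at hA1
    have h3 := inLine_sub (inLine_sub hA1 (inLine_nsmul (jP - s * (2 * r + 3)) Λ.hyb)) h1
    convert h3 using 1
    abel
  have hG := hGG 0 (Nat.zero_le _)
  rw [mem_GG] at hG
  refine Λ.hβ (-vec (w 0).1) (vec (w 0).2 + vec Λ.g) (inLine_neg hv1) hv2 ?_
  rw [modTwo_add, modTwo_neg]
  have e4 : modTwo (vec (w 0).1) = modTwo (vec (w 0).2) := hG
  have e5 : modTwo (vec Λ.g) = Λ.β := Λ.hg
  rw [e4, e5]
  abel

end Pool.Agent.FTP
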