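import Mathlib
import Pool.Agent.FTP.Defs
import Pool.Agent.FTP.TreeA
import Pool.Agent.FTP.Words
import Pool.Agent.FTP.Slide
import Pool.Agent.FTP.SlideInf

/-!
# FTP / SlideWord: the explicit word which turns twice

Let `Near r jP P`, `jb ≤ jP`. The word `v0` from `P` to `(x^N, 1)` is the concatenation of
* `l1`: a word for `P⁻¹ (g, h jP)` (in `GG`; both components have norm at most `r + nm g`, so its
  length `wl` is at most the constant of `wl_ball_bound` for `r + nm g`);
* the vertical word `ly` (letters `(1, s)`, `s ∈ ly`) repeated `jP - jb` times: from `(g, h jP)` to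
  `(g, h jb)` (`h (j+1) * y = h j`);
* `l2`: a word for `(g⁻¹, g)`: from `(g, h jb)` to `(1, h jb * g)`;
* the horizontal word `lx` repeated `N` times: from `(1, h jb g)` to `(x^N, h jb g)`;
* `l3`: a word for `(g, g⁻¹)`: to `(x^N g, h jb)`;
* the vertical word repeated `jb` times: to `(x^N g, h 0) = (x^N g, g⁻¹)`;
* `l4 = l2`: to `(x^N, 1)`.
Its excess `m |v0| - χ v0.prod` is the sum of the excesses of `l1, l2, l3, l4` (tight letters have
excess `0`), each at most `2 m wl` (`-χ z = χ z⁻¹ ≤ m wl z⁻¹`), so it is bounded by a constant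
depending on `r` only. `t1 i = |l1| + i |ly|`, `t2 i = |l1| + (jP - jb) |ly| + |l2| + i |lx|`.
-/

namespace Pool.Agent.FTP

/-- repetition of a word -/
private def swRep {α : Type*} (n : ℕ) (l : List α) : List α := (List.replicate n l).flatten

private theorem swRep_length {α : Type*} (n : ℕ) (l : List α) :
    (swRep n l).length = n * l.length := by
  induction n with
  | zero => simp [swRep]
  | succ n ih =>
    unfold swRep at *
    rw [List.replicate_succ, List.flatten_cons, List.length_append, ih]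
    ring

private theorem swRep_prod {Γ : Type*} [Group Γ] (n : ℕ) (l : List Γ) :
    (swRep n l).prod = l.prod ^ n := by
  induction n with
  | zero => simp [swRep]
  | succ n ih =>
    unfold swRep at *
    rw [List.replicate_succ, List.flatten_cons, List.prod_append, ih, pow_succ']

private theorem swRep_add {α : Type*} (n k : ℕ) (l : List α) :
    swRep (n + k) l = swRep n l ++ swRep k l := by
  unfold swRep
  rw [List.replicate_add, List.flatten_append]

private theorem swRep_word {Γ : Type*} [Group Γ] {A : Set Γ} {l : List Γ} (h : IsWord A l)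
    (n : ℕ) : IsWord A (swRep n l) := by
  intro a ha
  unfold swRep at ha
  rw [List.mem_flatten] at ha
  obtain ⟨l', hl', ha'⟩ := ha
  rw [List.eq_of_mem_replicate hl'] at ha'
  exact h a ha'

private theorem sw_take {α : Type*} (l l' : List α) (t : ℕ) (h : t = l.length) :
    (l ++ l').take t = l := by
  rw [h]
  exact List.take_left

theorem slide_word (Λ : Slide) (r : ℕ) : ∃ E0 : ℕ, ∀ (P : F × F) (jP jb N : ℕ),
    Λ.Near r jP P → jb ≤ jP → ∃ v0 : List (F × F), IsWord Λ.A v0 ∧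
      P * v0.prod = (Λ.x ^ N, 1) ∧ Λ.m * v0.length - Λ.χ v0.prod ≤ E0 ∧
      ∃ t1 t2 : ℕ → ℕ, (∀ i, t1 i ≤ t1 (i + 1)) ∧ (∀ i, t2 i ≤ t2 (i + 1)) ∧
        t1 (jP - jb) ≤ t2 0 ∧ t2 N ≤ v0.length ∧
        (∀ i, i ≤ jP - jb → P * (v0.take (t1 i)).prod = (Λ.g, Λ.h (jP - i))) ∧
        (∀ i, i ≤ N → P * (v0.take (t2 i)).prod = (Λ.x ^ i, Λ.h jb * Λ.g)) := by
  obtain ⟨C, hC⟩ := wl_ball_bound Λ.hAcl (r + nm Λ.g)
  have hβ2 : -Λ.β = Λ.β := by
    funext i
    exact ZMod.neg_eq_self_mod_two _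
  have hpg : par Λ.g = Λ.β := Λ.hg
  have hpgi : par Λ.g⁻¹ = Λ.β := by rw [par_inv, hpg, hβ2]
  have hph : ∀ j, par (Λ.h j) = Λ.β := by
    intro j
    unfold Slide.h
    rw [par_mul, hpgi, par_pow, par_inv, Λ.par_y, neg_zero, smul_zero, add_zero]
  have hχ1 : Λ.χ 1 = 0 := by
    have := Λ.hχ 1 1
    rw [one_mul] at this
    linarith
  -- vertical and horizontal words
  set lv : List (F × F) := Λ.ly.map (fun s => ((1 : F), s)) with hlv
  set lh : List (F × F) := Λ.lx.map (fun s => (s, (1 : F))) with hlh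
  have hlvw : IsWord Λ.A lv := by
    intro a ha
    rw [hlv, List.mem_map] at ha
    obtain ⟨s, hs, rfl⟩ := ha
    exact (Λ.hly s hs).1
  have hlhw : IsWord Λ.A lh := by
    intro a ha
    rw [hlh, List.mem_map] at ha
    obtain ⟨s, hs, rfl⟩ := ha
    exact (Λ.hlx s hs).1
  have hlvp : lv.prod = (1, Λ.y) := by
    rw [← Λ.hlyp, hlv]
    have h1 : ∀ l : List F, (l.map (fun s => ((1 : F), s))).prod = (1, l.prod) := by
      intro l
      induction l with
      | nil => rfl
      | cons s l ih => rw [List.map_cons, List.prod_cons, ih, List.prod_cons, Prod.mk_mul_mk, one_mul]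
    exact h1 _
  have hlhp : lh.prod = (Λ.x, 1) := by
    rw [← Λ.hlxp, hlh]
    have h1 : ∀ l : List F, (l.map (fun s => (s, (1 : F)))).prod = (l.prod, 1) := by
      intro l
      induction l with
      | nil => rfl
      | cons s l ih => rw [List.map_cons, List.prod_cons, ih, List.prod_cons, Prod.mk_mul_mk, one_mul]
    exact h1 _
  have hexT : ∀ l : List (F × F), (∀ z ∈ l, Λ.χ z = Λ.m) → Λ.χ l.prod = Λ.m * l.length := by
    intro l
    induction l with
    | nil => intro _; simp [hχ1]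
    | cons z l ih =>
      intro hl
      rw [List.prod_cons, Λ.hχ, ih (fun w hw => hl w (List.mem_cons_of_mem _ hw)),
        hl z List.mem_cons_self, List.length_cons]
      push_cast
      ring
  have hlvχ : Λ.χ lv.prod = Λ.m * lv.length := by
    apply hexT
    intro z hz
    rw [hlv, List.mem_map] at hz
    obtain ⟨s, hs, rfl⟩ := hz
    exact (Λ.hly s hs).2
  have hlhχ : Λ.χ lh.prod = Λ.m * lh.length := by
    apply hexT
    intro z hz
    rw [hlh, List.mem_map] at hz
    obtain ⟨s, hs, rfl⟩ := hz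
    exact (Λ.hlx s hs).2
  have hpow : ∀ (z : F × F) (n : ℕ), Λ.χ (z ^ n) = n * Λ.χ z := by
    intro z n
    induction n with
    | zero => simp [hχ1]
    | succ n ih =>
      rw [pow_succ, Λ.hχ, ih]
      push_cast
      ring
  have hrepv : ∀ n, Λ.χ (swRep n lv).prod = Λ.m * (swRep n lv).length := by
    intro n
    rw [swRep_prod, hpow, hlvχ, swRep_length]
    push_cast
    ring
  have hreph : ∀ n, Λ.χ (swRep n lh).prod = Λ.m * (swRep n lh).length := by
    intro n
    rw [swRep_prod, hpow, hlhχ, swRep_length]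
    push_cast
    ring
  -- short words
  have hshort : ∀ z : F × F, z ∈ GG → nm z.1 ≤ r + nm Λ.g → nm z.2 ≤ r + nm Λ.g →
      ∃ l : List (F × F), IsWord Λ.A l ∧ l.prod = z ∧
        Λ.m * l.length - Λ.χ l.prod ≤ 2 * Λ.m * C := by
    intro z hz h1 h2
    have hz' : z ∈ Subgroup.closure Λ.A := by rw [Λ.hAcl]; exact hz
    obtain ⟨l, hl, hlz, hll⟩ := exists_geo (exists_word Λ.hAsym hz')
    refine ⟨l, hl, hlz, ?_⟩
    obtain ⟨l', hl', hl'p, hl'l⟩ := exists_inv_word Λ.hAsym hl
    have h3 := Λ.excess_nonneg hl'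
    have h4 : Λ.χ l.prod + Λ.χ l'.prod = 0 := by
      rw [← Λ.hχ, hl'p, mul_inv_cancel, hχ1]
    have h5 : (l.length : ℤ) ≤ C := by
      rw [hll]
      exact_mod_cast hC z hz h1 h2
    rw [hl'l] at h3
    have h6 := Λ.hm
    nlinarith
  have hGG1 : (Λ.g⁻¹, Λ.g) ∈ GG := by
    rw [mem_GG]
    change par Λ.g⁻¹ = par Λ.g
    rw [hpgi, hpg]
  have hGG2 : (Λ.g, Λ.g⁻¹) ∈ GG := by
    rw [mem_GG]
    change par Λ.g = par Λ.g⁻¹
    rw [hpgi, hpg]
  have hng : nm Λ.g ≤ r + nm Λ.g := Nat.le_add_left _ _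
  have hngi : nm Λ.g⁻¹ ≤ r + nm Λ.g := by rw [nm_inv]; exact hng
  obtain ⟨l2, hl2w, hl2p, hl2e⟩ := hshort (Λ.g⁻¹, Λ.g) hGG1 hngi hng
  obtain ⟨l3, hl3w, hl3p, hl3e⟩ := hshort (Λ.g, Λ.g⁻¹) hGG2 hng hngi
  refine ⟨(8 * Λ.m * C).toNat, fun P jP jb N hP hjb => ?_⟩
  obtain ⟨hPG, hP1, hP2⟩ := hP
  have hGG3 : P⁻¹ * (Λ.g, Λ.h jP) ∈ GG := by
    apply Subgroup.mul_mem _ (Subgroup.inv_mem _ hPG)
    rw [mem_GG]
    change par Λ.g = par (Λ.h jP)
    rw [hph, hpg]
  obtain ⟨l1, hl1w, hl1p, hl1e⟩ := hshort (P⁻¹ * (Λ.g, Λ.h jP)) hGG3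
    (by
      change nm (P.1⁻¹ * Λ.g) ≤ _
      have h1 := nm_mul_le P.1⁻¹ Λ.g
      rw [nm_inv] at h1
      omega)
    (by
      change nm (P.2⁻¹ * Λ.h jP) ≤ _
      rw [nm_comm]
      omega)
  have hhy : ∀ j i, i ≤ j → Λ.h j * Λ.y ^ i = Λ.h (j - i) := by
    intro j i hij
    obtain ⟨k, rfl⟩ := Nat.exists_eq_add_of_le hij
    rw [Nat.add_sub_cancel_left]
    unfold Slide.h
    rw [add_comm i k, pow_add, mul_assoc, mul_assoc, inv_pow Λ.y i, inv_mul_cancel, mul_one]
  have hh0 : Λ.h 0 = Λ.g⁻¹ := by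
    unfold Slide.h
    rw [pow_zero, mul_one]
  have hPl1 : P * l1.prod = (Λ.g, Λ.h jP) := by
    rw [hl1p, mul_inv_cancel_left]
  have hst1 : ∀ i, i ≤ jP - jb → P * (l1 ++ swRep i lv).prod = (Λ.g, Λ.h (jP - i)) := by
    intro i hi
    rw [List.prod_append, ← mul_assoc, hPl1, swRep_prod, hlvp, Prod.pow_mk, one_pow,
      Prod.mk_mul_mk, mul_one, hhy jP i (by omega)]
  have hst2 : P * (l1 ++ swRep (jP - jb) lv ++ l2).prod = (1, Λ.h jb * Λ.g) := by
    rw [List.prod_append, ← mul_assoc, hst1 _ le_rfl, hl2p, Prod.mk_mul_mk, mul_inv_cancel]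
    have : jP - (jP - jb) = jb := by omega
    rw [this]
  have hst3 : ∀ i, P * (l1 ++ swRep (jP - jb) lv ++ l2 ++ swRep i lh).prod =
      (Λ.x ^ i, Λ.h jb * Λ.g) := by
    intro i
    rw [List.prod_append, ← mul_assoc, hst2, swRep_prod, hlhp, Prod.pow_mk, one_pow,
      Prod.mk_mul_mk, mul_one, one_mul]
  have hst4 : P * (l1 ++ swRep (jP - jb) lv ++ l2 ++ swRep N lh ++ l3).prod =
      (Λ.x ^ N * Λ.g, Λ.h jb) := by
    rw [List.prod_append, ← mul_assoc, hst3, hl3p, Prod.mk_mul_mk, mul_assoc (Λ.h jb),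
      mul_inv_cancel, mul_one]
  have hst5 : P * (l1 ++ swRep (jP - jb) lv ++ l2 ++ swRep N lh ++ l3 ++ swRep jb lv).prod =
      (Λ.x ^ N * Λ.g, Λ.g⁻¹) := by
    rw [List.prod_append, ← mul_assoc, hst4, swRep_prod, hlvp, Prod.pow_mk, one_pow,
      Prod.mk_mul_mk, mul_one, hhy jb jb le_rfl, Nat.sub_self, hh0]
  have hst6 : P * (l1 ++ swRep (jP - jb) lv ++ l2 ++ swRep N lh ++ l3 ++ swRep jb lv ++ l2).prod =
      (Λ.x ^ N, 1) := by
    rw [List.prod_append, ← mul_assoc, hst5, hl2p, Prod.mk_mul_mk, mul_inv_cancel_right,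
      inv_mul_cancel]
  refine ⟨l1 ++ swRep (jP - jb) lv ++ l2 ++ swRep N lh ++ l3 ++ swRep jb lv ++ l2, ?_, hst6, ?_,
    fun i => l1.length + i * lv.length,
    fun i => l1.length + (jP - jb) * lv.length + l2.length + i * lh.length, ?_, ?_, ?_, ?_, ?_, ?_⟩
  · exact isWord_append (isWord_append (isWord_append (isWord_append (isWord_append
      (isWord_append hl1w (swRep_word hlvw _)) hl2w) (swRep_word hlhw _)) hl3w)
      (swRep_word hlvw _)) hl2w
  · have h1 : (0 : ℤ) ≤ 8 * Λ.m * C := by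
      have := Λ.hm
      positivity
    rw [Int.toNat_of_nonneg h1]
    simp only [List.prod_append, List.length_append, Λ.hχ]
    have e1 := hrepv (jP - jb)
    have e2 := hreph N
    have e3 := hrepv jb
    push_cast
    linarith
  · intro i
    dsimp only
    have := Nat.mul_le_mul_right lv.length (Nat.le_add_right i 1)
    omega
  · intro i
    dsimp only
    have := Nat.mul_le_mul_right lh.length (Nat.le_add_right i 1)
    omega
  · dsimp only
    omega
  · dsimp only
    simp only [List.length_append, swRep_length]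
    omega
  · intro i hi
    have h1 : l1 ++ swRep (jP - jb) lv ++ l2 ++ swRep N lh ++ l3 ++ swRep jb lv ++ l2 =
        (l1 ++ swRep i lv) ++ (swRep (jP - jb - i) lv ++ l2 ++ swRep N lh ++ l3 ++
          swRep jb lv ++ l2) := by
      have h2 : swRep (jP - jb) lv = swRep i lv ++ swRep (jP - jb - i) lv := by
        rw [← swRep_add]
        congr 1
        omega
      rw [h2]
      simp only [List.append_assoc]
    rw [h1, sw_take _ _ _ (by rw [List.length_append, swRep_length])]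
    exact hst1 i hi
  · intro i hi
    have h1 : l1 ++ swRep (jP - jb) lv ++ l2 ++ swRep N lh ++ l3 ++ swRep jb lv ++ l2 =
        (l1 ++ swRep (jP - jb) lv ++ l2 ++ swRep i lh) ++ (swRep (N - i) lh ++ l3 ++
          swRep jb lv ++ l2) := by
      have h2 : swRep N lh = swRep i lh ++ swRep (N - i) lh := by
        rw [← swRep_add]
        congr 1
        omega
      rw [h2]
      simp only [List.append_assoc]
    rw [h1, sw_take _ _ _ (by simp only [List.length_append, swRep_length])]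
    exact hst3 i

end Pool.Agent.FTP
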