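import Mathlib
import Pool.Agent.FTP.Defs
import Pool.Agent.FTP.TreeA
import Pool.Agent.FTP.Words
import Pool.Agent.FTP.Iter
import Pool.Agent.FTP.Slide
import Pool.Agent.FTP.SlideInf
import Pool.Agent.FTP.SlideWord
import Pool.Agent.FTP.SlideHead

/-!
# FTP / CaseTwo: the falsification property fails in case 2

Let `rs, cinf` be as in `slide_inf`, `E0` the constant of `slide_word` for `r = rs`, `nIt = E0`,
`ρ = K (nIt + 1)`, `R0` a bound for the norms of the components of letters, `r' = R0 ρ` (elements of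
`GG` with `wl ≤ ρ` have components of norm at most `R0 ρ`, `nm_wl_le`), `J1` the constant of
`slide_head` for `r'`, `J2` the constant of the second claim of `slide_inf` for
`r'' = r' + nm g`. Put `jb = max J1 J2`, and let `jP ≥ jb + J1` and `P` with `Near rs jP P`,
`cost P⁻¹ = cinf` (first claim of `slide_inf`); `N = J1`. Let `v0, t1, t2` be given by `slide_word`.

(a) `Q = (x^N, 1)`. A geodesic word for `P⁻¹ Q = P⁻¹ * (x^N, 1)` has excess at most `cinf`:
`wl (P⁻¹ Q) ≤ wl P⁻¹ + N |lx|`, `m N |lx| = χ (x^N, 1)` (`lx` consists of tight letters).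
(b) `v0.length ≤ wl (v0.prod) + E0`: `m |v0| ≤ χ v0.prod + E0 ≤ m wl v0.prod + E0`, `m ≥ 1`.
(c) Let `w` be a word in `A` with `w.prod = v0.prod` and `FellowTravel A ρ v0 w`. Claim: `w` is not
geodesic. Suppose it is; by (a) its excess is at most `cinf`. Let `W t = P * (w.take t).prod`, so
`(P * (v0.take t).prod)⁻¹ W t = (v0.take t).prod⁻¹ (w.take t).prod` has both norms `≤ r'`. Let
`T = min (t2 N) w.length`; `w.take T` = head, `w.drop T` = tail, the excesses add up. The head has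
excess `≥ 0`. Tail: let `R'' = W (t2 N)` (equal to `W T`), within `r'` of `(x^N, h jb g)` in both components, and
`z = (x^N, 1)⁻¹ * R''`; then `z ∈ GG` (`par x = 0`), `nm z.1 ≤ r'`, `nm ((h jb)⁻¹ z.2) ≤ nm g + r'`; so
`Near r'' jb z`, and `cost z⁻¹ ≥ cinf`. The tail has product `R''⁻¹ Q = z⁻¹`, hence excess at least
`cost z⁻¹ ≥ cinf`. So the head has excess `0`: all its letters are tight (each letter has excess
`≥ 0`). Apply `slide_head` to `W` on `[0, T]` with `n1 = jP - jb ≥ J1`, `n2 = N`, `z0 = h jb g` and the times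
`min (t1 i) T`, `min (t2 i) T` (`W` is constant after `w.length`, so `W (min t T) = W t` for
`t ≤ t2 N`): contradiction.
(d) `iterate` with `n = nIt = E0` gives a contradiction.
-/

namespace Pool.Agent.FTP

theorem Slide.chi_one (Λ : Slide) : Λ.χ 1 = 0 := by
  have h := Λ.hχ 1 1
  rw [mul_one] at h
  omega

theorem Slide.chi_pow (Λ : Slide) (z : F × F) (n : ℕ) : Λ.χ (z ^ n) = n * Λ.χ z := by
  induction n with
  | zero => simp [Λ.chi_one]
  | succ n ih =>
    rw [pow_succ, Λ.hχ, ih]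
    push_cast
    ring

theorem Slide.tight_word (Λ : Slide) (l : List F)
    (h : ∀ s ∈ l, (s, (1 : F)) ∈ Λ.A ∧ Λ.χ (s, 1) = Λ.m) :
    ∃ l' : List (F × F), IsWord Λ.A l' ∧ l'.length = l.length ∧ l'.prod = (l.prod, 1) ∧
      Λ.χ (l.prod, 1) = Λ.m * l.length := by
  induction l with
  | nil =>
    refine ⟨[], isWord_nil, rfl, rfl, ?_⟩
    have h1 := Λ.chi_one
    rw [List.prod_nil, List.length_nil, Nat.cast_zero, mul_zero]
    exact h1
  | cons s l ih =>
    obtain ⟨l', h1, h2, h3, h4⟩ := ih (fun s hs => h s (List.mem_cons_of_mem _ hs))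
    have hs := h s (List.mem_cons_self)
    refine ⟨(s, 1) :: l', ?_, ?_, ?_, ?_⟩
    · intro a ha
      rcases List.mem_cons.1 ha with rfl | ha
      · exact hs.1
      · exact h1 a ha
    · simp [h2]
    · rw [List.prod_cons, h3, List.prod_cons]
      simp
    · have e : ((s :: l).prod, (1 : F)) = (s, 1) * (l.prod, 1) := by
        rw [List.prod_cons]
        simp
      rw [e, Λ.hχ, h4, hs.2, List.length_cons]
      push_cast
      ring

theorem Slide.all_tight (Λ : Slide) (l : List (F × F)) (h : IsWord Λ.A l)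
    (he : Λ.m * l.length ≤ Λ.χ l.prod) : ∀ z ∈ l, Λ.χ z = Λ.m := by
  induction l with
  | nil =>
    intro z hz
    simp at hz
  | cons s l ih =>
    have hl : IsWord Λ.A l := fun a ha => h a (List.mem_cons_of_mem _ ha)
    have hs : Λ.χ s ≤ Λ.m := Λ.hχle s (h s (List.mem_cons_self))
    have h1 := Λ.excess_nonneg hl
    rw [List.prod_cons, Λ.hχ, List.length_cons] at he
    push_cast at he
    have h2 : Λ.m * l.length ≤ Λ.χ l.prod := by nlinarith
    have h3 : Λ.χ s = Λ.m := by nlinarith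
    intro z hz
    rcases List.mem_cons.1 hz with rfl | hz
    · exact h3
    · exact ih hl h2 z hz

theorem case_two (Λ : Slide) (K : ℕ) (hFFT : FFT Λ.A K) : False := by
  obtain ⟨rs, cinf, hinf1, hinf2⟩ := slide_inf Λ
  obtain ⟨E0, hE0⟩ := slide_word Λ rs
  obtain ⟨R0, hR0⟩ : ∃ R0 : ℕ, ∀ z ∈ Λ.A, nm z.1 ≤ R0 ∧ nm z.2 ≤ R0 := by
    obtain ⟨R1, hR1⟩ := (Λ.hAfin.image (fun z : F × F => max (nm z.1) (nm z.2))).bddAbove
    refine ⟨R1, fun z hz => ?_⟩
    have := hR1 (Set.mem_image_of_mem (fun z : F × F => max (nm z.1) (nm z.2)) hz)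
    exact ⟨le_trans (le_max_left _ _) this, le_trans (le_max_right _ _) this⟩
  set r' : ℕ := R0 * (K * (E0 + 1)) with hr'
  obtain ⟨J1, hJ1⟩ := slide_head Λ r'
  obtain ⟨J2, hJ2⟩ := hinf2 (r' + nm Λ.g)
  set jb : ℕ := max J1 J2 with hjb
  obtain ⟨jP, hjP, P, hNear, hcost⟩ := hinf1 (jb + J1)
  obtain ⟨v0, hv0, hv0p, hv0e, t1, t2, ht1, ht2, ht12, ht2l, hp1, hp2⟩ :=
    hE0 P jP jb J1 hNear (by omega)
  have hPG : P ∈ GG := hNear.1
  -- the element Q
  obtain ⟨lq, hlq1, hlq2, hlq3, hlq4⟩ := Λ.tight_word Λ.lx Λ.hlx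
  rw [Λ.hlxp] at hlq3 hlq4
  have hxG : ((Λ.x, 1) : F × F) ∈ Subgroup.closure Λ.A := by
    rw [← hlq3]
    exact word_mem hlq1
  set Q : F × F := (Λ.x, 1) ^ J1 with hQ
  have hQe : ((Λ.x ^ J1, 1) : F × F) = Q := by
    rw [hQ, Prod.pow_mk, one_pow]
  have hQG : Q ∈ Subgroup.closure Λ.A := pow_mem hxG _
  have hwlx : wl Λ.A ((Λ.x, 1) : F × F) ≤ Λ.lx.length := by
    have := wl_le hlq1
    rwa [hlq3, hlq2] at this
  have hwlQ : wl Λ.A Q ≤ J1 * Λ.lx.length :=
    (wl_pow_le Λ.hAsym hxG J1).trans (Nat.mul_le_mul_left _ hwlx)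
  have hχQ : Λ.χ Q = J1 * (Λ.m * Λ.lx.length) := by
    rw [hQ, Λ.chi_pow, hlq4]
  have hv0' : v0.prod = P⁻¹ * Q := by
    rw [← hQe, ← hv0p]
    group
  have hPi : P⁻¹ ∈ Subgroup.closure Λ.A := by
    rw [Λ.hAcl]
    exact inv_mem hPG
  have hm := Λ.hm
  -- (a)
  have ha : Λ.cost v0.prod ≤ cinf := by
    have h1 := wl_mul_le Λ.hAsym hPi hQG
    unfold Slide.cost at hcost ⊢
    rw [hv0', Λ.hχ, hχQ]
    have h2 : (wl Λ.A (P⁻¹ * Q) : ℤ) ≤ wl Λ.A P⁻¹ + J1 * Λ.lx.length := by
      exact_mod_cast h1.trans (Nat.add_le_add_left hwlQ _)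
    nlinarith
  -- (b)
  have hv0G : v0.prod ∈ GG := by
    rw [← Λ.hAcl]
    exact word_mem hv0
  have hb : v0.length ≤ wl Λ.A v0.prod + E0 := by
    have h1 := Λ.cost_nonneg hv0G
    unfold Slide.cost at h1
    by_contra hcon
    push Not at hcon
    have h2 : (wl Λ.A v0.prod : ℤ) + E0 + 1 ≤ v0.length := by exact_mod_cast hcon
    nlinarith
  -- (d)
  refine iterate Λ.A Λ.hAsym K hFFT v0 hv0 E0 hb ?_
  -- (c)
  intro w hw hwp hft hgeo
  set T : ℕ := t2 J1 with hT
  set L : ℕ := min T w.length with hL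
  let W : ℕ → F × F := fun t => P * (w.take t).prod
  let V : ℕ → F × F := fun t => P * (v0.take t).prod
  have hcl : ∀ l : List (F × F), IsWord Λ.A l → l.prod ∈ GG := by
    intro l hl
    rw [← Λ.hAcl]
    exact word_mem hl
  have hWG : ∀ t, W t ∈ GG := fun t => mul_mem hPG (hcl _ (isWord_take hw t))
  have hd : ∀ t, nm ((V t).1⁻¹ * (W t).1) ≤ r' ∧ nm ((V t).2⁻¹ * (W t).2) ≤ r' := by
    intro t
    have h1 : (V t)⁻¹ * W t = (v0.take t).prod⁻¹ * (w.take t).prod := by
      simp only [V, W]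
      group
    have h2 : (v0.take t).prod⁻¹ * (w.take t).prod ∈ Subgroup.closure Λ.A := by
      rw [Λ.hAcl]
      exact mul_mem (inv_mem (hcl _ (isWord_take hv0 t))) (hcl _ (isWord_take hw t))
    have h3 := nm_wl_le Λ.hAsym hR0 h2
    rw [← h1] at h3
    have h4 : wl Λ.A ((V t)⁻¹ * W t) ≤ K * (E0 + 1) := by
      rw [h1]
      exact hft t
    have h5 : R0 * wl Λ.A ((V t)⁻¹ * W t) ≤ r' := Nat.mul_le_mul_left _ h4
    exact ⟨h3.1.trans h5, h3.2.trans h5⟩
  have hWmin : ∀ t, t ≤ T → W (min t L) = W t := by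
    intro t ht
    have h1 : min t L = min t w.length := by omega
    simp only [W]
    rw [h1]
    congr 2
    rcases le_total t w.length with h | h
    · rw [min_eq_left h]
    · rw [min_eq_right h, List.take_length, List.take_of_length_le h]
  -- tail
  have hVT : V T = (Λ.x ^ J1, Λ.h jb * Λ.g) := hp2 J1 le_rfl
  set z : F × F := Q⁻¹ * W T with hz
  have htail : (w.drop T).prod = z⁻¹ := by
    have h1 : (w.take T).prod * (w.drop T).prod = w.prod := List.prod_take_mul_prod_drop w T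
    rw [hz]
    simp only [W]
    have h2 : (w.drop T).prod = (w.take T).prod⁻¹ * w.prod := by
      rw [← h1]
      group
    rw [h2, hwp, hv0']
    group
  have hznear : Λ.Near (r' + nm Λ.g) jb z := by
    have hdT := hd T
    rw [hVT] at hdT
    have hQ1 : Q.1 = Λ.x ^ J1 := by rw [← hQe]
    have hQ2 : Q.2 = 1 := by rw [← hQe]
    refine ⟨?_, ?_, ?_⟩
    · refine mul_mem (inv_mem ?_) (hWG T)
      rw [← Λ.hAcl]
      exact hQG
    · have e : z.1 = (Λ.x ^ J1)⁻¹ * (W T).1 := by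
        rw [hz, Prod.fst_mul, Prod.fst_inv, hQ1]
      rw [e]
      exact hdT.1.trans (Nat.le_add_right _ _)
    · have e : (Λ.h jb)⁻¹ * z.2 = Λ.g * ((Λ.h jb * Λ.g)⁻¹ * (W T).2) := by
        rw [hz, Prod.snd_mul, Prod.snd_inv, hQ2]
        group
      rw [e]
      refine (nm_mul_le _ _).trans ?_
      have := hdT.2
      simp only at this
      omega
  have hcz := hJ2 jb (le_max_right _ _) z hznear
  have htw : IsWord Λ.A (w.drop T) := isWord_drop hw T
  have hct := Λ.cost_le_word htw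
  rw [htail] at hct
  have hexw : Λ.m * w.length - Λ.χ w.prod ≤ cinf := by
    unfold Slide.cost at ha
    unfold Geo at hgeo
    rw [hgeo, hwp]
    exact ha
  have hlen : (w.take T).length + (w.drop T).length = w.length := by
    rw [← List.length_append, List.take_append_drop]
  have hhead : Λ.m * (w.take T).length ≤ Λ.χ (w.take T).prod := by
    have h1 : Λ.χ w.prod = Λ.χ (w.take T).prod + Λ.χ (w.drop T).prod := by
      rw [← Λ.hχ, List.prod_take_mul_prod_drop]
    rw [htail] at h1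
    have h2 : (w.length : ℤ) = (w.take T).length + (w.drop T).length := by
      exact_mod_cast hlen.symm
    rw [h2, h1] at hexw
    nlinarith
  have htight := Λ.all_tight _ (isWord_take hw T) hhead
  have hstep : ∀ t, t < L → ∃ a ∈ w.take T, (W t)⁻¹ * W (t + 1) = a := by
    intro t ht
    have ht1 : t < w.length := by omega
    have ht2 : t < T := by omega
    have ht3 : t < (w.take T).length := by
      rw [List.length_take]
      omega
    refine ⟨w[t], ?_, ?_⟩
    · have e : (w.take T)[t] = w[t] := List.getElem_take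
      rw [← e]
      exact List.getElem_mem ht3
    · simp only [W]
      rw [List.prod_take_succ w t ht1]
      group
  refine hJ1 W L (fun t _ => hWG t) ?_ ?_ (fun i => min (t1 i) L) (fun i => min (t2 i) L)
    (jP - jb) J1 jP (Λ.h jb * Λ.g) (by omega) le_rfl (by omega) ?_ ?_ (min_le_right _ _)
    (min_le_right _ _) ?_ ?_
  · intro t ht
    obtain ⟨a, ha1, ha2⟩ := hstep t ht
    rw [ha2]
    exact isWord_take hw T a ha1
  · intro t ht
    obtain ⟨a, ha1, ha2⟩ := hstep t ht
    rw [ha2]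
    exact htight a ha1
  · intro i
    exact min_le_min_right _ (ht1 i)
  · intro i
    exact min_le_min_right _ (ht2 i)
  · intro i hi
    have hmono1 : Monotone t1 := monotone_nat_of_le_succ ht1
    have hmono2 : Monotone t2 := monotone_nat_of_le_succ ht2
    have h1 : t1 i ≤ T := (hmono1 hi).trans (ht12.trans (hmono2 (Nat.zero_le _)))
    rw [hWmin _ h1]
    have h2 := hd (t1 i)
    have h3 : V (t1 i) = (Λ.g, Λ.h (jP - i)) := hp1 i hi
    rw [h3] at h2
    exact h2
  · intro i hi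
    have hmono2 : Monotone t2 := monotone_nat_of_le_succ ht2
    have h1 : t2 i ≤ T := hmono2 hi
    rw [hWmin _ h1]
    have h2 := hd (t2 i)
    have h3 : V (t2 i) = (Λ.x ^ i, Λ.h jb * Λ.g) := hp2 i hi
    rw [h3] at h2
    exact h2

end Pool.Agent.FTP
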