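import Mathlib
import Pool.Agent.FTP.Defs
import Pool.Agent.FTP.TreeA
import Pool.Agent.FTP.TreeB
import Pool.Agent.FTP.TreeC

/-!
# FTP / TreeD: bounded cancellation between a negative and a positive ray

Let `u` be cyclically reduced, `R : ℕ`. There is `s0` such that for all `ρ` with `nm ρ ≤ R` and all
`s, n ≥ s0` the element `u ^ s * ρ * u ^ n` begins with `u` and ends with `u`.

Proof. It is enough to prove the first claim (for all cyclically reduced `u`); the second one is the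
first one for `u⁻¹`, `ρ⁻¹`: `(u^s ρ u^n)⁻¹ = (u⁻¹)^n ρ⁻¹ (u⁻¹)^s`.

Take `s0 = R + 3` (say), `s ≥ s0` and suppose that `u` is no prefix of `u^s ρ u^n`. Multiply by
`u^{-s}`: write `x = (u^s)⁻¹ * u = u^{-(s-1)}`, a point of the negative ray. `u` is a prefix of `u^s`
but not of `u^s ρ u^n`; by the crossing lemma the geodesic from `u^s ρ u^n` to `u^s` passes through
`u`, i.e. (translate by `u^{-s}`) the geodesic from `1` to `z := ρ u^n` passes through
`u^{-(s-1)}`: `Pre (u⁻¹ ^ (s-1)) z`, hence `Pre (u⁻¹ ^ i) z` for all `i ≤ s - 1` (`pre_trans`).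
Now `z = ρ u^n`. Every prefix `p` of `z` with `nm p ≥ R` (so `nm p ≥ nm ρ`) and `nm p ≤ nm z - nm u`
(or so) is of the form `ρ u^m w` with `m < n`, `w` a proper prefix of `u`: the walk
`ρ, ρ·(first letter of u^n), ...` from `ρ` to `z` passes through all vertices of the geodesic from
`ρ` to `z`, and `p` lies on this geodesic: `ρ` is no proper extension of `p` for length reasons.
(Precisely: let `c = pos ρ z` be the length of the common prefix of `ρ` and `z`; for a prefix `p` of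
`z` with `nm p ≥ nm ρ`, the point `p` lies on the geodesic from `ρ` to `z`, that is
`nm (ρ⁻¹ z) = nm (ρ⁻¹ p) + nm (p⁻¹ z)`, so `ρ⁻¹ p` is a prefix of `ρ⁻¹ z = u^n`, hence
`ρ⁻¹ p = u^m w`.) The point at distance `nm u` further along the geodesic is `ρ u^(m+1) w` (as
`u^m w` and `u^(m+1) w` are both prefixes of `u^n` and their lengths differ by `nm u`).
Apply this to `p = u⁻¹ ^ i` and `p' = u⁻¹ ^ (i+1)` with `i` such that `i * nm u ≥ R` and
`i + 1 ≤ s - 1` (possible: `i = R`, as `nm u ≥ 1`). Lengths: `nm p' = nm p + nm u`. So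
`p = ρ u^m w`, `p' = ρ u^(m+1) w`, `u⁻¹ = p⁻¹ p' = w⁻¹ u w`, contradicting `no_inv_conj`.
-/

namespace Pool.Agent.FTP

/-- prefixes of a power of a cyclically reduced element -/
theorem pre_pow_form {u p : F} (h : CR u) {n : ℕ} (hp : Pre p (u ^ n)) (hlt : nm p < n * nm u) :
    ∃ (m : ℕ) (w : F), m < n ∧ Pre w u ∧ nm w < nm u ∧ p = u ^ m * w := by
  have hL : 1 ≤ nm u := cr_nm_pos h
  obtain ⟨m, hm⟩ : ∃ m, m = nm p / nm u := ⟨_, rfl⟩
  have h1 : m * nm u ≤ nm p := by rw [hm]; exact Nat.div_mul_le_self _ _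
  have h2 : nm p < (m + 1) * nm u := by
    rw [hm]
    exact Nat.lt_mul_of_div_lt (Nat.lt_succ_self _) hL
  have hmn : m < n := by
    by_contra hc
    have : n * nm u ≤ m * nm u := Nat.mul_le_mul_right _ (not_lt.1 hc)
    omega
  have e1 : u ^ n = u ^ m * u ^ (n - m) := by rw [← pow_add]; congr 1; omega
  have e2 : u ^ n = u ^ (m + 1) * u ^ (n - (m + 1)) := by rw [← pow_add]; congr 1; omega
  have p1 : Pre (u ^ m) (u ^ n) := by rw [e1]; exact pre_mul_of_red (cr_red_pow h _ _)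
  have p2 : Pre (u ^ (m + 1)) (u ^ n) := by rw [e2]; exact pre_mul_of_red (cr_red_pow h _ _)
  have q1 : Pre (u ^ m) p := pre_of_le p1 hp (by rw [cr_nm_pow h]; exact h1)
  have q2 : Pre p (u ^ (m + 1)) := pre_of_le hp p2 (by rw [cr_nm_pow h]; exact h2.le)
  have d1 := pre_dist q1
  have d2 := pre_dist q2
  rw [cr_nm_pow h] at d1 d2
  have e3 : ((u ^ m)⁻¹ * p)⁻¹ * u = p⁻¹ * u ^ (m + 1) := by rw [pow_succ]; group
  have h3 : (m + 1) * nm u = m * nm u + nm u := by ring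
  refine ⟨m, (u ^ m)⁻¹ * p, hmn, ?_, ?_, by group⟩
  · unfold Pre
    rw [e3, d1, d2]
    omega
  · rw [d1]
    omega

theorem pre_pow_mul {u w : F} (h : CR u) {m n : ℕ} (hw : Pre w u) (hle : m * nm u + nm w ≤ n * nm u) :
    Pre (u ^ m * w) (u ^ n) ∧ nm (u ^ m * w) = m * nm u + nm w := by
  have hL : 1 ≤ nm u := cr_nm_pos h
  have hr : Red (u ^ m) w := by
    have h1 : Red (u ^ m) (u ^ 1) := cr_red_pow h m 1
    rw [pow_one] at h1
    exact red_of_red_pre h1 hw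
  have hmn : m ≤ n := by
    by_contra hc
    have h1 : (n + 1) * nm u ≤ m * nm u := Nat.mul_le_mul_right _ (not_le.1 hc)
    have h2 : (n + 1) * nm u = n * nm u + nm u := by ring
    omega
  refine ⟨?_, by rw [hr, cr_nm_pow h]⟩
  have e1 : u ^ n = u ^ m * u ^ (n - m) := by rw [← pow_add]; congr 1; omega
  rw [e1]
  refine pre_mul_pre (cr_red_pow h _ _) ?_
  rcases Nat.eq_zero_or_pos (n - m) with h0 | h0
  · have h2 : n = m := by omega
    subst h2
    have h3 : nm w = 0 := by omega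
    rw [nm_eq_zero] at h3
    rw [h3]
    exact pre_one _
  · have e2 : u ^ (n - m) = u * u ^ (n - m - 1) := by rw [← pow_succ']; congr 1; omega
    refine pre_trans hw ?_
    rw [e2]
    have h1 : Red (u ^ 1) (u ^ (n - m - 1)) := cr_red_pow h 1 _
    rw [pow_one] at h1
    exact pre_mul_of_red h1

theorem one_ray {u : F} (h : CR u) (R : ℕ) (ρ : F) (hρ : nm ρ ≤ R) (s n : ℕ) (hs : R + 3 ≤ s) :
    Pre u (u ^ s * ρ * u ^ n) := by
  by_contra hcon
  have hL : 1 ≤ nm u := cr_nm_pos h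
  have hu : Pre u (u ^ s) := by
    have e : u ^ s = u * u ^ (s - 1) := by rw [← pow_succ']; congr 1; omega
    rw [e]
    have h1 : Red (u ^ 1) (u ^ (s - 1)) := cr_red_pow h 1 _
    rw [pow_one] at h1
    exact pre_mul_of_red h1
  have hc := cross hcon hu
  have hci : CR u⁻¹ := cr_inv h
  obtain ⟨z, hz⟩ : ∃ z, z = ρ * u ^ n := ⟨_, rfl⟩
  have hzpre : Pre (u⁻¹ ^ (s - 1)) z := by
    have e0 : u ^ s = u * u ^ (s - 1) := by rw [← pow_succ']; congr 1; omega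
    have e1 : nm ((u ^ s * ρ * u ^ n)⁻¹ * u ^ s) = nm z := by
      rw [← nm_inv z, hz]
      congr 1
      group
    have e2 : nm ((u ^ s * ρ * u ^ n)⁻¹ * u) = nm ((u⁻¹ ^ (s - 1))⁻¹ * z) := by
      rw [← nm_inv ((u⁻¹ ^ (s - 1))⁻¹ * z), hz, e0, inv_pow]
      congr 1
      group
    have e3 : u⁻¹ * u ^ s = u ^ (s - 1) := by rw [e0]; group
    rw [e1, e2, e3, cr_nm_pow h] at hc
    unfold Pre
    rw [cr_nm_pow hci, nm_inv]
    omega
  have hpi : ∀ i, i ≤ s - 1 → Pre (u⁻¹ ^ i) z := by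
    intro i hi
    refine pre_trans ?_ hzpre
    have e : u⁻¹ ^ (s - 1) = u⁻¹ ^ i * u⁻¹ ^ (s - 1 - i) := by rw [← pow_add]; congr 1; omega
    rw [e]
    exact pre_mul_of_red (cr_red_pow hci _ _)
  have hnmi : ∀ i, nm (u⁻¹ ^ i) = i * nm u := fun i => by rw [cr_nm_pow hci, nm_inv]
  -- the points of the negative ray beyond `ρ` lie on the geodesic from `ρ` to `z`
  have hgeo : ∀ i, R + 1 ≤ i → i ≤ s - 1 → Pre (ρ⁻¹ * u⁻¹ ^ i) (u ^ n) ∧
      n * nm u + i * nm u = nm (ρ⁻¹ * u⁻¹ ^ i) + nm z := by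
    intro i hi1 hi2
    have h1 : ¬ Pre (u⁻¹ ^ i) ρ := by
      intro h2
      have h3 := pre_nm_le h2
      rw [hnmi] at h3
      have h4 : i * 1 ≤ i * nm u := Nat.mul_le_mul_left _ hL
      omega
    have h2 := cross h1 (hpi i hi2)
    have h3 := pre_dist (hpi i hi2)
    have h4 := pre_nm_le (hpi i hi2)
    have e1 : ρ⁻¹ * z = u ^ n := by rw [hz]; group
    rw [e1] at h2
    have e2 : (ρ⁻¹ * u⁻¹ ^ i)⁻¹ * u ^ n = (u⁻¹ ^ i)⁻¹ * z := by rw [hz]; group
    constructor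
    · unfold Pre
      rw [e2]
      exact h2
    · rw [cr_nm_pow h, h3, hnmi] at h2
      rw [hnmi] at h4
      omega
  obtain ⟨a1, a2⟩ := hgeo (R + 1) (le_refl _) (by omega)
  obtain ⟨b1, b2⟩ := hgeo (R + 2) (by omega) (by omega)
  have h3 : (R + 2) * nm u = (R + 1) * nm u + nm u := by ring
  have h4 : nm (ρ⁻¹ * u⁻¹ ^ (R + 2)) = nm (ρ⁻¹ * u⁻¹ ^ (R + 1)) + nm u := by omega
  have h5 := pre_nm_le b1
  rw [cr_nm_pow h] at h5
  obtain ⟨m, w, hmn, hw, hwl, he⟩ := pre_pow_form h a1 (by omega)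
  have h6 := (pre_pow_mul h (m := m) (n := n) hw (by
    have h8 : (m + 1) * nm u ≤ n * nm u := Nat.mul_le_mul_right (nm u) hmn
    have h7 : (m + 1) * nm u = m * nm u + nm u := by ring
    omega)).2
  rw [← he] at h6
  have h7 : (m + 1) * nm u = m * nm u + nm u := by ring
  obtain ⟨c1, c2⟩ := pre_pow_mul h (m := m + 1) (n := n) hw (by omega)
  have h8 : ρ⁻¹ * u⁻¹ ^ (R + 2) = u ^ (m + 1) * w := pre_unique b1 c1 (by omega)
  apply no_inv_conj h hw
  have e1 : (ρ⁻¹ * u⁻¹ ^ (R + 1))⁻¹ * (ρ⁻¹ * u⁻¹ ^ (R + 2)) = u⁻¹ := by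
    rw [pow_succ u⁻¹ (R + 1)]
    group
  rw [← e1, h8, he, pow_succ]
  group

theorem two_rays {u : F} (h : CR u) (R : ℕ) :
    ∃ s0 : ℕ, ∀ ρ : F, nm ρ ≤ R → ∀ s n : ℕ, s0 ≤ s → s0 ≤ n →
      Pre u (u ^ s * ρ * u ^ n) ∧ Suf u (u ^ s * ρ * u ^ n) := by
  refine ⟨R + 3, fun ρ hρ s n hs hn => ⟨one_ray h R ρ hρ s n hs, ?_⟩⟩
  unfold Suf
  have e : (u ^ s * ρ * u ^ n)⁻¹ = u⁻¹ ^ n * ρ⁻¹ * u⁻¹ ^ s := by
    rw [inv_pow, inv_pow]
    group
  rw [e]
  exact one_ray (cr_inv h) R ρ⁻¹ (by rw [nm_inv]; exact hρ) n s hn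

end Pool.Agent.FTP
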