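import Mathlib
import Pool.Agent.FTP.Defs
import Pool.Agent.FTP.TreeA

/-!
# FTP / Trim: trimming a product of short elements which traverses a segment

Let `l` be a list of elements of norm at most `R`, and suppose that the product of `l` is
`ρ * K * ρ'` with `nm (l.prod) = nm ρ + nm K + nm ρ'` and `K ≠ 1`. Consider the partial products
`q_i = (l.take i).prod`, a path from `1` to `l.prod` with steps at most `R`; the geodesic from `1` to
`l.prod` passes through `ρ` and `ρ K`. Let `i` be the last index with `¬ Pre ρ q_i` (take `i = 0` if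
`ρ = 1`), and `j > i` the first index after `i` with `Pre (ρ * K) q_j` (it exists since
`Pre (ρ K) l.prod`). By the crossing lemma (`cross` in TreeA) for the steps `i → i + 1` and
`j - 1 → j`: `nm (q_i⁻¹ ρ) ≤ R`, `nm ((ρ K)⁻¹ q_j) ≤ R` (at the index `j - 1 ≥ i` the element
`ρ K` is no prefix: for `j - 1 > i` by minimality of `j`, for `j - 1 = i` because `Pre (ρ K) q_i` would
imply `Pre ρ q_i`; if `ρ = 1`, `i = 0`: `q_0 = 1` and `K ≠ 1`). Again by the crossing lemma the
geodesic from `q_i` to `q_j` passes through `ρ K`, and the geodesic from `q_i` to `ρ K` passes through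
`ρ` (`¬ Pre ρ q_i`, `Pre ρ (ρ K)`; trivial if `ρ = 1 = q_i`), which gives the length formula for
`l2 = l[i, j)`.
-/

namespace Pool.Agent.FTP

private theorem step_le {R : ℕ} (l : List F) (hl : ∀ b ∈ l, nm b ≤ R) (i : ℕ) :
    nm ((l.take i).prod⁻¹ * (l.take (i + 1)).prod) ≤ R := by
  rcases Nat.lt_or_ge i l.length with h | h
  · have h1 : l.take (i + 1) = l.take i ++ [l[i]] := (List.take_append_getElem h).symm
    rw [h1, List.prod_append, inv_mul_cancel_left, List.prod_singleton]
    exact hl _ (List.getElem_mem h)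
  · rw [List.take_of_length_le h, List.take_of_length_le (by omega), inv_mul_cancel, nm_one]
    exact Nat.zero_le _

private theorem not_pre_one {p : F} (hp : p ≠ 1) : ¬ Pre p 1 := by
  intro h
  unfold Pre at h
  rw [nm_one] at h
  exact hp (nm_eq_zero.1 (by omega))

/-- the first index -/
private theorem trim_start {R : ℕ} (l : List F) (hl : ∀ b ∈ l, nm b ≤ R) (ρ K : F) (hK : K ≠ 1)
    (hρK : Pre ρ (ρ * K)) (hP : Pre ρ l.prod) :
    ∃ i : ℕ, i ≤ l.length ∧ nm ((l.take i).prod⁻¹ * ρ) ≤ R ∧ ¬ Pre (ρ * K) (l.take i).prod ∧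
      nm ((l.take i).prod⁻¹ * (ρ * K)) = nm ((l.take i).prod⁻¹ * ρ) + nm K := by
  classical
  by_cases hρ : ρ = 1
  · subst hρ
    refine ⟨0, Nat.zero_le _, ?_, ?_, ?_⟩
    · simp
    · simpa using not_pre_one hK
    · simp
  · have h0 : ¬ Pre ρ (l.take 0).prod := by
      simpa using not_pre_one hρ
    have hi1 : Nat.findGreatest (fun i => ¬ Pre ρ (l.take i).prod) l.length ≤ l.length :=
      Nat.findGreatest_le _
    have hi2 : ¬ Pre ρ (l.take (Nat.findGreatest (fun i => ¬ Pre ρ (l.take i).prod)
        l.length)).prod :=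
      Nat.findGreatest_spec (P := fun i => ¬ Pre ρ (l.take i).prod) (Nat.zero_le _) h0
    have hi3 : ∀ k, Nat.findGreatest (fun i => ¬ Pre ρ (l.take i).prod) l.length < k →
        k ≤ l.length → Pre ρ (l.take k).prod := by
      intro k hk1 hk2
      have := Nat.findGreatest_is_greatest hk1 hk2
      exact not_not.1 this
    set i := Nat.findGreatest (fun i => ¬ Pre ρ (l.take i).prod) l.length with hi
    have hin : i < l.length := by
      rcases Nat.lt_or_ge i l.length with h | h
      · exact h
      · exfalso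
        apply hi2
        rw [List.take_of_length_le h]
        exact hP
    refine ⟨i, hi1, ?_, ?_, ?_⟩
    · have h1 := cross hi2 (hi3 (i + 1) (Nat.lt_succ_self i) hin)
      have h2 := step_le l hl i
      omega
    · intro h
      exact hi2 (pre_trans hρK h)
    · have h1 := cross hi2 hρK
      rw [inv_mul_cancel_left] at h1
      exact h1

theorem trim {R : ℕ} (l : List F) (hl : ∀ b ∈ l, nm b ≤ R) (ρ K ρ' : F) (hK : K ≠ 1)
    (h : l.prod = ρ * K * ρ') (hadd : nm l.prod = nm ρ + nm K + nm ρ') :
    ∃ l1 l2 l3 : List F, l = l1 ++ l2 ++ l3 ∧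
      nm (l1.prod⁻¹ * ρ) ≤ R ∧ nm ((ρ * K)⁻¹ * (l1.prod * l2.prod)) ≤ R ∧
      nm l2.prod = nm (l1.prod⁻¹ * ρ) + nm K + nm ((ρ * K)⁻¹ * (l1.prod * l2.prod)) := by
  classical
  have hr := red_of_three (x := ρ) (y := K) (z := ρ') (by rw [← h]; exact hadd)
  have hρK : Pre ρ (ρ * K) := pre_mul_of_red hr.1
  have hKP : Pre (ρ * K) l.prod := by
    rw [h]
    exact pre_mul_of_red hr.2.2.1
  have hP : Pre ρ l.prod := pre_trans hρK hKP
  obtain ⟨i, hi1, hi2, hi3, hi4⟩ := trim_start l hl ρ K hK hρK hP
  have hin : i < l.length := by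
    rcases Nat.lt_or_ge i l.length with h | h
    · exact h
    · exfalso
      apply hi3
      rw [List.take_of_length_le h]
      exact hKP
  have hex : ∃ j, i < j ∧ Pre (ρ * K) (l.take j).prod :=
    ⟨l.length, hin, by rw [List.take_length]; exact hKP⟩
  obtain ⟨hj1, hj2⟩ := Nat.find_spec hex
  have hj3 : ∀ k, k < Nat.find hex → ¬ (i < k ∧ Pre (ρ * K) (l.take k).prod) :=
    fun k hk => Nat.find_min hex hk
  set j := Nat.find hex with hj
  obtain ⟨k, hk⟩ : ∃ k, j = k + 1 := ⟨j - 1, by omega⟩
  have hk1 : ¬ Pre (ρ * K) (l.take k).prod := by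
    intro hc
    rcases Nat.lt_or_ge i k with h1 | h1
    · exact hj3 k (by omega) ⟨h1, hc⟩
    · have : k = i := by omega
      rw [this] at hc
      exact hi3 hc
  have h5 : nm ((ρ * K)⁻¹ * (l.take j).prod) ≤ R := by
    rw [hk] at hj2 ⊢
    have h1 := cross hk1 hj2
    have h2 := step_le l hl k
    omega
  have h6 := cross hi3 hj2
  have e1 : l.take j = l.take i ++ (l.take j).drop i := by
    have h7 : (l.take j).take i = l.take i := by
      rw [List.take_take]
      congr 1
      omega
    conv_lhs => rw [← List.take_append_drop i (l.take j)]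
    rw [h7]
  have e2 : (l.take i).prod * ((l.take j).drop i).prod = (l.take j).prod := by
    rw [← List.prod_append, ← e1]
  have e3 : ((l.take j).drop i).prod = (l.take i).prod⁻¹ * (l.take j).prod := by
    rw [← e2, inv_mul_cancel_left]
  refine ⟨l.take i, (l.take j).drop i, l.drop j, ?_, hi2, ?_, ?_⟩
  · rw [← e1, List.take_append_drop]
  · rw [e2]
    exact h5
  · rw [e2, e3, h6, hi4]

end Pool.Agent.FTP
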