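import Mathlib
import Pool.Agent.FTP.Defs
import Pool.Agent.FTP.TreeA
import Pool.Agent.FTP.TreeC
import Pool.Agent.FTP.TreeD
import Pool.Agent.FTP.Trim

/-!
# FTP / Kill: the killer lemma

Setting: `B ⊆ F` finite, `φ : F → L` a homomorphism to an abelian group without torsion which
vanishes on `B`, `y ∈ B` cyclically reduced. Claim: there is a product `K0` of elements of `B` which
begins and ends with `y` such that every product `m` of elements of `B` that can be written as a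
reduced product `ρ * K0 * ρ'` has `φ ρ = 0`.

Proof. Let `R` be a bound for the norms of the elements of `B`. Let `𝒦` be the set of all `K` which are
products of lists in `B` and begin and end with `y` (`Pre y K`, `Suf y K`). `𝒦` contains `y` and is
closed under products, which are reduced (`red_of_suf_pre`). Call `P e` (for `e : L`) the statement:
for every `K ∈ 𝒦` there are `ρ, ρ'` such that `ρ K ρ'` is a product of a list in `B`, reduced
(`nm (ρ K ρ') = nm ρ + nm K + nm ρ'`) and `φ ρ = e`.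

(0) Trimming: by `trim` (Trim.lean), in `P e` one can choose `ρ, ρ'` with `nm ρ ≤ R`, `nm ρ' ≤ R`:
with `l = l1 ++ l2 ++ l3` replace `ρ` by `l1.prod⁻¹ * ρ` (same value of `φ`, as `φ` vanishes on `l1.prod`) and `ρ'`
by `(ρ K)⁻¹ * (l1.prod * l2.prod)`; then `l2.prod = (l1.prod⁻¹ ρ) K ((ρ K)⁻¹ l1.prod l2.prod)`.

(1) `P e` implies `e = φ ρ` for some `ρ` with `nm ρ ≤ R` (apply (0) to `K = y`); the set `E` of these
values is finite (finitely many elements of norm `≤ R`).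

(2) `P e1` and `P e2` imply `P (e1 + e2)`. Let `K ∈ 𝒦`. Let `s0` be the constant of `two_rays` for `y` and
`R`, and `n = s0`. `K' = y^n K y^n ∈ 𝒦`. By `P e1` and (0) there are `ρ, ρ'` of norm at most `R` with `φ ρ = e1`
and `z' = ρ K' ρ'` a product of a list in `B`. Then
`K'' = y^n z' y^n = (y^n ρ y^n) K (y^n ρ' y^n) = a1 K a2`. By `two_rays`, `a1` and `a2` begin and end with
`y`, so that `K''` is a reduced product `a1 * K * a2` (nontrivial middle), and `K'' ∈ 𝒦`. By `P e2` there are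
`σ, σ'` with `σ K'' σ'` a reduced product and a product of a list in `B`, `φ σ = e2`. Hence
`(σ a1) K (a2 σ')` is a reduced product (lengths: `nm (σ K'' σ') = nm σ + nm a1 + nm K + nm a2 + nm σ'`
and `nm (σ a1) ≤ nm σ + nm a1` etc.), with `φ (σ a1) = e2 + n φ y + φ ρ + n φ y = e1 + e2`.

(3) So `P e` implies `P (k • e)` for all `k ≥ 1`, and all `k • e` lie in the finite set `E`; then
`(k - k') • e = 0` for some `k > k'`, so `e = 0`.

(4) For every `e ∈ E`, `e ≠ 0`, choose by (3) `K_e ∈ 𝒦` violating `P e`: no product of a list in `B` is a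
reduced product `ρ K_e ρ'` with `φ ρ = e`. Let `K0 = y * ∏_{e ∈ E \ 0} K_e` (a list of elements of `𝒦`).
Suppose `m.prod = ρ K0 ρ'` is reduced. By trimming, `φ ρ ∈ E`. If `φ ρ = e ≠ 0`, write `K0 = k K_e k'`
(reduced, `k` a product of a list in `B`, `φ k = 0`): `m.prod = (ρ k) K_e (k' ρ')` is reduced and
`φ (ρ k) = e`, a contradiction. So `φ ρ = 0`.
-/

namespace Pool.Agent.FTP

section KillerAux

variable {L : Type} [AddCommGroup L]

private theorem phi_one {φ : F → L} (hφ : ∀ x y, φ (x * y) = φ x + φ y) : φ 1 = 0 := by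
  have h := hφ 1 1
  rw [mul_one] at h
  exact left_eq_add.1 h

private theorem phi_inv {φ : F → L} (hφ : ∀ x y, φ (x * y) = φ x + φ y) (x : F) :
    φ x⁻¹ = - φ x := by
  have h := hφ x⁻¹ x
  rw [inv_mul_cancel, phi_one hφ] at h
  exact eq_neg_of_add_eq_zero_left h.symm

private theorem phi_word {φ : F → L} (hφ : ∀ x y, φ (x * y) = φ x + φ y) {B : Set F}
    (hker : ∀ b ∈ B, φ b = 0) (l : List F) (hl : IsWord B l) : φ l.prod = 0 := by
  induction l with
  | nil => rw [List.prod_nil]; exact phi_one hφ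
  | cons a l ih =>
    rw [List.prod_cons, hφ, hker a (hl a (by simp)), zero_add]
    exact ih (fun b hb => hl b (by simp [hb]))

/-- products of lists in `B` which begin and end with `y` -/
private def InK (B : Set F) (y K : F) : Prop :=
  (∃ l : List F, IsWord B l ∧ l.prod = K) ∧ Pre y K ∧ Suf y K

private theorem ink_ne {B : Set F} {y K : F} (hcr : CR y) (h : InK B y K) : K ≠ 1 := by
  intro h1
  have h2 := pre_nm_le h.2.1
  have h3 := cr_nm_pos hcr
  rw [h1, nm_one] at h2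
  omega

private theorem isWord_append {B : Set F} {l l' : List F} (h : IsWord B l) (h' : IsWord B l') :
    IsWord B (l ++ l') := by
  intro a ha
  rcases List.mem_append.1 ha with h1 | h1
  · exact h a h1
  · exact h' a h1

private theorem ink_mul {B : Set F} {y K K' : F} (hcr : CR y) (h : InK B y K) (h' : InK B y K') :
    InK B y (K * K') := by
  have hr : Red K K' := red_of_suf_pre hcr h.2.2 h'.2.1
  obtain ⟨⟨l, hl, hlK⟩, hp, -⟩ := h
  obtain ⟨⟨l', hl', hlK'⟩, -, hs⟩ := h'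
  refine ⟨⟨l ++ l', isWord_append hl hl', ?_⟩, pre_mul hp hr, suf_mul hs hr⟩
  rw [List.prod_append, hlK, hlK']

private theorem ink_y {B : Set F} {y : F} (hy : y ∈ B) : InK B y y := by
  refine ⟨⟨[y], ?_, by simp⟩, pre_refl y, suf_refl y⟩
  intro a ha
  rw [List.mem_singleton] at ha
  rw [ha]
  exact hy

private theorem ink_pow {B : Set F} {y : F} (hcr : CR y) (hy : y ∈ B) (n : ℕ) :
    InK B y (y ^ (n + 1)) := by
  induction n with
  | zero => rw [zero_add, pow_one]; exact ink_y hy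
  | succ n ih => rw [pow_succ]; exact ink_mul hcr ih (ink_y hy)

/-- the property `P e` -/
private def PP (φ : F → L) (B : Set F) (y : F) (e : L) : Prop :=
  ∀ K, InK B y K → ∃ (ρ ρ' : F) (l : List F), IsWord B l ∧ l.prod = ρ * K * ρ' ∧
    nm l.prod = nm ρ + nm K + nm ρ' ∧ φ ρ = e

private theorem trimmed {φ : F → L} (hφ : ∀ x y, φ (x * y) = φ x + φ y) {B : Set F}
    (hker : ∀ b ∈ B, φ b = 0) {R : ℕ} (hR : ∀ b ∈ B, nm b ≤ R) (l : List F) (hl : IsWord B l)
    (ρ K ρ' : F) (hK : K ≠ 1) (h : l.prod = ρ * K * ρ') (hadd : nm l.prod = nm ρ + nm K + nm ρ') :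
    ∃ (ρ1 ρ1' : F) (l2 : List F), IsWord B l2 ∧ l2.prod = ρ1 * K * ρ1' ∧
      nm l2.prod = nm ρ1 + nm K + nm ρ1' ∧ φ ρ1 = φ ρ ∧ nm ρ1 ≤ R ∧ nm ρ1' ≤ R := by
  obtain ⟨l1, l2, l3, hll, h1, h2, h3⟩ := trim l (fun b hb => hR b (hl b hb)) ρ K ρ' hK h hadd
  have hw1 : IsWord B l1 := fun a ha => hl a (by rw [hll]; simp [ha])
  have hw2 : IsWord B l2 := fun a ha => hl a (by rw [hll]; simp [ha])
  refine ⟨l1.prod⁻¹ * ρ, (ρ * K)⁻¹ * (l1.prod * l2.prod), l2, hw2, by group, h3, ?_, h1, h2⟩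
  rw [hφ, phi_inv hφ, phi_word hφ hker l1 hw1, neg_zero, zero_add]

private theorem finite_ball (R : ℕ) : {x : F | nm x ≤ R}.Finite := by
  have h1 : {l : List (Fin 3 × Bool) | l.length ≤ R}.Finite := List.finite_length_le _ R
  have h2 : {x : F | nm x ≤ R} = FreeGroup.toWord ⁻¹' {l | l.length ≤ R} := rfl
  rw [h2]
  exact h1.preimage (FreeGroup.toWord_injective.injOn)

private theorem pp_add {φ : F → L} (hφ : ∀ x y, φ (x * y) = φ x + φ y) {B : Set F}
    (hker : ∀ b ∈ B, φ b = 0) {R : ℕ} (hR : ∀ b ∈ B, nm b ≤ R) {y : F} (hy : y ∈ B) (hcr : CR y)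
    {e1 e2 : L} (h1 : PP φ B y e1) (h2 : PP φ B y e2) : PP φ B y (e1 + e2) := by
  intro K hK
  obtain ⟨s0, hs0⟩ := two_rays hcr R
  have hyn := ink_pow hcr hy s0 (B := B)
  have hφy : φ (y ^ (s0 + 1)) = 0 := by
    obtain ⟨⟨l, hl, hlp⟩, -⟩ := hyn
    rw [← hlp]
    exact phi_word hφ hker l hl
  have hK' : InK B y (y ^ (s0 + 1) * K * y ^ (s0 + 1)) := ink_mul hcr (ink_mul hcr hyn hK) hyn
  obtain ⟨ρ0, ρ0', l0, hl0, hp0, ha0, he0⟩ := h1 _ hK'
  obtain ⟨ρ, ρ', l2, hl2, hp2, ha2, he2, hnρ, hnρ'⟩ :=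
    trimmed hφ hker hR l0 hl0 ρ0 _ ρ0' (ink_ne hcr hK') hp0 ha0
  obtain ⟨pa1, sa1⟩ := hs0 ρ hnρ (s0 + 1) (s0 + 1) (Nat.le_succ _) (Nat.le_succ _)
  obtain ⟨pa2, sa2⟩ := hs0 ρ' hnρ' (s0 + 1) (s0 + 1) (Nat.le_succ _) (Nat.le_succ _)
  have hKne := ink_ne hcr hK
  set a1 := y ^ (s0 + 1) * ρ * y ^ (s0 + 1) with ha1
  set a2 := y ^ (s0 + 1) * ρ' * y ^ (s0 + 1) with ha2'
  have r1 : Red a1 K := red_of_suf_pre hcr sa1 hK.2.1
  have r2 : Red K a2 := red_of_suf_pre hcr hK.2.2 pa2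
  have hn3 := red_three r1 r2 hKne
  have hK'' : InK B y (a1 * K * a2) := by
    refine ⟨?_, ?_, ?_⟩
    · obtain ⟨⟨l, hl, hlp⟩, -⟩ := hyn
      refine ⟨l ++ l2 ++ l, isWord_append (isWord_append hl hl2) hl, ?_⟩
      rw [List.prod_append, List.prod_append, hlp, hp2, ha1, ha2']
      group
    · rw [mul_assoc]
      exact pre_mul pa1 (red_mul_right r1 r2 hKne)
    · exact suf_mul sa2 (red_mul_left r1 r2 hKne)
  obtain ⟨σ, σ', l3, hl3, hp3, ha3, he3⟩ := h2 _ hK''
  refine ⟨σ * a1, a2 * σ', l3, hl3, ?_, ?_, ?_⟩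
  · rw [hp3]
    group
  · have q1 := nm_mul_le σ a1
    have q2 := nm_mul_le a2 σ'
    have q3 := nm_mul_le (σ * a1 * K) (a2 * σ')
    have q4 := nm_mul_le (σ * a1) K
    have q5 : l3.prod = σ * a1 * K * (a2 * σ') := by rw [hp3]; group
    rw [← q5] at q3
    omega
  · rw [hφ, he3, ha1, hφ, hφ, hφy, he2, he0, zero_add, add_zero, add_comm]

private theorem pp_zero (htf : ∀ (x : L) (n : ℕ), n ≠ 0 → n • x = 0 → x = 0)
    {φ : F → L} (hφ : ∀ x y, φ (x * y) = φ x + φ y) {B : Set F}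
    (hker : ∀ b ∈ B, φ b = 0) {R : ℕ} (hR : ∀ b ∈ B, nm b ≤ R) {y : F} (hy : y ∈ B) (hcr : CR y)
    {e : L} (h : PP φ B y e) : e = 0 := by
  by_contra hne
  have hk : ∀ k : ℕ, PP φ B y ((k + 1) • e) := by
    intro k
    induction k with
    | zero => rw [zero_add, one_smul]; exact h
    | succ k ih =>
      rw [succ_nsmul]
      exact pp_add hφ hker hR hy hcr ih h
  have hinj : Function.Injective (fun k : ℕ => (k + 1) • e) := by
    have key : ∀ a b : ℕ, a < b → (a + 1) • e ≠ (b + 1) • e := by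
      intro a b hab heq
      have h1 : (b + 1) • e = (a + 1) • e + (b - a) • e := by
        rw [← add_smul]
        congr 1
        omega
      rw [h1] at heq
      have h2 := left_eq_add.1 heq
      exact hne (htf e (b - a) (by omega) h2)
    intro a b hab
    rcases lt_trichotomy a b with h1 | h1 | h1
    · exact absurd hab (key a b h1)
    · exact h1
    · exact absurd hab.symm (key b a h1)
  have hfin : (φ '' {x : F | nm x ≤ R}).Finite := (finite_ball R).image φ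
  refine Set.infinite_of_injective_forall_mem hinj (s := φ '' {x : F | nm x ≤ R}) ?_ hfin
  intro k
  obtain ⟨ρ, ρ', l, hl, hp, ha, he⟩ := hk k y (ink_y hy)
  obtain ⟨ρ1, ρ1', l2, -, -, -, he1, hn, -⟩ := trimmed hφ hker hR l hl ρ y ρ' hcr.1 hp ha
  exact ⟨ρ1, hn, he1.trans he⟩

private theorem avoid (htf : ∀ (x : L) (n : ℕ), n ≠ 0 → n • x = 0 → x = 0)
    {φ : F → L} (hφ : ∀ x y, φ (x * y) = φ x + φ y) {B : Set F}
    (hker : ∀ b ∈ B, φ b = 0) {R : ℕ} (hR : ∀ b ∈ B, nm b ≤ R) {y : F} (hy : y ∈ B) (hcr : CR y)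
    (S : Set L) (hS : S.Finite) : ∃ K, InK B y K ∧ ∀ (ρ ρ' : F) (l : List F), IsWord B l →
      l.prod = ρ * K * ρ' → nm l.prod = nm ρ + nm K + nm ρ' → φ ρ ∈ S → φ ρ = 0 := by
  induction S, hS using Set.Finite.induction_on with
  | empty => exact ⟨y, ink_y hy, fun _ _ _ _ _ _ h => absurd h (Set.notMem_empty _)⟩
  | @insert e S _ _ ih =>
    obtain ⟨K, hK, hKS⟩ := ih
    by_cases he : e = 0
    · refine ⟨K, hK, fun ρ ρ' l hl hp ha hmem => ?_⟩
      rcases Set.mem_insert_iff.1 hmem with h1 | h1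
      · rw [h1, he]
      · exact hKS ρ ρ' l hl hp ha h1
    · have hnP : ¬ PP φ B y e := fun h => he (pp_zero htf hφ hker hR hy hcr h)
      unfold PP at hnP
      push Not at hnP
      obtain ⟨Ke, hKe, hno⟩ := hnP
      refine ⟨K * Ke, ink_mul hcr hK hKe, fun ρ ρ' l hl hp ha hmem => ?_⟩
      have hr : Red K Ke := red_of_suf_pre hcr hK.2.2 hKe.2.1
      unfold Red at hr
      have hφK : φ K = 0 := by
        obtain ⟨⟨l', hl', hlp⟩, -⟩ := hK
        rw [← hlp]
        exact phi_word hφ hker l' hl'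
      have q5 : l.prod = ρ * K * (Ke * ρ') := by rw [hp]; group
      have q6 : l.prod = ρ * K * Ke * ρ' := by rw [hp]; group
      have q1 := nm_mul_le (ρ * K) (Ke * ρ')
      have q2 := nm_mul_le ρ K
      have q3 := nm_mul_le Ke ρ'
      rw [← q5] at q1
      rcases Set.mem_insert_iff.1 hmem with h1 | h1
      · exfalso
        refine hno (ρ * K) ρ' l hl q6 (by omega) ?_
        rw [hφ, hφK, add_zero, h1]
      · exact hKS ρ (Ke * ρ') l hl q5 (by omega) h1

end KillerAux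

theorem killer {L : Type} [AddCommGroup L]
    (htf : ∀ (x : L) (n : ℕ), n ≠ 0 → n • x = 0 → x = 0)
    (φ : F → L) (hφ : ∀ x y, φ (x * y) = φ x + φ y) (B : Set F) (hB : B.Finite)
    (hker : ∀ b ∈ B, φ b = 0) (y : F) (hy : y ∈ B) (hcr : CR y) :
    ∃ l : List F, IsWord B l ∧ Pre y l.prod ∧ Suf y l.prod ∧
      ∀ m : List F, IsWord B m → ∀ ρ ρ' : F, m.prod = ρ * l.prod * ρ' →
        nm m.prod = nm ρ + nm l.prod + nm ρ' → φ ρ = 0 := by
  obtain ⟨R, hR⟩ : ∃ R : ℕ, ∀ b ∈ B, nm b ≤ R := by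
    obtain ⟨R, hR⟩ := (hB.image (fun b => nm b)).bddAbove
    exact ⟨R, fun b hb => hR ⟨b, hb, rfl⟩⟩
  obtain ⟨K, hK, hKS⟩ := avoid htf hφ hker hR hy hcr (φ '' {x : F | nm x ≤ R})
    ((finite_ball R).image φ)
  have hKne := ink_ne hcr hK
  obtain ⟨⟨l, hl, rfl⟩, hp, hs⟩ := hK
  refine ⟨l, hl, hp, hs, fun m hm ρ ρ' h1 h2 => ?_⟩
  obtain ⟨ρ1, ρ1', l2, -, -, -, he1, hn, -⟩ := trimmed hφ hker hR m hm ρ l.prod ρ' hKne h1 h2
  exact hKS ρ ρ' m hm h1 h2 ⟨ρ1, hn, he1⟩

end Pool.Agent.FTP
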