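import Mathlib
import Pool.Agent.FTP.Defs
import Pool.Agent.FTP.TreeA
import Pool.Agent.FTP.TreeC
import Pool.Agent.FTP.TreeD
import Pool.Agent.FTP.Kill
import Pool.Agent.FTP.LineAlg

/-!
# FTP / KillPair: the killer lemma for exponent vectors, and a word with killers in both factors

`killer_inLine`: the killer lemma `killer` for `φ x = lineMap a (vec x)`.

`killPair`: let `M ⊆ F x F` be finite, all elements with exponent vectors `(a, b)`, and let
`z1 = (x1, y1) ∈ M` with `x1, y1` cyclically reduced. Then there is a word `l0` in `M` with product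
`(x0, y0)`, `x0` and `y0` cyclically reduced, such that every word `l` in `M` whose first component is a
reduced product `ρ * x0 * ρ'` has `InLine a (vec ρ)`, and similarly for the second components and `b`.

Proof. Let `B1, B2` be the sets of first and second components of elements of `M`. By `killer_inLine` there
are killers: `K1`, a product of a word `k1` in `B1` which begins and ends with `x1`, and `K2` a
product of a word in `B2` which begins and ends with `y1`. Lift the words to words `l1, l2` in `M`: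
`l1.prod = (K1, z1')`, `l2.prod = (z2', K2)`. Let `s` be at least the constants of `two_rays` for
`x1` with the radius `nm z2'` and for `y1` with the radius `nm z1'`, `s ≥ 1`. Put
`l0 = z1^s ++ l1 ++ z1^s ++ l2 ++ z1^s` (`z1^s` = `List.replicate s z1`). Then
`x0 = x1^s * K1 * (x1^s z2' x1^s)`, `y0 = (y1^s z1' y1^s) * K2 * y1^s`; by `two_rays` the elements in
brackets begin and end with `x1` resp. `y1`, so both are reduced products of three factors, and `x0`
begins and ends with `x1`, so it is cyclically reduced (`cr_of_ends`), `y0` too.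
If `l.prod.1 = ρ x0 ρ'` is reduced then it is the reduced product
`(ρ x1^s) * K1 * ((x1^s z2' x1^s) ρ')`, so `InLine a (vec (ρ x1^s))`, and
`vec (x1 ^ s) = s a`. Second components: `l.prod.2 = (ρ (y1^s z1' y1^s)) * K2 * (y1^s ρ')` and the
vector of `y1^s z1' y1^s` is a multiple of `b` (all elements of `M` have second vector `b`).
-/

namespace Pool.Agent.FTP

theorem killer_inLine (a : Fin 3 → ℤ) (B : Set F) (hB : B.Finite)
    (hker : ∀ b ∈ B, InLine a (vec b)) (y : F) (hy : y ∈ B) (hcr : CR y) :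
    ∃ l : List F, IsWord B l ∧ Pre y l.prod ∧ Suf y l.prod ∧
      ∀ m : List F, IsWord B m → ∀ ρ ρ' : F, m.prod = ρ * l.prod * ρ' →
        nm m.prod = nm ρ + nm l.prod + nm ρ' → InLine a (vec ρ) := by
  obtain ⟨l, h1, h2, h3, h4⟩ := killer (L := (Fin 3 → Fin 3 → ℤ) × (Fin 3 → ℤ))
    lineMap_torsion_free (fun x => lineMap a (vec x))
    (fun x y => by
      show lineMap a (vec (x * y)) = lineMap a (vec x) + lineMap a (vec y)
      rw [vec_mul, lineMap_add]) B hB
    (fun b hb => (lineMap_eq_zero a (vec b)).2 (hker b hb)) y hy hcr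
  exact ⟨l, h1, h2, h3, fun m hm ρ ρ' he hn => (lineMap_eq_zero a (vec ρ)).1 (h4 m hm ρ ρ' he hn)⟩

private theorem prod_fst (l : List (F × F)) : l.prod.1 = (l.map Prod.fst).prod := by
  induction l with
  | nil => rfl
  | cons a l ih => rw [List.prod_cons, Prod.fst_mul, ih, List.map_cons, List.prod_cons]

private theorem prod_snd (l : List (F × F)) : l.prod.2 = (l.map Prod.snd).prod := by
  induction l with
  | nil => rfl
  | cons a l ih => rw [List.prod_cons, Prod.snd_mul, ih, List.map_cons, List.prod_cons]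

private theorem lift_word {f : F × F → F} {M : Set (F × F)} (k : List F)
    (hk : IsWord (f '' M) k) : ∃ l : List (F × F), IsWord M l ∧ l.map f = k := by
  induction k with
  | nil => exact ⟨[], fun a ha => absurd ha (List.not_mem_nil), rfl⟩
  | cons a k ih =>
    obtain ⟨l, hl, hlk⟩ := ih (fun b hb => hk b (List.mem_cons_of_mem a hb))
    obtain ⟨z, hz, hza⟩ := hk a List.mem_cons_self
    refine ⟨z :: l, ?_, by rw [List.map_cons, hza, hlk]⟩
    intro b hb
    rcases List.mem_cons.1 hb with rfl | hb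
    · exact hz
    · exact hl b hb

private theorem word_map {f : F × F → F} {M : Set (F × F)} {l : List (F × F)}
    (hl : IsWord M l) : IsWord (f '' M) (l.map f) := by
  intro b hb
  obtain ⟨z, hz, rfl⟩ := List.mem_map.1 hb
  exact ⟨z, hl z hz, rfl⟩

/-- a reduced product of three factors which begin and end with `u` -/
private theorem three_cr {u A K C : F} (h : CR u) (hA1 : Pre u A) (hA2 : Suf u A)
    (hK1 : Pre u K) (hK2 : Suf u K) (hC1 : Pre u C) (hC2 : Suf u C) :
    CR (A * K * C) ∧ nm (A * K * C) = nm A + nm K + nm C := by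
  have hAK := red_of_suf_pre h hA2 hK1
  have hKC := red_of_suf_pre h hK2 hC1
  have hK : K ≠ 1 := by
    intro e
    have h1 := pre_nm_le hK1
    have h2 := cr_nm_pos h
    rw [e, nm_one] at h1
    omega
  have hAKC := red_mul_left hAK hKC hK
  exact ⟨cr_of_ends h (pre_mul (pre_mul hA1 hAK) hAKC) (suf_mul hC2 hAKC), red_three hAK hKC hK⟩

private theorem pow_ends {u : F} (h : CR u) (s : ℕ) : Pre u (u ^ (s + 1)) ∧ Suf u (u ^ (s + 1)) := by
  constructor
  · have h1 := cr_red_pow h 1 s
    rw [pow_one] at h1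
    rw [pow_succ']
    exact pre_mul_of_red h1
  · have h1 := cr_red_pow h s 1
    rw [pow_one] at h1
    rw [pow_succ]
    exact suf_mul_of_red h1

/-- lengths in a reduced product with a middle factor `A * K * C` -/
private theorem mid_len {ρ ρ' A K C m : F} (he : m = ρ * (A * K * C) * ρ')
    (hn : nm m = nm ρ + nm (A * K * C) + nm ρ') (h3 : nm (A * K * C) = nm A + nm K + nm C) :
    m = (ρ * A) * K * (C * ρ') ∧ nm m = nm (ρ * A) + nm K + nm (C * ρ') := by
  have e : m = (ρ * A) * K * (C * ρ') := by rw [he]; group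
  refine ⟨e, ?_⟩
  have h1 := nm_mul_le (ρ * A * K) (C * ρ')
  have h2 := nm_mul_le (ρ * A) K
  have h4 := nm_mul_le ρ A
  have h5 := nm_mul_le C ρ'
  rw [← e] at h1
  omega

theorem killPair (M : Set (F × F)) (hM : M.Finite) (a b : Fin 3 → ℤ)
    (hab : ∀ z ∈ M, vec z.1 = a ∧ vec z.2 = b) (z1 : F × F) (hz1 : z1 ∈ M) (h1 : CR z1.1)
    (h2 : CR z1.2) :
    ∃ l0 : List (F × F), IsWord M l0 ∧ CR l0.prod.1 ∧ CR l0.prod.2 ∧
      (∀ l : List (F × F), IsWord M l → ∀ ρ ρ' : F, l.prod.1 = ρ * l0.prod.1 * ρ' →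
        nm l.prod.1 = nm ρ + nm l0.prod.1 + nm ρ' → InLine a (vec ρ)) ∧
      (∀ l : List (F × F), IsWord M l → ∀ ρ ρ' : F, l.prod.2 = ρ * l0.prod.2 * ρ' →
        nm l.prod.2 = nm ρ + nm l0.prod.2 + nm ρ' → InLine b (vec ρ)) := by
  obtain ⟨k1, hk1, hk1p, hk1s, kill1⟩ := killer_inLine a (Prod.fst '' M) (hM.image _)
    (by
      rintro _ ⟨z, hz, rfl⟩
      rw [(hab z hz).1]
      exact inLine_self a) z1.1 ⟨z1, hz1, rfl⟩ h1
  obtain ⟨k2, hk2, hk2p, hk2s, kill2⟩ := killer_inLine b (Prod.snd '' M) (hM.image _)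
    (by
      rintro _ ⟨z, hz, rfl⟩
      rw [(hab z hz).2]
      exact inLine_self b) z1.2 ⟨z1, hz1, rfl⟩ h2
  obtain ⟨l1, hl1, hl1k⟩ := lift_word k1 hk1
  obtain ⟨l2, hl2, hl2k⟩ := lift_word k2 hk2
  have e1 : l1.prod.1 = k1.prod := by rw [prod_fst, hl1k]
  have e2 : l2.prod.2 = k2.prod := by rw [prod_snd, hl2k]
  obtain ⟨s1, hs1⟩ := two_rays h1 (nm l2.prod.1)
  obtain ⟨s2, hs2⟩ := two_rays h2 (nm l1.prod.2)
  obtain ⟨s, hs⟩ : ∃ s, s = s1 + s2 + 1 := ⟨_, rfl⟩
  have hA1 := hs1 l2.prod.1 le_rfl s s (by omega) (by omega)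
  have hA2 := hs2 l1.prod.2 le_rfl s s (by omega) (by omega)
  have hx : Pre z1.1 (z1.1 ^ s) ∧ Suf z1.1 (z1.1 ^ s) := by
    rw [hs]; exact pow_ends h1 _
  have hy : Pre z1.2 (z1.2 ^ s) ∧ Suf z1.2 (z1.2 ^ s) := by
    rw [hs]; exact pow_ends h2 _
  obtain ⟨c1, n1⟩ := three_cr h1 hx.1 hx.2 hk1p hk1s hA1.1 hA1.2
  obtain ⟨c2, n2⟩ := three_cr h2 hA2.1 hA2.2 hk2p hk2s hy.1 hy.2
  have hrep : IsWord M (List.replicate s z1) := fun z hz => by
    rw [List.eq_of_mem_replicate hz]; exact hz1
  obtain ⟨l0, hl0⟩ : ∃ l0 : List (F × F), l0 = List.replicate s z1 ++ l1 ++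
    List.replicate s z1 ++ l2 ++ List.replicate s z1 := ⟨_, rfl⟩
  have hw : IsWord M l0 := by
    rw [hl0]
    intro z hz
    simp only [List.mem_append] at hz
    rcases hz with (((hz | hz) | hz) | hz) | hz
    · exact hrep z hz
    · exact hl1 z hz
    · exact hrep z hz
    · exact hl2 z hz
    · exact hrep z hz
  have hp1 : l0.prod.1 = z1.1 ^ s * k1.prod * (z1.1 ^ s * l2.prod.1 * z1.1 ^ s) := by
    rw [hl0]
    simp only [List.prod_append, List.prod_replicate, Prod.fst_mul, Prod.pow_fst]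
    rw [e1]
    group
  have hp2 : l0.prod.2 = (z1.2 ^ s * l1.prod.2 * z1.2 ^ s) * k2.prod * z1.2 ^ s := by
    rw [hl0]
    simp only [List.prod_append, List.prod_replicate, Prod.snd_mul, Prod.pow_snd]
    rw [e2]
  have v1 : InLine a (vec (z1.1 ^ s)) := by
    rw [vec_pow, (hab z1 hz1).1]
    exact inLine_nsmul s (inLine_self a)
  have v2 : InLine b (vec (z1.2 ^ s)) := by
    rw [vec_pow, (hab z1 hz1).2]
    exact inLine_nsmul s (inLine_self b)
  have v3 : InLine b (vec l1.prod.2) := by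
    rw [prod_snd]
    apply inLine_list_prod
    intro c hc
    obtain ⟨z, hz, rfl⟩ := List.mem_map.1 hc
    rw [(hab z (hl1 z hz)).2]
    exact inLine_self b
  have v4 : InLine b (vec (z1.2 ^ s * l1.prod.2 * z1.2 ^ s)) := by
    rw [vec_mul, vec_mul]
    exact inLine_add (inLine_add v2 v3) v2
  refine ⟨l0, hw, by rw [hp1]; exact c1, by rw [hp2]; exact c2, ?_, ?_⟩
  · intro l hl ρ ρ' he hn
    rw [hp1] at he hn
    obtain ⟨he', hn'⟩ := mid_len he hn n1
    rw [prod_fst l] at he' hn'
    have h := kill1 _ (word_map hl) _ _ he' hn'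
    have h3 := inLine_sub h v1
    rw [vec_mul, add_sub_cancel_right] at h3
    exact h3
  · intro l hl ρ ρ' he hn
    rw [hp2] at he hn
    obtain ⟨he', hn'⟩ := mid_len he hn n2
    rw [prod_snd l] at he' hn'
    have h := kill2 _ (word_map hl) _ _ he' hn'
    have h3 := inLine_sub h v4
    rw [vec_mul, add_sub_cancel_right] at h3
    exact h3

end Pool.Agent.FTP
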