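import Mathlib
import Pool.Agent.FTP.Defs
import Pool.Agent.FTP.TreeA
import Pool.Agent.FTP.TreeB
import Pool.Agent.FTP.TreeC
import Pool.Agent.FTP.Near
import Pool.Agent.FTP.T1Near

/-!
# FTP / RateSplit: splitting long cycles

Setting: `M ⊆ F x F` a set of letters with norms at most `R` in both factors; `τ : F → ℤ` additive,
`|τ x| ≤ nm x`, `τ z.1 = α ≥ 1` for all letters; `x, y` cyclically reduced, `τ x = α u`, `u ≥ 1`.
`Cyc M x y i j`: some word `l` in `M` has product `(σ1⁻¹ x^i σ1, σ2⁻¹ y^j σ2)`. Its length is `i * u`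
(apply `τ`: `α * length = i * α * u`).

Claim: there is `S` such that every cycle `(i, j)` with `j > S` splits: `(i, j) = (i1, j1) + (i2, j2)` with
cycles `(i1, j1)`, `(i2, j2)` and `j1, j2 ≥ 1`.

Proof. `S` = (number of elements of norm `≤ c0`) * (number of elements of norm `≤ R`),
`c0 = R + 2R^2 + nm x` (finite: `Fin 3` has finitely many words of bounded length). Let `l, σ1, σ2` be a
cycle, `ℓ = l.length = i u`, and `j > S`; `ℓ ≥ 1` since `y^j ≠ 1`. For `n` large consider the path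
`γ t = (σ1, σ2) * (prefix of length t of l^n)`, `0 ≤ t ≤ nℓ` (`l^n` = `(List.replicate n l).flatten`).
Then `γ (t + ℓ) = (x^i, y^j) * γ t`, `γ (nℓ) = (x^(in) σ1, y^(jn) σ2)`.
(1) First factor: by `t1near` (with `B = 1`, `w = x`, `ν = i n`, `Q = fun _ => False`, `c1 = 0`,
    `R1 = nm σ1`; rigidity: `α (s' - s) = τ (..) ≤ nm ((γ s).1⁻¹ (γ s').1)`), there is a constant
    `C` (independent of `n`) such that for all `t ∈ [C, nℓ - C]`: `(γ t).1 = x^m r1`, `nm r1 ≤ c0`.
(2) Second factor: for a level `a ≥ 1` in the middle range let `s_a` be the last exit time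
    (`last_exit` with `p = y^a`): `Pre (y^a) (γ t).2` for all `t ≥ s_a`, and `(γ s_a).2 = y^a r2`,
    `nm r2 ≤ R`. Since `(γ (kℓ + r)).2 = y^(jk) (γ r).2` and `nm (γ r).2 ≤ nm σ2 + R ℓ` for `r ≤ ℓ`,
    `s_a` is between `(k1) ℓ` and `(k2) ℓ` whenever `j k1 nm y + nm σ2 + R ℓ < a nm y` and
    `a nm y + nm σ2 + R ℓ ≤ j k2 nm y` (`pre_stable`). So for `k0` large, `n = 2 k0 + ...` large, and
    `a ∈ [j k0, j k0 + j)`, the times `s_a` and `s_a + ℓ` lie in `[C, nℓ - C]`.
(3) If `Pre (y^a) z`, `a ≥ 1`, then `Pre (y^(a + j)) (y^j z)` (reducedness: `z = y^a z'`, the junctions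
    `y^j | y^a` and `y^a | z'` are reduced, `y^a ≠ 1`; `red_three`). So for `a < b < a + j` and
    `t ≥ s_a + ℓ`: `(γ t).2 = y^j (γ (t - ℓ)).2` has the prefix `y^(a + j)`, hence `y^b`; therefore
    `s_b ≤ s_a + ℓ`; clearly `s_a ≤ s_b`.
(4) Pigeonhole: among the `j > S` levels `a ∈ [j k0, j k0 + j)` two, `a < b`, have the same pair
    `(r1, r2)`. Let `(γ s_a).1 = x^m r1`, `(γ s_b).1 = x^m' r1`. The word between the times `s_a` and `s_b` has
    product `(r1⁻¹ x^(m'-m) r1, r2⁻¹ y^(b-a) r2)` where `m ≤ m'` because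
    `α (s_b - s_a) = (m' - m) α u`; the word between `s_b` and `s_a + ℓ` has product
    `(r1⁻¹ x^(i + m - m') r1, r2⁻¹ y^(j + a - b) r2)`, where `i + m - m' ≥ 0` for the same reason.
    So `i1 = m' - m`, `j1 = b - a`, `i2 = i - i1`, `j2 = j - j1`.
-/

set_option linter.all false

namespace Pool.Agent.FTP

/-- cycles: words over `M` whose components are conjugates of `x ^ i` and `y ^ j` -/
def Cyc (M : Set (F × F)) (x y : F) (i j : ℕ) : Prop :=
  ∃ (l : List (F × F)) (σ1 σ2 : F), IsWord M l ∧ l.prod.1 = σ1⁻¹ * x ^ i * σ1 ∧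
    l.prod.2 = σ2⁻¹ * y ^ j * σ2

private theorem rsp_tau_one {τ : F → ℤ} (hτ : ∀ x y, τ (x * y) = τ x + τ y) : τ 1 = 0 := by
  have h := hτ 1 1
  rw [mul_one] at h
  omega

private theorem rsp_tau_inv {τ : F → ℤ} (hτ : ∀ x y, τ (x * y) = τ x + τ y) (x : F) :
    τ x⁻¹ = - τ x := by
  have h := hτ x⁻¹ x
  rw [inv_mul_cancel, rsp_tau_one hτ] at h
  omega

private theorem rsp_tau_pow {τ : F → ℤ} (hτ : ∀ x y, τ (x * y) = τ x + τ y) (x : F) (n : ℕ) :
    τ (x ^ n) = n * τ x := by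
  induction n with
  | zero => rw [pow_zero, rsp_tau_one hτ]; simp
  | succ n ih => rw [pow_succ, hτ, ih]; push_cast; ring

private theorem rsp_tau_word {M : Set (F × F)} {τ : F → ℤ} (hτ : ∀ x y, τ (x * y) = τ x + τ y)
    {α : ℕ} (hM : ∀ z ∈ M, τ z.1 = α) : ∀ {l : List (F × F)}, IsWord M l →
      τ l.prod.1 = α * l.length
  | [], _ => by
    simp only [List.prod_nil, Prod.fst_one, rsp_tau_one hτ, List.length_nil]
    simp
  | z :: l, hl => by
    have h1 : z ∈ M := hl z (by simp)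
    have h2 : IsWord M l := fun a ha => hl a (by simp [ha])
    rw [List.prod_cons, Prod.fst_mul, hτ, hM z h1, rsp_tau_word hτ hM h2, List.length_cons]
    push_cast
    ring

theorem cyc_length {M : Set (F × F)} {τ : F → ℤ} (hτ : ∀ x y, τ (x * y) = τ x + τ y) {α u : ℕ}
    (hα : 1 ≤ α) (hM : ∀ z ∈ M, τ z.1 = α) {x : F} (hx : τ x = α * u) {l : List (F × F)}
    (hl : IsWord M l) {σ : F} {i : ℕ} (h : l.prod.1 = σ⁻¹ * x ^ i * σ) : l.length = i * u := by
  have h1 := rsp_tau_word hτ hM hl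
  rw [h, hτ, hτ, rsp_tau_inv hτ, rsp_tau_pow hτ, hx] at h1
  have h2 : (α : ℤ) * (l.length : ℤ) = α * (i * u : ℕ) := by
    push_cast
    linarith
  have h3 : (α : ℤ) ≠ 0 := by exact_mod_cast (by omega : α ≠ 0)
  exact_mod_cast mul_left_cancel₀ h3 h2

private theorem rsp_finite (c : ℕ) : {g : F | nm g ≤ c}.Finite := by
  have h := List.finite_length_le (Fin 3 × Bool) c
  exact h.preimage (FreeGroup.toWord_injective.injOn)

/-- cyclic letters -/
private noncomputable def lt (l : List (F × F)) (t : ℕ) : F × F := l.getD (t % l.length) 1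

/-- the periodic path -/
private noncomputable def pth (l : List (F × F)) (σ : F × F) (t : ℕ) : F × F :=
  σ * ((List.range t).map (lt l)).prod

private theorem pth_zero (l : List (F × F)) (σ : F × F) : pth l σ 0 = σ := by simp [pth]

private theorem pth_succ (l : List (F × F)) (σ : F × F) (t : ℕ) :
    pth l σ (t + 1) = pth l σ t * lt l t := by
  unfold pth
  rw [List.range_succ, List.map_append, List.prod_append, mul_assoc]
  simp

private theorem lt_mem {M : Set (F × F)} {l : List (F × F)} (hl : IsWord M l) (h0 : 0 < l.length)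
    (t : ℕ) : lt l t ∈ M := by
  unfold lt
  have h : t % l.length < l.length := Nat.mod_lt _ h0
  rw [List.getD_eq_getElem _ _ h]
  exact hl _ (List.getElem_mem h)

private theorem lt_period (l : List (F × F)) (t : ℕ) : lt l (t + l.length) = lt l t := by
  unfold lt
  rw [Nat.add_mod_right]

private theorem pth_length (l : List (F × F)) (σ : F × F) : pth l σ l.length = σ * l.prod := by
  unfold pth
  congr 2
  apply List.ext_getElem
  · simp
  · intro n h1 h2
    simp only [List.getElem_map, List.getElem_range]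
    unfold lt
    rw [Nat.mod_eq_of_lt h2, List.getD_eq_getElem _ _ h2]

private theorem pth_period (l : List (F × F)) (σ g : F × F) (hg : σ * l.prod = g * σ) (t : ℕ) :
    pth l σ (t + l.length) = g * pth l σ t := by
  induction t with
  | zero => rw [Nat.zero_add, pth_length, hg, pth_zero]
  | succ t ih =>
    have e : t + 1 + l.length = (t + l.length) + 1 := by omega
    rw [e, pth_succ, ih, lt_period, pth_succ, mul_assoc]

private theorem pth_periods (l : List (F × F)) (σ g : F × F) (hg : σ * l.prod = g * σ) (t k : ℕ) :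
    pth l σ (t + k * l.length) = g ^ k * pth l σ t := by
  induction k with
  | zero => simp
  | succ k ih =>
    have e : t + (k + 1) * l.length = (t + k * l.length) + l.length := by ring
    rw [e, pth_period l σ g hg, ih, pow_succ', mul_assoc]

private theorem pth_word {M : Set (F × F)} {l : List (F × F)} (hl : IsWord M l)
    (h0 : 0 < l.length) (σ : F × F) (s k : ℕ) :
    ∃ w : List (F × F), IsWord M w ∧ w.length = k ∧ pth l σ s * w.prod = pth l σ (s + k) := by
  induction k with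
  | zero => exact ⟨[], by intro a ha; simp at ha, rfl, by simp⟩
  | succ k ih =>
    obtain ⟨w, h1, h2, h3⟩ := ih
    refine ⟨w ++ [lt l (s + k)], ?_, by simp [h2], ?_⟩
    · intro a ha
      rw [List.mem_append] at ha
      rcases ha with ha | ha
      · exact h1 a ha
      · rw [List.mem_singleton] at ha
        rw [ha]
        exact lt_mem hl h0 _
    · rw [List.prod_append, ← mul_assoc, h3]
      have e : s + (k + 1) = (s + k) + 1 := rfl
      rw [e, pth_succ]
      simp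

private theorem pth_word' {M : Set (F × F)} {l : List (F × F)} (hl : IsWord M l)
    (h0 : 0 < l.length) (σ : F × F) {s s' : ℕ} (h : s ≤ s') :
    ∃ w : List (F × F), IsWord M w ∧ w.length = s' - s ∧ w.prod = (pth l σ s)⁻¹ * pth l σ s' := by
  obtain ⟨w, h1, h2, h3⟩ := pth_word hl h0 σ s (s' - s)
  rw [Nat.add_sub_cancel' h] at h3
  exact ⟨w, h1, h2, by rw [← h3, inv_mul_cancel_left]⟩

private theorem pre_shift {y z : F} (hy : CR y) {a : ℕ} (ha : 1 ≤ a) (j : ℕ)
    (h : Pre (y ^ a) z) : Pre (y ^ (a + j)) (y ^ j * z) := by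
  have h1 : Red (y ^ a) ((y ^ a)⁻¹ * z) := (pre_iff_red _ _).1 h
  have h2 : Red (y ^ j) (y ^ a * ((y ^ a)⁻¹ * z)) :=
    red_mul_right (cr_red_pow hy j a) h1 (cr_pow hy ha).1
  rw [mul_inv_cancel_left] at h2
  have h3 := pre_mul_pre h2 h
  rwa [← pow_add, add_comm j a] at h3

private theorem pre_pow {y : F} (hy : CR y) {a b : ℕ} (h : a ≤ b) : Pre (y ^ a) (y ^ b) := by
  obtain ⟨k, rfl⟩ := Nat.exists_eq_add_of_le h
  rw [pow_add]
  exact pre_mul_of_red (cr_red_pow hy a k)

theorem rate_split (M : Set (F × F)) (R : ℕ) (hR : ∀ z ∈ M, nm z.1 ≤ R ∧ nm z.2 ≤ R) (τ : F → ℤ)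
    (hτ : ∀ x y, τ (x * y) = τ x + τ y) (hτle : ∀ x, |τ x| ≤ (nm x : ℤ)) (α u : ℕ) (hα : 1 ≤ α)
    (hu : 1 ≤ u) (hM : ∀ z ∈ M, τ z.1 = α) (x y : F) (hx : CR x) (hy : CR y)
    (hτx : τ x = α * u) :
    ∃ S : ℕ, ∀ i j : ℕ, S < j → Cyc M x y i j →
      ∃ i1 j1 i2 j2 : ℕ, Cyc M x y i1 j1 ∧ Cyc M x y i2 j2 ∧ i = i1 + i2 ∧ j = j1 + j2 ∧
        1 ≤ j1 ∧ 1 ≤ j2 := by
  classical
  set c0 := R + 2 * R * R + nm x with hc0
  set A := (rsp_finite c0).toFinset with hA
  set B := (rsp_finite R).toFinset with hB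
  refine ⟨(A ×ˢ B).card, ?_⟩
  rintro i j hj ⟨l, σ1, σ2, hl, h1, h2⟩
  have hlen : l.length = i * u := cyc_length hτ hα hM hτx hl h1
  have hj1 : 1 ≤ j := by omega
  have hypos := cr_nm_pos hy
  have h0 : 0 < l.length := by
    rcases Nat.eq_zero_or_pos l.length with h | h
    · exfalso
      rw [List.length_eq_zero_iff] at h
      rw [h, List.prod_nil, Prod.snd_one] at h2
      have h3 : y ^ j = 1 := by
        have h4 : y ^ j = σ2 * (σ2⁻¹ * y ^ j * σ2) * σ2⁻¹ := by group
        rw [h4, ← h2]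
        group
      exact (cr_pow hy hj1).1 h3
    · exact h
  set ℓ := l.length with hℓ
  set g : F × F := (x ^ i, y ^ j) with hg
  set σ : F × F := (σ1, σ2) with hσ
  have hper : σ * l.prod = g * σ := by
    apply Prod.ext
    · rw [Prod.fst_mul, Prod.fst_mul, h1, hg, hσ]
      group
    · rw [Prod.snd_mul, Prod.snd_mul, h2, hg, hσ]
      group
  set γ : ℕ → F × F := pth l σ with hγ
  have hγp : ∀ t, γ (t + ℓ) = g * γ t := pth_period l σ g hper
  have hγps : ∀ t k, γ (t + k * ℓ) = g ^ k * γ t := pth_periods l σ g hper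
  have hγs : ∀ t, γ (t + 1) = γ t * lt l t := pth_succ l σ
  have hletter : ∀ t, lt l t ∈ M := lt_mem hl h0
  have hγ0 : γ 0 = σ := pth_zero l σ
  -- steps
  have hst1 : ∀ s, nm ((γ s).1⁻¹ * (γ (s + 1)).1) ≤ R := by
    intro s
    rw [hγs, Prod.fst_mul, inv_mul_cancel_left]
    exact (hR _ (hletter s)).1
  have hst2 : ∀ s, nm ((γ s).2⁻¹ * (γ (s + 1)).2) ≤ R := by
    intro s
    rw [hγs, Prod.snd_mul, inv_mul_cancel_left]
    exact (hR _ (hletter s)).2
  -- values of tau
  have hτγ : ∀ t, τ (γ t).1 = τ σ1 + α * t := by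
    intro t
    induction t with
    | zero => rw [hγ0, hσ]; simp
    | succ t ih =>
      rw [hγs, Prod.fst_mul, hτ, ih, hM _ (hletter t)]
      push_cast
      ring
  -- norms
  have hnorm2 : ∀ t, nm (γ t).2 ≤ nm σ2 + R * t := by
    intro t
    induction t with
    | zero => rw [hγ0, hσ]; simp
    | succ t ih =>
      have h3 := nm_mul_le (γ t).2 (lt l t).2
      have h4 := (hR _ (hletter t)).2
      rw [hγs, Prod.snd_mul, Nat.mul_succ]
      omega
  set C := 2 * R + 2 * nm σ1 + 2 with hC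
  -- (1) the first factor is near the axis
  have hnear : ∀ t, C ≤ t → ∃ (m : ℕ) (r : F), nm r ≤ c0 ∧ (γ t).1 = x ^ m * r := by
    intro t ht
    have hb : t + C ≤ (t + C) * ℓ := Nat.le_mul_of_pos_right _ h0
    obtain ⟨e, f, he1, hf1, he2, hf2, hall⟩ := t1near (x := fun t => (γ t).1) (R := R)
      (R1 := nm σ1) (c1 := 0) (a := 0) (b := (t + C) * ℓ) (fun _ => False) (Nat.zero_le _)
      (fun s _ _ => hst1 s)
      (by
        intro s s' _ hss _
        have h3 := hτle ((γ s).1⁻¹ * (γ s').1)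
        rw [hτ, rsp_tau_inv hτ, hτγ, hτγ] at h3
        have h4 : -(τ σ1 + (α : ℤ) * s) + (τ σ1 + α * s') = α * ((s' : ℤ) - s) := by ring
        rw [h4] at h3
        have h5 : (0 : ℤ) ≤ (s' : ℤ) - s := by
          have : (s : ℤ) ≤ s' := by exact_mod_cast hss
          linarith
        have h6 : (1 : ℤ) ≤ α := by exact_mod_cast hα
        have h7 : ((s' : ℤ) - s) ≤ α * ((s' : ℤ) - s) := by nlinarith
        have h8 := le_abs_self ((α : ℤ) * ((s' : ℤ) - s))
        have h9 : ((s' : ℤ) - s) ≤ (nm ((γ s).1⁻¹ * (γ s').1) : ℤ) := by linarith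
        show s' - s ≤ nm ((γ s).1⁻¹ * (γ s').1) + 0 * cnt (fun _ => False) s s'
        omega)
      1 x hx (i * (t + C))
      (by intro m _; rw [one_mul, cr_nm_pow hx, nm_one, Nat.zero_add])
      (by show nm (1⁻¹ * (γ 0).1) ≤ nm σ1; rw [hγ0, hσ]; simp)
      (by
        show nm ((1 * x ^ (i * (t + C)))⁻¹ * (γ ((t + C) * ℓ)).1) ≤ nm σ1
        have h3 := hγps 0 (t + C)
        rw [Nat.zero_add] at h3
        rw [h3, hγ0, Prod.fst_mul, Prod.pow_fst, hg, hσ, one_mul, ← pow_mul, inv_mul_cancel_left])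
      (fun t _ _ => pre_one _)
    obtain ⟨s, s', -, -, -, -, -, h3⟩ := hall t (by omega) (by omega)
    obtain ⟨m, r, -, h4, h5⟩ := h3 (cnt_eq_zero.2 (fun _ _ _ h => h))
    rw [one_mul] at h5
    exact ⟨m, r, h4, h5⟩
  -- (2) last exit times
  set D := nm σ2 + R * ℓ with hD
  have hlate : ∀ a t, (a + D) * ℓ ≤ t → Pre (y ^ a) (γ t).2 := by
    intro a t ht
    have h3 : t = t % ℓ + (t / ℓ) * ℓ := by
      have := Nat.mod_add_div t ℓ
      rw [mul_comm] at this
      exact this.symm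
    have hr : t % ℓ < ℓ := Nat.mod_lt _ h0
    have hk : a + D ≤ t / ℓ := (Nat.le_div_iff_mul_le h0).2 ht
    rw [h3, hγps, Prod.snd_mul, Prod.pow_snd, hg]
    show Pre (y ^ a) ((y ^ j) ^ (t / ℓ) * (γ (t % ℓ)).2)
    rw [← pow_mul]
    have h4 : t / ℓ ≤ j * (t / ℓ) := Nat.le_mul_of_pos_left _ hj1
    have h5 : a ≤ j * (t / ℓ) := by omega
    refine pre_stable (pre_pow hy h5) ?_
    rw [pre_dist (pre_pow hy h5), cr_nm_pow hy, cr_nm_pow hy]
    have h6 := hnorm2 (t % ℓ)
    have h7 : R * (t % ℓ) ≤ R * ℓ := Nat.mul_le_mul_left _ hr.le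
    have h8 : a * nm y + D ≤ j * (t / ℓ) * nm y := by
      calc a * nm y + D ≤ a * nm y + D * nm y := by
            have := Nat.le_mul_of_pos_right D hypos
            omega
        _ = (a + D) * nm y := by ring
        _ ≤ j * (t / ℓ) * nm y := Nat.mul_le_mul_right _ (by omega)
    omega
  set A0 := nm σ2 + R * C with hA0
  have hearly : ∀ a, A0 < a → ¬ Pre (y ^ a) (γ C).2 := by
    intro a ha h3
    have h4 := pre_nm_le h3
    rw [cr_nm_pow hy] at h4
    have h5 := hnorm2 C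
    have h6 : a ≤ a * nm y := Nat.le_mul_of_pos_right _ hypos
    omega
  have hexit : ∀ a, A0 < a → ∃ T, C < T ∧ (∀ v, T ≤ v → Pre (y ^ a) (γ v).2) ∧
      ¬ Pre (y ^ a) (γ (T - 1)).2 ∧ nm ((y ^ a)⁻¹ * (γ T).2) ≤ R := by
    intro a ha
    have hb : C ≤ C + (a + D) * ℓ := Nat.le_add_right _ _
    obtain ⟨T, hT1, hT2, hT3, hT4, hT5⟩ := last_exit (x := fun t => (γ t).2) (R := R) (a := C)
      (b := C + (a + D) * ℓ) (fun s _ _ => hst2 s) hb (p := y ^ a) (hearly a ha)
      (hlate a _ (Nat.le_add_left _ _))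
    refine ⟨T, hT1, fun v hv => ?_, hT4, hT5⟩
    rcases le_or_gt v (C + (a + D) * ℓ) with h | h
    · exact hT3 v hv h
    · exact hlate a v (by omega)
  choose! s hs1 hs2 hs3 hs4 using hexit
  -- (3) comparison of exit times
  have hmono : ∀ a b, A0 < a → a ≤ b → s a ≤ s b := by
    intro a b ha hab
    by_contra hc
    push Not at hc
    have hb : A0 < b := lt_of_lt_of_le ha hab
    have h3 := hs2 b hb (s a - 1) (by omega)
    exact hs3 a ha (pre_trans (pre_pow hy hab) h3)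
  have hperiod : ∀ a b, A0 < a → A0 < b → b ≤ a + j → s b ≤ s a + ℓ := by
    intro a b ha hb hab
    by_contra hc
    push Not at hc
    have h3 := hs2 a ha (s b - 1 - ℓ) (by omega)
    have h4 := pre_shift hy (by omega) j h3
    have h5 : γ (s b - 1) = g * γ (s b - 1 - ℓ) := by
      rw [← hγp]
      congr 1
      omega
    have h6 : (γ (s b - 1)).2 = y ^ j * (γ (s b - 1 - ℓ)).2 := by
      rw [h5, Prod.snd_mul, hg]
    rw [← h6] at h4
    exact hs3 b hb (pre_trans (pre_pow hy hab) h4)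
  -- (4) pigeonhole
  have hnr : ∀ a, A0 < a → ∃ (m : ℕ) (r : F), nm r ≤ c0 ∧ (γ (s a)).1 = x ^ m * r := by
    intro a ha
    exact hnear (s a) (le_of_lt (hs1 a ha))
  choose! mm rr hm1 hm2 using hnr
  obtain ⟨q, hq, q', hq', hne, heq⟩ := Finset.exists_ne_map_eq_of_card_lt_of_maps_to
    (s := Finset.range j) (t := A ×ˢ B)
    (f := fun q => (rr (A0 + 1 + q), (y ^ (A0 + 1 + q))⁻¹ * (γ (s (A0 + 1 + q))).2))
    (by rw [Finset.card_range]; exact hj)
    (by
      intro q _
      rw [Finset.mem_coe, Finset.mem_product, hA, hB, Set.Finite.mem_toFinset,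
        Set.Finite.mem_toFinset]
      exact ⟨hm1 _ (by omega), hs4 _ (by omega)⟩)
  rw [Finset.mem_range] at hq hq'
  simp only [Prod.mk.injEq] at heq
  -- the main computation
  have key : ∀ a b, A0 < a → a < b → b < a + j → rr a = rr b →
      (y ^ a)⁻¹ * (γ (s a)).2 = (y ^ b)⁻¹ * (γ (s b)).2 →
      ∃ i1 j1 i2 j2 : ℕ, Cyc M x y i1 j1 ∧ Cyc M x y i2 j2 ∧ i = i1 + i2 ∧ j = j1 + j2 ∧
        1 ≤ j1 ∧ 1 ≤ j2 := by
    intro a b ha hab hbj hr1 hr2
    have hb : A0 < b := by omega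
    have hsab := hmono a b ha hab.le
    have hsba := hperiod a b ha hb (by omega)
    have e1 : (γ (s a)).1 = x ^ mm a * rr a := hm2 a ha
    have e2 : (γ (s b)).1 = x ^ mm b * rr a := by rw [hr1]; exact hm2 b hb
    have e3 : (γ (s a)).2 = y ^ a * ((y ^ a)⁻¹ * (γ (s a)).2) := by group
    have e4 : (γ (s b)).2 = y ^ b * ((y ^ a)⁻¹ * (γ (s a)).2) := by rw [hr2]; group
    generalize (y ^ a)⁻¹ * (γ (s a)).2 = r2 at e3 e4
    have t1 := hτγ (s a)
    have t2 := hτγ (s b)
    rw [e1, hτ, rsp_tau_pow hτ, hτx] at t1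
    rw [e2, hτ, rsp_tau_pow hτ, hτx] at t2
    have hα0 : (α : ℤ) ≠ 0 := by exact_mod_cast (by omega : α ≠ 0)
    have t3 : ((s b : ℤ) - s a) = ((mm b : ℤ) - mm a) * u := by
      have t4 : (α : ℤ) * ((s b : ℤ) - s a) = α * (((mm b : ℤ) - mm a) * u) := by linarith
      exact mul_left_cancel₀ hα0 t4
    have hu1 : (1 : ℤ) ≤ u := by exact_mod_cast hu
    have t5 : (0 : ℤ) ≤ (s b : ℤ) - s a := by
      have : (s a : ℤ) ≤ s b := by exact_mod_cast hsab
      linarith
    have hmle : mm a ≤ mm b := by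
      by_contra hc
      push Not at hc
      have hc' : ((mm b : ℤ) - mm a) ≤ -1 := by
        have : (mm b : ℤ) < mm a := by exact_mod_cast hc
        linarith
      nlinarith
    have t6 : (0 : ℤ) ≤ (s a : ℤ) + ℓ - s b := by
      have : (s b : ℤ) ≤ s a + ℓ := by exact_mod_cast hsba
      linarith
    have hℓ' : (ℓ : ℤ) = i * u := by exact_mod_cast hlen
    have hmle2 : mm b - mm a ≤ i := by
      by_contra hc
      push Not at hc
      have hc' : (i : ℤ) + mm a - mm b ≤ -1 := by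
        have : (i : ℤ) < ((mm b - mm a : ℕ) : ℤ) := by exact_mod_cast hc
        rw [Nat.cast_sub hmle] at this
        linarith
      have t7 : (s a : ℤ) + ℓ - s b = ((i : ℤ) + mm a - mm b) * u := by
        rw [hℓ']
        linarith
      nlinarith
    obtain ⟨w1, hw1, -, hw1p⟩ := pth_word' hl h0 σ hsab
    obtain ⟨w2, hw2, -, hw2p⟩ := pth_word' hl h0 σ hsba
    rw [← hγ] at hw1p hw2p
    refine ⟨mm b - mm a, b - a, i - (mm b - mm a), j - (b - a), ⟨w1, rr a, r2, hw1, ?_, ?_⟩,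
      ⟨w2, rr a, r2, hw2, ?_, ?_⟩, by omega, by omega, by omega, by omega⟩
    · rw [hw1p, Prod.fst_mul, Prod.fst_inv, e1, e2]
      obtain ⟨k, hk⟩ := Nat.exists_eq_add_of_le hmle
      rw [hk, Nat.add_sub_cancel_left, pow_add]
      group
    · rw [hw1p, Prod.snd_mul, Prod.snd_inv, e3, e4]
      obtain ⟨k, hk⟩ := Nat.exists_eq_add_of_le hab.le
      rw [hk, Nat.add_sub_cancel_left, pow_add]
      group
    · rw [hw2p, hγp, Prod.fst_mul, Prod.fst_inv, Prod.fst_mul, e1, e2, hg]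
      show (x ^ mm b * rr a)⁻¹ * (x ^ i * (x ^ mm a * rr a)) = _
      obtain ⟨k, hk⟩ := Nat.exists_eq_add_of_le hmle
      obtain ⟨k', hk'⟩ := Nat.exists_eq_add_of_le hmle2
      have e5 : i - (mm b - mm a) = k' := by omega
      have e6 : i + mm a = mm b + k' := by omega
      rw [e5]
      have e7 : x ^ i * (x ^ mm a * rr a) = x ^ mm b * x ^ k' * rr a := by
        rw [← mul_assoc, ← pow_add, e6, pow_add]
      rw [e7]
      group
    · rw [hw2p, hγp, Prod.snd_mul, Prod.snd_inv, Prod.snd_mul, e3, e4, hg]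
      show (y ^ b * r2)⁻¹ * (y ^ j * (y ^ a * r2)) = _
      obtain ⟨k', hk'⟩ := Nat.exists_eq_add_of_le (show b - a ≤ j by omega)
      have e5 : j - (b - a) = k' := by omega
      have e6 : j + a = b + k' := by omega
      rw [e5]
      have e7 : y ^ j * (y ^ a * r2) = y ^ b * y ^ k' * r2 := by
        rw [← mul_assoc, ← pow_add, e6, pow_add]
      rw [e7]
      group
  rcases Nat.lt_or_gt_of_ne hne with h | h
  · exact key (A0 + 1 + q) (A0 + 1 + q') (by omega) (by omega) (by omega) heq.1 heq.2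
  · exact key (A0 + 1 + q') (A0 + 1 + q) (by omega) (by omega) (by omega) heq.1.symm heq.2.symm

end Pool.Agent.FTP
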