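import Mathlib
import Pool.Agent.FTP.Defs
import Pool.Agent.FTP.TreeA
import Pool.Agent.FTP.TreeC
import Pool.Agent.FTP.RateSplit

/-!
# FTP / RateMax: the fastest lane exists

Setting as in RateSplit; assume moreover that `(1, 1)` is a cycle. Claim: there are `p, q ≥ 1` with
`Cyc M x y p q` such that `j * p ≤ i * q` for all cycles `(i, j)`: the ratio `j / i` is maximal.

Proof. Note that a cycle with `j ≥ 1` has `i ≥ 1` (its word is not empty as `y^j ≠ 1`, and the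
length is `i u`, `cyc_length`). Let `S ≥ 1` be as in `rate_split`. The set of cycles `(i, j)` with
`1 ≤ i ≤ j ≤ S` is finite and contains `(1, 1)`; let `(p, q)` be an element with `q / p` maximal
(`Finset.exists_max_image`, ratios in `ℚ`). We show `j p ≤ i q` for all cycles by strong
induction on `j`. `j = 0` is trivial. If `1 ≤ j ≤ S`: if `i ≤ j` this is the maximality; if `i > j` then
`j p ≤ i p ≤ i q` as `p ≤ q`. If `j > S`, split: `(i, j) = (i1, j1) + (i2, j2)`, `j1, j2 ≥ 1`, and add the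
inequalities for the two parts.
-/

namespace Pool.Agent.FTP

theorem rate_max (M : Set (F × F)) (R : ℕ) (hR : ∀ z ∈ M, nm z.1 ≤ R ∧ nm z.2 ≤ R) (τ : F → ℤ)
    (hτ : ∀ x y, τ (x * y) = τ x + τ y) (hτle : ∀ x, |τ x| ≤ (nm x : ℤ)) (α u : ℕ) (hα : 1 ≤ α)
    (hu : 1 ≤ u) (hM : ∀ z ∈ M, τ z.1 = α) (x y : F) (hx : CR x) (hy : CR y)
    (hτx : τ x = α * u) (h11 : Cyc M x y 1 1) :
    ∃ p q : ℕ, 1 ≤ p ∧ 1 ≤ q ∧ Cyc M x y p q ∧ ∀ i j : ℕ, Cyc M x y i j → j * p ≤ i * q := by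
  classical
  obtain ⟨S0, hS0⟩ := rate_split M R hR τ hτ hτle α u hα hu hM x y hx hy hτx
  obtain ⟨S, hS1, hS⟩ : ∃ S : ℕ, 1 ≤ S ∧ S0 ≤ S := ⟨max S0 1, le_max_right _ _, le_max_left _ _⟩
  -- a cycle with `j ≥ 1` has `i ≥ 1`
  have hpos : ∀ i j : ℕ, Cyc M x y i j → 1 ≤ j → 1 ≤ i := by
    rintro i j ⟨l, σ1, σ2, hl, h1, h2⟩ hj
    by_contra hi
    have hi0 : i = 0 := by omega
    have hlen := cyc_length hτ hα hM hτx hl h1
    rw [hi0, Nat.zero_mul] at hlen
    have hnil : l = [] := List.length_eq_zero_iff.1 hlen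
    rw [hnil] at h2
    simp only [List.prod_nil, Prod.snd_one] at h2
    have hyj : y ^ j = 1 := by
      have h3 : σ2 * 1 * σ2⁻¹ = σ2 * (σ2⁻¹ * y ^ j * σ2) * σ2⁻¹ := by rw [← h2]
      have h4 : σ2 * (σ2⁻¹ * y ^ j * σ2) * σ2⁻¹ = y ^ j := by group
      have h5 : σ2 * 1 * σ2⁻¹ = 1 := by group
      rw [h4, h5] at h3
      exact h3.symm
    have hn := cr_nm_pow hy j
    rw [hyj, nm_one] at hn
    have hp := cr_nm_pos hy
    have : 1 * 1 ≤ j * nm y := Nat.mul_le_mul hj hp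
    omega
  let T : Finset (ℕ × ℕ) :=
    ((Finset.range (S + 1)) ×ˢ (Finset.range (S + 1))).filter
      (fun z => 1 ≤ z.1 ∧ z.1 ≤ z.2 ∧ Cyc M x y z.1 z.2)
  have hT : ∀ z : ℕ × ℕ, z ∈ T ↔ (z.1 < S + 1 ∧ z.2 < S + 1) ∧ 1 ≤ z.1 ∧ z.1 ≤ z.2 ∧
      Cyc M x y z.1 z.2 := by
    intro z
    simp only [T, Finset.mem_filter, Finset.mem_product, Finset.mem_range]
  have h11T : ((1, 1) : ℕ × ℕ) ∈ T := by
    rw [hT]
    exact ⟨⟨by simp only; omega, by simp only; omega⟩, le_refl _, le_refl _, h11⟩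
  obtain ⟨⟨p, q⟩, hpqT, hmax⟩ := Finset.exists_max_image T (fun z => (z.2 : ℚ) / (z.1 : ℚ)) ⟨_, h11T⟩
  rw [hT] at hpqT
  simp only at hpqT hmax
  obtain ⟨⟨hpS, hqS⟩, hp1, hpq, hcpq⟩ := hpqT
  refine ⟨p, q, hp1, le_trans hp1 hpq, hcpq, ?_⟩
  intro i j
  induction j using Nat.strong_induction_on generalizing i with
  | _ j ih =>
    intro hc
    rcases Nat.eq_zero_or_pos j with hj0 | hj1
    · rw [hj0, Nat.zero_mul]
      exact Nat.zero_le _
    · rcases Nat.lt_or_ge S j with hSj | hSj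
      · obtain ⟨i1, j1, i2, j2, hc1, hc2, hi, hj, hj1', hj2'⟩ := hS0 i j (lt_of_le_of_lt hS hSj) hc
        have e1 := ih j1 (by omega) i1 hc1
        have e2 := ih j2 (by omega) i2 hc2
        rw [hi, hj, Nat.add_mul, Nat.add_mul]
        exact Nat.add_le_add e1 e2
      · have hi1 : 1 ≤ i := hpos i j hc hj1
        rcases Nat.lt_or_ge j i with hij | hij
        · calc j * p ≤ i * p := Nat.mul_le_mul_right p hij.le
            _ ≤ i * q := Nat.mul_le_mul_left i hpq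
        · have hmem : ((i, j) : ℕ × ℕ) ∈ T := by
            rw [hT]
            exact ⟨⟨by simp only; omega, by simp only; omega⟩, hi1, hij, hc⟩
          have h := hmax (i, j) hmem
          simp only at h
          have hiq : (0 : ℚ) < (i : ℚ) := by exact_mod_cast hi1
          have hpq' : (0 : ℚ) < (p : ℚ) := by exact_mod_cast hp1
          rw [div_le_div_iff₀ hiq hpq'] at h
          have h' : j * p ≤ q * i := by exact_mod_cast h
          rw [Nat.mul_comm i q]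
          exact h'

end Pool.Agent.FTP
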