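import Mathlib
import Pool.Agent.FTP.Defs
import Pool.Agent.FTP.TreeA
import Pool.Agent.FTP.TreeC
import Pool.Agent.FTP.Words
import Pool.Agent.FTP.LineAlg
import Pool.Agent.FTP.KillPair
import Pool.Agent.FTP.RateSplit
import Pool.Agent.FTP.RateMax
import Pool.Agent.FTP.Lane

/-!
# FTP / LaneMk: construction of a Lane from the data of case 1

`exists_g`: for `x` cyclically reduced and every parity `β` there is `g ≠ 1` with `par g = β`, `Red x g`,
`Red g x`. Proof: let `c` be one of the three generators which is neither the generator of the last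
letter of `x` nor that of the first letter. `g = c * w * c` with `w` the product of the generators `i`
with `β i = 1` (positive word, so `g` is reduced, begins and ends with `c`), `par g = 2 par c + β = β`.
`x * g` is reduced since the last letter of `x` and the first letter `c` of `g` are not inverse to
each other (different generators), similarly `g * x`.

`exists_lane`. Given: `A` finite, symmetric, generating `GG`; `χ` additive with maximum `m0` on `A`,
attained exactly at the letters in `M = {z ∈ A | χ z = m0}`; all letters in `M` have exponent vectors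
`(a, b)`, `a ≠ 0`; `z1 ∈ M` with `z1.1`, `z1.2` cyclically reduced. Construction of the fields:
* `R` = 1 + maximum of the norms of the components of the elements of `A`.
* `τ x = ε * vec x i0` with `a i0 ≠ 0`, `ε = sign (a i0)`, `α = |a i0|` (`abs_vec_le`).
* `l0` from `killPair`; `x = l0.prod.1`, `y = l0.prod.2`, `u = l0.length`; `vec x = u a`, `vec y = u b`
  (so `τ x = α u`, `InLine a (vec x)`, `InLine b (vec y)`), `u ≥ 1` as `x ≠ 1`; `kp1`, `kp2` from `killPair`.
* `rate_max` (`Cyc M x y 1 1` by `l0`, `σ1 = σ2 = 1`) gives `(p0, q0)` and a word `l` with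
  product `(ρ1⁻¹ x^p0 ρ1, ρ2⁻¹ y^q0 ρ2)`. Put `p = 2 p0`, `q = 2 q0`, `U = l ++ l`. `rate`:
  `j p = 2 j p0 ≤ 2 i q0 = i q`. `U.length = p u` by `cyc_length`.
* `InLine a (vec ρ1)`: with `k` large, the first component of the product of `U` repeated `k` times is
  `ρ1⁻¹ x^(pk) ρ1`; by `traverse` (TreeC) with `r = ρ1`, `r' = ρ1`, `c = nm ρ1` it is the reduced product
  `(ρ1⁻¹ x^(c+1)) * x * (..)`, so by `kp1` `InLine a (vec (ρ1⁻¹ x^(c+1)))`; hence `InLine a (vec ρ1)`.
  Similarly `InLine b (vec ρ2)`.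
* `β` from `exists_beta`, `g1, g2` from `exists_g`.
-/

namespace Pool.Agent.FTP

private theorem lm_mk_red {L : List (Fin 3 × Bool)} (h : FreeGroup.IsReduced L) :
    (FreeGroup.mk L : F).toWord = L := by
  rw [FreeGroup.toWord_mk, h.reduce_eq]

private theorem lm_pos_red {L : List (Fin 3 × Bool)} (h : ∀ e ∈ L, e.2 = true) :
    FreeGroup.IsReduced L := by
  unfold FreeGroup.IsReduced
  induction L with
  | nil => simp
  | cons a L ih =>
    cases L with
    | nil => simp
    | cons b L' =>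
      rw [List.isChain_cons_cons]
      exact ⟨fun _ => (h a (by simp)).trans (h b (by simp)).symm,
        ih (fun e he => h e (List.mem_cons_of_mem _ he))⟩

private theorem lm_red {x y : F}
    (h : ∀ a ∈ x.toWord.getLast?, ∀ b ∈ y.toWord.head?, a.1 ≠ b.1) : Red x y := by
  rw [red_iff]
  have h1 : FreeGroup.IsReduced (x.toWord ++ y.toWord) := by
    unfold FreeGroup.IsReduced
    rw [List.isChain_append]
    exact ⟨FreeGroup.isReduced_toWord, FreeGroup.isReduced_toWord,
      fun a ha b hb hab => absurd hab (h a ha b hb)⟩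
  have h2 : x * y = FreeGroup.mk (x.toWord ++ y.toWord) := by
    rw [← FreeGroup.mul_mk, FreeGroup.mk_toWord, FreeGroup.mk_toWord]
  rw [h2, lm_mk_red h1]

private theorem lm_mk_rep (i : Fin 3) (n : ℕ) :
    (FreeGroup.mk (List.replicate n (i, true)) : F) = FreeGroup.of i ^ n := by
  rw [← FreeGroup.toWord_of_pow, FreeGroup.mk_toWord]

private theorem lm_par_of (i j : Fin 3) : par (FreeGroup.of i) j = if j = i then 1 else 0 := by
  rw [par, vec_of]
  unfold modTwo
  by_cases h : j = i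
  · subst h
    simp
  · rw [if_neg h, Pi.single_eq_of_ne h]
    simp

private theorem lm_third (i j : Fin 3) : ∃ c : Fin 3, c ≠ i ∧ c ≠ j := by
  revert i j
  decide

private theorem lm_vec_word {M : Set (F × F)} {a b : Fin 3 → ℤ}
    (hab : ∀ z ∈ M, vec z.1 = a ∧ vec z.2 = b) : ∀ l : List (F × F), IsWord M l →
    vec l.prod.1 = l.length • a ∧ vec l.prod.2 = l.length • b := by
  intro l
  induction l with
  | nil =>
    intro _
    constructor
    · rw [List.prod_nil, Prod.fst_one, vec_one]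
      simp
    · rw [List.prod_nil, Prod.snd_one, vec_one]
      simp
  | cons z l ih =>
    intro h
    have h1 := ih (fun w hw => h w (List.mem_cons_of_mem _ hw))
    have h2 := hab z (h z (by simp))
    constructor
    · rw [List.prod_cons, Prod.fst_mul, vec_mul, h1.1, h2.1, List.length_cons, add_comm,
        succ_nsmul]
    · rw [List.prod_cons, Prod.snd_mul, vec_mul, h1.2, h2.2, List.length_cons, add_comm,
        succ_nsmul]

private theorem lm_rep {M : Set (F × F)} {U : List (F × F)} (hU : IsWord M U) (k : ℕ) :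
    ∃ W : List (F × F), IsWord M W ∧ W.prod = U.prod ^ k := by
  induction k with
  | zero => exact ⟨[], isWord_nil, by simp⟩
  | succ k ih =>
    obtain ⟨W, h1, h2⟩ := ih
    exact ⟨W ++ U, isWord_append h1 hU, by rw [List.prod_append, h2, pow_succ]⟩

private theorem lm_conj_pow (ρ z : F) (k : ℕ) : (ρ⁻¹ * z * ρ) ^ k = ρ⁻¹ * z ^ k * ρ := by
  have h := conj_pow (i := k) (a := ρ⁻¹) (b := z)
  rwa [inv_inv] at h

/-- the conjugating elements are in line -/
private theorem lm_line {a : Fin 3 → ℤ} {x ρ : F} (hx : CR x) {P : F → Prop} {p : ℕ}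
    (hp : 1 ≤ p) (hxa : InLine a (vec x)) (hP : ∀ k : ℕ, P (ρ⁻¹ * x ^ (p * k) * ρ))
    (hk : ∀ z : F, P z → ∀ σ σ' : F, z = σ * x * σ' → nm z = nm σ + nm x + nm σ' →
      InLine a (vec σ)) : InLine a (vec ρ) := by
  have hle : 2 * nm ρ + 3 ≤ p * (2 * nm ρ + 3) := Nat.le_mul_of_pos_left _ hp
  obtain ⟨e1, e2⟩ := traverse hx (nm ρ) ρ ρ le_rfl le_rfl (p * (2 * nm ρ + 3)) hle
  have h1 := hk _ (hP (2 * nm ρ + 3)) _ _ e1 e2
  rw [vec_mul, vec_inv, vec_pow] at h1
  have h2 := inLine_sub (inLine_nsmul (nm ρ + 1) hxa) h1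
  have h3 : (nm ρ + 1) • vec x - (-vec ρ + (nm ρ + 1) • vec x) = vec ρ := by abel
  rwa [h3] at h2

theorem exists_g {x : F} (hx : CR x) (β : Fin 3 → ZMod 2) :
    ∃ g : F, par g = β ∧ g ≠ 1 ∧ Red x g ∧ Red g x := by
  have hne : x.toWord ≠ [] := by
    intro h
    exact hx.1 (FreeGroup.toWord_eq_nil_iff.1 h)
  obtain ⟨c, hc1, hc2⟩ := lm_third (x.toWord.head hne).1 (x.toWord.getLast hne).1
  obtain ⟨L', hL'⟩ : ∃ L' : List (Fin 3 × Bool), L' = List.replicate (β 0).val (0, true) ++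
    List.replicate (β 1).val (1, true) ++ List.replicate (β 2).val (2, true) := ⟨_, rfl⟩
  have hLpos : ∀ e ∈ L', e.2 = true := by
    intro e he
    rw [hL', List.mem_append, List.mem_append, List.mem_replicate, List.mem_replicate,
      List.mem_replicate] at he
    rcases he with (he | he) | he <;> rw [he.2]
  have hpos : ∀ e ∈ (c, true) :: (L' ++ [(c, true)]), e.2 = true := by
    intro e he
    rcases List.mem_cons.1 he with he | he
    · rw [he]
    · rcases List.mem_append.1 he with he | he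
      · exact hLpos e he
      · rw [List.mem_singleton.1 he]
  have hw := lm_mk_red (lm_pos_red hpos)
  have hg : (FreeGroup.mk ((c, true) :: (L' ++ [(c, true)])) : F) = FreeGroup.of c *
      (FreeGroup.of 0 ^ (β 0).val * FreeGroup.of 1 ^ (β 1).val * FreeGroup.of 2 ^ (β 2).val) *
      FreeGroup.of c := by
    rw [← lm_mk_rep, ← lm_mk_rep, ← lm_mk_rep, FreeGroup.mul_mk, FreeGroup.mul_mk, ← hL']
    change _ = FreeGroup.mk [(c, true)] * FreeGroup.mk L' * FreeGroup.mk [(c, true)]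
    rw [FreeGroup.mul_mk, FreeGroup.mul_mk]
    simp
  refine ⟨FreeGroup.mk ((c, true) :: (L' ++ [(c, true)])), ?_, ?_, ?_, ?_⟩
  · rw [hg, par_mul, par_mul, par_mul, par_mul, par_pow, par_pow, par_pow]
    funext i
    have h2 : ∀ z : ZMod 2, z + z = 0 := by decide
    have h3 : ∀ j, (((β j).val : ℕ) : ZMod 2) = β j := fun j => ZMod.natCast_zmod_val _
    simp only [Pi.add_apply, Pi.smul_apply, lm_par_of]
    simp only [nsmul_eq_mul, h3]
    have h4 : ∀ z w : ZMod 2, z + w + z = w := by decide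
    rw [h4]
    fin_cases i
    · simp
    · simp
    · simp
  · intro h
    rw [h, FreeGroup.toWord_one] at hw
    exact List.cons_ne_nil _ _ hw.symm
  · apply lm_red
    intro e he f hf
    rw [hw, List.head?_cons, Option.mem_some_iff] at hf
    rw [List.getLast?_eq_some_getLast hne, Option.mem_some_iff] at he
    rw [← hf, ← he]
    exact hc2.symm
  · apply lm_red
    intro e he f hf
    rw [hw, ← List.cons_append, List.getLast?_append_of_ne_nil _ (by simp), List.getLast?_singleton,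
      Option.mem_some_iff] at he
    rw [List.head?_eq_some_head hne, Option.mem_some_iff] at hf
    rw [← hf, ← he]
    exact hc1

theorem exists_lane (A : Set (F × F)) (hfin : A.Finite) (hsym : ∀ z ∈ A, z⁻¹ ∈ A)
    (hcl : Subgroup.closure A = GG) (χ : F × F → ℤ) (hχ : ∀ z w, χ (z * w) = χ z + χ w) (m0 : ℤ)
    (hle : ∀ z ∈ A, χ z ≤ m0) (a b : Fin 3 → ℤ) (ha : a ≠ 0)
    (hab : ∀ z ∈ A, χ z = m0 → vec z.1 = a ∧ vec z.2 = b) (z1 : F × F) (hz1 : z1 ∈ A)
    (hz1m : χ z1 = m0) (h1 : CR z1.1) (h2 : CR z1.2) : ∃ Λ : Lane, Λ.A = A := by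
  obtain ⟨M, hM⟩ : ∃ M : Set (F × F), M = {z | z ∈ A ∧ χ z = m0} := ⟨_, rfl⟩
  have hMA : M ⊆ A := by
    rw [hM]
    exact fun z hz => hz.1
  have hMm : ∀ z ∈ A, (χ z = m0 ↔ z ∈ M) := by
    intro z hz
    rw [hM]
    exact ⟨fun h => ⟨hz, h⟩, fun h => h.2⟩
  have habM : ∀ z ∈ M, vec z.1 = a ∧ vec z.2 = b := by
    intro z hz
    exact hab z (hMA hz) ((hMm z (hMA hz)).2 hz)
  obtain ⟨R0, hR0⟩ := (hfin.image (fun z : F × F => nm z.1 + nm z.2)).bddAbove
  have hR : ∀ z ∈ A, nm z.1 ≤ R0 + 1 ∧ nm z.2 ≤ R0 + 1 := by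
    intro z hz
    have h : nm z.1 + nm z.2 ≤ R0 :=
      hR0 (Set.mem_image_of_mem (fun z : F × F => nm z.1 + nm z.2) hz)
    omega
  obtain ⟨i0, hi0⟩ : ∃ i0, a i0 ≠ 0 := by
    by_contra hcon
    push Not at hcon
    exact ha (funext hcon)
  obtain ⟨ε, hε, hεa⟩ : ∃ ε : ℤ, |ε| = 1 ∧ ε * a i0 = ((a i0).natAbs : ℤ) := by
    rcases lt_or_gt_of_ne hi0 with h | h
    · refine ⟨-1, by simp, ?_⟩
      omega
    · refine ⟨1, by simp, ?_⟩
      omega
  obtain ⟨τ, hτdef⟩ : ∃ τ : F → ℤ, ∀ x, τ x = ε * vec x i0 := ⟨fun x => ε * vec x i0, fun _ => rfl⟩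
  have hτ : ∀ x y, τ (x * y) = τ x + τ y := by
    intro x y
    rw [hτdef, hτdef, hτdef, vec_mul, Pi.add_apply]
    ring
  have hτle : ∀ x, |τ x| ≤ (nm x : ℤ) := by
    intro x
    rw [hτdef, abs_mul, hε, one_mul]
    exact abs_vec_le x i0
  have hα : 1 ≤ (a i0).natAbs := Int.natAbs_pos.2 hi0
  have hτM : ∀ z ∈ M, τ z.1 = ((a i0).natAbs : ℤ) := by
    intro z hz
    rw [hτdef, (habM z hz).1, hεa]
  have hz1M : z1 ∈ M := (hMm z1 hz1).1 hz1m
  obtain ⟨l0, hl0, hx, hy, kp1, kp2⟩ := killPair M (hfin.subset hMA) a b habM z1 hz1M h1 h2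
  obtain ⟨hv1, hv2⟩ := lm_vec_word habM l0 hl0
  have hu : 1 ≤ l0.length := by
    rcases Nat.eq_zero_or_pos l0.length with h | h
    · rw [List.length_eq_zero_iff] at h
      rw [h] at hx
      exact absurd rfl hx.1
    · exact h
  have hτx : τ l0.prod.1 = ((a i0).natAbs : ℤ) * (l0.length : ℤ) := by
    rw [hτdef, hv1, ← hεa, Pi.smul_apply, nsmul_eq_mul]
    ring
  have hxa : InLine a (vec l0.prod.1) := by
    rw [hv1]
    exact inLine_nsmul _ (inLine_self a)
  have hyb : InLine b (vec l0.prod.2) := by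
    rw [hv2]
    exact inLine_nsmul _ (inLine_self b)
  have h11 : Cyc M l0.prod.1 l0.prod.2 1 1 := ⟨l0, 1, 1, hl0, by simp, by simp⟩
  obtain ⟨p0, q0, hp0, hq0, ⟨l, ρ1, ρ2, hl, e1, e2⟩, hrate⟩ := rate_max M (R0 + 1)
    (fun z hz => hR z (hMA hz)) τ hτ hτle (a i0).natAbs l0.length hα hu hτM l0.prod.1 l0.prod.2
    hx hy hτx h11
  have hUw : IsWord M (l ++ l) := isWord_append hl hl
  have hU1 : (l ++ l).prod.1 = ρ1⁻¹ * l0.prod.1 ^ (2 * p0) * ρ1 := by
    rw [List.prod_append, Prod.fst_mul, e1, ← pow_two, lm_conj_pow, ← pow_mul, mul_comm p0 2]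
  have hU2 : (l ++ l).prod.2 = ρ2⁻¹ * l0.prod.2 ^ (2 * q0) * ρ2 := by
    rw [List.prod_append, Prod.snd_mul, e2, ← pow_two, lm_conj_pow, ← pow_mul, mul_comm q0 2]
  have hline1 : InLine a (vec ρ1) := by
    refine lm_line (p := 2 * p0) (P := fun z => ∃ W : List (F × F), IsWord M W ∧ W.prod.1 = z) hx
      (by omega) hxa ?_ ?_
    · intro k
      obtain ⟨W, hW, hWp⟩ := lm_rep hUw k
      refine ⟨W, hW, ?_⟩
      rw [hWp, Prod.pow_fst, hU1, lm_conj_pow, ← pow_mul]
    · rintro z ⟨W, hW, rfl⟩ σ σ' hz hn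
      exact kp1 W hW σ σ' hz hn
  have hline2 : InLine b (vec ρ2) := by
    refine lm_line (p := 2 * q0) (P := fun z => ∃ W : List (F × F), IsWord M W ∧ W.prod.2 = z) hy
      (by omega) hyb ?_ ?_
    · intro k
      obtain ⟨W, hW, hWp⟩ := lm_rep hUw k
      refine ⟨W, hW, ?_⟩
      rw [hWp, Prod.pow_snd, hU2, lm_conj_pow, ← pow_mul]
    · rintro z ⟨W, hW, rfl⟩ σ σ' hz hn
      exact kp2 W hW σ σ' hz hn
  obtain ⟨β, hβ⟩ := exists_beta a b
  obtain ⟨g1, hg1, hg1n, hxg, hgx⟩ := exists_g hx β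
  obtain ⟨g2, hg2, hg2n, hyg, hgy⟩ := exists_g hy β
  exact ⟨{
    A := A, M := M, hMA := hMA, hAfin := hfin, hAsym := hsym, hAcl := hcl, χ := χ, hχ := hχ,
    m0 := m0, hχle := hle, hχM := hMm, R := R0 + 1, hR1 := by omega, hR := hR, a := a, b := b,
    hab := habM, τ := τ, hτ := hτ, hτle := hτle, α := (a i0).natAbs, hα := hα, hτM := hτM,
    x := l0.prod.1, y := l0.prod.2, hx := hx, hy := hy, u := l0.length, hu := hu, hτx := hτx,
    hxa := hxa, hyb := hyb, kp1 := kp1, kp2 := kp2, p := 2 * p0, q := 2 * q0,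
    hp := by omega, hq := by omega, hpe := even_two_mul p0, hqe := even_two_mul q0,
    rate := by
      intro l' hl' σ1 σ2 i j h3 h4
      have h5 := hrate i j ⟨l', σ1, σ2, hl', h3, h4⟩
      have h6 : j * (2 * p0) = 2 * (j * p0) := by ring
      have h7 : i * (2 * q0) = 2 * (i * q0) := by ring
      rw [h6, h7]
      omega
    U := l ++ l, hU := hUw, ρ1 := ρ1, ρ2 := ρ2,
    hUp := Prod.ext hU1 hU2,
    hUl := cyc_length hτ hα hτM hτx hUw hU1,
    hρ1 := hline1, hρ2 := hline2, β := β, hβ := hβ, g1 := g1, g2 := g2, hg1 := hg1, hg2 := hg2,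
    hg1n := hg1n, hg2n := hg2n, hxg := hxg, hgx := hgx, hyg := hyg, hgy := hgy }, rfl⟩

end Pool.Agent.FTP
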