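import Mathlib
import Pool.Agent.FTP.Defs
import Pool.Agent.FTP.LineAlg

/-!
# FTP / Select: choice of the linear functional

`A ⊆ F x F` finite and symmetric, with nontrivial exponent vectors in both factors. `lin c v` is the
scalar product. The theorem `select` gives functionals for case 1 or for case 2.

Proof. Let `R ≥ 1` bound the absolute values of all coordinates of the vectors `vec z.1`, `vec z.2`
(`z ∈ A`). For an integer `B` let `f_B v = v 0 + B v 1 + B^2 v 2`.
(base) If `2 |v i| < B` for all `i` and `f_B v = 0` then `v = 0` (`v 0` is divisible by `B`, so `v 0 = 0`, ...).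
Choose `B1 > 8 R^2 + 8 R + 8`; put `f1 = f_B1`; `|f1 v| ≤ R (1 + B1 + B1^2) =: R'` for vectors of `A`. Choose
`B2 > 8 R R' + 8 R + 8`, `f2 = f_B2`.
So `f1` (`f2`) is injective on the vectors `vec z.1` (`vec z.2`), `z ∈ A`. Let `a` be the vector of a letter
with `f1 (vec z.1)` maximal; `f1 a > 0` by symmetry of `A` (some `vec z.1 ≠ 0`, `f1` of it is nonzero, and
of its inverse too). Similarly `b` with `f2 (vec z.2)` maximal, `f2 b > 0`.
Step 1. Let `T` be larger than twice the maximum of `|f2 (vec z.2)|`. The functionals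
`T f1 + f2` and `T f1 - f2` have maxima on `A` attained only at letters with `vec z.1 = a` and
`f2 (vec z.2)` maximal (minimal) among the letters with `vec z.1 = a`, i.e. `vec z.2` is one vector `b'`
(`b''`). If some letter `z` at which one of these maxima is attained has `z.2 ≠ 1`, we are in the
first alternative (`z.1 ≠ 1` because `vec z.1 = a ≠ 0`). Otherwise `b' = b'' = 0` and then for all letters
with `vec z.1 = a`: `0 ≤ f2 (vec z.2) ≤ 0`, so `vec z.2 = 0`, so the maximum is attained at `z` and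
`z.2 = 1`. Hence (i) all letters with `vec z.1 = a` have `z.2 = 1` (and there is such a letter).
Step 2. Symmetrically, either we are in the first alternative, or (ii) all letters with
`vec z.2 = b` have `z.1 = 1`.
Step 3. Let `χ z = f2 b * f1 (vec z.1) + f1 a * f2 (vec z.2)`, `m = f1 a * f2 b ≥ 1`; the letters from
(i) and (ii) have `χ = m`. Let `m' ≥ m` be the maximum of `χ` on `A`. If `m' > m`: for `T` large the
maximum of `T χ + f1 (vec z.1)` is attained only at letters with `χ = m'` and `f1 (vec z.1)` maximal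
among these; this determines `vec z.1` and then `f2 (vec z.2)`, so `vec z.2`. For such a letter
`vec z.1 ≠ 0` (otherwise `χ z = f1 a f2 (vec z.2) ≤ m`), `vec z.2 ≠ 0`; so `z.1 ≠ 1`, `z.2 ≠ 1`: first
alternative. If `m' = m`: second alternative. Let `χ z = m`, `p = vec z.1`, `r = vec z.2`. Then
`f2 b (f1 p) + f1 a (f2 r) = f1 a f2 b`, i.e. `f_B2 (v) = 0` for the vector
`v j = b j * f1 p + r j * f1 a - b j * f1 a`, `|v j| ≤ 3 R R'`, so by (base) `v = 0`:
`b j * f1 (a - p) = r j * f1 a` for all `j`. Choose `k` with `b k ≠ 0`. The vector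
`b k • (a - p) - r k • a` has `f1 = 0` and coordinates at most `3 R^2`, so it is `0`: `b k • (a - p) = r k • a`
and `InLine a (a - p)`, `InLine a p`. From `b j * f1 (a-p) = r j * f1 a` for `j` and `k`:
`f1 a * (b k * r j) = f1 a * (b j * r k)`, so `b k * r j = b j * r k` for all `j`, and `InLine b r`.
`lin c1 p = f2 b f1 p` and `lin c2 r = f1 a f2 r` are `≥ 0` (since the other one is `≤ m`). If
`lin c1 p = 0`: `f1 p = 0`, `f2 r = f2 b`, so `r = b` and `z.1 = 1` by (ii). So `z.1 = 1` or
`lin c1 p ≥ 1`; similarly for `z.2`.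
-/

namespace Pool.Agent.FTP

/-- scalar product -/
def lin (c v : Fin 3 → ℤ) : ℤ := ∑ i, c i * v i

theorem lin_add (c v w : Fin 3 → ℤ) : lin c (v + w) = lin c v + lin c w := by
  unfold lin
  rw [← Finset.sum_add_distrib]
  refine Finset.sum_congr rfl fun i _ => ?_
  simp only [Pi.add_apply]
  ring

theorem lin_neg (c v : Fin 3 → ℤ) : lin c (-v) = - lin c v := by
  unfold lin
  rw [← Finset.sum_neg_distrib]
  refine Finset.sum_congr rfl fun i _ => ?_
  simp only [Pi.neg_apply]
  ring

theorem lin_zero (c : Fin 3 → ℤ) : lin c 0 = 0 := by simp [lin]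

theorem sel_base (B : ℤ) (v : Fin 3 → ℤ) (hv : ∀ i, 2 * |v i| < B)
    (h : lin ![1, B, B ^ 2] v = 0) : v = 0 := by
  have hB : 0 < B := lt_of_le_of_lt (by positivity) (hv 0)
  have h' : v 0 + B * v 1 + B ^ 2 * v 2 = 0 := by
    have h2 := h
    simp [lin, Fin.sum_univ_three] at h2
    linarith
  have key : ∀ x : ℤ, 2 * |x| < B → B ∣ x → x = 0 := by
    intro x hx hd
    apply Int.eq_zero_of_abs_lt_dvd hd
    have := abs_nonneg x
    linarith
  have h0 : v 0 = 0 := key _ (hv 0) ⟨-(v 1 + B * v 2), by linear_combination h'⟩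
  have e2 : v 1 + B * v 2 = 0 := by
    have e : B * (v 1 + B * v 2) = 0 := by rw [h0] at h'; linear_combination h'
    rcases mul_eq_zero.mp e with h3 | h3
    · omega
    · exact h3
  have h1 : v 1 = 0 := key _ (hv 1) ⟨-v 2, by linear_combination e2⟩
  have h3 : v 2 = 0 := by
    rw [h1] at e2
    rcases mul_eq_zero.mp (show B * v 2 = 0 by linarith) with h3 | h3
    · omega
    · exact h3
  funext i
  fin_cases i
  · exact h0
  · exact h1
  · exact h3

theorem lin_smul_left (t : ℤ) (c v : Fin 3 → ℤ) : lin (fun i => t * c i) v = t * lin c v := by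
  unfold lin
  rw [Finset.mul_sum]
  refine Finset.sum_congr rfl fun i _ => ?_
  ring

theorem lin_comb (c v w z : Fin 3 → ℤ) (x y t : ℤ) :
    lin c (fun j => v j * x + w j * y - z j * t) = lin c v * x + lin c w * y - lin c z * t := by
  unfold lin
  rw [Finset.sum_mul, Finset.sum_mul, Finset.sum_mul, ← Finset.sum_add_distrib,
    ← Finset.sum_sub_distrib]
  refine Finset.sum_congr rfl fun i _ => ?_
  ring

theorem sel_lex {α : Type*} (A : Set α) (hfin : A.Finite) (hne : A.Nonempty) (g h : α → ℤ) :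
    ∃ T : ℤ, ∃ z0 ∈ A, (∀ z ∈ A, T * g z + h z ≤ T * g z0 + h z0) ∧
      (∀ z ∈ A, T * g z + h z = T * g z0 + h z0 → g z = g z0 ∧ h z = h z0) ∧
      (∀ z ∈ A, g z ≤ g z0) ∧ (∀ z ∈ A, g z = g z0 → h z ≤ h z0) := by
  obtain ⟨zm, hzm, hM⟩ := Set.exists_max_image A (fun z => |h z|) hfin hne
  set M : ℤ := |h zm| with hMdef
  have hM0 : 0 ≤ M := abs_nonneg _
  have hb : ∀ z ∈ A, h z ≤ M ∧ -M ≤ h z := by
    intro z hz
    have := hM z hz
    have h1 := abs_le.mp this
    exact ⟨h1.2, h1.1⟩
  obtain ⟨z0, hz0, hmax⟩ := Set.exists_max_image A (fun z => (2 * M + 1) * g z + h z) hfin hne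
  have hg : ∀ z ∈ A, g z ≤ g z0 := by
    intro z hz
    by_contra hcon
    push Not at hcon
    have h1 := hmax z hz
    have h2 := hb z hz
    have h3 := hb z0 hz0
    have h4 : (2 * M + 1) * (g z0 + 1) ≤ (2 * M + 1) * g z :=
      mul_le_mul_of_nonneg_left (by omega) (by omega)
    have h5 : (2 * M + 1) * (g z0 + 1) = (2 * M + 1) * g z0 + (2 * M + 1) := by ring
    linarith [h2.1, h2.2, h3.1, h3.2]
  refine ⟨2 * M + 1, z0, hz0, hmax, ?_, hg, ?_⟩
  · intro z hz he
    have h1 : g z = g z0 := by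
      rcases lt_or_eq_of_le (hg z hz) with hlt | heq
      · exfalso
        have h2 := hb z hz
        have h3 := hb z0 hz0
        have h4 : (2 * M + 1) * (g z + 1) ≤ (2 * M + 1) * g z0 :=
          mul_le_mul_of_nonneg_left (by omega) (by omega)
        have h5 : (2 * M + 1) * (g z + 1) = (2 * M + 1) * g z + (2 * M + 1) := by ring
        linarith [h2.1, h2.2, h3.1, h3.2]
      · exact heq
    refine ⟨h1, ?_⟩
    rw [h1] at he
    linarith
  · intro z hz he
    have h1 := hmax z hz
    rw [he] at h1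
    linarith

theorem sel_G {α : Type*} (A : Set α) (hfin : A.Finite) (hne : A.Nonempty) (u v : α → ℤ)
    (P : α → Prop) (hP : ∀ z ∈ A, P z → v z = 0)
    (hyp : ∀ (T e : ℤ), ∀ z0 ∈ A, (∀ z ∈ A, T * u z + e * v z ≤ T * u z0 + e * v z0) →
      (∀ z ∈ A, T * u z + e * v z = T * u z0 + e * v z0 → u z = u z0 ∧ v z = v z0) →
      (∀ z ∈ A, u z ≤ u z0) →
      ∀ z ∈ A, T * u z + e * v z = T * u z0 + e * v z0 → P z) :
    ∀ z ∈ A, (∀ z' ∈ A, u z' ≤ u z) → P z := by
  obtain ⟨T, z0, hz0, hmax, huniq, hu, hv⟩ := sel_lex A hfin hne u (fun z => 1 * v z)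
  obtain ⟨T', z1, hz1, hmax1, huniq1, hu1, hv1⟩ := sel_lex A hfin hne u (fun z => (-1) * v z)
  have k0 := hyp T 1 z0 hz0 hmax (fun z hz he => by
    obtain ⟨a1, a2⟩ := huniq z hz he
    exact ⟨a1, by linarith⟩) hu
  have k1 := hyp T' (-1) z1 hz1 hmax1 (fun z hz he => by
    obtain ⟨a1, a2⟩ := huniq1 z hz he
    exact ⟨a1, by linarith⟩) hu1
  have e0 : v z0 = 0 := hP _ hz0 (k0 z0 hz0 rfl)
  have e1 : v z1 = 0 := hP _ hz1 (k1 z1 hz1 rfl)
  intro z hz hmz
  have f0 : u z = u z0 := le_antisymm (hu z hz) (hmz z0 hz0)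
  have f1 : u z = u z1 := le_antisymm (hu1 z hz) (hmz z1 hz1)
  have g0 := hv z hz f0
  have g1 := hv1 z hz f1
  have gz : v z = 0 := by linarith
  exact k0 z hz (by rw [f0, gz, e0])

theorem select (A : Set (F × F)) (hfin : A.Finite) (hsym : ∀ z ∈ A, z⁻¹ ∈ A)
    (h1 : ∃ z ∈ A, vec z.1 ≠ 0) (h2 : ∃ z ∈ A, vec z.2 ≠ 0) :
    (∃ (c1 c2 : Fin 3 → ℤ) (m0 : ℤ) (a b : Fin 3 → ℤ),
      (∀ z ∈ A, lin c1 (vec z.1) + lin c2 (vec z.2) ≤ m0) ∧
      (∀ z ∈ A, lin c1 (vec z.1) + lin c2 (vec z.2) = m0 → vec z.1 = a ∧ vec z.2 = b) ∧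
      (a ≠ 0 ∨ b ≠ 0) ∧
      ∃ z ∈ A, lin c1 (vec z.1) + lin c2 (vec z.2) = m0 ∧ z.1 ≠ 1 ∧ z.2 ≠ 1) ∨
    (∃ (c1 c2 : Fin 3 → ℤ) (m : ℤ) (a b : Fin 3 → ℤ), 1 ≤ m ∧
      (∀ z ∈ A, lin c1 (vec z.1) + lin c2 (vec z.2) ≤ m) ∧
      (∀ z ∈ A, lin c1 (vec z.1) + lin c2 (vec z.2) = m →
        InLine a (vec z.1) ∧ InLine b (vec z.2) ∧ (z.1 = 1 ∨ 1 ≤ lin c1 (vec z.1)) ∧
          (z.2 = 1 ∨ 1 ≤ lin c2 (vec z.2))) ∧
      (∃ s : F, (s, (1 : F)) ∈ A ∧ lin c1 (vec s) = m) ∧
      (∃ s : F, ((1 : F), s) ∈ A ∧ lin c2 (vec s) = m)) := by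
  classical
  by_contra hcon
  rw [not_or] at hcon
  obtain ⟨hA1, hA2⟩ := hcon
  have hne : A.Nonempty := by
    obtain ⟨z, hz, -⟩ := h1
    exact ⟨z, hz⟩
  -- the bound `R`
  obtain ⟨R, hR1, hRa, hRb⟩ : ∃ R : ℤ, 1 ≤ R ∧ (∀ z ∈ A, ∀ i, |vec z.1 i| ≤ R) ∧
      (∀ z ∈ A, ∀ i, |vec z.2 i| ≤ R) := by
    obtain ⟨zm, hzm, hM⟩ := Set.exists_max_image A
      (fun z => 1 + ∑ i, |vec z.1 i| + ∑ i, |vec z.2 i|) hfin hne
    have p1 : ∀ z : F × F, 0 ≤ ∑ i, |vec z.1 i| := fun z =>
      Finset.sum_nonneg fun i _ => abs_nonneg _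
    have p2 : ∀ z : F × F, 0 ≤ ∑ i, |vec z.2 i| := fun z =>
      Finset.sum_nonneg fun i _ => abs_nonneg _
    refine ⟨1 + ∑ i, |vec zm.1 i| + ∑ i, |vec zm.2 i|, ?_, ?_, ?_⟩
    · linarith [p1 zm, p2 zm]
    · intro z hz i
      have h3 := hM z hz
      have h4 : |vec z.1 i| ≤ ∑ i, |vec z.1 i| :=
        Finset.single_le_sum (f := fun i => |vec z.1 i|) (fun i _ => abs_nonneg _)
          (Finset.mem_univ i)
      linarith [p1 z, p2 z]
    · intro z hz i
      have h3 := hM z hz
      have h4 : |vec z.2 i| ≤ ∑ i, |vec z.2 i| :=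
        Finset.single_le_sum (f := fun i => |vec z.2 i|) (fun i _ => abs_nonneg _)
          (Finset.mem_univ i)
      linarith [p1 z, p2 z]
  set B1 : ℤ := 8 * R ^ 2 + 8 * R + 9 with hB1
  set R' : ℤ := R * (1 + B1 + B1 ^ 2) with hR'
  set B2 : ℤ := 8 * (R * R') + 8 * R + 9 with hB2
  have hB1pos : 0 < B1 := by positivity
  have hR'pos : 0 < R' := by positivity
  have hRR' : 0 < R * R' := by positivity
  set c1 : Fin 3 → ℤ := ![1, B1, B1 ^ 2] with hc1
  set c2 : Fin 3 → ℤ := ![1, B2, B2 ^ 2] with hc2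
  set u : F × F → ℤ := fun z => lin c1 (vec z.1) with hu
  set v : F × F → ℤ := fun z => lin c2 (vec z.2) with hv
  have huR : ∀ z ∈ A, |u z| ≤ R' := by
    intro z hz
    have e : u z = vec z.1 0 + B1 * vec z.1 1 + B1 ^ 2 * vec z.1 2 := by
      simp [hu, lin, Fin.sum_univ_three, hc1]
    have a0 := abs_le.mp (hRa z hz 0)
    have a1 := abs_le.mp (hRa z hz 1)
    have a2 := abs_le.mp (hRa z hz 2)
    have b1 : B1 * vec z.1 1 ≤ B1 * R := mul_le_mul_of_nonneg_left a1.2 hB1pos.le
    have b1' : B1 * (-R) ≤ B1 * vec z.1 1 := mul_le_mul_of_nonneg_left a1.1 hB1pos.le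
    have b2 : B1 ^ 2 * vec z.1 2 ≤ B1 ^ 2 * R := mul_le_mul_of_nonneg_left a2.2 (by positivity)
    have b2' : B1 ^ 2 * (-R) ≤ B1 ^ 2 * vec z.1 2 :=
      mul_le_mul_of_nonneg_left a2.1 (by positivity)
    rw [e, abs_le, hR']
    constructor <;> linarith [a0.1, a0.2]
  have inj1 : ∀ z ∈ A, ∀ z' ∈ A, u z = u z' → vec z.1 = vec z'.1 := by
    intro z hz z' hz' he
    have h3 : vec z.1 + -vec z'.1 = 0 := by
      apply sel_base B1
      · intro i
        have a1 := abs_le.mp (hRa z hz i)
        have a2 := abs_le.mp (hRa z' hz' i)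
        have : |(vec z.1 + -vec z'.1) i| ≤ 2 * R := by
          rw [Pi.add_apply, Pi.neg_apply, abs_le]
          constructor <;> linarith [a1.1, a1.2, a2.1, a2.2]
        have hsq : 0 ≤ R ^ 2 := by positivity
        linarith
      · rw [lin_add, lin_neg]
        have : lin c1 (vec z.1) = lin c1 (vec z'.1) := he
        rw [this]
        ring
    have h4 := sub_eq_zero.mp (show vec z.1 - vec z'.1 = 0 by rw [sub_eq_add_neg]; exact h3)
    exact h4
  have inj2 : ∀ z ∈ A, ∀ z' ∈ A, v z = v z' → vec z.2 = vec z'.2 := by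
    intro z hz z' hz' he
    have h3 : vec z.2 + -vec z'.2 = 0 := by
      apply sel_base B2
      · intro i
        have a1 := abs_le.mp (hRb z hz i)
        have a2 := abs_le.mp (hRb z' hz' i)
        have : |(vec z.2 + -vec z'.2) i| ≤ 2 * R := by
          rw [Pi.add_apply, Pi.neg_apply, abs_le]
          constructor <;> linarith [a1.1, a1.2, a2.1, a2.2]
        linarith
      · rw [lin_add, lin_neg]
        have : lin c2 (vec z.2) = lin c2 (vec z'.2) := he
        rw [this]
        ring
    have h4 := sub_eq_zero.mp (show vec z.2 - vec z'.2 = 0 by rw [sub_eq_add_neg]; exact h3)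
    exact h4
  -- nonzero values
  have nz1 : ∀ z ∈ A, vec z.1 ≠ 0 → u z ≠ 0 := by
    intro z hz hne' he
    apply hne'
    apply sel_base B1
    · intro i
      have a1 := hRa z hz i
      have hsq : 0 ≤ R ^ 2 := by positivity
      linarith
    · exact he
  have nz2 : ∀ z ∈ A, vec z.2 ≠ 0 → v z ≠ 0 := by
    intro z hz hne' he
    apply hne'
    apply sel_base B2
    · intro i
      have a1 := hRb z hz i
      linarith
    · exact he
  have uinv : ∀ z : F × F, u z⁻¹ = - u z := by
    intro z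
    simp only [hu, Prod.fst_inv, vec_inv, lin_neg]
  have vinv : ∀ z : F × F, v z⁻¹ = - v z := by
    intro z
    simp only [hv, Prod.snd_inv, vec_inv, lin_neg]
  obtain ⟨za, hza, hmaxa⟩ := Set.exists_max_image A u hfin hne
  obtain ⟨zb, hzb, hmaxb⟩ := Set.exists_max_image A v hfin hne
  have M1pos : 0 < u za := by
    obtain ⟨z, hz, hz1⟩ := h1
    have h3 := nz1 z hz hz1
    have h4 := hmaxa z hz
    have h5 := hmaxa z⁻¹ (hsym z hz)
    rw [uinv] at h5
    rcases lt_or_gt_of_ne h3 with h6 | h6 <;> linarith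
  have M2pos : 0 < v zb := by
    obtain ⟨z, hz, hz1⟩ := h2
    have h3 := nz2 z hz hz1
    have h4 := hmaxb z hz
    have h5 := hmaxb z⁻¹ (hsym z hz)
    rw [vinv] at h5
    rcases lt_or_gt_of_ne h3 with h6 | h6 <;> linarith
  have uzero : ∀ z : F × F, vec z.1 = 0 → u z = 0 := by
    intro z hz
    simp only [hu, hz, lin_zero]
  have vzero : ∀ z : F × F, vec z.2 = 0 → v z = 0 := by
    intro z hz
    simp only [hv, hz, lin_zero]
  -- step 1
  have st1 : ∀ z ∈ A, (∀ z' ∈ A, u z' ≤ u z) → z.2 = 1 := by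
    apply sel_G A hfin hne u v (fun z => z.2 = 1)
    · intro z _ hz
      apply vzero
      rw [hz, vec_one]
    · intro T e z0 hz0 hmax huniq hmu z hz he
      by_contra hz2
      apply hA1
      have hpos : 0 < u z0 := lt_of_lt_of_le M1pos (hmu za hza)
      have ha0 : vec z0.1 ≠ 0 := fun h => by
        have := uzero z0 h
        omega
      refine ⟨fun i => T * c1 i, fun i => e * c2 i, T * u z0 + e * v z0, vec z0.1, vec z0.2,
        ?_, ?_, Or.inl ha0, z, hz, ?_, ?_, hz2⟩
      · intro w hw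
        rw [lin_smul_left, lin_smul_left]
        exact hmax w hw
      · intro w hw hwe
        rw [lin_smul_left, lin_smul_left] at hwe
        obtain ⟨k1, k2⟩ := huniq w hw hwe
        exact ⟨inj1 w hw z0 hz0 k1, inj2 w hw z0 hz0 k2⟩
      · rw [lin_smul_left, lin_smul_left]
        exact he
      · intro hz1
        obtain ⟨k1, -⟩ := huniq z hz he
        have : u z = 0 := uzero z (by rw [hz1, vec_one])
        omega
  have st2 : ∀ z ∈ A, (∀ z' ∈ A, v z' ≤ v z) → z.1 = 1 := by
    apply sel_G A hfin hne v u (fun z => z.1 = 1)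
    · intro z _ hz
      apply uzero
      rw [hz, vec_one]
    · intro T e z0 hz0 hmax huniq hmu z hz he
      by_contra hz2
      apply hA1
      have hpos : 0 < v z0 := lt_of_lt_of_le M2pos (hmu zb hzb)
      have hb0 : vec z0.2 ≠ 0 := fun h => by
        have := vzero z0 h
        omega
      refine ⟨fun i => e * c1 i, fun i => T * c2 i, T * v z0 + e * u z0, vec z0.1, vec z0.2,
        ?_, ?_, Or.inr hb0, z, hz, ?_, hz2, ?_⟩
      · intro w hw
        rw [lin_smul_left, lin_smul_left]
        have := hmax w hw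
        simp only [hu, hv] at this ⊢
        linarith
      · intro w hw hwe
        rw [lin_smul_left, lin_smul_left] at hwe
        obtain ⟨k1, k2⟩ := huniq w hw (by simp only [hu, hv] at hwe ⊢; linarith)
        exact ⟨inj1 w hw z0 hz0 k2, inj2 w hw z0 hz0 k1⟩
      · rw [lin_smul_left, lin_smul_left]
        simp only [hu, hv] at he ⊢
        linarith
      · intro hz1
        obtain ⟨k1, -⟩ := huniq z hz he
        have : v z = 0 := vzero z (by rw [hz1, vec_one])
        omega
  -- step 3
  have hmle : ∀ z ∈ A, v zb * u z + u za * v z ≤ u za * v zb := by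
    by_contra hex
    push Not at hex
    obtain ⟨z', hz', hgt⟩ := hex
    apply hA1
    obtain ⟨T, z0, hz0, hmax, huniq, hg, -⟩ :=
      sel_lex A hfin hne (fun z => v zb * u z + u za * v z) u
    have hgt0 : u za * v zb < v zb * u z0 + u za * v z0 := lt_of_lt_of_le hgt (hg z' hz')
    have hb0 : vec z0.2 ≠ 0 := fun h => by
      have h3 := vzero z0 h
      rw [h3] at hgt0
      have h4 : v zb * u z0 ≤ v zb * u za := mul_le_mul_of_nonneg_left (hmaxa z0 hz0) M2pos.le
      linarith [mul_comm (v zb) (u za)]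
    have ha0 : vec z0.1 ≠ 0 := fun h => by
      have h3 := uzero z0 h
      rw [h3] at hgt0
      have h4 : u za * v z0 ≤ u za * v zb := mul_le_mul_of_nonneg_left (hmaxb z0 hz0) M1pos.le
      linarith
    have eqf : ∀ w : F × F, lin (fun i => (T * v zb + 1) * c1 i) (vec w.1) +
        lin (fun i => (T * u za) * c2 i) (vec w.2) =
        T * (v zb * u w + u za * v w) + u w := by
      intro w
      rw [lin_smul_left, lin_smul_left]
      simp only [hu, hv]
      ring
    refine ⟨fun i => (T * v zb + 1) * c1 i, fun i => (T * u za) * c2 i,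
      T * (v zb * u z0 + u za * v z0) + u z0, vec z0.1, vec z0.2, ?_, ?_, Or.inl ha0, z0, hz0,
      eqf z0, ?_, ?_⟩
    · intro w hw
      rw [eqf]
      exact hmax w hw
    · intro w hw hwe
      rw [eqf] at hwe
      obtain ⟨k1, k2⟩ := huniq w hw hwe
      refine ⟨inj1 w hw z0 hz0 k2, inj2 w hw z0 hz0 ?_⟩
      rw [k2] at k1
      have k3 : u za * v w = u za * v z0 := by linarith
      exact mul_left_cancel₀ M1pos.ne' k3
    · intro h
      apply ha0
      rw [h, vec_one]
    · intro h
      apply hb0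
      rw [h, vec_one]
  apply hA2
  have hza2 : za.2 = 1 := st1 za hza hmaxa
  have hzb1 : zb.1 = 1 := st2 zb hzb hmaxb
  refine ⟨fun i => v zb * c1 i, fun i => u za * c2 i, u za * v zb, vec za.1, vec zb.2,
    ?_, ?_, ?_, ?_, ?_⟩
  · have := mul_pos M1pos M2pos
    omega
  · intro z hz
    rw [lin_smul_left, lin_smul_left]
    exact hmle z hz
  · intro z hz he
    rw [lin_smul_left, lin_smul_left] at he ⊢
    have he' : v zb * u z + u za * v z = u za * v zb := he
    -- the vector identity
    have hw : (fun j => vec zb.2 j * u z + vec z.2 j * u za - vec zb.2 j * u za) = 0 := by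
      apply sel_base B2
      · intro j
        have a1 := hRb zb hzb j
        have a2 := hRb z hz j
        have a3 := huR z hz
        have a4 := huR za hza
        have m1 : |vec zb.2 j * u z| ≤ R * R' := by
          rw [abs_mul]; exact mul_le_mul a1 a3 (abs_nonneg _) (by linarith)
        have m2 : |vec z.2 j * u za| ≤ R * R' := by
          rw [abs_mul]; exact mul_le_mul a2 a4 (abs_nonneg _) (by linarith)
        have m3 : |vec zb.2 j * u za| ≤ R * R' := by
          rw [abs_mul]; exact mul_le_mul a1 a4 (abs_nonneg _) (by linarith)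
        have m1' := abs_le.mp m1
        have m2' := abs_le.mp m2
        have m3' := abs_le.mp m3
        have : |vec zb.2 j * u z + vec z.2 j * u za - vec zb.2 j * u za| ≤ 3 * (R * R') := by
          rw [abs_le]
          constructor <;> linarith [m1'.1, m1'.2, m2'.1, m2'.2, m3'.1, m3'.2]
        linarith
      · rw [lin_comb]
        have e1 : lin c2 (vec zb.2) = v zb := rfl
        have e2 : lin c2 (vec z.2) = v z := rfl
        rw [← hc2, e1, e2]
        linarith [mul_comm (u za) (v z), mul_comm (u za) (v zb)]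
    have hE : ∀ j, vec zb.2 j * (u za - u z) = vec z.2 j * u za := by
      intro j
      have := congrFun hw j
      simp only [Pi.zero_apply] at this
      linarith [mul_sub (vec zb.2 j) (u za) (u z)]
    have hbne : vec zb.2 ≠ 0 := fun h => by
      have := vzero zb h
      omega
    have hane : vec za.1 ≠ 0 := fun h => by
      have := uzero za h
      omega
    obtain ⟨k, hk⟩ : ∃ k, vec zb.2 k ≠ 0 := by
      by_contra hno
      push Not at hno
      exact hbne (funext hno)
    have hw' : (fun i => vec za.1 i * (vec zb.2 k) + vec z.1 i * (- vec zb.2 k)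
        - vec za.1 i * vec z.2 k) = 0 := by
      apply sel_base B1
      · intro i
        have a1 := hRb zb hzb k
        have a2 := hRb z hz k
        have a3 := hRa z hz i
        have a4 := hRa za hza i
        have m1 : |vec za.1 i * vec zb.2 k| ≤ R * R := by
          rw [abs_mul]; exact mul_le_mul a4 a1 (abs_nonneg _) (by linarith)
        have m2 : |vec z.1 i * (-vec zb.2 k)| ≤ R * R := by
          rw [abs_mul, abs_neg]; exact mul_le_mul a3 a1 (abs_nonneg _) (by linarith)
        have m3 : |vec za.1 i * vec z.2 k| ≤ R * R := by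
          rw [abs_mul]; exact mul_le_mul a4 a2 (abs_nonneg _) (by linarith)
        have m1' := abs_le.mp m1
        have m2' := abs_le.mp m2
        have m3' := abs_le.mp m3
        have : |vec za.1 i * vec zb.2 k + vec z.1 i * (-vec zb.2 k) - vec za.1 i * vec z.2 k|
            ≤ 3 * (R * R) := by
          rw [abs_le]
          constructor <;> linarith [m1'.1, m1'.2, m2'.1, m2'.2, m3'.1, m3'.2]
        have hsq : 0 ≤ R * R := by positivity
        have : B1 = 8 * (R * R) + 8 * R + 9 := by rw [hB1]; ring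
        linarith
      · rw [lin_comb]
        have e1 : lin c1 (vec za.1) = u za := rfl
        have e2 : lin c1 (vec z.1) = u z := rfl
        rw [← hc1, e1, e2]
        have := hE k
        linarith [mul_sub (vec zb.2 k) (u za) (u z), mul_comm (vec zb.2 k) (u za),
          mul_comm (vec zb.2 k) (u z), mul_comm (vec z.2 k) (u za), mul_neg (u z) (vec zb.2 k)]
    have hH : ∀ i, vec zb.2 k * vec z.1 i = (vec zb.2 k - vec z.2 k) * vec za.1 i := by
      intro i
      have := congrFun hw' i
      simp only [Pi.zero_apply] at this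
      linear_combination -this
    have hvle : u za * v z ≤ u za * v zb := mul_le_mul_of_nonneg_left (hmaxb z hz) M1pos.le
    have hule : v zb * u z ≤ v zb * u za := mul_le_mul_of_nonneg_left (hmaxa z hz) M2pos.le
    refine ⟨⟨fun h => absurd h hane, ?_⟩, ⟨fun h => absurd h hbne, ?_⟩, ?_, ?_⟩
    · intro i j
      apply mul_left_cancel₀ hk
      have e1 := hH i
      have e2 := hH j
      linear_combination vec za.1 j * e1 - vec za.1 i * e2
    · intro i j
      apply mul_left_cancel₀ M1pos.ne'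
      have e1 := hE i
      have e2 := hE j
      linear_combination (-vec zb.2 j) * e1 + vec zb.2 i * e2
    · change z.1 = 1 ∨ 1 ≤ v zb * u z
      rcases lt_or_ge (v zb * u z) 1 with hlt | hge
      · left
        have h0 : v zb * u z = 0 := by linarith [show v zb * u z ≤ 0 by omega]
        apply st2 z hz
        have h3 : u za * v z = u za * v zb := by linarith
        have h4 := mul_left_cancel₀ M1pos.ne' h3
        intro z' hz'
        rw [h4]
        exact hmaxb z' hz'
      · right; exact hge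
    · change z.2 = 1 ∨ 1 ≤ u za * v z
      rcases lt_or_ge (u za * v z) 1 with hlt | hge
      · left
        have hc := mul_comm (v zb) (u za)
        have h0 : u za * v z = 0 := by linarith [show u za * v z ≤ 0 by omega]
        apply st1 z hz
        have h3 : v zb * u z = v zb * u za := by linarith
        have h4 := mul_left_cancel₀ M2pos.ne' h3
        intro z' hz'
        rw [h4]
        exact hmaxa z' hz'
      · right; exact hge
  · refine ⟨za.1, ?_, ?_⟩
    · rw [← hza2]
      exact hza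
    · rw [lin_smul_left]
      change v zb * u za = u za * v zb
      ring
  · refine ⟨zb.2, ?_, ?_⟩
    · rw [← hzb1]
      exact hzb
    · rw [lin_smul_left]

end Pool.Agent.FTP
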