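import Mathlib
import Pool.Agent.FTP.Defs
import Pool.Agent.FTP.TreeA
import Pool.Agent.FTP.TreeC
import Pool.Agent.FTP.LineAlg
import Pool.Agent.FTP.KillPair
import Pool.Agent.FTP.Select
import Pool.Agent.FTP.Slide

/-!
# FTP / SlideMk: construction of a Slide from the second alternative of `select`

Fields: `χ z = lin c1 (vec z.1) + lin c2 (vec z.2)`, `τ1 s = lin c1 (vec s)`, `τ2 s = lin c2 (vec s)`
(Lipschitz constant `c` = sum of the absolute values of all coefficients, `abs_vec_le`).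
`x`: `killer_inLine` (KillPair.lean) for the set `B` of all `s` with `(s, 1) ∈ A`, `χ (s, 1) = m` (finite;
`InLine a (vec s)` for `s ∈ B`) and `y := s1 ∈ B` gives a word `lx` in `B`; `x = lx.prod` begins and ends with
`s1`, so it is cyclically reduced (`cr_of_ends`); `InLine a (vec x)` by `inLine_list_prod`; `killx` is the
killer property. Similarly `y, ly`. `β` from `exists_beta`; `g` = the product of the generators `i` with
`β i = 1` (or from `exists_g` in LaneMk.lean, or prove that `par` is surjective).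
-/

namespace Pool.Agent.FTP

theorem par_surjective (β : Fin 3 → ZMod 2) : ∃ g : F, par g = β := by
  refine ⟨FreeGroup.of 0 ^ (β 0).val * FreeGroup.of 1 ^ (β 1).val * FreeGroup.of 2 ^ (β 2).val, ?_⟩
  rw [par_mul, par_mul, par_pow, par_pow, par_pow]
  have h : ∀ i : Fin 3, par (FreeGroup.of i) = Pi.single i 1 := by
    intro i
    unfold par
    rw [vec_of]
    funext j
    unfold modTwo
    by_cases hij : j = i
    · subst hij
      simp
    · simp [Pi.single_eq_of_ne hij]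
  rw [h, h, h]
  funext j
  have h2 : ∀ i : Fin 3, (((β i).val : ℕ) : ZMod 2) = β i := fun i => ZMod.natCast_zmod_val (β i)
  rw [Pi.add_apply, Pi.add_apply, Pi.smul_apply, Pi.smul_apply, Pi.smul_apply, nsmul_eq_mul,
    nsmul_eq_mul, nsmul_eq_mul, h2, h2, h2]
  fin_cases j <;> simp

theorem lin_abs_le (c : Fin 3 → ℤ) (x : F) : |lin c (vec x)| ≤ (∑ i, |c i|) * (nm x : ℤ) := by
  unfold lin
  refine (Finset.abs_sum_le_sum_abs _ _).trans ?_
  rw [Finset.sum_mul]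
  refine Finset.sum_le_sum fun i _ => ?_
  rw [abs_mul]
  exact mul_le_mul_of_nonneg_left (abs_vec_le x i) (abs_nonneg _)

theorem exists_slide (A : Set (F × F)) (hfin : A.Finite) (hsym : ∀ z ∈ A, z⁻¹ ∈ A)
    (hcl : Subgroup.closure A = GG) (c1 c2 : Fin 3 → ℤ) (m : ℤ) (hm : 1 ≤ m)
    (hle : ∀ z ∈ A, lin c1 (vec z.1) + lin c2 (vec z.2) ≤ m) (a b : Fin 3 → ℤ)
    (htight : ∀ z ∈ A, lin c1 (vec z.1) + lin c2 (vec z.2) = m →
        InLine a (vec z.1) ∧ InLine b (vec z.2) ∧ (z.1 = 1 ∨ 1 ≤ lin c1 (vec z.1)) ∧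
          (z.2 = 1 ∨ 1 ≤ lin c2 (vec z.2)))
    (s1 s2 : F) (hs1 : (s1, (1 : F)) ∈ A) (hs1m : lin c1 (vec s1) = m) (h1 : CR s1)
    (hs2 : ((1 : F), s2) ∈ A) (hs2m : lin c2 (vec s2) = m) (h2 : CR s2) :
    ∃ Λ : Slide, Λ.A = A := by
  obtain ⟨χ, hχd⟩ : ∃ χ : F × F → ℤ, ∀ z, χ z = lin c1 (vec z.1) + lin c2 (vec z.2) :=
    ⟨fun z => lin c1 (vec z.1) + lin c2 (vec z.2), fun _ => rfl⟩
  obtain ⟨β, hβ⟩ := exists_beta a b
  obtain ⟨g, hg⟩ := par_surjective β
  obtain ⟨B1, hB1⟩ : ∃ B1 : Set F, ∀ s, s ∈ B1 ↔ (s, (1 : F)) ∈ A ∧ χ (s, 1) = m :=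
    ⟨{s | (s, (1 : F)) ∈ A ∧ χ (s, 1) = m}, fun _ => Iff.rfl⟩
  obtain ⟨B2, hB2⟩ : ∃ B2 : Set F, ∀ s, s ∈ B2 ↔ ((1 : F), s) ∈ A ∧ χ (1, s) = m :=
    ⟨{s | ((1 : F), s) ∈ A ∧ χ (1, s) = m}, fun _ => Iff.rfl⟩
  have hB1f : B1.Finite := by
    refine (hfin.image Prod.fst).subset ?_
    intro s hs
    exact ⟨(s, 1), ((hB1 s).1 hs).1, rfl⟩
  have hB2f : B2.Finite := by
    refine (hfin.image Prod.snd).subset ?_
    intro s hs
    exact ⟨(1, s), ((hB2 s).1 hs).1, rfl⟩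
  have hB1l : ∀ s ∈ B1, InLine a (vec s) := by
    intro s hs
    obtain ⟨h3, h4⟩ := (hB1 s).1 hs
    rw [hχd] at h4
    exact (htight _ h3 h4).1
  have hB2l : ∀ s ∈ B2, InLine b (vec s) := by
    intro s hs
    obtain ⟨h3, h4⟩ := (hB2 s).1 hs
    rw [hχd] at h4
    exact (htight _ h3 h4).2.1
  have hs1B : s1 ∈ B1 := by
    rw [hB1]
    refine ⟨hs1, ?_⟩
    rw [hχd]
    show lin c1 (vec s1) + lin c2 (vec 1) = m
    rw [vec_one, lin_zero, add_zero, hs1m]
  have hs2B : s2 ∈ B2 := by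
    rw [hB2]
    refine ⟨hs2, ?_⟩
    rw [hχd]
    show lin c1 (vec 1) + lin c2 (vec s2) = m
    rw [vec_one, lin_zero, zero_add, hs2m]
  obtain ⟨lx, hlx, hlx1, hlx2, hkx⟩ := killer_inLine a B1 hB1f hB1l s1 hs1B h1
  obtain ⟨ly, hly, hly1, hly2, hky⟩ := killer_inLine b B2 hB2f hB2l s2 hs2B h2
  obtain ⟨c, hc⟩ : ∃ c : ℕ, (c : ℤ) = (∑ i, |c1 i|) + ∑ i, |c2 i| := by
    refine ⟨((∑ i, |c1 i|) + ∑ i, |c2 i|).toNat, Int.toNat_of_nonneg ?_⟩
    exact add_nonneg (Finset.sum_nonneg fun i _ => abs_nonneg _)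
      (Finset.sum_nonneg fun i _ => abs_nonneg _)
  have hc1 : 0 ≤ ∑ i, |c1 i| := Finset.sum_nonneg fun i _ => abs_nonneg _
  have hc2 : 0 ≤ ∑ i, |c2 i| := Finset.sum_nonneg fun i _ => abs_nonneg _
  refine ⟨{
    A := A
    hAfin := hfin
    hAsym := hsym
    hAcl := hcl
    χ := χ
    hχ := ?_
    m := m
    hm := hm
    hχle := ?_
    a := a
    b := b
    htight := ?_
    c := c
    τ1 := fun s => lin c1 (vec s)
    τ2 := fun s => lin c2 (vec s)
    hτ1 := ?_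
    hτ2 := ?_
    hτ1le := ?_
    hτ2le := ?_
    hV := ?_
    hH := ?_
    x := lx.prod
    y := ly.prod
    hx := cr_of_ends h1 hlx1 hlx2
    hy := cr_of_ends h2 hly1 hly2
    lx := lx
    ly := ly
    hlx := fun s hs => (hB1 s).1 (hlx s hs)
    hly := fun s hs => (hB2 s).1 (hly s hs)
    hlxp := rfl
    hlyp := rfl
    hxa := inLine_list_prod lx fun s hs => hB1l s (hlx s hs)
    hyb := inLine_list_prod ly fun s hs => hB2l s (hly s hs)
    killx := fun l hl ρ ρ' e1 e2 => hkx l (fun s hs => (hB1 s).2 (hl s hs)) ρ ρ' e1 e2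
    killy := fun l hl ρ ρ' e1 e2 => hky l (fun s hs => (hB2 s).2 (hl s hs)) ρ ρ' e1 e2
    β := β
    hβ := hβ
    g := g
    hg := hg }, rfl⟩
  · intro z w
    rw [hχd, hχd, hχd, Prod.fst_mul, Prod.snd_mul, vec_mul, vec_mul, lin_add, lin_add]
    ring
  · intro z hz
    rw [hχd]
    exact hle z hz
  · intro z hz h3
    rw [hχd] at h3
    exact ⟨(htight z hz h3).1, (htight z hz h3).2.1⟩
  · intro x y
    rw [vec_mul, lin_add]
  · intro x y
    rw [vec_mul, lin_add]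
  · intro x
    refine (lin_abs_le c1 x).trans (mul_le_mul_of_nonneg_right ?_ (Int.natCast_nonneg _))
    rw [hc]
    linarith
  · intro x
    refine (lin_abs_le c2 x).trans (mul_le_mul_of_nonneg_right ?_ (Int.natCast_nonneg _))
    rw [hc]
    linarith
  · intro z hz h3
    rw [hχd] at h3
    exact (htight z hz h3).2.2.1
  · intro z hz h3
    rw [hχd] at h3
    exact (htight z hz h3).2.2.2

end Pool.Agent.FTP
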