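import Mathlib
import Pool.Agent.FTP.Defs
import Pool.Agent.FTP.TreeA
import Pool.Agent.FTP.TreeC
import Pool.Agent.FTP.Words
import Pool.Agent.FTP.Select
import Pool.Agent.FTP.Lane
import Pool.Agent.FTP.LaneMk
import Pool.Agent.FTP.CaseOne
import Pool.Agent.FTP.SlideMk
import Pool.Agent.FTP.CaseTwo

/-!
# FTP / NoFFTP: the group `GG` has FFTP for no finite generating set

Let `X` be a finite subset of `GG` (elements of the subtype) with `Subgroup.closure X = ⊤` and `FFTP X`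
with constant `K`.
(1) `A` = the image of `letters X` in `F x F`. By `transport` for `GG.subtype`: `FFT A K`. `A` is finite
(`letters X ⊆ X ∪ X⁻¹`), symmetric, `Subgroup.closure A = GG` (the image of `⊤` under `GG.subtype`;
`MonoidHom.map_closure`; the closure of `letters X` contains `X`).
(2) Conjugation: for `c : F x F` put `A' = (fun z => c⁻¹ z c) '' A` = image under `MulAut.conj c⁻¹`;
`FFT A' K` by `transport`; finite, symmetric, `Subgroup.closure A' = GG` because `GG` is normal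
(`par (c⁻¹ x c) = par x`). Swap: the image under the swap of the factors has the same
properties (`GG` is invariant under the swap).
(3) `select` for `A`: the hypotheses hold, because otherwise all elements `z` of `GG = closure A` would
have `vec z.1 = 0`, but `(of 0 ^ 2, 1) ∈ GG`; similarly for `z.2`.
First alternative, `a ≠ 0`: write `z.1 = d1 x1 d1⁻¹`, `z.2 = d2 y1 d2⁻¹` with `x1, y1` cyclically reduced
(`exists_cr`), conjugate with `c = (d1, d2)`: `(x1, y1) ∈ A'`; exponent vectors and `χ` are invariant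
under conjugation, so `exists_lane` applies to `A'` and `case_one` gives a contradiction. If `a = 0` then
`b ≠ 0`: first apply the swap.
Second alternative: `s1, s2 ≠ 1` (`lin c1 (vec s1) = m ≥ 1`), conjugate such that both become
cyclically reduced (`(s1, 1)` is conjugated to `(x1, 1)`), `exists_slide` and `case_two`.
-/

namespace Pool.Agent.FTP

theorem vec_conj_inv (c x : F) : vec (c⁻¹ * x * c) = vec x := by
  rw [vec_mul, vec_mul, vec_inv]; abel

theorem conj_fst (c z : F × F) : (MulAut.conj c⁻¹ z).1 = c.1⁻¹ * z.1 * c.1 := by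
  simp

theorem conj_snd (c z : F × F) : (MulAut.conj c⁻¹ z).2 = c.2⁻¹ * z.2 * c.2 := by
  simp

/-- all hypotheses are invariant under automorphisms preserving `GG` -/
theorem transport_aut (f : F × F ≃* F × F) (hf : ∀ z, f z ∈ GG ↔ z ∈ GG) {A : Set (F × F)}
    (hfin : A.Finite) (hsym : ∀ z ∈ A, z⁻¹ ∈ A) (hcl : Subgroup.closure A = GG) {K : ℕ}
    (hFFT : FFT A K) : (f '' A).Finite ∧ (∀ z ∈ f '' A, z⁻¹ ∈ f '' A) ∧
      Subgroup.closure (f '' A) = GG ∧ FFT (f '' A) K := by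
  refine ⟨hfin.image _, ?_, ?_, ?_⟩
  · rintro _ ⟨z, hz, rfl⟩
    exact ⟨z⁻¹, hsym z hz, map_inv f z⟩
  · have h := MonoidHom.map_closure f.toMonoidHom A
    rw [hcl] at h
    have h2 : (f.toMonoidHom : F × F → F × F) '' A = f '' A := rfl
    rw [h2] at h
    rw [← h]
    ext z
    rw [Subgroup.mem_map]
    constructor
    · rintro ⟨w, hw, rfl⟩
      exact (hf w).2 hw
    · intro hz
      refine ⟨f.symm z, ?_, ?_⟩
      · rw [← hf]
        simpa using hz
      · simp
  · exact transport f.toMonoidHom f.injective hFFT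

theorem conj_mem_GG (c z : F × F) : MulAut.conj c⁻¹ z ∈ GG ↔ z ∈ GG := by
  rw [mem_GG, mem_GG, conj_fst, conj_snd]
  unfold par
  rw [vec_conj_inv, vec_conj_inv]

theorem swap_mem_GG (z : F × F) : (MulEquiv.prodComm : F × F ≃* F × F) z ∈ GG ↔ z ∈ GG := by
  rw [mem_GG, mem_GG]
  constructor
  · intro h
    exact h.symm
  · intro h
    exact h.symm

theorem chi_add (c1 c2 : Fin 3 → ℤ) (z w : F × F) :
    lin c1 (vec (z * w).1) + lin c2 (vec (z * w).2) =
      (lin c1 (vec z.1) + lin c2 (vec z.2)) + (lin c1 (vec w.1) + lin c2 (vec w.2)) := by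
  rw [Prod.fst_mul, Prod.snd_mul, vec_mul, vec_mul, lin_add, lin_add]
  ring

/-- first alternative, with `a ≠ 0` -/
theorem alt_one (A : Set (F × F)) (hfin : A.Finite) (hsym : ∀ z ∈ A, z⁻¹ ∈ A)
    (hcl : Subgroup.closure A = GG) (K : ℕ) (hFFT : FFT A K)
    (c1 c2 : Fin 3 → ℤ) (m0 : ℤ) (a b : Fin 3 → ℤ)
    (hle : ∀ z ∈ A, lin c1 (vec z.1) + lin c2 (vec z.2) ≤ m0)
    (hab : ∀ z ∈ A, lin c1 (vec z.1) + lin c2 (vec z.2) = m0 → vec z.1 = a ∧ vec z.2 = b)
    (ha : a ≠ 0) (z : F × F) (hz : z ∈ A) (hzm : lin c1 (vec z.1) + lin c2 (vec z.2) = m0)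
    (h1 : z.1 ≠ 1) (h2 : z.2 ≠ 1) : False := by
  obtain ⟨d1, x1, hx1, e1⟩ := exists_cr h1
  obtain ⟨d2, y1, hy1, e2⟩ := exists_cr h2
  obtain ⟨hfin', hsym', hcl', hF'⟩ := transport_aut (MulAut.conj (d1, d2)⁻¹)
    (conj_mem_GG (d1, d2)) hfin hsym hcl hFFT
  have hv : ∀ w : F × F, vec (MulAut.conj (d1, d2)⁻¹ w).1 = vec w.1 ∧
      vec (MulAut.conj (d1, d2)⁻¹ w).2 = vec w.2 := by
    intro w
    rw [conj_fst, conj_snd, vec_conj_inv, vec_conj_inv]
    exact ⟨rfl, rfl⟩
  have hz1 : MulAut.conj (d1, d2)⁻¹ z = (x1, y1) := by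
    apply Prod.ext
    · rw [conj_fst, e1]
      show d1⁻¹ * (d1 * x1 * d1⁻¹) * d1 = x1
      group
    · rw [conj_snd, e2]
      show d2⁻¹ * (d2 * y1 * d2⁻¹) * d2 = y1
      group
  obtain ⟨Λ, hΛ⟩ := exists_lane (MulAut.conj (d1, d2)⁻¹ '' A) hfin' hsym' hcl'
    (fun z => lin c1 (vec z.1) + lin c2 (vec z.2)) (chi_add c1 c2) m0
    (by
      rintro _ ⟨w, hw, rfl⟩
      show lin c1 (vec (MulAut.conj (d1, d2)⁻¹ w).1) + lin c2 (vec (MulAut.conj (d1, d2)⁻¹ w).2) ≤ m0
      rw [(hv w).1, (hv w).2]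
      exact hle w hw) a b ha
    (by
      rintro _ ⟨w, hw, rfl⟩ h
      change lin c1 (vec (MulAut.conj (d1, d2)⁻¹ w).1) +
        lin c2 (vec (MulAut.conj (d1, d2)⁻¹ w).2) = m0 at h
      rw [(hv w).1, (hv w).2] at h ⊢
      exact hab w hw h)
    (MulAut.conj (d1, d2)⁻¹ z) ⟨z, hz, rfl⟩
    (by
      show lin c1 (vec (MulAut.conj (d1, d2)⁻¹ z).1) + lin c2 (vec (MulAut.conj (d1, d2)⁻¹ z).2) = m0
      rw [(hv z).1, (hv z).2]
      exact hzm)
    (by rw [hz1]; exact hx1) (by rw [hz1]; exact hy1)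
  exact case_one Λ K (by rw [hΛ]; exact hF')

/-- second alternative -/
theorem alt_two (A : Set (F × F)) (hfin : A.Finite) (hsym : ∀ z ∈ A, z⁻¹ ∈ A)
    (hcl : Subgroup.closure A = GG) (K : ℕ) (hFFT : FFT A K)
    (c1 c2 : Fin 3 → ℤ) (m : ℤ) (a b : Fin 3 → ℤ) (hm : 1 ≤ m)
    (hle : ∀ z ∈ A, lin c1 (vec z.1) + lin c2 (vec z.2) ≤ m)
    (htight : ∀ z ∈ A, lin c1 (vec z.1) + lin c2 (vec z.2) = m →
        InLine a (vec z.1) ∧ InLine b (vec z.2) ∧ (z.1 = 1 ∨ 1 ≤ lin c1 (vec z.1)) ∧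
          (z.2 = 1 ∨ 1 ≤ lin c2 (vec z.2)))
    (s1 s2 : F) (hs1 : (s1, (1 : F)) ∈ A) (hs1m : lin c1 (vec s1) = m)
    (hs2 : ((1 : F), s2) ∈ A) (hs2m : lin c2 (vec s2) = m) : False := by
  have h1 : s1 ≠ 1 := by
    rintro rfl
    rw [vec_one, lin_zero] at hs1m
    omega
  have h2 : s2 ≠ 1 := by
    rintro rfl
    rw [vec_one, lin_zero] at hs2m
    omega
  obtain ⟨d1, x1, hx1, e1⟩ := exists_cr h1
  obtain ⟨d2, y1, hy1, e2⟩ := exists_cr h2
  obtain ⟨hfin', hsym', hcl', hF'⟩ := transport_aut (MulAut.conj (d1, d2)⁻¹)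
    (conj_mem_GG (d1, d2)) hfin hsym hcl hFFT
  have hv : ∀ w : F × F, vec (MulAut.conj (d1, d2)⁻¹ w).1 = vec w.1 ∧
      vec (MulAut.conj (d1, d2)⁻¹ w).2 = vec w.2 := by
    intro w
    rw [conj_fst, conj_snd, vec_conj_inv, vec_conj_inv]
    exact ⟨rfl, rfl⟩
  have hx : vec x1 = vec s1 := by
    rw [e1, vec_mul, vec_mul, vec_inv]; abel
  have hy : vec y1 = vec s2 := by
    rw [e2, vec_mul, vec_mul, vec_inv]; abel
  have hz1 : MulAut.conj (d1, d2)⁻¹ (s1, (1 : F)) = (x1, 1) := by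
    apply Prod.ext
    · rw [conj_fst, e1]
      show d1⁻¹ * (d1 * x1 * d1⁻¹) * d1 = x1
      group
    · rw [conj_snd]
      show d2⁻¹ * 1 * d2 = 1
      group
  have hz2 : MulAut.conj (d1, d2)⁻¹ ((1 : F), s2) = (1, y1) := by
    apply Prod.ext
    · rw [conj_fst]
      show d1⁻¹ * 1 * d1 = 1
      group
    · rw [conj_snd, e2]
      show d2⁻¹ * (d2 * y1 * d2⁻¹) * d2 = y1
      group
  obtain ⟨Λ, hΛ⟩ := exists_slide (MulAut.conj (d1, d2)⁻¹ '' A) hfin' hsym' hcl' c1 c2 m hm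
    (by
      rintro _ ⟨w, hw, rfl⟩
      rw [(hv w).1, (hv w).2]
      exact hle w hw) a b
    (by
      rintro _ ⟨w, hw, rfl⟩ h
      rw [(hv w).1, (hv w).2] at h ⊢
      obtain ⟨t1, t2, t3, t4⟩ := htight w hw h
      refine ⟨t1, t2, ?_, ?_⟩
      · rcases t3 with t3 | t3
        · left
          rw [conj_fst, t3]
          group
        · exact Or.inr t3
      · rcases t4 with t4 | t4
        · left
          rw [conj_snd, t4]
          group
        · exact Or.inr t4)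
    x1 y1 ⟨_, hs1, hz1⟩ (by rw [hx]; exact hs1m) hx1 ⟨_, hs2, hz2⟩ (by rw [hy]; exact hs2m) hy1
  exact case_two Λ K (by rw [hΛ]; exact hF')

theorem sq_mem_one : ((FreeGroup.of 0 ^ 2 : F), (1 : F)) ∈ GG := by
  rw [mem_GG]
  show par (FreeGroup.of 0 ^ 2) = par 1
  rw [par_pow, par_one]
  funext i
  show (2 : ℕ) • par (FreeGroup.of 0) i = 0
  have : ∀ t : ZMod 2, (2 : ℕ) • t = 0 := by decide
  exact this _

theorem sq_mem_two : ((1 : F), (FreeGroup.of 0 ^ 2 : F)) ∈ GG := by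
  have h := (swap_mem_GG ((FreeGroup.of 0 ^ 2 : F), (1 : F))).2 sq_mem_one
  exact h

theorem vec_sq_ne : vec (FreeGroup.of 0 ^ 2 : F) ≠ 0 := by
  intro h
  have h0 := congrFun h 0
  rw [vec_pow, vec_of] at h0
  simp at h0

/-- no finite symmetric generating set `A ⊆ F x F` of `GG` has the property -/
theorem no_fft (A : Set (F × F)) (hfin : A.Finite) (hsym : ∀ z ∈ A, z⁻¹ ∈ A)
    (hcl : Subgroup.closure A = GG) (K : ℕ) (hFFT : FFT A K) : False := by
  have h1 : ∃ z ∈ A, vec z.1 ≠ 0 := by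
    by_contra hcon
    push Not at hcon
    have hall : ∀ z ∈ Subgroup.closure A, vec z.1 = 0 := by
      intro z hz
      induction hz using Subgroup.closure_induction with
      | mem x hx => exact hcon x hx
      | one => exact vec_one
      | mul x y _ _ hx hy => rw [Prod.fst_mul, vec_mul, hx, hy, add_zero]
      | inv x _ hx => rw [Prod.fst_inv, vec_inv, hx, neg_zero]
    exact vec_sq_ne (hall _ (hcl ▸ sq_mem_one))
  have h2 : ∃ z ∈ A, vec z.2 ≠ 0 := by
    by_contra hcon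
    push Not at hcon
    have hall : ∀ z ∈ Subgroup.closure A, vec z.2 = 0 := by
      intro z hz
      induction hz using Subgroup.closure_induction with
      | mem x hx => exact hcon x hx
      | one => exact vec_one
      | mul x y _ _ hx hy => rw [Prod.snd_mul, vec_mul, hx, hy, add_zero]
      | inv x _ hx => rw [Prod.snd_inv, vec_inv, hx, neg_zero]
    exact vec_sq_ne (hall _ (hcl ▸ sq_mem_two))
  rcases select A hfin hsym h1 h2 with
    ⟨c1, c2, m0, a, b, hle, hab, hne, z, hz, hzm, hz1, hz2⟩ |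
    ⟨c1, c2, m, a, b, hm, hle, htight, ⟨s1, hs1, hs1m⟩, ⟨s2, hs2, hs2m⟩⟩
  · by_cases ha : a = 0
    · have hb : b ≠ 0 := by
        rcases hne with h | h
        · exact absurd ha h
        · exact h
      obtain ⟨hfin', hsym', hcl', hF'⟩ := transport_aut (MulEquiv.prodComm : F × F ≃* F × F)
        swap_mem_GG hfin hsym hcl hFFT
      refine alt_one ((MulEquiv.prodComm : F × F ≃* F × F) '' A) hfin' hsym' hcl' K hF'
        c2 c1 m0 b a ?_ ?_ hb (z.2, z.1) ⟨z, hz, rfl⟩ ?_ hz2 hz1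
      · rintro _ ⟨w, hw, rfl⟩
        have := hle w hw
        show lin c2 (vec w.2) + lin c1 (vec w.1) ≤ m0
        linarith
      · rintro _ ⟨w, hw, rfl⟩ h
        change lin c2 (vec w.2) + lin c1 (vec w.1) = m0 at h
        have := hab w hw (by linarith)
        exact ⟨this.2, this.1⟩
      · show lin c2 (vec z.2) + lin c1 (vec z.1) = m0
        linarith
    · exact alt_one A hfin hsym hcl K hFFT c1 c2 m0 a b hle hab ha z hz hzm hz1 hz2
  · exact alt_two A hfin hsym hcl K hFFT c1 c2 m a b hm hle htight s1 s2 hs1 hs1m hs2 hs2m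

theorem not_fftp (X : Finset GG) (hX : Subgroup.closure (X : Set GG) = ⊤) : ¬ FFTP X := by
  rintro ⟨K, hK⟩
  have hF := transport GG.subtype (Subgroup.subtype_injective GG) hK
  refine no_fft (GG.subtype '' letters X) ?_ ?_ ?_ K hF
  · apply Set.Finite.image
    have h : letters X ⊆ (X : Set GG) ∪ (X : Set GG)⁻¹ := by
      intro a ha
      rcases ha with h | h
      · exact Or.inl h
      · exact Or.inr h
    exact (X.finite_toSet.union X.finite_toSet.inv).subset h
  · rintro _ ⟨a, ha, rfl⟩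
    refine ⟨a⁻¹, ?_, map_inv _ _⟩
    rcases ha with h | h
    · exact Or.inr (by rw [inv_inv]; exact h)
    · exact Or.inl h
  · rw [← MonoidHom.map_closure]
    have h : Subgroup.closure (letters X) = ⊤ := by
      rw [eq_top_iff, ← hX]
      apply Subgroup.closure_mono
      intro a ha
      exact Or.inl ha
    rw [h, ← MonoidHom.range_eq_map]
    exact Subgroup.range_subtype GG

end Pool.Agent.FTP
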